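import Pool.Agent.MP_e5f6e8_al.G2.Lat

/-!
The model with four types of labels: lattice data, families of fibres, the bridge to the
interface and the existence of a family.
-/

set_option autoImplicit false

namespace Pool.Agent.E5f.G2

open Real

/-- Fibre labels: a type and a lattice point. -/
abbrev Lam : Type := Fin 4 × Zl

/-- Lattice data with four multipliers; `tq`, `tq'` rank the types by their speeds in the two
directions. -/
structure Emb extends E5f.Emb where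
  nu : Fin 4 → Zl
  tq : Fin 4 ≃ Fin 4
  tq' : Fin 4 ≃ Fin 4
  fl : Bool
  fl' : Bool
  nu0 : nu 0 = 0
  nu1 : nu 1 = 1
  rv : ∀ i, nu (Fin.rev i) = nu 3 - nu i
  un : ∀ i j, i ≠ j → IsUnit (nu i - nu j)
  bx : ∀ i, |ξ (nu i)| ≤ 3
  bx' : ∀ i, |η (nu i)| ≤ 3
  wd : ∀ i j, ξ (nu j) - ξ (nu i) ≤ 3
  wd' : ∀ i j, η (nu j) - η (nu i) ≤ 3
  gp : ∀ i j, tq i < tq j → ξ (nu i) + 1 / 3 ≤ ξ (nu j)
  gp' : ∀ i j, tq' i < tq' j → η (nu i) + 1 / 3 ≤ η (nu j)
  ht : ∀ i, hg fl (tq i) = tq' i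
  ht' : ∀ i, hg fl' (tq' i) = tq i

/-- The transposed data. -/
def Emb.tr (E : Emb) : Emb where
  toEmb := E.toEmb.tr
  nu := E.nu
  tq := E.tq'
  tq' := E.tq
  fl := E.fl'
  fl' := E.fl
  nu0 := E.nu0
  nu1 := E.nu1
  rv := E.rv
  un := E.un
  bx := E.bx'
  bx' := E.bx
  wd := E.wd'
  wd' := E.wd
  gp := E.gp'
  gp' := E.gp
  ht := E.ht'
  ht' := E.ht

@[simp] theorem Emb.tr_ξ (E : Emb) : E.tr.ξ = E.η := rfl
@[simp] theorem Emb.tr_η (E : Emb) : E.tr.η = E.ξ := rfl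
@[simp] theorem Emb.tr_nu (E : Emb) : E.tr.nu = E.nu := rfl
theorem Emb.tr_toEmb (E : Emb) : E.tr.toEmb = E.toEmb.tr := rfl

/-- The speed of type `i`. -/
def Emb.m (E : Emb) (i : Fin 4) : ℝ := E.ξ (E.nu i)

theorem Emb.m_zero (E : Emb) : E.m 0 = 0 := by simp [Emb.m, E.nu0]

theorem Emb.m_one (E : Emb) : E.m 1 = 1 := by simp [Emb.m, E.nu1]

theorem Emb.m_abs (E : Emb) (i : Fin 4) : |E.m i| ≤ 3 := E.bx i

theorem Emb.m_lt (E : Emb) {i j : Fin 4} : E.m i < E.m j ↔ E.tq i < E.tq j := by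
  unfold Emb.m
  refine ⟨fun h => ?_, fun h => by linarith [E.gp i j h]⟩
  rcases lt_trichotomy (E.tq i) (E.tq j) with k | k | k
  · exact k
  · rw [E.tq.injective k] at h
    exact absurd h (lt_irrefl _)
  · linarith [E.gp j i k]

theorem Emb.m_inj (E : Emb) : Function.Injective E.m := fun _ _ h =>
  E.tq.injective (le_antisymm (not_lt.1 fun k => (E.m_lt.2 k).ne' h)
    (not_lt.1 fun k => (E.m_lt.2 k).ne h))

theorem Emb.m_gap (E : Emb) {i j : Fin 4} (h : E.m i < E.m j) : E.m i + 1 / 3 ≤ E.m j :=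
  E.gp i j (E.m_lt.1 h)

theorem Emb.unit_sub (E : Emb) {i j : Fin 4} (h : i ≠ j) : IsUnit (E.nu i - E.nu j) := E.un i j h

theorem Emb.m_rev (E : Emb) (i : Fin 4) : E.m (Fin.rev i) = E.m 3 - E.m i := by
  simp only [Emb.m, E.rv, map_sub]

/-- The ranks of the types in the second direction. -/
def rk4 : Fin 4 ≃ Fin 4 := ⟨![1, 3, 0, 2], ![2, 0, 3, 1], by decide, by decide⟩

theorem un4 (E : E5f.Emb) : ∀ i j : Fin 4, i ≠ j →
    IsUnit ((![0, 1, E.ω, E.ω * E.ω] : Fin 4 → Zl) i - (![0, 1, E.ω, E.ω * E.ω] : Fin 4 → Zl) j) := by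
  have h := E.ωω
  have u := E.unit_ω
  have u1 : IsUnit (E.ω - 1) := IsUnit.of_mul_eq_one E.ω (by linear_combination h)
  have u2 : IsUnit (E.ω * E.ω - 1) := by rw [h, add_sub_cancel_right]; exact u
  have u3 : IsUnit (E.ω * E.ω - E.ω) := by rw [h, add_sub_cancel_left]; exact isUnit_one
  have n : ∀ {a b : Zl}, IsUnit (a - b) → IsUnit (b - a) := fun k => by
    rw [← neg_sub]; exact k.neg
  have v1 : IsUnit ((1 : Zl) - 0) := by rw [sub_zero]; exact isUnit_one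
  have v2 : IsUnit (E.ω - 0) := by rw [sub_zero]; exact u
  have v3 : IsUnit (E.ω * E.ω - 0) := by rw [sub_zero]; exact u.mul u
  intro i j hij
  fin_cases i <;> fin_cases j <;> first
    | exact absurd rfl hij
    | assumption
    | exact n (by assumption)

/-- The standard data: the multipliers are `0, 1, ω, ω ^ 2`. -/
noncomputable def E4 : Emb where
  toEmb := E0
  nu := ![0, 1, E0.ω, E0.ω * E0.ω]
  tq := Equiv.refl _
  tq' := rk4
  fl := true
  fl' := false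
  nu0 := rfl
  nu1 := rfl
  rv := fun i => by
    have h := E0.ωω
    fin_cases i
    · exact (sub_zero _).symm
    · change E0.ω = E0.ω * E0.ω - 1
      linear_combination -h
    · change 1 = E0.ω * E0.ω - E0.ω
      linear_combination -h
    · exact (sub_self _).symm
  un := un4 E0
  bx := fun i => by
    obtain ⟨g1, g2⟩ := gr_bounds
    have g3 := goldenRatio_sq
    rw [abs_le]
    fin_cases i <;> constructor <;> simp [E0.ξω] <;> nlinarith
  bx' := fun i => by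
    obtain ⟨g1, g2⟩ := gr_bounds
    have g3 := goldenRatio_sq
    rw [abs_le]
    fin_cases i <;> constructor <;> simp [E0.ηω, gc_eq] <;> nlinarith
  wd := fun i j => by
    obtain ⟨g1, g2⟩ := gr_bounds
    have g3 := goldenRatio_sq
    fin_cases i <;> fin_cases j <;> simp [E0.ξω] <;> nlinarith
  wd' := fun i j => by
    obtain ⟨g1, g2⟩ := gr_bounds
    have g3 := goldenRatio_sq
    fin_cases i <;> fin_cases j <;> simp [E0.ηω, gc_eq] <;> nlinarith
  gp := fun i j h => by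
    obtain ⟨g1, g2⟩ := gr_bounds
    have g3 := goldenRatio_sq
    fin_cases i <;> fin_cases j <;> first
      | exact absurd h (by decide)
      | (simp [E0.ξω] <;> nlinarith)
  gp' := fun i j h => by
    obtain ⟨g1, g2⟩ := gr_bounds
    have g3 := goldenRatio_sq
    fin_cases i <;> fin_cases j <;> first
      | exact absurd h (by decide)
      | (simp [E0.ηω, gc_eq] <;> nlinarith)
  ht := by decide
  ht' := by decide

theorem E4_toEmb : E4.toEmb = E0 := rfl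

end Pool.Agent.E5f.G2


section

namespace Pool.Agent.E5f.G2

/-- The position of a fibre label when the base coordinate is `t`. -/
def Emb.pos (E : Emb) (t : ℝ) (l : Lam) : ℝ := E.ξ l.2 + E.m l.1 * t

/-- The order of the fibre labels at the base marker `u`. -/
noncomputable def Emb.key (E : Emb) (u : Mk) : Od Lam :=
  ⟨fun l => toLex (E.pos u.1 l, if u.2 = true then E.m l.1 else -E.m l.1), by
    intro l l' h
    have h0 := toLex.injective h
    have h1 : E.pos u.1 l = E.pos u.1 l' := congrArg Prod.fst h0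
    have h2 : (if u.2 = true then E.m l.1 else -E.m l.1) =
      (if u.2 = true then E.m l'.1 else -E.m l'.1) := congrArg Prod.snd h0
    have h3 : l.1 = l'.1 := by
      apply E.m_inj
      split_ifs at h2
      · exact h2
      · exact neg_injective h2
    refine Prod.ext h3 (E.ξ_inj ?_)
    unfold Emb.pos at h1
    rw [h3] at h1
    linarith⟩

/-- The order of the fibre labels at plus infinity (`true`) or minus infinity (`false`). -/
noncomputable def Emb.kinf (E : Emb) (b : Bool) : Od Lam :=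
  ⟨fun l => toLex (if b = true then E.m l.1 else -E.m l.1, E.ξ l.2), by
    intro l l' h
    have h0 := toLex.injective h
    have h1 : E.ξ l.2 = E.ξ l'.2 := congrArg Prod.snd h0
    have h2 : (if b = true then E.m l.1 else -E.m l.1) =
      (if b = true then E.m l'.1 else -E.m l'.1) := congrArg Prod.fst h0
    refine Prod.ext (E.m_inj ?_) (E.ξ_inj h1)
    split_ifs at h2
    · exact h2
    · exact neg_injective h2⟩

/-- The lattice point at which two labels of different types collide. -/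
noncomputable def Emb.col (E : Emb) (l l' : Lam) : Zl :=
  (l.2 - l'.2) * Ring.inverse (E.nu l'.1 - E.nu l.1)

theorem Emb.pos_fin (E : Emb) (s t B : ℝ) :
    {l : Lam | |E.pos s l| ≤ B ∧ |E.tr.pos t l| ≤ B}.Finite := by
  refine (Set.finite_iUnion (fun i : Fin 4 =>
    (E.box_fin (B + |E.m i * s| + |E.tr.m i * t|)).image (fun p => ((i, p) : Lam)))).subset ?_
  rintro ⟨i, p⟩ ⟨h1, h2⟩
  refine Set.mem_iUnion.2 ⟨i, p, ⟨?_, ?_⟩, rfl⟩
  · have : E.ξ p = E.pos s (i, p) - E.m i * s := by simp [Emb.pos]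
    rw [this]
    have := abs_sub (E.pos s (i, p)) (E.m i * s)
    have := abs_nonneg (E.tr.m i * t)
    linarith
  · have : E.η p = E.tr.pos t (i, p) - E.tr.m i * t := by simp [Emb.pos]
    rw [this]
    have := abs_sub (E.tr.pos t (i, p)) (E.tr.m i * t)
    have := abs_nonneg (E.m i * s)
    linarith

end Pool.Agent.E5f.G2

end

section

namespace Pool.Agent.E5f.G2

open Real

namespace Emb

variable (E : Emb)

theorem den_lab (i : Fin 4) (s t a b : ℝ) : ∃ l : Lam, l.1 = i ∧ a < E.pos s l ∧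
    E.pos s l < a + 3 ∧ b < E.tr.pos t l ∧ E.tr.pos t l < b + 3 := by
  obtain ⟨p, h1, h2, h3, h4⟩ := E.den (a - E.m i * s) (b - E.tr.m i * t)
  refine ⟨(i, p), rfl, ?_⟩
  simp only [Emb.pos, tr_ξ]
  exact ⟨by linarith, by linarith, by linarith, by linarith⟩

theorem den_lab_box (i : Fin 4) (s t a b A B : ℝ) (hA : 0 < A) (hAB : 27 ≤ A * B) :
    ∃ l : Lam, l.1 = i ∧ a < E.pos s l ∧ E.pos s l < a + A ∧ b < E.tr.pos t l ∧
      E.tr.pos t l < b + B := by
  obtain ⟨p, h1, h2, h3, h4⟩ := E.den_box (a - E.m i * s) (b - E.tr.m i * t) A B hA hAB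
  refine ⟨(i, p), rfl, ?_⟩
  simp only [Emb.pos, tr_ξ]
  exact ⟨by linarith, by linarith, by linarith, by linarith⟩

theorem m_ne {i j : Fin 4} (h : i ≠ j) : E.m i ≠ E.m j := fun h' => h (E.m_inj h')

@[simp] theorem tr_col : E.tr.col = E.col := rfl

theorem col_spec {l l' : Lam} (h : l.1 ≠ l'.1) :
    l.2 + E.nu l.1 * E.col l l' = l'.2 + E.nu l'.1 * E.col l l' := by
  have h1 := Ring.inverse_mul_cancel _ (E.unit_sub h.symm)
  unfold Emb.col
  linear_combination (-(l.2 - l'.2)) * h1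

theorem col_eq_iff {l l' : Lam} (h : l.1 ≠ l'.1) (a : Zl) :
    E.col l l' = a ↔ l.2 + E.nu l.1 * a = l'.2 + E.nu l'.1 * a := by
  constructor
  · rintro rfl
    exact E.col_spec h
  · intro h1
    have h2 := E.col_spec h
    refine (E.unit_sub h).mul_left_cancel ?_
    linear_combination h2 - h1

theorem col_symm {l l' : Lam} (h : l.1 ≠ l'.1) : E.col l l' = E.col l' l := by
  rw [E.col_eq_iff h]
  exact (E.col_spec h.symm).symm

theorem pos_sub {l l' : Lam} (h : l.1 ≠ l'.1) (t : ℝ) :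
    E.pos t l' - E.pos t l = (E.m l'.1 - E.m l.1) * (t - E.ξ (E.col l l')) := by
  have h1 := congrArg E.ξ (E.col_spec h)
  simp only [map_add, map_mul] at h1
  unfold Emb.pos Emb.m
  linear_combination -h1

theorem pos_eq_iff {l l' : Lam} (h : l.1 ≠ l'.1) (t : ℝ) :
    E.pos t l = E.pos t l' ↔ t = E.ξ (E.col l l') := by
  have h1 := E.pos_sub h t
  have h2 : E.m l'.1 - E.m l.1 ≠ 0 := sub_ne_zero.2 (E.m_ne h.symm)
  constructor
  · intro h3
    rw [h3, sub_self] at h1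
    exact sub_eq_zero.1 ((mul_eq_zero.1 h1.symm).resolve_left h2)
  · intro h3
    rw [← h3, sub_self, mul_zero] at h1
    linarith

theorem pos_same {l l' : Lam} (h : l.1 = l'.1) (t : ℝ) :
    E.pos t l' - E.pos t l = E.ξ l'.2 - E.ξ l.2 := by
  unfold Emb.pos
  rw [h]
  ring

theorem pos_move (l : Lam) (s t : ℝ) : E.pos t l = E.pos s l + E.m l.1 * (t - s) := by
  unfold Emb.pos
  ring

theorem key_lt_iff (u : Mk) (l l' : Lam) : E.key u l < E.key u l' ↔
    E.pos u.1 l < E.pos u.1 l' ∨ (E.pos u.1 l = E.pos u.1 l' ∧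
      (if u.2 = true then E.m l.1 < E.m l'.1 else E.m l'.1 < E.m l.1)) := by
  change toLex (_, _) < toLex (_, _) ↔ _
  rw [Prod.Lex.toLex_lt_toLex]
  cases u.2 <;> simp

/-- The faster label is to the left exactly when the collision point is to the right of the
marker. -/
theorem key_lt_fast (u : Mk) {l l' : Lam} (h : E.m l.1 < E.m l'.1) :
    E.key u l' < E.key u l ↔
      u.1 < E.ξ (E.col l l') ∨ (u.1 = E.ξ (E.col l l') ∧ u.2 = false) := by
  have hne : l.1 ≠ l'.1 := fun h0 => by rw [h0] at h; exact lt_irrefl _ h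
  have h1 := E.pos_sub hne u.1
  have h2 : 0 < E.m l'.1 - E.m l.1 := sub_pos.2 h
  rw [E.key_lt_iff, eq_comm, E.pos_eq_iff hne]
  refine or_congr ?_ (and_congr Iff.rfl ?_)
  · rw [← sub_neg, h1]
    constructor
    · intro h3
      by_contra h4
      nlinarith [mul_nonneg h2.le (sub_nonneg.2 (not_lt.1 h4))]
    · intro h3
      exact mul_neg_of_pos_of_neg h2 (sub_neg.2 h3)
  · cases u.2 <;> simp [h, h.le]

theorem key_lt_slow (u : Mk) {l l' : Lam} (h : E.m l.1 < E.m l'.1) :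
    E.key u l < E.key u l' ↔
      ¬ (u.1 < E.ξ (E.col l l') ∨ (u.1 = E.ξ (E.col l l') ∧ u.2 = false)) := by
  have hne : l ≠ l' := fun h0 => by rw [h0] at h; exact lt_irrefl _ h
  rw [← E.key_lt_fast u h, not_lt]
  exact ⟨le_of_lt, fun h1 => lt_of_le_of_ne h1 (fun h2 => hne ((E.key u).injective h2))⟩

theorem key_lt_same (u : Mk) {l l' : Lam} (h : l.1 = l'.1) :
    E.key u l < E.key u l' ↔ E.ξ l.2 < E.ξ l'.2 := by
  have h1 := E.pos_same h u.1
  rw [E.key_lt_iff, h]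
  constructor
  · rintro (h2 | ⟨_, h2⟩)
    · linarith
    · split_ifs at h2 <;> exact absurd h2 (lt_irrefl _)
  · intro h2
    left
    linarith

theorem kinf_lt_iff (b : Bool) (l l' : Lam) : E.kinf b l < E.kinf b l' ↔
    (if b = true then E.m l.1 < E.m l'.1 else E.m l'.1 < E.m l.1) ∨
      (l.1 = l'.1 ∧ E.ξ l.2 < E.ξ l'.2) := by
  change toLex (_, _) < toLex (_, _) ↔ _
  rw [Prod.Lex.toLex_lt_toLex]
  cases b <;> simp [E.m_inj.eq_iff]

theorem kinf_lt_same (b : Bool) {l l' : Lam} (h : l.1 = l'.1) :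
    E.kinf b l < E.kinf b l' ↔ E.ξ l.2 < E.ξ l'.2 := by
  rw [E.kinf_lt_iff, h]
  cases b <;> simp

theorem kinf_true_lt {l l' : Lam} (h : l.1 ≠ l'.1) :
    E.kinf true l < E.kinf true l' ↔ E.m l.1 < E.m l'.1 := by
  rw [E.kinf_lt_iff]; simp [h]

theorem kinf_false_lt {l l' : Lam} (h : l.1 ≠ l'.1) :
    E.kinf false l < E.kinf false l' ↔ E.m l'.1 < E.m l.1 := by
  rw [E.kinf_lt_iff]; simp [h]

theorem pos_inj {t : ℝ} (ht : t ∉ Set.range E.ξ) : Function.Injective (E.pos t) := by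
  intro l l' h
  by_cases h0 : l.1 = l'.1
  · have := E.pos_same h0 t
    exact Prod.ext h0 (E.ξ_inj (by linarith))
  · exact absurd ⟨_, ((E.pos_eq_iff h0 t).1 h).symm⟩ ht

/-- The affine relabelling attached to `z ↦ ε z + e`. -/
def aff (ε e : Zl) (l : Lam) : Lam := (l.1, ε * l.2 - E.nu l.1 * e)

@[simp] theorem aff_fst (ε e : Zl) (l : Lam) : (E.aff ε e l).1 = l.1 := rfl

@[simp] theorem aff_snd (ε e : Zl) (l : Lam) : (E.aff ε e l).2 = ε * l.2 - E.nu l.1 * e := rfl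

@[simp] theorem tr_aff : E.tr.aff = E.aff := rfl

theorem pos_aff (ε e : Zl) (t : ℝ) (l : Lam) :
    E.pos (E.ξ ε * t + E.ξ e) (E.aff ε e l) = E.ξ ε * E.pos t l := by
  simp only [Emb.pos, Emb.m, aff_fst, aff_snd, map_sub, map_mul]
  ring

theorem key_aff {ε : Zl} (hε : 0 < E.ξ ε) (e : Zl) (u : Mk) (l l' : Lam) :
    E.key (E.ξ ε * u.1 + E.ξ e, u.2) (E.aff ε e l) < E.key (E.ξ ε * u.1 + E.ξ e, u.2) (E.aff ε e l')
      ↔ E.key u l < E.key u l' := by
  simp only [E.key_lt_iff, E.pos_aff, aff_fst, mul_lt_mul_iff_right₀ hε,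
    mul_right_inj' hε.ne']

theorem aff_aff (ε e ε' e' : Zl) (l : Lam) :
    E.aff ε e (E.aff ε' e' l) = E.aff (ε * ε') (ε * e' + e) l := by
  refine Prod.ext rfl ?_
  simp only [aff_fst, aff_snd]
  ring

theorem aff_one (l : Lam) : E.aff 1 0 l = l := by
  refine Prod.ext rfl ?_
  simp

end Emb

/-- Translation of fibre labels. -/
def trl (v : Zl) (l : Lam) : Lam := (l.1, l.2 + v)

@[simp] theorem trl_fst (v : Zl) (l : Lam) : (trl v l).1 = l.1 := rfl

@[simp] theorem trl_snd (v : Zl) (l : Lam) : (trl v l).2 = l.2 + v := rfl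

theorem trl_trl (v v' : Zl) (l : Lam) : trl v (trl v' l) = trl (v + v') l := by
  refine Prod.ext rfl ?_
  simp only [trl_snd]
  ring

theorem trl_zero (l : Lam) : trl 0 l = l := by
  refine Prod.ext rfl ?_
  simp

namespace Emb

variable (E : Emb)

theorem pos_trl (v : Zl) (t : ℝ) (l : Lam) : E.pos t (trl v l) = E.pos t l + E.ξ v := by
  simp only [Emb.pos, trl_fst, trl_snd, map_add]
  ring

theorem key_trl (v : Zl) (u : Mk) (l l' : Lam) :
    E.key u (trl v l) < E.key u (trl v l') ↔ E.key u l < E.key u l' := by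
  simp only [E.key_lt_iff, E.pos_trl, trl_fst, add_lt_add_iff_right, add_left_inj]

theorem aff_trl (ε e v : Zl) (l : Lam) : E.aff ε e (trl v l) = trl (ε * v) (E.aff ε e l) := by
  refine Prod.ext rfl ?_
  simp only [aff_snd, trl_fst, trl_snd]
  ring

end Emb

end Pool.Agent.E5f.G2

end

section

namespace Pool.Agent.E5f.G2

open Filter

/-- The fibre configuration over the markers `u`, `w`. -/
noncomputable def Emb.fc (E : Emb) (u w : Mk) : Cfg Lam :=
  ⟨E.key u, E.tr.key w, E.pos_fin u.1 w.1⟩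

@[simp] theorem Emb.fc_x (E : Emb) (u w : Mk) : (E.fc u w).x = E.pos u.1 := rfl
@[simp] theorem Emb.fc_y (E : Emb) (u w : Mk) : (E.fc u w).y = E.tr.pos w.1 := rfl
@[simp] theorem Emb.fc_X (E : Emb) (u w : Mk) : (E.fc u w).X = E.key u := rfl
@[simp] theorem Emb.fc_Y (E : Emb) (u w : Mk) : (E.fc u w).Y = E.tr.key w := rfl
theorem Emb.tr_fc (E : Emb) (u w : Mk) : E.tr.fc w u = (E.fc u w).tr := rfl
@[simp] theorem Emb.tr_tr_key (E : Emb) : E.tr.tr.key = E.key := rfl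
@[simp] theorem Emb.tr_tr_kinf (E : Emb) : E.tr.tr.kinf = E.kinf := rfl

@[simp] theorem Emb.tr_tr_pos (E : Emb) : E.tr.tr.pos = E.pos := rfl
@[simp] theorem Emb.tr_tr_m (E : Emb) : E.tr.tr.m = E.m := rfl

/-- A family of fibres over a planar model of the base.  A fibre point `x` is the point north east
adjacent to the label `lb x`; over the base point `q` it has V-word `gv q x` and H-word
`gh q x`. -/
structure Fam (E : Emb) (Q P : Type) where
  B : Plan cz E.bc Q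
  lb : P → Lam
  gv : Q → P → WL Lam C2
  gh : Q → P → WL Lam C2
  relv : ∀ q x, gh q x = kap c2 (E.key (B.u q)) (E.tr.key (B.w q)) (lb x) (gv q x)
  relh : ∀ q x, gv q x = kap c2 (E.tr.key (B.w q)) (E.key (B.u q)) (lb x) (gh q x)
  mv : ∀ q q' x, B.MV q q' → gv q x = gv q' x
  mh : ∀ q q' x, B.MH q q' → gh q x = gh q' x
  cv : ∀ q x y, ∃ b, BoxW c2 (E.fc (B.u q) (B.w q)) b (Rl (E.key (B.u q)) (lb x))
    (Rl (E.key (B.u q)) (lb y)) ((gv q x)⁻¹ * gv q y)
  ch : ∀ q x y, ∃ b, BoxW c2 (E.tr.fc (B.w q) (B.u q)) b (Rl (E.tr.key (B.w q)) (lb x))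
    (Rl (E.tr.key (B.w q)) (lb y)) ((gh q x)⁻¹ * gh q y)
  clv : ∀ q x l b ω, BoxW c2 (E.fc (B.u q) (B.w q)) b (Rl (E.key (B.u q)) (lb x))
    (Rl (E.key (B.u q)) l) ω → ∃ y, lb y = l ∧ gv q y = gv q x * ω
  clh : ∀ q x l b ω, BoxW c2 (E.tr.fc (B.w q) (B.u q)) b (Rl (E.tr.key (B.w q)) (lb x))
    (Rl (E.tr.key (B.w q)) l) ω → ∃ y, lb y = l ∧ gh q y = gh q x * ω
  ext : ∀ q x y, lb x = lb y → gv q x = gv q y → x = y

namespace Fam

variable {E : Emb} {Q P : Type} (F : Fam E Q P)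

/-- The transposed family. -/
noncomputable def tr : Fam E.tr Q P where
  B := F.B.tr
  lb := F.lb
  gv := F.gh
  gh := F.gv
  relv := F.relh
  relh := F.relv
  mv := F.mh
  mh := F.mv
  cv := F.ch
  ch := F.cv
  clv := F.clh
  clh := F.clv
  ext := fun q x y h1 h2 => F.ext q x y h1 (by rw [F.relh q x, F.relh q y, h1, h2])

/-- The fibre configuration over a base point. -/
noncomputable def Z (q : Q) : Cfg Lam := E.fc (F.B.u q) (F.B.w q)

/-- The two fibre points are joined inside the box in the fibre over `q`. -/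
def Box (q : Q) (b : Bx) (x y : P) : Prop :=
  F.lb x ∈ (F.Z q).bl b ∧ F.lb y ∈ (F.Z q).bl b ∧
    BoxW c2 (F.Z q) b (Rl (F.Z q).X (F.lb x)) (Rl (F.Z q).X (F.lb y)) ((F.gv q x)⁻¹ * F.gv q y)

/-- Distance in the tree of vertical leaves of the fibre. -/
noncomputable def dv (q : Q) (x y : P) : ℝ :=
  dW (E.pos (F.B.u q).1) (E.pos (F.B.u q).1 (F.lb x)) ((F.gv q x)⁻¹ * F.gv q y)
    (E.pos (F.B.u q).1 (F.lb y))

/-- Distance in the tree of horizontal leaves of the fibre. -/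
noncomputable def dh (q : Q) (x y : P) : ℝ :=
  dW (E.tr.pos (F.B.w q).1) (E.tr.pos (F.B.w q).1 (F.lb x)) ((F.gh q x)⁻¹ * F.gh q y)
    (E.tr.pos (F.B.w q).1 (F.lb y))

@[simp] theorem tr_dv : F.tr.dv = F.dh := rfl
@[simp] theorem tr_dh : F.tr.dh = F.dv := rfl
@[simp] theorem tr_B_dv : F.tr.B.dv = F.B.dh := rfl
@[simp] theorem tr_B_dh : F.tr.B.dh = F.B.dv := rfl
@[simp] theorem tr_lb : F.tr.lb = F.lb := rfl
@[simp] theorem tr_gv : F.tr.gv = F.gh := rfl
@[simp] theorem tr_gh : F.tr.gh = F.gv := rfl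
theorem tr_Z (q : Q) : F.tr.Z q = (F.Z q).tr := rfl

end Fam

end Pool.Agent.E5f.G2

end

section

namespace Pool.Agent.E5f.G2

/-- The lattice data of the interface. -/
noncomputable def Emb.lat (E : Emb) : Lat Zl where
  toLat := E.toEmb.lat
  mu := fun i => AddMonoidHom.mulLeft (E.nu i)
  tq := E.tq
  v := fun j => E.m (E.tq.symm j)
  v' := fun j => E.tr.m (E.tq.symm j)
  fl := E.fl
  wm := 3
  dlt := 1 / 3
  ξmu := fun i a => by simp [Emb.m]
  ηmu := fun i a => by simp [Emb.m]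
  vm := fun i j h => E.m_lt.2 (by simpa using h)
  hv := fun i j => by
    obtain ⟨i, rfl⟩ := E.tq.surjective i
    obtain ⟨j, rfl⟩ := E.tq.surjective j
    rw [E.ht, E.ht, Equiv.symm_apply_apply, Equiv.symm_apply_apply, E.tr.m_lt]
    rfl
  dl0 := by norm_num
  gap := fun i j h => by
    linarith [E.m_gap (i := E.tq.symm i) (j := E.tq.symm j) (E.m_lt.2 (by simpa using h))]
  bd := fun _ => E.bx _
  wd := fun _ _ => E.wd _ _
  un := fun i j h d => by
    obtain ⟨v, hv⟩ := (E.unit_sub h).exists_right_inv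
    refine ⟨v * d, ?_⟩
    show E.nu i * (v * d) - E.nu j * (v * d) = d
    linear_combination d * hv

end Pool.Agent.E5f.G2

end

section

namespace Pool.Agent.E5f.G2

open Classical

@[simp] theorem Emb.lat_ξ (E : Emb) (a : Zl) : E.lat.ξ a = E.ξ a := rfl
@[simp] theorem Emb.lat_η (E : Emb) (a : Zl) : E.lat.η a = E.η a := rfl
@[simp] theorem Emb.lat_sp (E : Emb) (l : Lam) : E.lat.sp l = E.m l.1 := by
  simp [Lat.sp, Emb.lat]
@[simp] theorem Emb.lat_pos (E : Emb) : E.lat.pos = E.pos := by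
  funext x l; simp [Lat.pos, Emb.pos]
theorem Emb.lat_key (E : Emb) (u : Mk) : E.lat.key (toLex u) = E.key u := by
  funext l
  unfold Lat.key
  rw [E.lat_pos, E.lat_sp]
  rfl
theorem Emb.lat_bk (E : Emb) (a : Zl) (l : Lam) : E.lat.bk a l = l.2 + E.nu l.1 * a := rfl

/-- The path of labels between two fibre points at the level `S`. -/
noncomputable def Fam.path {E : Emb} {Q P : Type} (F : Fam E Q P) (q : Q) (S : Finset Lam)
    (x y : P) : List Lam :=
  cpl (F.lb x, pj S (F.gv q x)) (F.lb y, pj S (F.gv q y))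

end Pool.Agent.E5f.G2

end


section

namespace Pool.Agent.E5f.G2

open Filter Classical

theorem Emb.fc_den (E : Emb) (u w : Mk) : (E.fc u w).Den 3 := fun a b =>
  (E.den_lab 0 u.1 w.1 a b).imp fun _ h => h.2

theorem Emb.fc_gen (E : Emb) {u w : Mk} (hu : u.1 ∉ Set.range E.ξ) (hw : w.1 ∉ Set.range E.η) :
    (E.fc u w).Gen := ⟨E.pos_inj hu, E.tr.pos_inj hw⟩

namespace Fam

variable {E : Emb} {Q P : Type} {F : Fam E Q P} {q q' : Q} {b : Bx} {x y z : P}

theorem box_ex (F : Fam E Q P) (q : Q) (x y : P) : ∃ b, F.Box q b x y := by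
  obtain ⟨b, hb⟩ := F.cv q x y
  let pt : Lam → Bx := fun l => ⟨(F.Z q).x l, (F.Z q).x l, (F.Z q).y l, (F.Z q).y l⟩
  have hp : ∀ l, l ∈ (F.Z q).bl (pt l) := fun l => ⟨le_rfl, le_rfl, le_rfl, le_rfl⟩
  exact ⟨(b.sup (pt (F.lb x))).sup (pt (F.lb y)),
    (F.Z q).bl_mono ((Bx.sub_sup_right _ _).trans (Bx.sub_sup_left _ _)) (hp _),
    (F.Z q).bl_mono (Bx.sub_sup_right _ _) (hp _),
    hb.mono ((Bx.sub_sup_left _ _).trans (Bx.sub_sup_left _ _))⟩

theorem dv_eq (h : F.Box q b x y) {S : Finset Lam} (hS : (F.Z q).bl b ⊆ (S : Set Lam)) :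
    F.dv q x y = dT (E.pos (F.B.u q).1) (E.pos (F.B.u q).1 (F.lb x))
      ((pj S (F.gv q x))⁻¹ * pj S (F.gv q y)) (E.pos (F.B.u q).1 (F.lb y)) := by
  rw [← map_inv, ← map_mul]
  exact h.2.2.att ((F.Z q).at_Rl _) ((F.Z q).at_Rl _) hS

theorem dv_ev_MoFam (F : Fam E Q P) (q : Q) (x y : P) : ∀ᶠ S : Finset Lam in atTop,
    F.dv q x y = dL (E.pos (F.B.u q).1) (E.pos (F.B.u q).1 (F.lb x), pj S (F.gv q x))
      (E.pos (F.B.u q).1 (F.lb y), pj S (F.gv q y)) := by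
  obtain ⟨b, hb⟩ := F.box_ex q x y
  exact ((F.Z q).bl_ev b).mono fun S hS => dv_eq hb hS

theorem dv_pm (F : Fam E Q P) (q : Q) : PM (F.dv q) := by
  refine ⟨fun x => ?_, fun x y => ?_, fun x y z => ?_⟩
  · obtain ⟨S, h1⟩ := (F.dv_ev_MoFam q x x).exists
    rw [h1, (dL_pm _).self]
  · obtain ⟨S, h1, h2⟩ := ((F.dv_ev_MoFam q x y).and (F.dv_ev_MoFam q y x)).exists
    rw [h1, h2, (dL_pm _).symm]
  · obtain ⟨S, h1, h2, h3⟩ := ((F.dv_ev_MoFam q x z).and
      ((F.dv_ev_MoFam q x y).and (F.dv_ev_MoFam q y z))).exists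
    rw [h1, h2, h3]
    exact (dL_pm _).tri _ _ _

/-- The planar model of a generic fibre. -/
theorem plan (F : Fam E Q P) (q : Q) (hq : (F.Z q).Gen) (x0 : P) :
    ∃ (Q' : Type) (M : Plan c2 (F.Z q) Q') (j : P → Q'),
      (∀ x, M.g (j x) = F.gv q x ∧ M.h (j x) = F.gh q x ∧
        M.u (j x) = ((F.Z q).x (F.lb x), true) ∧ M.w (j x) = ((F.Z q).y (F.lb x), true)) ∧
      (∀ x y, M.dv (j x) (j y) = F.dv q x y ∧ M.dh (j x) (j y) = F.dh q x y) ∧
      Function.Injective j ∧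
      ∀ r l, M.u r = ((F.Z q).x l, true) → M.w r = ((F.Z q).y l, true) → ∃ x, j x = r := by
  obtain ⟨Q', M, r0, g0, u0, -⟩ := plan_ex c2 (F.Z q) (F.gv q x0) ((F.Z q).x (F.lb x0), true)
    ((F.Z q).y (F.lb x0), true)
  have hR : ∀ r l, M.u r = ((F.Z q).x l, true) → M.R r = Rl (F.Z q).X l := fun r l h => by
    unfold Plan.R
    rw [h, Rs_eq_Rl _ hq.1]
  have ex : ∀ x, ∃ r, M.g r = F.gv q x ∧ M.u r = ((F.Z q).x (F.lb x), true) ∧
      M.w r = ((F.Z q).y (F.lb x), true) := by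
    intro x
    obtain ⟨b, hb⟩ := F.box_ex q x0 x
    have h1 := hb.2.2
    rw [← hR r0 _ u0, ← Rs_eq_Rl _ hq.1] at h1
    obtain ⟨r, e1, e2, e3⟩ := Plan.ex_of_box hq r0 h1 ((F.Z q).y (F.lb x), true)
    exact ⟨r, by rw [e1, g0, mul_inv_cancel_left], e2, e3⟩
  choose j hg hu hw using ex
  have hh : ∀ x, M.h (j x) = F.gh q x := fun x => by
    have e : Rs (F.Z q).y ((F.Z q).y (F.lb x), true) = Rl (F.Z q).Y (F.lb x) :=
      Rs_eq_Rl (F.Z q).tr hq.2 _
    rw [M.relv, F.relv, hg, hu, hw, Rs_eq_Rl _ hq.1, e]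
    rfl
  refine ⟨Q', M, j, fun x => ⟨hg x, hh x, hu x, hw x⟩, fun x y => ⟨?_, ?_⟩, fun x y e => ?_,
    fun r l h1 h2 => ?_⟩
  · unfold Plan.dv
    rw [hg, hg, hu, hu]
    rfl
  · unfold Plan.dh
    rw [hh, hh, hw, hw]
    rfl
  · refine F.ext q x y (hq.1 ?_) (by rw [← hg, ← hg, e])
    have := hu x
    rw [e, hu] at this
    exact (congrArg Prod.fst this).symm
  · obtain ⟨b, hb⟩ := M.box_ex (j x0) r
    have h3 := hb.2.2
    rw [hR _ _ (hu x0), hR r l h1] at h3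
    obtain ⟨y, e1, e2⟩ := F.clv q x0 l b _ h3
    exact ⟨y, M.ext _ _ (by rw [hg, e2, hg, mul_inv_cancel_left]) (by rw [hu, e1, h1])
      (by rw [hw, e1, h2])⟩

theorem thick (F : Fam E Q P) (q : Q) (hq : (F.Z q).Gen) :
    Thick (fun x y => F.dv q x y + F.dh q x y) := by
  rcases isEmpty_or_nonempty P with h0 | ⟨⟨x0⟩⟩
  · exact ⟨⟨0, fun w => isEmptyElim w⟩, ⟨0, le_rfl, fun w => isEmptyElim w⟩,
      fun w => isEmptyElim w⟩
  obtain ⟨Q', M, j, h1, h2, h3, h4⟩ := F.plan q hq x0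
  have BT := M.biTree hq c2_ne
  have hden : (F.Z q).Den 3 := E.fc_den _ _
  have hD : ∀ x y, F.dv q x y + F.dh q x y = 1 * M.dv (j x) (j y) + 1 * M.dh (j x) (j y) :=
    fun x y => by rw [(h2 x y).1, (h2 x y).2, one_mul, one_mul]
  refine ⟨⟨9 * (1 * (4 * 3) + 1 * (4 * 3)), fun w x y z => ?_⟩,
    ⟨6, by norm_num, fun x y s hs hs' => ?_⟩, fun x T => ?_⟩
  · unfold gp
    simp only [hD]
    exact BT.hyp (by norm_num) (by norm_num) (M.noRect hq c2_ne (by norm_num) hden) zero_le_one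
      zero_le_one (j w) (j x) (j y) (j z)
  · beta_reduce at hs' ⊢
    obtain ⟨r, e1, e2⟩ := BT.rg zero_le_one zero_le_one (j x) (j y) s hs (by rwa [hD] at hs')
    obtain ⟨l, l1, l2, l3, l4⟩ := hden (M.u r).1 (M.w r).1
    obtain ⟨r1, m1, k1⟩ := M.ex_mh r ((F.Z q).x l, true)
    obtain ⟨r2, m2, k2⟩ := M.ex_mv r1 ((F.Z q).y l, true)
    obtain ⟨z, rfl⟩ := h4 r2 l (m2.2.symm.trans k1) k2
    have a1 : M.dv r r1 ≤ 3 := by
      rw [M.dv_mh m1, k1]
      exact abs_le.2 ⟨by linarith, by linarith⟩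
    have a2 : M.dh r1 (j z) ≤ 3 := by
      rw [M.dh_mv m2, k2, ← m1.2]
      exact abs_le.2 ⟨by linarith, by linarith⟩
    have a3 : M.dv r (j z) ≤ 3 := by linarith [M.pv.tri r r1 (j z), M.dv_mv m2]
    have a4 : M.dh r (j z) ≤ 3 := by linarith [M.ph.tri r r1 (j z), M.dh_mh m1]
    have b1 := abs_le.1 e1
    have b2 := abs_le.1 e2
    refine ⟨z, ?_⟩
    rw [hD, hD, hD]
    have c1 := M.pv.symm r (j z)
    have c2 := M.ph.symm r (j z)
    refine ⟨abs_le.2 ⟨?_, ?_⟩, abs_le.2 ⟨?_, ?_⟩⟩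
    · linarith [M.pv.tri (j x) (j z) r, M.ph.tri (j x) (j z) r]
    · linarith [M.pv.tri (j x) r (j z), M.ph.tri (j x) r (j z)]
    · linarith [M.pv.tri r (j z) (j y), M.ph.tri r (j z) (j y)]
    · linarith [M.pv.tri (j z) r (j y), M.ph.tri (j z) r (j y)]
  · refine ((M.ball_fin hq c2_ne (j x) T).preimage h3.injOn).subset fun y hy => ⟨?_, ?_⟩
    · rw [(h2 x y).1, (h2 x y).2]
      exact hy
    · exact ⟨_, (h1 y).2.2⟩

end Fam

end Pool.Agent.E5f.G2

end

section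

namespace Pool.Agent.E5f.G2

open Classical Filter

/-- A pair exchanged in a chain between two markers collides at a crossed point. -/
theorem cr_BrChain {O : Type} [AddCommGroup O] (E : Lat O) {ε : Bool} {u u' : Mx}
    (hd : Dir ε u u') {x y : Fin 4 × O} (hne : x ≠ y)
    (h : E.key u x < E.key u y ↔ E.key u' y < E.key u' x) {a : O} (ha : E.bk a x = E.bk a y) :
    x.1 ≠ y.1 ∧ E.Cr u u' a := by
  have key : ∀ x y : Fin 4 × O, E.bk a x = E.bk a y → E.key u x < E.key u y →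
      E.key u' y < E.key u' x → x.1 ≠ y.1 ∧ E.Cr u u' a := by
    intro x y ha h1 h2
    obtain ⟨a', b1, b2, b3⟩ := (E.inv_iff hd x y).1 ⟨h1, h2⟩
    have n : x.1 ≠ y.1 := fun e => by
      have : E.sp x = E.sp y := by unfold Lat.sp; rw [e]
      rw [this] at b3
      split_ifs at b3 <;> exact lt_irrefl _ b3
    exact ⟨n, by rw [E.col_uniq n ha b1]; exact b2⟩
  by_cases h1 : E.key u x < E.key u y
  · exact key x y ha h1 (h.1 h1)
  · have h2 := (flip_LsChain (E.key_inj u) hne).2 h1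
    have h3 := (flip_LsChain (E.key_inj u') hne.symm).2 (fun k => h1 (h.2 k))
    obtain ⟨n, c⟩ := key y x ha.symm h2 h3
    exact ⟨n.symm, c⟩

/-- No pair is inverted twice along a monotone sequence of markers. -/
theorem mono_BrChain {O : Type} [AddCommGroup O] (E : Lat O) {ε : Bool} {u u' u'' : Mx}
    (hd : Dir ε u u') (hd' : Dir ε u' u'') {x y : Fin 4 × O} (h1 : E.key u x < E.key u y)
    (h2 : E.key u' y < E.key u' x) : E.key u'' y < E.key u'' x := by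
  have hne : x ≠ y := fun e => by rw [e] at h1; exact lt_irrefl _ h1
  refine (flip_LsChain (E.key_inj u'') hne).2 (fun h3 => ?_)
  obtain ⟨_, _, _, b⟩ := (E.inv_iff hd x y).1 ⟨h1, h2⟩
  obtain ⟨_, _, _, b'⟩ := (E.inv_iff hd' y x).1 ⟨h2, h3⟩
  split_ifs at b b' <;> exact lt_asymm b b'

/-- The vertical order of two colliding labels gives the status of the collision point. -/
theorem stat_BrChain (E : Emb) (w : Mk) {x y : Lam} (n : x.1 ≠ y.1) {a : Zl}
    (ha : E.lat.bk a x = E.lat.bk a y) (h : E.tr.key w y < E.tr.key w x) :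
    hg E.lat.fl (E.lat.tyl y) < hg E.lat.fl (E.lat.tyl x) ↔ E.lat.lev (toLex w) a = true := by
  have e : ∀ z : Lam, E.lat.v' (E.lat.tyl z) = E.tr.m z.1 := fun z => by
    simp [Lat.tyl, Emb.lat]
  have c1 : E.tr.col x y = a := (E.col_eq_iff n a).2 ha
  have c2 : E.tr.col y x = a := (E.col_eq_iff n.symm a).2 ha.symm
  rw [E.lat.hv, e, e, ← Bool.not_eq_false]
  refine Iff.trans ?_ (not_congr (E.lev_iff w a)).symm
  show E.tr.m y.1 < E.tr.m x.1 ↔ ¬ a ∈ Rs E.η w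
  rcases lt_or_gt_of_ne (E.tr.m_ne n) with k | k
  · have := (E.tr.key_lt_fast w k).1 h
    rw [c1] at this
    exact iff_of_false (lt_asymm k) (not_not.2 this)
  · have := (E.tr.key_lt_slow w k).1 h
    rw [c2] at this
    exact iff_of_true k this

namespace Fam

variable {E : Emb} {Q P : Type} (F : Fam E Q P)

theorem ev_BrChain (x y : P) : ∀ᶠ S : Finset Lam in atTop, F.lb x ∈ S ∧ F.lb y ∈ S :=
  (eventually_ge_atTop {F.lb x, F.lb y}).mono fun _ hS => ⟨hS (by simp), hS (by simp)⟩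

theorem br_pth (q : Q) (x y : P) :
    ∀ᶠ S : Finset Lam in atTop, Pth (S : Set Lam) (F.path q S x y) := by
  filter_upwards [F.ev_BrChain x y] with S hS
  refine ⟨(cpl_rd _ _).1, (cpl_rd _ _).2.1, fun z hz => ?_⟩
  rcases (cpl_mem _ _ z).1 hz with rfl | rfl | h
  · exact hS.1
  · exact hS.2
  · have h1 := sup_pj S ((F.gv q x)⁻¹ * F.gv q y)
    rw [map_mul, map_inv] at h1
    exact h1 z h

/-- A horizontal move is a chain of swaps. -/
theorem br_chain_mh {q r : Q} (h : F.B.MH q r) (x y : P) : ∀ᶠ S : Finset Lam in atTop, ∃ c,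
    FCh (S : Set Lam) (E.key (F.B.u q)) (E.key (F.B.u r)) c ∧
    (∀ e ∈ c, E.tr.key (F.B.w q) e.2 < E.tr.key (F.B.w q) e.1) ∧
    F.path r S x y = act c (F.path q S x y) := by
  filter_upwards [F.ev_BrChain x y] with S hS
  obtain ⟨c, hc, hu⟩ := fch_exists S (E.key (F.B.u q)).injective (E.key (F.B.u r)).injective
    (fun a b => E.tr.key (F.B.w q) b < E.tr.key (F.B.w q) a)
  have hy : ∀ e ∈ c, E.tr.key (F.B.w q) e.2 < E.tr.key (F.B.w q) e.1 := fun e he =>
    (hu e he).elim id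
      (flip_LsChain (E.tr.key (F.B.w q)).injective (fch_mem hc he).2.2.1).2
  have hg : ∀ z, pj S (F.gv r z) = kapf c2 (E.tr.key (F.B.w q)) (E.key (F.B.u r)) S (F.lb z)
      (kapf c2 (E.key (F.B.u q)) (E.tr.key (F.B.w q)) S (F.lb z) (pj S (F.gv q z))) := by
    intro z
    rw [F.relh r z, ← F.mh q r z h, F.relv q z, ← h.2, pj_kap, pj_kap]
  refine ⟨c, hc, hy, ?_⟩
  unfold Fam.path
  rw [hg x, hg y]
  exact chn_BrChain _ _ _ hS.1 hS.2 c _ hc.chn hy hc.fin _ _ (sup_pj S _) (sup_pj S _)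

theorem br_chain (q r : Q) (σ : Zl → Bool) (h : F.B.stpI.St q r σ) (x y : P) :
    ∀ᶠ S : Finset Lam in atTop, ∃ c,
    FCh (S : Set Lam) (E.lat.key (F.B.stpI.ux q)) (E.lat.key (F.B.stpI.ux r)) c ∧
    (∀ e ∈ c, ∀ a, E.lat.bk a e.1 = E.lat.bk a e.2 →
      (hg E.lat.fl (E.lat.tyl e.2) < hg E.lat.fl (E.lat.tyl e.1) ↔ σ a = true)) ∧
    F.path r S x y = act c (F.path q S x y) := by
  obtain ⟨lo, hi, ht⟩ := F.B.brs_thr h
  obtain ⟨ε, hd⟩ : ∃ ε, Dir ε (F.B.stpI.ux q) (F.B.stpI.ux r) := by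
    rcases le_total (F.B.stpI.ux q) (F.B.stpI.ux r) with k | k
    · exact ⟨true, by simpa [Dir] using k⟩
    · exact ⟨false, by simpa [Dir] using k⟩
  refine BSys.zig (F.B.bsys (fun _ => True) (fun _ _ _ => trivial)) σ ε
    (fun q r => ∀ᶠ S : Finset Lam in atTop, ∃ c,
      FCh (S : Set Lam) (E.lat.key (F.B.stpI.ux q)) (E.lat.key (F.B.stpI.ux r)) c ∧
      (∀ e ∈ c, ∀ a, E.lat.bk a e.1 = E.lat.bk a e.2 →
        (hg E.lat.fl (E.lat.tyl e.2) < hg E.lat.fl (E.lat.tyl e.1) ↔ σ a = true)) ∧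
      F.path r S x y = act c (F.path q S x y)) ?_ ?_ ?_ (lo := lo) (hi := hi) ⟨h, hd, ht⟩
  · intro q r h1 h2
    have h3 : F.B.stpI.ux q = F.B.stpI.ux r := h2
    have hm := F.B.brs_mv h1 h3
    refine Eventually.of_forall fun S => ⟨[], ⟨E.lat.key_inj _, E.lat.key_inj _, trivial,
      fun a _ b _ => by rw [← h3]; rfl⟩, by simp, ?_⟩
    unfold Fam.path
    rw [F.mv q r x hm, F.mv q r y hm]
    rfl
  · intro q r h1 h2 h3 h4
    filter_upwards [F.br_chain_mh (F.B.brs_mh h1 h2) x y] with S ⟨c, k1, k2, k3⟩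
    rw [← E.lat_key, ← E.lat_key] at k1
    refine ⟨c, k1, fun e he a ha => ?_, k3⟩
    obtain ⟨-, -, n1, n2⟩ := fch_mem k1 he
    obtain ⟨n3, n4⟩ := cr_BrChain E.lat h3 n1 n2 ha
    rw [h4 a n4]
    exact stat_BrChain E (F.B.w q) n3 ha (k2 e he)
  · intro p q r d d' h1 h2
    filter_upwards [h1, h2] with S ⟨c, k1, k2, k3⟩ ⟨c', j1, j2, j3⟩
    refine ⟨c ++ c', fch_append k1 j1 (fun a _ b _ => mono_BrChain E.lat d d'), fun e he => ?_, ?_⟩
    · exact (List.mem_append.1 he).elim (k2 e) (j2 e)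
    · rw [act_append, ← k3, j3]

end Fam

end Pool.Agent.E5f.G2

end

section

namespace Pool.Agent.E5f.G2

open Classical Filter

theorem Emb.two_BrTwo (E : Emb) {u u' w : Mk} (hne : u.1 ≠ u'.1) (hu : u.1 ∉ Set.range E.ξ)
    (hu' : u'.1 ∉ Set.range E.ξ) (hw : w.1 ∉ Set.range E.η) :
    ∃ K δ Y, TwoBrTwo (E.fc u w).tr (E.fc u' w).tr K δ Y := by
  obtain ⟨t, ht, hΔ⟩ : ∃ t : ℝ, 0 < t ∧ |u'.1 - u.1| = 12 * t :=
    ⟨|u'.1 - u.1| / 12, by have := abs_pos.2 (sub_ne_zero.2 hne.symm); positivity, by ring⟩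
  have hY : 0 < 27 / t := by positivity
  obtain ⟨δ, d0, d1, d2⟩ : ∃ δ : ℝ, 0 < δ ∧ 2 * δ ≤ t ∧ 2 * δ * (4 * (27 / t) + 4) < 1 := by
    refine ⟨min (t / 2) (1 / (4 * (4 * (27 / t) + 4))), by positivity,
      by linarith [min_le_left (t / 2) (1 / (4 * (4 * (27 / t) + 4)))], ?_⟩
    have := (le_div_iff₀ (by positivity)).1 (min_le_right (t / 2) (1 / (4 * (4 * (27 / t) + 4))))
    linarith
  have key : ∀ (i : Fin 4) (α s s' : ℝ), 2 * δ + t ≤ |s' - s - E.m i * (u'.1 - u.1)| →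
      ∃ l, α < E.tr.pos w.1 l ∧ E.tr.pos w.1 l < α + 27 / t ∧
        ((s + δ < E.pos u.1 l ∧ E.pos u'.1 l < s' - δ) ∨
          (E.pos u.1 l < s - δ ∧ s' + δ < E.pos u'.1 l)) := by
    intro i α s s' h
    have e : 27 ≤ t * (27 / t) := (mul_div_cancel₀ _ ht.ne').ge
    rcases le_abs.1 h with h | h
    · obtain ⟨l, rfl, a1, a2, a3, a4⟩ := E.den_lab_box i u.1 w.1 (s + δ) α t _ ht e
      exact ⟨l, a3, a4, Or.inl ⟨a1, by linarith [E.pos_move l u.1 u'.1]⟩⟩
    · obtain ⟨l, rfl, a1, a2, a3, a4⟩ := E.den_lab_box i u.1 w.1 (s - δ - t) α t _ ht e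
      exact ⟨l, a3, a4, Or.inr ⟨by linarith, by linarith [E.pos_move l u.1 u'.1]⟩⟩
  refine ⟨3 * |u'.1 - u.1|, δ, 27 / t, (E.fc_gen hu hw).tr, (E.fc_gen hu' hw).tr, rfl, d0, hY.le,
    fun l => ?_, fun α s s' => ?_, fun l m h1 h2 h3 => ?_⟩
  · change |E.pos u'.1 l - E.pos u.1 l| ≤ _
    rw [E.pos_move l u.1 u'.1, add_sub_cancel_left, abs_mul]
    exact mul_le_mul_of_nonneg_right (E.m_abs _) (abs_nonneg _)
  · by_cases h : 2 * δ + t ≤ |s' - s - E.m 0 * (u'.1 - u.1)|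
    · exact key 0 α s s' h
    · refine key 1 α s s' ?_
      rw [E.m_zero, zero_mul, sub_zero] at h
      have h1 := abs_sub_abs_le_abs_sub (E.m 1 * (u'.1 - u.1)) (s' - s)
      rw [abs_mul, E.m_one, abs_one, hΔ, abs_sub_comm (_ * _)] at h1
      rw [E.m_one]
      nlinarith
  · change |E.tr.pos w.1 l - E.tr.pos w.1 m| ≤ _ at h1
    change |E.pos u.1 l - E.pos u.1 m| ≤ _ at h2
    change |E.pos u'.1 l - E.pos u'.1 m| ≤ _ at h3
    have h4 : l.1 = m.1 := by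
      by_contra hn
      have e : (E.m l.1 - E.m m.1) * (u'.1 - u.1) =
          E.pos u'.1 l - E.pos u'.1 m - (E.pos u.1 l - E.pos u.1 m) := by
        rw [E.pos_move l u.1 u'.1, E.pos_move m u.1 u'.1]
        ring
      have h5 := abs_sub (E.pos u'.1 l - E.pos u'.1 m) (E.pos u.1 l - E.pos u.1 m)
      rw [← e, abs_mul, hΔ] at h5
      have h6 : 1 / 3 ≤ |E.m l.1 - E.m m.1| := by
        rcases (E.m_ne hn).lt_or_gt with k | k
        · exact le_abs.2 (Or.inr (by linarith [E.m_gap k]))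
        · exact le_abs.2 (Or.inl (by linarith [E.m_gap k]))
      nlinarith
    rw [E.tr.pos_same h4.symm, ← map_sub] at h1
    rw [E.pos_same h4.symm, ← map_sub] at h2
    refine Prod.ext h4 (sub_eq_zero.1 (E.eq_zero_of_small ?_))
    exact (mul_le_mul h2 h1 (abs_nonneg _) (by linarith)).trans_lt d2

namespace Fam

variable {E : Emb} {Q P : Type} (F : Fam E Q P)

/-- Two generic configurations on a horizontal move control the vertical length. -/
theorem br_two {q r : Q} (h : F.B.MH q r) (hne : (F.B.u q).1 ≠ (F.B.u r).1)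
    (hq : (F.B.u q).1 ∉ Set.range E.ξ) (hr : (F.B.u r).1 ∉ Set.range E.ξ)
    (hw : (F.B.w q).1 ∉ Set.range E.η) :
    ∃ c C : ℝ, 0 < c ∧ ∀ x y, c * F.dh q x y - C ≤ F.dv q x y + F.dv r x y := by
  obtain ⟨K, δ, Y, T⟩ := E.two_BrTwo (w := F.B.w q) hne hq hr hw
  have e : F.Z r = E.fc (F.B.u r) (F.B.w q) := by rw [Fam.Z, h.2]
  rw [← e] at T
  change TwoBrTwo (F.Z q).tr (F.Z r).tr K δ Y at T
  refine ⟨δ / (2 * Y + 2), δ, div_pos T.δ0 (by linarith [T.Y0]), fun x y => ?_⟩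
  obtain ⟨Q1, M, j, a1, a2, -⟩ := F.plan q T.gen.tr x
  obtain ⟨Q2, M', j', b1, b2, -⟩ := F.plan r T.gen'.tr x
  have hy : (F.Z r).y = (F.Z q).y := T.hx
  have m : ∀ z, MatBrTwo M.tr M'.tr (j z) (j' z) := fun z => by
    have e1 : M'.w (j' z) = M.w (j z) := by rw [(a1 z).2.2.2, (b1 z).2.2.2, hy]
    refine ⟨(b1 z).2.1.trans ((F.mh q r z h).symm.trans (a1 z).2.1.symm), congrArg _ e1, ?_⟩
    change Rs (F.Z r).y (M'.w (j' z)) = Rs (F.Z q).y (M.w (j z))
    rw [e1, hy]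
  have := T.fin c2_ne (m x) (m y)
  rwa [M.tr_dv, M.tr_dh, M'.tr_dh, (a2 x y).1, (a2 x y).2, (b2 x y).1] at this

end Fam

end Pool.Agent.E5f.G2

end

section

namespace Pool.Agent.E5f.G2

open Classical Filter

namespace Fam

variable {E : Emb} {Q P : Type} (F : Fam E Q P)

theorem ev_BrBox (q : Q) (x y : P) : ∀ᶠ S : Finset Lam in atTop,
    F.dv q x y = dL (E.pos (F.B.u q).1) (E.pos (F.B.u q).1 (F.lb x), pj S (F.gv q x))
      (E.pos (F.B.u q).1 (F.lb y), pj S (F.gv q y)) := by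
  obtain ⟨b, hb⟩ := F.cv q x y
  refine (eventually_ge_atTop ((F.Z q).bl_fin b).toFinset).mono fun S hS => ?_
  rw [dL, ← map_inv, ← map_mul]
  exact hb.att ((F.Z q).at_Rl _) ((F.Z q).at_Rl _)
    fun l hl => hS (((F.Z q).bl_fin b).mem_toFinset.2 hl)

theorem br_ev (q : Q) (x y : P) : ∀ᶠ S : Finset Lam in atTop,
    F.dv q x y = Var ((F.path q S x y).map (E.lat.pos (F.B.stpI.px q))) := by
  refine (F.ev_BrBox q x y).mono fun S h => ?_
  rw [h, Fam.path, cpl_var, E.lat_pos, List.map_append, List.map_cons]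
  rfl

theorem br_pm (q : Q) : PM (F.dv q) := by
  have pm := dL_pm (C := C2) (E.pos (F.B.u q).1)
  refine ⟨fun x => ?_, fun x y => ?_, fun x y z => ?_⟩
  · obtain ⟨S, h⟩ := (F.ev_BrBox q x x).exists
    rw [h, pm.self]
  · obtain ⟨S, h1, h2⟩ := ((F.ev_BrBox q x y).and (F.ev_BrBox q y x)).exists
    rw [h1, h2, pm.symm]
  · obtain ⟨S, h1, h2, h3⟩ :=
      ((F.ev_BrBox q x z).and ((F.ev_BrBox q x y).and (F.ev_BrBox q y z))).exists
    rw [h1, h2, h3]
    exact pm.tri _ _ _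

theorem br_box (q : Q) (x y : P) : ∃ (T : Finset Lam) (Y : ℝ), ∀ᶠ S : Finset Lam in atTop,
    (∀ ν, EndT (E.lat.key (F.B.stpI.ux q)) (F.path q S x y) ν → ν ∈ T) ∧
    (∀ ν ∈ F.path q S x y, -Y ≤ E.lat.η ν.2) ∧
    (∀ ν ∈ S, Y < E.lat.η ν.2 → ¬ Skip (E.lat.key (F.B.stpI.ux q)) (F.path q S x y) ν) := by
  obtain ⟨b, hb⟩ := F.cv q x y
  obtain ⟨T, hT⟩ : ∃ T : Finset Lam, ∀ ν, ν ∉ T →
      F.lb x ≠ ν ∧ F.lb y ≠ ν ∧ ν ∉ (F.Z q).bl b :=
    ⟨insert (F.lb x) (insert (F.lb y) ((F.Z q).bl_fin b).toFinset), fun ν h => by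
      simp only [Finset.mem_insert, Set.Finite.mem_toFinset, not_or] at h
      exact ⟨Ne.symm h.1, Ne.symm h.2.1, h.2.2⟩⟩
  have hk : E.lat.key (F.B.stpI.ux q) = (F.Z q).X := E.lat_key _
  have hs : ∀ ν ∈ T, |E.η ν.2| ≤ ∑ ν ∈ T, |E.η ν.2| := fun ν h =>
    Finset.single_le_sum (f := fun ν : Lam => |E.η ν.2|) (fun _ _ => abs_nonneg _) h
  have hs0 : 0 ≤ ∑ ν ∈ T, |E.η ν.2| := Finset.sum_nonneg fun _ _ => abs_nonneg _
  have hy : ∀ ν : Lam, |(F.Z q).y ν - E.η ν.2| ≤ 3 * |(F.B.w q).1| := fun ν => by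
    have e : (F.Z q).y ν - E.η ν.2 = E.tr.m ν.1 * (F.B.w q).1 := add_sub_cancel_left _ _
    rw [e, abs_mul]
    exact mul_le_mul_of_nonneg_right (E.tr.m_abs _) (abs_nonneg _)
  have a1 := abs_nonneg (F.B.w q).1
  have a2 := le_abs_self b.y1
  have a3 := neg_abs_le b.y1
  refine ⟨T, ∑ ν ∈ T, |E.η ν.2| + 3 * |(F.B.w q).1| + |b.y1|, Eventually.of_forall fun S => ?_⟩
  rw [hk]
  refine ⟨fun ν h => ?_, fun ν h => ?_, fun ν h h1 => ?_⟩
  · by_contra hn
    obtain ⟨h1, h2, h3⟩ := hT ν hn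
    obtain ⟨-, -, e1, e2⟩ := cpl_rd (F.lb x, pj S (F.gv q x)) (F.lb y, pj S (F.gv q y))
    rcases h with h | h | h
    · exact h1 (Option.some.inj (e1.symm.trans h))
    · exact h2 (Option.some.inj (e2.symm.trans h))
    · have h4 : ν ∈ F.path q S x y := by
        obtain ⟨A, B, a, c, e, -⟩ := h
        simp [e]
      obtain ⟨h5, h6⟩ := mem_BrBox hb h4 h1 h2 h3
      exact (high_BrBox hb h5 h1 h2 h6).1 h
  · rw [E.lat_η]
    by_cases hn : ν ∈ T
    · linarith [hs ν hn, neg_abs_le (E.η ν.2)]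
    · obtain ⟨h1, h2, h3⟩ := hT ν hn
      have h4 : b.y1 < (F.Z q).y ν := (mem_BrBox hb h h1 h2 h3).2
      linarith [(abs_le.1 (hy ν)).2]
  · rw [E.lat_η] at h1
    obtain ⟨h2, h3, -⟩ := hT ν fun hn => by linarith [hs ν hn, le_abs_self (E.η ν.2)]
    refine (high_BrBox hb h h2 h3 ?_).2
    change b.y1 < (F.Z q).y ν
    linarith [(abs_le.1 (hy ν)).1]

end Fam

end Pool.Agent.E5f.G2

end


section

namespace Pool.Agent.E5f.G2

open Filter Classical

namespace Hol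

/-- The change of coordinates as a permutation. -/
noncomputable def kp (X Y : Od Lam) (l : Lam) : Equiv.Perm (WL Lam C2) :=
  ⟨kap c2 X Y l, kap c2 Y X l, kap_kap c2 X Y l, kap_kap c2 Y X l⟩

/-- Permutations which descend to the level `S`. -/
def Dn (S : Finset Lam) : Subgroup (Equiv.Perm (WL Lam C2)) where
  carrier := {π | ∀ γ γ', pj S γ = pj S γ' ↔ pj S (π γ) = pj S (π γ')}
  mul_mem' := fun {a b} ha hb γ γ' => (hb γ γ').trans (ha _ _)
  one_mem' := fun _ _ => Iff.rfl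
  inv_mem' := fun {a} ha γ γ' => by
    have := ha (a⁻¹ γ) (a⁻¹ γ')
    simpa using this.symm

/-- Permutations which are trivial at the level `S`. -/
def Tv (S : Finset Lam) : Subgroup (Equiv.Perm (WL Lam C2)) where
  carrier := {π | ∀ γ, pj S (π γ) = pj S γ}
  mul_mem' := fun {a b} ha hb γ => (ha _).trans (hb γ)
  one_mem' := fun _ => rfl
  inv_mem' := fun {a} ha γ => by
    have := ha (a⁻¹ γ)
    simpa using this.symm

theorem kp_dn (X Y : Od Lam) (l : Lam) (S : Finset Lam) : kp X Y l ∈ Dn S := fun γ γ' => by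
  change _ ↔ pj S (kap c2 X Y l γ) = pj S (kap c2 X Y l γ')
  rw [pj_kap, pj_kap]
  refine ⟨fun h => by rw [h], fun h => ?_⟩
  rw [← kapf_kapf c2 X Y S l (pj S γ), h, kapf_kapf]

variable (E : Emb)

/-- The collision points of the pairs of labels of `S`. -/
noncomputable def cols (S : Finset Lam) : Finset Zl := (S ×ˢ S).image (fun e => E.col e.1 e.2)

theorem mem_cols {S : Finset Lam} {l l' : Lam} (h : l ∈ S) (h' : l' ∈ S) :
    E.col l l' ∈ cols E S := Finset.mem_image.2 ⟨(l, l'), Finset.mem_product.2 ⟨h, h'⟩, rfl⟩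

theorem cols_mono {S S' : Finset Lam} (h : S ⊆ S') : cols E S ⊆ cols E S' :=
  Finset.image_subset_image (Finset.product_subset_product h h)

theorem key_iff (u : Mk) {l l' : Lam} (h : l.1 ≠ l'.1) :
    E.key u l < E.key u l' ↔ (E.col l l' ∈ Rs E.ξ u ↔ E.m l'.1 < E.m l.1) := by
  rcases lt_or_gt_of_ne (E.m_ne h) with h1 | h1
  · rw [E.key_lt_slow u h1]
    exact ⟨fun h2 => iff_of_false h2 h1.not_gt, fun h2 h3 => h1.not_gt (h2.1 h3)⟩
  · rw [E.key_lt_fast u h1, E.col_symm h.symm]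
    exact ⟨fun h2 => iff_of_true h2 h1, fun h2 => h2.2 h1⟩

theorem agr_key {S : Finset Lam} {u u' : Mk}
    (h : ∀ a ∈ cols E S, (a ∈ Rs E.ξ u ↔ a ∈ Rs E.ξ u')) :
    Agr (S : Set Lam) (E.key u) (E.key u') := fun l hl l' hl' => by
  by_cases e : l.1 = l'.1
  · rw [E.key_lt_same u e, E.key_lt_same u' e]
  · rw [key_iff E u e, key_iff E u' e, h _ (mem_cols E hl hl')]

theorem agr_inf {S : Finset Lam} {u : Mk} (h : ∀ a ∈ cols E S, a ∉ Rs E.ξ u) :
    Agr (S : Set Lam) (E.key u) (E.kinf true) := fun l hl l' hl' => by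
  by_cases e : l.1 = l'.1
  · rw [E.key_lt_same u e, E.kinf_lt_same true e]
  · rw [key_iff E u e, E.kinf_true_lt e]
    have h1 := h _ (mem_cols E hl hl')
    have h2 := E.m_ne e
    exact ⟨fun h3 => lt_of_le_of_ne (not_lt.1 fun h4 => h1 (h3.2 h4)) h2,
      fun h3 => iff_of_false h1 h3.not_gt⟩

theorem inv_col {a : Zl} {l l' : Lam} (h1 : E.key (E.ξ a, true) l < E.key (E.ξ a, true) l')
    (h2 : E.key (E.ξ a, false) l' < E.key (E.ξ a, false) l) : l.1 ≠ l'.1 ∧ E.col l l' = a := by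
  have e : l.1 ≠ l'.1 := fun e => by
    rw [E.key_lt_same _ e] at h1
    rw [E.key_lt_same _ e.symm] at h2
    exact lt_asymm h1 h2
  refine ⟨e, ?_⟩
  by_contra h
  have h3 : E.ξ a ≠ E.ξ (E.col l l') := fun h' => h (E.ξ_inj h').symm
  have h4 := lt_asymm h2
  rw [key_iff E _ e] at h1 h4
  simp only [Rs, Set.mem_setOf_eq, h3, false_and, or_false] at h1 h4
  exact h4 h1

/-- The holonomy around a lattice point. -/
noncomputable def eta (l : Lam) (a : Zl) : Equiv.Perm (WL Lam C2) :=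
  kp (E.key (E.ξ a, false)) (E.tr.kinf true) l * kp (E.tr.kinf false) (E.key (E.ξ a, false)) l *
    kp (E.key (E.ξ a, true)) (E.tr.kinf false) l * kp (E.tr.kinf true) (E.key (E.ξ a, true)) l

theorem eta_dn (l : Lam) (a : Zl) (S : Finset Lam) : eta E l a ∈ Dn S :=
  mul_mem (mul_mem (mul_mem (kp_dn _ _ _ _) (kp_dn _ _ _ _)) (kp_dn _ _ _ _)) (kp_dn _ _ _ _)

theorem eta_tv {l : Lam} {a : Zl} {S : Finset Lam} (h : a ∉ cols E (insert l S)) :
    eta E l a ∈ Tv S := fun γ => by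
  have hA : Agr ((insert l S : Finset Lam) : Set Lam) (E.key (E.ξ a, true))
      (E.key (E.ξ a, false)) := agr_key E fun b hb => by
    have h3 : E.ξ a ≠ E.ξ b := fun h' => h (E.ξ_inj h' ▸ hb)
    simp [Rs, h3]
  have hl : l ∈ insert l S := Finset.mem_insert_self l S
  have h1 : pj (insert l S) (eta E l a γ) = pj (insert l S) γ := by
    change pj _ (kap _ _ _ _ (kap _ _ _ _ (kap _ _ _ _ (kap _ _ _ _ γ)))) = _
    have hs := sup_kapf c2 (E.tr.kinf true) (E.key (E.ξ a, true)) l (sup_pj (insert l S) γ)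
    rw [pj_kap, pj_kap, pj_kap, pj_kap, kapf_same c2 _ hA hl hs,
      kapf_congr c2 hA.symm (Agr.refl _ _) hl hs, kapf_kapf]
  rw [← ret_pj (Finset.subset_insert l S), h1, ret_pj (Finset.subset_insert l S)]

/-- The holonomy of finite words. -/
noncomputable def hol (l : Lam) : W Zl CZ →* Equiv.Perm (WL Lam C2) :=
  lf (fun a => zpowersHom _ (eta E l a))

theorem hol_lt (l : Lam) (a : Zl) (x : CZ) :
    hol E l (lt a x) = eta E l a ^ (Multiplicative.toAdd x) := by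
  unfold hol; rw [lf_lt]; rfl

theorem hol_dn (l : Lam) (S : Finset Lam) (w : W Zl CZ) : hol E l w ∈ Dn S := by
  induction w using W_ind with
  | h1 => rw [map_one]; exact one_mem _
  | h a x g ih => rw [map_mul, hol_lt]; exact mul_mem (zpow_mem (eta_dn E l a S) _) ih

theorem hol_ret (l : Lam) {S : Finset Lam} {A : Finset Zl} (hA : cols E (insert l S) ⊆ A)
    (γ : WL Lam C2) (w : W Zl CZ) :
    pj S (hol E l (ret (A : Set Zl) w) γ) = pj S (hol E l w γ) := by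
  induction w using W_ind with
  | h1 => rw [map_one]
  | h a x g ih =>
    rw [map_mul, map_mul, map_mul, ret_lt, Equiv.Perm.mul_apply, Equiv.Perm.mul_apply]
    split_ifs with h
    · exact (hol_dn E l S _ _ _).1 ih
    · have h2 : hol E l (lt a x) ∈ Tv S := by
        rw [hol_lt]
        exact zpow_mem (eta_tv E fun h' => h (hA h')) _
      rw [h2, map_one, Equiv.Perm.one_apply, ih]

theorem hol_pj (l : Lam) {S : Finset Lam} {A : Finset Zl} (hA : cols E (insert l S) ⊆ A)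
    (γ : WL Lam C2) (g : WL Zl CZ) :
    pj S (hol E l (pj (cols E (insert l S)) g) γ) = pj S (hol E l (pj A g) γ) := by
  rw [← ret_pj hA, hol_ret E l (Finset.Subset.refl _)]

/-- The holonomy of compatible families. -/
noncomputable def hf (l : Lam) (g : WL Zl CZ) (γ : WL Lam C2) : WL Lam C2 :=
  mkW (fun S => pj S (hol E l (pj (cols E (insert l S)) g) γ)) (fun S S' h => by
    rw [ret_pj h, hol_pj E l (cols_mono E (Finset.insert_subset_insert l h))])

theorem pj_hf (l : Lam) (S : Finset Lam) (g : WL Zl CZ) (γ : WL Lam C2) :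
    pj S (hf E l g γ) = pj S (hol E l (pj (cols E (insert l S)) g) γ) := rfl

/-- The holonomy as a homomorphism. -/
noncomputable def hh (l : Lam) : WL Zl CZ →* Equiv.Perm (WL Lam C2) :=
  MonoidHom.toHomPerm
    { toFun := hf E l
      map_one' := funext fun γ => WL_ext fun S => by
        rw [pj_hf, map_one, map_one]; rfl
      map_mul' := fun g g' => funext fun γ => WL_ext fun S => by
        change _ = pj S (hf E l g (hf E l g' γ))
        rw [pj_hf, pj_hf, map_mul, map_mul, Equiv.Perm.mul_apply]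
        exact (hol_dn E l S _ _ _).1 (pj_hf E l S g' γ).symm }

theorem hh_apply (l : Lam) (g : WL Zl CZ) (γ : WL Lam C2) : hh E l g γ = hf E l g γ := rfl

/-- From the reference coordinates to the H-coordinates at the level `w` through the order `X`. -/
noncomputable def Ps (l : Lam) (w : Mk) (X : Od Lam) : Equiv.Perm (WL Lam C2) :=
  kp X (E.tr.key w) l * kp (E.tr.kinf true) X l

theorem Ps_dn (l : Lam) (w : Mk) (X : Od Lam) (S : Finset Lam) : Ps E l w X ∈ Dn S :=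
  mul_mem (kp_dn _ _ _ _) (kp_dn _ _ _ _)

theorem Ps_agr {l : Lam} (w : Mk) {X X' : Od Lam} {S : Finset Lam} (hl : l ∈ S)
    (h : Agr (S : Set Lam) X X') (γ : WL Lam C2) :
    pj S (Ps E l w X γ) = pj S (Ps E l w X' γ) := by
  change pj _ (kap _ _ _ _ (kap _ _ _ _ γ)) = pj _ (kap _ _ _ _ (kap _ _ _ _ γ))
  rw [pj_kap, pj_kap, pj_kap, pj_kap, kapf_congr c2 (Agr.refl _ _) h hl (sup_pj S γ),
    kapf_congr c2 h (Agr.refl _ _) hl (sup_kapf c2 _ _ l (sup_pj S γ))]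

theorem Ps_up (l : Lam) {w : Mk} {a : Zl} (h : a ∉ Rs E.η w) (γ : WL Lam C2) :
    Ps E l w (E.key (E.ξ a, false)) γ = Ps E l w (E.key (E.ξ a, true)) γ := by
  change kap _ _ _ _ (kap _ _ _ _ γ) = kap _ _ _ _ (kap _ _ _ _ γ)
  have := kap_R c2 (E.key (E.ξ a, true)) (E.key (E.ξ a, false)) (E.tr.kinf true) (E.tr.key w)
    (fun p q h1 h2 => by
      obtain ⟨e, e'⟩ := inv_col E h1 h2
      rw [key_iff E.tr w e, E.tr.kinf_true_lt e, E.tr_col, e']
      have h2 := E.tr.m_ne e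
      exact ⟨fun h3 => iff_of_false h h3.not_gt,
        fun h3 => lt_of_le_of_ne (not_lt.1 fun h4 => h (h3.2 h4)) h2⟩) l
    (kap c2 (E.tr.kinf true) (E.key (E.ξ a, true)) l γ)
  rw [kap_kap] at this
  rw [this, kap_kap]

theorem Ps_down (l : Lam) {w : Mk} {a : Zl} (h : a ∈ Rs E.η w) (γ : WL Lam C2) :
    Ps E l w (E.key (E.ξ a, false)) (eta E l a γ) = Ps E l w (E.key (E.ξ a, true)) γ := by
  change kap _ _ _ _ (kap _ _ _ _ (kap _ _ _ _ (kap _ _ _ _ (kap _ _ _ _ (kap _ _ _ _ γ))))) =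
    kap _ _ _ _ (kap _ _ _ _ γ)
  rw [kap_kap, kap_R c2 (E.key (E.ξ a, true)) (E.key (E.ξ a, false)) (E.tr.kinf false) (E.tr.key w)
    (fun p q h1 h2 => by
      obtain ⟨e, e'⟩ := inv_col E h1 h2
      rw [key_iff E.tr w e, E.tr.kinf_false_lt e, E.tr_col, e']
      exact ⟨fun h3 => iff_of_true h h3, fun h3 => h3.1 h⟩), kap_kap]

theorem Ps_fin {l : Lam} (w : Mk) {S : Finset Lam} (hl : l ∈ S) (γ : WL Lam C2) :
    ∀ (n : ℕ) (u : Mk), (cut (cols E S) (Rs E.ξ u)).card = n →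
      pj S (Ps E l w (E.key u) (hol E l (op E.bkey cz (cut (cols E S) (Rs E.ξ u ∩ Rs E.η w))) γ))
        = pj S (Ps E l w (E.kinf true) γ) := by
  intro n
  induction n with
  | zero =>
    intro u hn
    have h0 : ∀ a ∈ cols E S, a ∉ Rs E.ξ u := fun a ha h => by
      have : a ∈ cut (cols E S) (Rs E.ξ u) := mem_cut.2 ⟨ha, h⟩
      rw [Finset.card_eq_zero.1 hn] at this
      exact absurd this (Finset.notMem_empty a)
    have h1 : op E.bkey cz (cut (cols E S) (Rs E.ξ u ∩ Rs E.η w)) = 1 :=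
      op_eq_pl (w := []) cz List.Pairwise.nil fun a =>
        iff_of_false (by simp) fun h => h0 a (mem_cut.1 h).1 (mem_cut.1 h).2.1
    rw [h1, map_one, Equiv.Perm.one_apply, Ps_agr E w hl (agr_inf E h0)]
  | succ n ih =>
    intro u hn
    obtain ⟨a, ha, hm⟩ := Finset.exists_min_image (cut (cols E S) (Rs E.ξ u)) E.ξ
      (Finset.card_pos.1 (by omega))
    obtain ⟨ha1, ha2⟩ := mem_cut.1 ha
    have k1 : ∀ b, b ∈ Rs E.ξ (E.ξ a, true) ↔ E.ξ a < E.ξ b := fun b => by simp [Rs]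
    have k2 : ∀ b, E.ξ a ≤ E.ξ b → b ∈ Rs E.ξ u := fun b hb => by
      rcases hb.lt_or_eq with hb | hb
      · rcases ha2 with h | h
        · exact Or.inl (h.trans hb)
        · exact Or.inl (h.1.trans_lt hb)
      · rwa [← E.ξ_inj hb]
    have k3 : ∀ b ∈ cols E S, (b ∈ Rs E.ξ u ↔ b = a ∨ E.ξ a < E.ξ b) := fun b hb =>
      ⟨fun h => (hm b (mem_cut.2 ⟨hb, h⟩)).eq_or_lt.imp (fun e => (E.ξ_inj e).symm) id,
        fun h => h.elim (fun e => e ▸ ha2) fun e => k2 b e.le⟩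
    have hA : Agr (S : Set Lam) (E.key u) (E.key (E.ξ a, false)) := agr_key E fun b hb => by
      rw [k3 b hb]
      simp only [Rs, Set.mem_setOf_eq, and_true]
      exact ⟨fun h => h.elim (fun e => Or.inr (e ▸ rfl)) Or.inl,
        fun h => h.elim Or.inr fun e => Or.inl (E.ξ_inj e).symm⟩
    have hc : (cut (cols E S) (Rs E.ξ (E.ξ a, true))).card = n := by
      have : cut (cols E S) (Rs E.ξ (E.ξ a, true)) = (cut (cols E S) (Rs E.ξ u)).erase a := by
        ext b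
        rw [Finset.mem_erase, mem_cut, mem_cut, k1]
        exact ⟨fun h => ⟨fun e => by rw [e] at h; exact lt_irrefl _ h.2, h.1, k2 b h.2.le⟩,
          fun h => ⟨h.2.1, ((k3 b h.2.1).1 h.2.2).resolve_left h.1⟩⟩
      rw [this, Finset.card_erase_of_mem ha, hn]
      rfl
    rw [Ps_agr E w hl hA, ← ih _ hc]
    by_cases hD : a ∈ Rs E.η w
    · rw [op_min (D' := cut (cols E S) (Rs E.ξ (E.ξ a, true) ∩ Rs E.η w)) (l := a) cz
        E.bkey.injective.injOn (fun b => by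
          simp only [mem_cut, Set.mem_inter_iff, k1]
          exact ⟨fun h => ((k3 b h.1).1 h.2.1).imp id fun e => ⟨h.1, e, h.2.2⟩,
            fun h => h.elim (fun e => e ▸ ⟨ha1, ha2, hD⟩) fun e => ⟨e.1, k2 b e.2.1.le, e.2.2⟩⟩)
        (fun b hb => (E.bkey_lt_iff a b).2 ((k1 b).1 (mem_cut.1 hb).2.1)),
        map_mul, Equiv.Perm.mul_apply, hol_lt]
      have : Multiplicative.toAdd cz = 1 := rfl
      rw [this, zpow_one, Ps_down E l hD]
    · have : cut (cols E S) (Rs E.ξ u ∩ Rs E.η w) =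
          cut (cols E S) (Rs E.ξ (E.ξ a, true) ∩ Rs E.η w) := by
        ext b
        simp only [mem_cut, Set.mem_inter_iff, k1]
        exact ⟨fun h => ⟨h.1, ((k3 b h.1).1 h.2.1).resolve_left fun e => hD (e ▸ h.2.2), h.2.2⟩,
          fun h => ⟨h.1, k2 b h.2.1.le, h.2.2⟩⟩
      rw [this, Ps_up E l hD]

theorem Ps_op (l : Lam) (u w : Mk) (γ : WL Lam C2) :
    Ps E l w (E.key u) (hh E l (opH cz E.bkey (Rs E.ξ u ∩ Rs E.η w)) γ) =
      Ps E l w (E.kinf true) γ := by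
  refine WL_ext_of {l} fun S hS => ?_
  have hl : l ∈ S := hS (Finset.mem_singleton_self l)
  rw [← Ps_fin E w hl γ _ u rfl]
  refine (Ps_dn E l w _ S _ _).1 ?_
  rw [hh_apply, pj_hf, pj_opH, Finset.insert_eq_of_mem hl]

end Hol

/-- Transport of pointed words over the base. -/
theorem amb_ex (E : Emb) {Q : Type} (B : Plan cz E.bc Q) :
    ∃ Θ : Q → Lam → Equiv.Perm (WL Lam C2),
      (∀ q q', B.MV q q' → Θ q = Θ q') ∧
      (∀ q q', B.MH q q' → ∀ l g,
        kap c2 (E.key (B.u q)) (E.tr.key (B.w q)) l (Θ q l g) =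
          kap c2 (E.key (B.u q')) (E.tr.key (B.w q')) l (Θ q' l g)) := by
  refine ⟨fun q l => Hol.kp (E.tr.kinf true) (E.key (B.u q)) l * (Hol.hh E l (B.g q))⁻¹,
    fun q q' h => by simp only [h.1, h.2], fun q q' h l γ => ?_⟩
  have key : ∀ p : Q, kap c2 (E.key (B.u p)) (E.tr.key (B.w p)) l
      ((Hol.kp (E.tr.kinf true) (E.key (B.u p)) l * (Hol.hh E l (B.g p))⁻¹) γ) =
      Hol.Ps E l (B.w p) (E.kinf true)
        (Hol.hh E l (B.g p * opH cz E.bkey (Rs E.ξ (B.u p) ∩ Rs E.η (B.w p)))⁻¹ γ) := fun p => by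
    rw [← Hol.Ps_op E l (B.u p) (B.w p), ← Equiv.Perm.mul_apply (Hol.hh E l _), ← map_mul,
      mul_inv_rev, mul_inv_cancel_left, map_inv]
    rfl
  have e : B.g q * opH cz E.bkey (Rs E.ξ (B.u q) ∩ Rs E.η (B.w q)) =
      B.g q' * opH cz E.bkey (Rs E.ξ (B.u q') ∩ Rs E.η (B.w q')) :=
    Kh_injective cz E.bc.X E.bc.Y ((B.relv q).symm.trans (h.1.trans (B.relv q')))
  rw [key q, key q', e, h.2]

end Pool.Agent.E5f.G2

end

section

namespace Pool.Agent.E5f.G2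

open Filter Classical

theorem jn_move_MoHol2 (E : Emb) (u w w' : Mk) {l m : Lam} {g g' : WL Lam C2}
    (h : Jn_MoHol2 c2 (E.fc u w) l m g g') : Jn_MoHol2 c2 (E.fc u w') l m g g' := by
  obtain ⟨b, h⟩ := h
  refine ⟨⟨b.x0, b.x1, b.y0 - 3 * |w'.1 - w.1|, b.y1 + 3 * |w'.1 - w.1|⟩,
    h.transfer (Z' := E.fc u w') (Agr.refl _ _) (fun _ _ k => k)
      (fun D hD => ⟨D, fun a => ?_, fun _ _ _ => Iff.rfl⟩)⟩
  have h1 := E.tr.pos_move a w.1 w'.1
  have h2 := E.tr.m_abs a.1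
  have h4 : |E.tr.m a.1 * (w'.1 - w.1)| ≤ 3 * |w'.1 - w.1| := by
    rw [abs_mul]
    exact mul_le_mul_of_nonneg_right h2 (abs_nonneg _)
  obtain ⟨h5, h6⟩ := abs_le.1 h4
  refine ⟨fun k => (hD a).1 ?_, fun k => (hD a).2 ?_⟩
  · simp only [Emb.fc_y] at k ⊢
    linarith
  · simp only [Emb.fc_y] at k ⊢
    linarith

theorem jn_conn_MoHol2 (E : Emb) {Q : Type} (B : Plan cz E.bc Q)
    (Θ : Q → Lam → Equiv.Perm (WL Lam C2)) (h1 : ∀ q q', B.MV q q' → Θ q = Θ q')
    (h2 : ∀ q q', B.MH q q' → ∀ l g,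
      kap c2 (E.key (B.u q)) (E.tr.key (B.w q)) l (Θ q l g) =
        kap c2 (E.key (B.u q')) (E.tr.key (B.w q')) l (Θ q' l g))
    (q q' : Q) {l m : Lam} {g g' : WL Lam C2}
    (h : Jn_MoHol2 c2 (E.fc (B.u q) (B.w q)) l m (Θ q l g) (Θ q m g')) :
    Jn_MoHol2 c2 (E.fc (B.u q') (B.w q')) l m (Θ q' l g) (Θ q' m g') := by
  induction B.conn q q' with
  | refl => exact h
  | @tail p p' _ k ih =>
    rcases k with k | k
    · rw [← h1 p p' k, ← k.2]
      exact jn_move_MoHol2 E _ _ _ ih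
    · refine jn_kap_inv_MoHol2 ?_
      have k1 := jn_kap_MoHol2 ih
      simp only [Emb.fc_X, Emb.fc_Y] at k1 ⊢
      rw [h2 p p' k, h2 p p' k, ← Emb.tr_fc, k.2] at k1
      rw [← Emb.tr_fc]
      exact jn_move_MoHol2 E.tr _ _ _ k1

theorem fam_ex (E : Emb) {Q : Type} (B : Plan cz E.bc Q) (q0 : Q) :
    ∃ (P : Type) (F : Fam E Q P) (x0 : P), F.B = B ∧ F.lb x0 = (0, 0) ∧ F.gv q0 x0 = 1 := by
  obtain ⟨Θ, h1, h2⟩ := amb_ex E B
  let l0 : Lam := (0, 0)
  let g0 : WL Lam C2 := (Θ q0 l0).symm 1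
  let P : Type := {r : Lam × WL Lam C2 //
    Jn_MoHol2 c2 (E.fc (B.u q0) (B.w q0)) l0 r.1 (Θ q0 l0 g0) (Θ q0 r.1 r.2)}
  have cv : ∀ (q : Q) (x y : P), Jn_MoHol2 c2 (E.fc (B.u q) (B.w q)) x.1.1 y.1.1
      (Θ q x.1.1 x.1.2) (Θ q y.1.1 y.1.2) := fun q x y =>
    jn_conn_MoHol2 E B Θ h1 h2 q0 q (jn_trans_MoHol2 (jn_symm_MoHol2 x.2) y.2)
  have cl : ∀ (q : Q) (x : P) (l : Lam) (g : WL Lam C2),
      Jn_MoHol2 c2 (E.fc (B.u q) (B.w q)) x.1.1 l (Θ q x.1.1 x.1.2) g →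
        ∃ y : P, y.1.1 = l ∧ Θ q y.1.1 y.1.2 = g := fun q x l g h => by
    refine ⟨⟨(l, (Θ q l).symm g), jn_trans_MoHol2 x.2
      (jn_conn_MoHol2 E B Θ h1 h2 q q0 ?_)⟩, rfl, Equiv.apply_symm_apply _ _⟩
    have e : Θ q l ((Θ q l).symm g) = g := Equiv.apply_symm_apply _ _
    rw [← e] at h
    exact h
  refine ⟨P,
    { B := B
      lb := fun x => x.1.1
      gv := fun q x => Θ q x.1.1 x.1.2
      gh := fun q x => kap c2 (E.key (B.u q)) (E.tr.key (B.w q)) x.1.1 (Θ q x.1.1 x.1.2)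
      relv := fun _ _ => rfl
      relh := fun _ _ => (kap_kap _ _ _ _ _).symm
      mv := fun q q' x h => by rw [h1 q q' h]
      mh := fun q q' x h => h2 q q' h _ _
      cv := cv
      ch := fun q x y => jn_kap_MoHol2 (cv q x y)
      clv := fun q x l b ω h => cl q x l _ ⟨b, by rw [inv_mul_cancel_left]; exact h⟩
      clh := fun q x l b ω h => ?_
      ext := fun q x y e1 e2 => ?_ },
    ⟨(l0, g0), jn_refl_MoHol2 _ _ _ _⟩, rfl, rfl, Equiv.apply_symm_apply _ _⟩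
  · obtain ⟨y, e1, e2⟩ := cl q x l (kap c2 (E.tr.key (B.w q)) (E.key (B.u q)) l
      (kap c2 (E.key (B.u q)) (E.tr.key (B.w q)) x.1.1 (Θ q x.1.1 x.1.2) * ω))
      (jn_kap_inv_MoHol2 ⟨b, by
        simp only [Emb.fc_X, Emb.fc_Y, Cfg.tr_X]
        rw [kap_kap, inv_mul_cancel_left]
        exact h⟩)
    refine ⟨y, e1, ?_⟩
    rw [e2, e1, kap_kap]
  · refine Subtype.ext (Prod.ext e1 ?_)
    have e3 : Θ q x.1.1 x.1.2 = Θ q x.1.1 y.1.2 := by
      rw [e2]
      exact congrArg (fun l => Θ q l y.1.2) e1.symm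
    exact (Θ q x.1.1).injective e3

end Pool.Agent.E5f.G2

end


section

namespace Pool.Agent.E5f.G2

open Classical Filter

namespace Fam

variable {E : Emb} {Q P : Type} (F : Fam E Q P)

/-- The interface system of a family. -/
noncomputable def fsys (h3 : S_T3) (Cu : Q → Prop) (hc : ∀ r a, F.B.Cusp a r → Cu r) :
    FSys E.lat F.B.dv F.B.dh Cu F.dv F.dh where
  toBSys := F.B.bsys Cu hc
  t3 := h3
  path := F.path
  fpm := F.br_pm
  fpm' := F.tr.br_pm
  ev := F.br_ev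
  pth := F.br_pth
  box := F.br_box
  chain := F.br_chain
  two := fun q r h e hne hq hr hw =>
    ⟨F.thick q (E.fc_gen hq hw), F.br_two (F.B.brs_mh h e) hne hq hr hw⟩

end Fam

end Pool.Agent.E5f.G2

end
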