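import Pool.Agent.MP_e5f6e8_al.G2.Lat

/-!
Fibre data with the genus two surface group and the extension group.
-/

set_option autoImplicit false


section

namespace Pool.Agent.E5f.G2

/-- Fibre data over the base system. -/
structure Fib {Q : Type} [MulAction G8 Q] (S : Base Q) (q0 : Q) (P : Type) where
  dv : Q → P → P → ℝ
  dh : Q → P → P → ℝ
  pv : ∀ q, PM (dv q)
  ph : ∀ q, PM (dh q)
  φ : SG 2 →* Equiv.Perm P
  inj : Function.Injective φ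
  s : G8 →* Equiv.Perm P
  norm : ∀ γ o, ∃ o', s γ * φ o * (s γ)⁻¹ = φ o'
  inv_v : ∀ q o x y, dv q (φ o x) (φ o y) = dv q x y
  inv_h : ∀ q o x y, dh q (φ o x) (φ o y) = dh q x y
  eq_v : ∀ (γ : G8) q x y, dv (γ • q) (s γ x) (s γ y) = S.lam ^ (S.dg γ) * dv q x y
  eq_h : ∀ (γ : G8) q x y, dh (γ • q) (s γ x) (s γ y) = S.lam ^ (-S.dg γ) * dh q x y
  thick : Thick (fun x y => dv q0 x y + dh q0 x y)
  ne : Nonempty P
  orb : ∃ T : Finset P, ∀ x, ∃ o, ∃ y ∈ T, x = φ o y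
  stab : ∀ x, {o | φ o x = x}.Finite

end Pool.Agent.E5f.G2

end


section

namespace Pool.Agent.E5f.G2

theorem bound_FinClass {Q P : Type} [MulAction G8 Q] {S : Base Q} {q0 : Q} (Fb : Fib S q0 P)
    (p q : Q) (hp : Thick (fun x y => Fb.dv p x y + Fb.dh p x y)) :
    ∃ K : ℝ, ∀ Φ ∈ LimF Fb.dv Fb.dh, Φ.1 q + Φ.2 q ≤ K * (Φ.1 p + Φ.2 p) := by
  classical
  obtain ⟨κ, hκ, hrg⟩ := hp.rg
  obtain ⟨K, hK, h⟩ := lip_of_orbits Fb.φ (fun x y => Fb.dv p x y + Fb.dh p x y)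
    (fun x y => Fb.dv q x y + Fb.dh q x y) (pm_add_FinClass (Fb.pv p) (Fb.ph p))
    (pm_add_FinClass (Fb.pv q) (Fb.ph q)) hκ hrg hp.fin Fb.orb
    (fun o x y => by rw [Fb.inv_v, Fb.inv_h]) (fun o x y => by rw [Fb.inv_v, Fb.inv_h])
  refine ⟨K, fun Φ hΦ => le_of_forall_pos_le_add fun ε hε => ?_⟩
  have hK' : 0 < 3 * K + 2 := by linarith
  obtain ⟨x, y, t, t0, t1, ht⟩ := hΦ {p, q} (ε / (3 * K + 2)) (div_pos hε hK')
  obtain ⟨a1, a2⟩ := ht p (by simp)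
  obtain ⟨a3, a4⟩ := ht q (by simp)
  have e : (3 * K + 2) * (ε / (3 * K + 2)) = ε := mul_div_cancel₀ _ hK'.ne'
  generalize ε / (3 * K + 2) = η at *
  have h1 := mul_le_mul_of_nonneg_left (h x y) t0.le
  have h2 := mul_le_mul_of_nonneg_left (add_le_add (abs_le.1 a1).2 (abs_le.1 a2).2)
    (zero_le_one.trans hK)
  have h3 := mul_le_mul_of_nonneg_left t1 (zero_le_one.trans hK)
  linarith [(abs_le.1 a3).1, (abs_le.1 a4).1]

theorem nonneg_FinClass {Q P : Type} [MulAction G8 Q] {S : Base Q} {q0 : Q} (Fb : Fib S q0 P)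
    (Φ : (Q → ℝ) × (Q → ℝ)) (hΦ : Φ ∈ LimF Fb.dv Fb.dh) (q : Q) : 0 ≤ Φ.1 q ∧ 0 ≤ Φ.2 q := by
  constructor <;> refine le_of_forall_pos_le_add fun ε hε => ?_ <;>
    obtain ⟨x, y, t, t0, -, ht⟩ := hΦ {q} ε hε <;>
    obtain ⟨a1, a2⟩ := ht q (Finset.mem_singleton_self q)
  · linarith [(abs_le.1 a1).2, mul_nonneg t0.le (pm_nonneg_FinClass (Fb.pv q) x y)]
  · linarith [(abs_le.1 a2).2, mul_nonneg t0.le (pm_nonneg_FinClass (Fb.ph q) x y)]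

theorem fclass_of {Q P : Type} [MulAction G8 Q] {S : Base Q} {q0 : Q} (Fb : Fib S q0 P)
    (hV : FSide S.dv S.dh S.dg S.P0
      (fun F z => ∃ Φ ∈ LimF Fb.dv Fb.dh, F = Φ.1 ∧ z = Φ.1 q0 + Φ.2 q0))
    (hH : FSide S.dh S.dv S.dg S.P0
      (fun F z => ∃ Φ ∈ LimF Fb.dv Fb.dh, F = Φ.2 ∧ z = Φ.1 q0 + Φ.2 q0)) :
    FClass S q0 (LimF Fb.dv Fb.dh) := by
  classical
  refine ⟨nonneg_FinClass Fb, fun Φ hΦ γ T ε hε => ?_, fun q => bound_FinClass Fb q0 q Fb.thick,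
    hV, hH⟩
  have hl : 0 < S.lam := zero_lt_one.trans S.lam1
  have ha : 0 < S.lam ^ (S.dg γ) := zpow_pos hl _
  have hb : 0 < S.lam ^ (-S.dg γ) := zpow_pos hl _
  have hab : S.lam ^ (-S.dg γ) * S.lam ^ (S.dg γ) = 1 := by
    rw [← zpow_add₀ hl.ne', neg_add_cancel, zpow_zero]
  have hc : 0 < 1 + S.lam ^ (S.dg γ) + S.lam ^ (-S.dg γ) := by positivity
  obtain ⟨x, y, t, t0, t1, ht⟩ := hΦ (T.image (γ • ·)) _ (div_pos hε hc)
  have e := mul_div_cancel₀ ε hc.ne'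
  have hη := div_pos hε hc
  generalize ε / (1 + S.lam ^ (S.dg γ) + S.lam ^ (-S.dg γ)) = η at *
  have h1 := mul_pos ha hη
  have h2 := mul_pos hb hη
  refine ⟨(Fb.s γ)⁻¹ x, (Fb.s γ)⁻¹ y, t, t0, by linarith, fun q hq => ?_⟩
  obtain ⟨a1, a2⟩ := ht _ (Finset.mem_image_of_mem _ hq)
  have ev := Fb.eq_v γ q ((Fb.s γ)⁻¹ x) ((Fb.s γ)⁻¹ y)
  have eh := Fb.eq_h γ q ((Fb.s γ)⁻¹ x) ((Fb.s γ)⁻¹ y)
  simp only [Equiv.Perm.coe_inv, Equiv.apply_symm_apply] at ev eh ⊢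
  rw [ev] at a1
  rw [eh] at a2
  constructor
  · have h3 := mul_le_mul_of_nonneg_left a1 hb.le
    rw [← abs_of_pos hb, ← abs_mul, abs_of_pos hb, mul_sub, mul_left_comm, ← mul_assoc _ _
      (Fb.dv _ _ _), hab, one_mul] at h3
    linarith
  · have h3 := mul_le_mul_of_nonneg_left a2 ha.le
    rw [← abs_of_pos ha, ← abs_mul, abs_of_pos ha, mul_sub, mul_left_comm, ← mul_assoc _ _
      (Fb.dh _ _ _), mul_comm (S.lam ^ (S.dg γ)), hab, one_mul] at h3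
    linarith

/-- If a limit functional vanishes at a thick point, it vanishes at the base point. -/
theorem zero_of_thick {Q P : Type} [MulAction G8 Q] {S : Base Q} {q0 : Q} (Fb : Fib S q0 P)
    (q : Q) (hq : Thick (fun x y => Fb.dv q x y + Fb.dh q x y))
    (Φ : (Q → ℝ) × (Q → ℝ)) (hΦ : Φ ∈ LimF Fb.dv Fb.dh) (h1 : Φ.1 q = 0) (h2 : Φ.2 q = 0) :
    Φ.1 q0 + Φ.2 q0 = 0 := by
  obtain ⟨K, hK⟩ := bound_FinClass Fb q q0 hq
  have h3 := hK Φ hΦ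
  rw [h1, h2, add_zero, mul_zero] at h3
  obtain ⟨h4, h5⟩ := nonneg_FinClass Fb Φ hΦ q0
  linarith

end Pool.Agent.E5f.G2

end

section

namespace Pool.Agent.E5f.G2

/-- The fibre metric over an element of the surface group. -/
noncomputable def Fib.D {Q P : Type} [MulAction G8 Q] {S : Base Q} {q0 : Q} (Fb : Fib S q0 P)
    {h : ℕ} (A : Arith h) (b : SG h) (x y : P) : ℝ :=
  Fb.dv q0 ((Fb.s (A.ι b))⁻¹ x) ((Fb.s (A.ι b))⁻¹ y) +
    Fb.dh q0 ((Fb.s (A.ι b))⁻¹ x) ((Fb.s (A.ι b))⁻¹ y)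

section Aux

variable {Q P : Type} [MulAction G8 Q] {S : Base Q} {q0 : Q} (Fb : Fib S q0 P) {h : ℕ}

theorem Fib.lipq_FinFlare (q : Q) : ∃ K : ℝ, 1 ≤ K ∧ ∀ x y,
    Fb.dv q x y + Fb.dh q x y ≤ K * (Fb.dv q0 x y + Fb.dh q0 x y) + K := by
  obtain ⟨κ, hκ, hrg⟩ := Fb.thick.rg
  exact lip_of_orbits Fb.φ _ _ (pm_add_FinFlare (Fb.pv q0) (Fb.ph q0))
    (pm_add_FinFlare (Fb.pv q) (Fb.ph q)) hκ hrg Fb.thick.fin Fb.orb
    (fun o x y => by rw [Fb.inv_v, Fb.inv_h]) (fun o x y => by rw [Fb.inv_v, Fb.inv_h])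

theorem Fib.D_eq_FinFlare (A : Arith h) (b : SG h) (x y : P) :
    Fb.D A b x y = S.lam ^ (-S.dg (A.ι b)) * Fb.dv (A.ι b • q0) x y +
      S.lam ^ (S.dg (A.ι b)) * Fb.dh (A.ι b • q0) x y := by
  have hl : S.lam ≠ 0 := (zero_lt_one.trans S.lam1).ne'
  have h1 := Fb.eq_v (A.ι b) q0 ((Fb.s (A.ι b))⁻¹ x) ((Fb.s (A.ι b))⁻¹ y)
  have h2 := Fb.eq_h (A.ι b) q0 ((Fb.s (A.ι b))⁻¹ x) ((Fb.s (A.ι b))⁻¹ y)
  simp only [Equiv.Perm.coe_inv, Equiv.apply_symm_apply] at h1 h2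
  rw [h1, h2, ← mul_assoc, ← mul_assoc, ← zpow_add₀ hl, ← zpow_add₀ hl]
  simp [Fib.D]

theorem Fib.D_nonneg_FinFlare (A : Arith h) (b : SG h) (x y : P) : 0 ≤ Fb.D A b x y :=
  add_nonneg (pm_nonneg_FinFlare (Fb.pv q0) _ _) (pm_nonneg_FinFlare (Fb.ph q0) _ _)

theorem Fib.D_mul_FinFlare (A : Arith h) (b g : SG h) (x y : P) :
    Fb.D A (b * g) x y = Fb.D A g ((Fb.s (A.ι b))⁻¹ x) ((Fb.s (A.ι b))⁻¹ y) := by
  simp only [Fib.D, map_mul, mul_inv_rev, Equiv.Perm.mul_apply]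

theorem Fib.D_one_FinFlare (A : Arith h) (x y : P) :
    Fb.D A 1 x y = Fb.dv q0 x y + Fb.dh q0 x y := by
  simp [Fib.D]

theorem Fib.lipg_FinFlare (A : Arith h) (g : SG h) : ∃ K : ℝ, 1 ≤ K ∧ ∀ x y,
    Fb.D A g x y ≤ K * Fb.D A 1 x y + K := by
  obtain ⟨K, hK, hx⟩ := Fb.lipq_FinFlare (A.ι g • q0)
  have hl : 0 < S.lam := zero_lt_one.trans S.lam1
  have h1 : 0 < S.lam ^ (-S.dg (A.ι g)) := zpow_pos hl _
  have h2 : 0 < S.lam ^ (S.dg (A.ι g)) := zpow_pos hl _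
  refine ⟨(1 + S.lam ^ (-S.dg (A.ι g)) + S.lam ^ (S.dg (A.ι g))) * K, by nlinarith,
    fun x y => ?_⟩
  have h3 := pm_nonneg_FinFlare (Fb.pv (A.ι g • q0)) x y
  have h4 := pm_nonneg_FinFlare (Fb.ph (A.ι g • q0)) x y
  rw [Fb.D_eq_FinFlare A g, Fb.D_one_FinFlare, mul_assoc, ← mul_add]
  refine le_trans ?_ (mul_le_mul_of_nonneg_left (hx x y) (by positivity))
  nlinarith [mul_nonneg h1.le h4, mul_nonneg h2.le h3]

/-- The limit lemma. -/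
theorem Fib.limit_FinFlare (A : Arith h) (hg : Gens (sgen h))
    (hb : NoBad S q0 (LimF Fb.dv Fb.dh) A) (Θ : ℝ) : ∃ n : ℕ, ∀ (γ : ℤ → SG h) (x y : P),
      (∀ i j : ℤ, |i| ≤ n → |j| ≤ n → gd (cay (sgen h)) (γ i) (γ j) = |(i : ℝ) - (j : ℝ)|) →
      (n : ℝ) ≤ Fb.D A (γ 0) x y →
      ∃ j : ℤ, |j| ≤ n ∧ Θ * Fb.D A (γ 0) x y < Fb.D A (γ j) x y := by
  by_contra hc
  push Not at hc
  have hc' : ∀ n : ℕ, ∃ (γ : ℤ → SG h) (x y : P), γ 0 = 1 ∧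
      (∀ i j : ℤ, |i| ≤ n → |j| ≤ n → gd (cay (sgen h)) (γ i) (γ j) = |(i : ℝ) - (j : ℝ)|) ∧
      (n : ℝ) + 1 ≤ Fb.D A 1 x y ∧
      ∀ j : ℤ, |j| ≤ n → Fb.D A (γ j) x y ≤ Θ * Fb.D A 1 x y := by
    intro n
    obtain ⟨γ, x, y, h1, h2, h3⟩ := hc (n + 1)
    have e : ∀ j, Fb.D A (γ j) x y = Fb.D A ((γ 0)⁻¹ * γ j) ((Fb.s (A.ι (γ 0)))⁻¹ x)
        ((Fb.s (A.ι (γ 0)))⁻¹ y) := fun j => by
      rw [← Fb.D_mul_FinFlare, mul_inv_cancel_left]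
    have e0 := e 0
    rw [inv_mul_cancel] at e0
    refine ⟨fun j => (γ 0)⁻¹ * γ j, (Fb.s (A.ι (γ 0)))⁻¹ x, (Fb.s (A.ι (γ 0)))⁻¹ y,
      inv_mul_cancel _, fun i j hi hj => ?_, ?_, fun j hj => ?_⟩
    · rw [← h1 i j (by push_cast; omega) (by push_cast; omega), cay_dist hg, cay_dist hg]
      congr 2
      group
    · rw [← e0]; exact_mod_cast h2
    · rw [← e0, ← e]; exact h3 j (by push_cast; omega)
  choose γ x y h0 h1 h2 h3 using hc'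
  set U := Filter.hyperfilter ℕ with hU
  have hUt : (U : Filter ℕ) ≤ Filter.atTop := by
    rw [← Nat.cofinite_eq_atTop]; exact Filter.hyperfilter_le_cofinite
  have hge : ∀ j : ℤ, ∀ᶠ n : ℕ in U, |j| ≤ n := fun j =>
    ((Filter.eventually_ge_atTop j.natAbs).mono fun n hn => by
      rw [abs_le]; omega).filter_mono hUt
  have hconst : ∀ j : ℤ, ∃ b, ∀ᶠ n : ℕ in U, γ n j = b := by
    intro j
    have hm : {g : SG h | wl (sgen h) g = j.natAbs} ∈ U.map (fun n => γ n j) := by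
      refine (hge j).mono fun n hn => ?_
      have h4 := h1 n 0 j (by simp) hn
      rw [h0, cay_dist hg, inv_one, one_mul] at h4
      have h5 : ((wl (sgen h) (γ n j) : ℤ) : ℝ) = ((j.natAbs : ℤ) : ℝ) := by
        simpa using h4
      exact_mod_cast h5
    obtain ⟨b, -, hb'⟩ := Ultrafilter.eq_pure_of_finite_mem (ball_finite_FinFlare hg _) hm
    refine ⟨b, ?_⟩
    have : {b} ∈ U.map (fun n => γ n j) := by rw [hb']; simp
    exact this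
  choose β hβ using hconst
  set t : ℕ → ℝ := fun n => (Fb.D A 1 (x n) (y n))⁻¹ with ht
  have hD : ∀ n, 0 < Fb.D A 1 (x n) (y n) := fun n => lt_of_lt_of_le (by positivity) (h2 n)
  have ht0 : ∀ n, 0 < t n := fun n => inv_pos.2 (hD n)
  have htD : ∀ n, t n * Fb.D A 1 (x n) (y n) = 1 := fun n => inv_mul_cancel₀ (hD n).ne'
  have ht1 : ∀ n, t n ≤ ((n : ℝ) + 1)⁻¹ := fun n => inv_anti₀ (by positivity) (h2 n)
  have hbd : ∀ q, ∃ C : ℝ, ∀ n, (0 ≤ t n * Fb.dv q (x n) (y n) ∧ t n * Fb.dv q (x n) (y n) ≤ C) ∧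
      (0 ≤ t n * Fb.dh q (x n) (y n) ∧ t n * Fb.dh q (x n) (y n) ≤ C) := by
    intro q
    obtain ⟨K, hK, hx⟩ := Fb.lipq_FinFlare q
    refine ⟨2 * K, fun n => ?_⟩
    have a1 := mul_nonneg (ht0 n).le (pm_nonneg_FinFlare (Fb.pv q) (x n) (y n))
    have a2 := mul_nonneg (ht0 n).le (pm_nonneg_FinFlare (Fb.ph q) (x n) (y n))
    have a3 := mul_le_mul_of_nonneg_left (hx (x n) (y n)) (ht0 n).le
    rw [← Fb.D_one_FinFlare A, mul_add, mul_add, mul_left_comm, htD] at a3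
    have a4 : t n ≤ 1 := (ht1 n).trans (inv_le_one_of_one_le₀ (by simp))
    have a5 : t n * K ≤ K := by nlinarith
    exact ⟨⟨a1, by linarith⟩, a2, by linarith⟩
  have hl1 : ∀ q, ∃ a, Filter.Tendsto (fun n => t n * Fb.dv q (x n) (y n)) U (nhds a) := fun q =>
    let ⟨C, hC⟩ := hbd q
    ultra_lim_FinFlare U _ C fun n => (hC n).1
  have hl2 : ∀ q, ∃ a, Filter.Tendsto (fun n => t n * Fb.dh q (x n) (y n)) U (nhds a) := fun q =>
    let ⟨C, hC⟩ := hbd q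
    ultra_lim_FinFlare U _ C fun n => (hC n).2
  choose F1 hF1 using hl1
  choose F2 hF2 using hl2
  refine hb β (F1, F2) Θ (fun i j => ?_) ?_ (fun T ε hε => ?_) ?_ fun j => ?_
  · obtain ⟨n, a1, a2, a3, a4⟩ := ((hβ i).and ((hβ j).and ((hge i).and (hge j)))).exists
    rw [← a1, ← a2]
    exact h1 n i j a3 a4
  · obtain ⟨n, a1⟩ := (hβ 0).exists
    rw [← a1, h0]
  · have a1 : ∀ᶠ n : ℕ in U, t n ≤ ε := by
      have := (tendsto_one_div_add_atTop_nhds_zero_nat (𝕜 := ℝ)).eventually (ge_mem_nhds hε)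
      exact (this.mono fun n hn => (ht1 n).trans (by simpa using hn)).filter_mono hUt
    have a2 : ∀ᶠ n : ℕ in U, ∀ q ∈ T, |t n * Fb.dv q (x n) (y n) - F1 q| ≤ ε ∧
        |t n * Fb.dh q (x n) (y n) - F2 q| ≤ ε := by
      rw [Filter.eventually_all_finset]
      intro q _
      have b1 := Metric.tendsto_nhds.1 (hF1 q) ε hε
      have b2 := Metric.tendsto_nhds.1 (hF2 q) ε hε
      filter_upwards [b1, b2] with n c1 c2
      exact ⟨c1.le, c2.le⟩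
    obtain ⟨n, b1, b2⟩ := (a1.and a2).exists
    exact ⟨x n, y n, t n, ht0 n, b1, b2⟩
  · refine tendsto_nhds_unique ((hF1 q0).add (hF2 q0)) (tendsto_const_nhds.congr fun n => ?_)
    rw [← mul_add, ← Fb.D_one_FinFlare A, htD]
  · refine le_of_tendsto (((hF1 (A.ι (β j) • q0)).const_mul _).add
      ((hF2 (A.ι (β j) • q0)).const_mul _)) ?_
    filter_upwards [hβ j, hge j] with n a1 a2
    have a3 := mul_le_mul_of_nonneg_left (h3 n j a2) (ht0 n).le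
    rw [mul_left_comm, htD, mul_one, a1, Fb.D_eq_FinFlare] at a3
    linarith

end Aux

theorem Fib.lipD {Q P : Type} [MulAction G8 Q] {S : Base Q} {q0 : Q} (Fb : Fib S q0 P)
    {h : ℕ} (A : Arith h) : ∃ K : ℝ, 1 ≤ K ∧ ∀ b b', (cay (sgen h)).Adj b b' → ∀ x y,
      Fb.D A b' x y ≤ K * Fb.D A b x y + K := by
  choose K hK hx using Fb.lipg_FinFlare A
  have h0 : ∀ i, 0 ≤ K (sgen h i) + K (sgen h i)⁻¹ := fun i => by
    linarith [hK (sgen h i), hK (sgen h i)⁻¹]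
  have h1 : 0 ≤ ∑ i, (K (sgen h i) + K (sgen h i)⁻¹) := Finset.sum_nonneg fun i _ => h0 i
  refine ⟨1 + ∑ i, (K (sgen h i) + K (sgen h i)⁻¹), by linarith, ?_⟩
  have key : ∀ b g x y, K g ≤ 1 + ∑ i, (K (sgen h i) + K (sgen h i)⁻¹) →
      Fb.D A (b * g) x y ≤ (1 + ∑ i, (K (sgen h i) + K (sgen h i)⁻¹)) * Fb.D A b x y +
        (1 + ∑ i, (K (sgen h i) + K (sgen h i)⁻¹)) := by
    intro b g x y hle
    have h2 := hx g ((Fb.s (A.ι b))⁻¹ x) ((Fb.s (A.ι b))⁻¹ y)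
    rw [← Fb.D_mul_FinFlare, ← Fb.D_mul_FinFlare, mul_one] at h2
    have h3 := mul_le_mul_of_nonneg_right hle (Fb.D_nonneg_FinFlare A b x y)
    linarith
  rintro b b' ⟨-, i, hi⟩ x y
  have h4 := Finset.single_le_sum (f := fun i => K (sgen h i) + K (sgen h i)⁻¹)
    (fun i _ => h0 i) (Finset.mem_univ i)
  have h5 := hK (sgen h i)
  have h6 := hK (sgen h i)⁻¹
  rcases hi with hi | hi
  · rw [hi]
    exact key _ _ _ _ (by linarith)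
  · rw [show b' = b * (sgen h i)⁻¹ by rw [hi, mul_inv_cancel_right]]
    exact key _ _ _ _ (by linarith)

theorem Fib.flares {Q P : Type} [MulAction G8 Q] {S : Base Q} {q0 : Q} (Fb : Fib S q0 P)
    {h : ℕ} (A : Arith h) (hg : Gens (sgen h)) (hb : NoBad S q0 (LimF Fb.dv Fb.dh) A) :
    ∃ (n : ℕ) (M : ℝ), 1 ≤ n ∧ Flares (cay (sgen h)) (Fb.D A) n M := by
  obtain ⟨K, hK, hlip⟩ := Fb.lipD A
  obtain ⟨n1, hn1⟩ := Fb.limit_FinFlare A hg hb 1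
  obtain ⟨m, hm⟩ := Fb.limit_FinFlare A hg hb (3 * (2 * K) ^ n1)
  refine ⟨m + 1, m + n1 + 1, by omega, fun γ hγ x y hM => ?_⟩
  by_contra hlt
  rw [not_le, max_lt_iff] at hlt
  have hseg : ∀ (c r : ℕ), r ≤ c → c + r ≤ 2 * (m + 1) → ∀ i j : ℤ, |i| ≤ r → |j| ≤ r →
      gd (cay (sgen h)) (γ (c + i).toNat) (γ (c + j).toNat) = |(i : ℝ) - (j : ℝ)| := by
    intro c r h1 h2 i j hi hj
    rw [abs_le] at hi hj
    rw [hγ _ _ (by omega) (by omega)]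
    have e : ∀ k : ℤ, 0 ≤ (c : ℤ) + k → (((c + k).toNat : ℕ) : ℝ) = c + k := fun k hk => by
      have : (((c + k).toNat : ℕ) : ℤ) = c + k := Int.toNat_of_nonneg hk
      exact_mod_cast this
    rw [e i (by omega), e j (by omega)]
    congr 1
    ring
  obtain ⟨i, hi, hmax⟩ := (Finset.range (2 * (m + 1) + 1)).exists_max_image
    (fun i => Fb.D A (γ i) x y) ⟨0, by simp⟩
  rw [Finset.mem_range] at hi
  have hmax' : ∀ j, j ≤ 2 * (m + 1) → Fb.D A (γ j) x y ≤ Fb.D A (γ i) x y := fun j hj =>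
    hmax j (Finset.mem_range.2 (by omega))
  have hm0 : (0 : ℝ) ≤ m := Nat.cast_nonneg _
  have hn0 : (0 : ℝ) ≤ n1 := Nat.cast_nonneg _
  have hstep : ∀ a b : ℕ, a ≤ 2 * (m + 1) → b ≤ 2 * (m + 1) → (a = b + 1 ∨ b = a + 1) →
      Fb.D A (γ b) x y + 1 ≤ 2 * K * (Fb.D A (γ a) x y + 1) := by
    intro a b ha hb' hab
    have h1 := hγ a b ha hb'
    have h2 : |(a : ℝ) - (b : ℝ)| = 1 := by rcases hab with rfl | rfl <;> simp
    rw [h2, gd] at h1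
    have h3 := hlip _ _ (SimpleGraph.dist_eq_one_iff_adj.1 (by exact_mod_cast h1)) x y
    have h4 := Fb.D_nonneg_FinFlare A (γ a) x y
    nlinarith
  have hpow : ∀ k, k ≤ n1 → (2 * K) ^ k ≤ (2 * K) ^ n1 := fun k hk =>
    pow_le_pow_right₀ (by linarith) hk
  have hp0 : 0 < (2 * K) ^ n1 := by positivity
  have hend : ∀ (k : ℕ) (z : ℝ), k ≤ n1 → 0 ≤ z → z < 2 * Fb.D A (γ (m + 1)) x y →
      Fb.D A (γ i) x y + 1 ≤ (2 * K) ^ k * (z + 1) →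
      Fb.D A (γ i) x y ≤ 3 * (2 * K) ^ n1 * Fb.D A (γ (m + 1)) x y := by
    intro k z hk hz hz' h1
    have h2 : (2 * K) ^ k * (z + 1) ≤ (2 * K) ^ n1 * (3 * Fb.D A (γ (m + 1)) x y) :=
      mul_le_mul (hpow k hk) (by linarith) (by linarith) hp0.le
    linarith
  have hbd : Fb.D A (γ i) x y ≤ 3 * (2 * K) ^ n1 * Fb.D A (γ (m + 1)) x y := by
    by_cases h1 : i < n1
    · refine hend i _ h1.le (Fb.D_nonneg_FinFlare A _ x y) hlt.1 ?_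
      exact chain_FinFlare (f := fun k => Fb.D A (γ k) x y + 1) (N := 2 * (m + 1)) (by linarith)
        (fun k hk => hstep k (k + 1) (by omega) (by omega) (Or.inr rfl)) i (by omega)
    by_cases h2 : 2 * (m + 1) < i + n1
    · refine hend (2 * (m + 1) - i) _ (by omega) (Fb.D_nonneg_FinFlare A _ x y) hlt.2 ?_
      have := chain_FinFlare (f := fun k => Fb.D A (γ (2 * (m + 1) - k)) x y + 1)
        (N := 2 * (m + 1)) (C := 2 * K) (by linarith)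
        (fun k hk => hstep _ _ (by omega) (by omega) (Or.inl (by omega))) (2 * (m + 1) - i)
        (by omega)
      rwa [show 2 * (m + 1) - (2 * (m + 1) - i) = i by omega, Nat.sub_zero] at this
    exfalso
    obtain ⟨j, hj, hlt'⟩ := hn1 (fun j => γ (i + j).toNat) x y
      (hseg i n1 (by omega) (by omega)) (by
        have := hmax' (m + 1) (by omega)
        simp only [add_zero, Int.toNat_natCast]
        linarith)
    rw [abs_le] at hj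
    have := hmax' (i + j).toNat (by omega)
    simp only [add_zero, Int.toNat_natCast] at hlt'
    linarith
  obtain ⟨j, hj, hlt'⟩ := hm (fun j => γ (((m + 1 : ℕ) : ℤ) + j).toNat) x y
    (hseg (m + 1) m (by omega) (by omega)) (by
      simp only [add_zero, Int.toNat_natCast]
      linarith)
  rw [abs_le] at hj
  have := hmax' (((m + 1 : ℕ) : ℤ) + j).toNat (by omega)
  simp only [add_zero, Int.toNat_natCast] at hlt'
  linarith

end Pool.Agent.E5f.G2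

end


section

namespace Pool.Agent.E5f.G2

section

variable {Q P : Type} [MulAction G8 Q] {S : Base Q} {q0 : Q} (Fb : Fib S q0 P)

theorem Fib.conj_FinGroup (γ : G8) {n : Equiv.Perm P} (hn : n ∈ Fb.φ.range) :
    Fb.s γ * n * (Fb.s γ)⁻¹ ∈ Fb.φ.range := by
  obtain ⟨o, rfl⟩ := hn
  obtain ⟨o', ho⟩ := Fb.norm γ o
  exact ⟨o', ho.symm⟩

variable {h : ℕ} (A : Arith h)

/-- The extension group. -/
def Fib.ext_FinGroup : Subgroup (Equiv.Perm P × SG h) where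
  carrier := {g | g.1 * (Fb.s (A.ι g.2))⁻¹ ∈ Fb.φ.range}
  one_mem' := ⟨1, by simp⟩
  mul_mem' := by
    intro a b ha hb
    have := mul_mem ha (Fb.conj_FinGroup (A.ι a.2) hb)
    change (a.1 * b.1) * (Fb.s (A.ι (a.2 * b.2)))⁻¹ ∈ Fb.φ.range
    rw [map_mul, map_mul]
    have e : a.1 * b.1 * (Fb.s (A.ι a.2) * Fb.s (A.ι b.2))⁻¹ =
        a.1 * (Fb.s (A.ι a.2))⁻¹ *
          (Fb.s (A.ι a.2) * (b.1 * (Fb.s (A.ι b.2))⁻¹) * (Fb.s (A.ι a.2))⁻¹) := by group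
    rw [e]
    exact this
  inv_mem' := by
    intro a ha
    have := Fb.conj_FinGroup (A.ι a.2)⁻¹ (inv_mem ha)
    change a.1⁻¹ * (Fb.s (A.ι a.2⁻¹))⁻¹ ∈ Fb.φ.range
    rw [map_inv] at this
    rw [map_inv, map_inv]
    have e : a.1⁻¹ * (Fb.s (A.ι a.2))⁻¹⁻¹ =
        (Fb.s (A.ι a.2))⁻¹ * (a.1 * (Fb.s (A.ι a.2))⁻¹)⁻¹ * (Fb.s (A.ι a.2))⁻¹⁻¹ := by group
    rw [e]
    exact this

/-- The action of the extension group on the total space. -/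
@[reducible] def Fib.act_FinGroup : MulAction (Fb.ext_FinGroup A) (P × SG h) where
  smul g X := (g.1.1 X.1, g.1.2 * X.2)
  one_smul _ := Prod.ext rfl (one_mul _)
  mul_smul _ _ _ := Prod.ext rfl (mul_assoc _ _ _)

theorem Fib.Dinv_FinGroup (g : Fb.ext_FinGroup A) (b : SG h) (x y : P) :
    Fb.D A (g.1.2 * b) (g.1.1 x) (g.1.1 y) = Fb.D A b x y := by
  obtain ⟨o, ho⟩ := Fb.conj_FinGroup (A.ι (g.1.2 * b))⁻¹ g.2
  have e : (Fb.s (A.ι (g.1.2 * b)))⁻¹ * g.1.1 = Fb.φ o * (Fb.s (A.ι b))⁻¹ := by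
    rw [ho, map_inv, map_mul, map_mul]
    group
  have e' : ∀ z, (Fb.s (A.ι (g.1.2 * b)))⁻¹ (g.1.1 z) = Fb.φ o ((Fb.s (A.ι b))⁻¹ z) := fun z => by
    rw [← Equiv.Perm.mul_apply, e, Equiv.Perm.mul_apply]
  rw [Fib.D, Fib.D, e', e', Fb.inv_v, Fb.inv_h]

theorem Fib.adj_FinGroup (r : ℝ) (g : Fb.ext_FinGroup A) (X Y : P × SG h)
    (hXY : (totG (cay (sgen h)) (Fb.D A) r).Adj X Y) :
    (totG (cay (sgen h)) (Fb.D A) r).Adj (g.1.1 X.1, g.1.2 * X.2) (g.1.1 Y.1, g.1.2 * Y.2) := by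
  obtain ⟨h0, h1⟩ := hXY
  refine ⟨fun e => h0 (Prod.ext (g.1.1.injective (congrArg Prod.fst e))
    (mul_left_cancel (congrArg Prod.snd e))), ?_⟩
  rcases h1 with ⟨h1, h2, h3⟩ | ⟨h1, h2, i, h3⟩
  · exact Or.inl ⟨congrArg (g.1.2 * ·) h1, (Fb.Dinv_FinGroup A g _ _ _).trans_le h2,
      (Fb.Dinv_FinGroup A g _ _ _).trans_le h3⟩
  · refine Or.inr ⟨congrArg g.1.1 h1, fun e => h2 (mul_left_cancel e), i, ?_⟩
    rcases h3 with h3 | h3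
    · exact Or.inl (by simp only [h3, mul_assoc])
    · exact Or.inr (by simp only [h3, mul_assoc])

theorem Fib.comb_FinGroup (hg : Gens (sgen h)) (hH : ∃ δ, Hyp (gd (cay (sgen h))) δ)
    (hfl : ∃ (n : ℕ) (M : ℝ), 1 ≤ n ∧ Flares (cay (sgen h)) (Fb.D A) n M) :
    ∃ r, CombOut (cay (sgen h)) (Fb.D A) r := by
  obtain ⟨δ, hδ⟩ := hH
  obtain ⟨n, M, hn, hf⟩ := hfl
  obtain ⟨δ', hδ'⟩ := Fb.thick.hyp
  obtain ⟨κ, hκ, hrg⟩ := Fb.thick.rg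
  obtain ⟨K, hK, hl⟩ := Fb.lipD A
  refine ⟨_, comb (δ := max δ δ') (κ := κ) (K := K) (n := n) (M := M)
    ⟨Fb.ne, cay_conn hg, hyp_mono_FinGroup hδ (le_max_left _ _), fun b => ⟨fun x => ?_,
      fun x y => ?_, fun x y z => ?_⟩, fun b => hyp_mono_FinGroup (δ := δ') ?_ (le_max_right _ _),
      fun b x y t h0 h1 => ?_, hκ, hK, hl, hn, hf⟩ le_rfl⟩
  · rw [Fib.D, (Fb.pv q0).self, (Fb.ph q0).self, add_zero]
  · rw [Fib.D, Fib.D, (Fb.pv q0).symm, (Fb.ph q0).symm]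
  · have h1 := (Fb.pv q0).tri ((Fb.s (A.ι b))⁻¹ x) ((Fb.s (A.ι b))⁻¹ y) ((Fb.s (A.ι b))⁻¹ z)
    have h2 := (Fb.ph q0).tri ((Fb.s (A.ι b))⁻¹ x) ((Fb.s (A.ι b))⁻¹ y) ((Fb.s (A.ι b))⁻¹ z)
    simp only [Fib.D]
    linarith
  · exact fun w x y z => hδ' ((Fb.s (A.ι b))⁻¹ w) ((Fb.s (A.ι b))⁻¹ x) ((Fb.s (A.ι b))⁻¹ y)
      ((Fb.s (A.ι b))⁻¹ z)
  · obtain ⟨z, hz⟩ := hrg ((Fb.s (A.ι b))⁻¹ x) ((Fb.s (A.ι b))⁻¹ y) t h0 h1
    refine ⟨Fb.s (A.ι b) z, ?_⟩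
    have e : (Fb.s (A.ι b))⁻¹ (Fb.s (A.ι b) z) = z := Equiv.symm_apply_apply _ _
    simpa only [Fib.D, e] using hz

theorem Fib.stab_FinGroup (x0 : P) :
    {g : Fb.ext_FinGroup A | g.1.1 x0 = x0 ∧ g.1.2 = 1}.Finite := by
  refine Set.Finite.of_finite_image (f := fun g => g.1.1) ?_ ?_
  · refine ((Fb.stab x0).image Fb.φ).subset ?_
    rintro _ ⟨g, ⟨h1, h2⟩, rfl⟩
    obtain ⟨o, ho⟩ := g.2
    have ho' : Fb.φ o = g.1.1 := by rw [ho, h2]; simp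
    exact ⟨o, show Fb.φ o x0 = x0 by rw [ho', h1], ho'⟩
  · intro g hg g' hg' e
    exact Subtype.ext (Prod.ext e (hg.2.trans hg'.2.symm))

theorem Fib.proper_FinGroup (hg : Gens (sgen h)) {r : ℝ}
    (hO : CombOut (cay (sgen h)) (Fb.D A) r) (x0 : P) (C : ℝ) :
    {g : Fb.ext_FinGroup A |
      gd (totG (cay (sgen h)) (Fb.D A) r) (x0, 1) (g.1.1 x0, g.1.2 * 1) ≤ C}.Finite := by
  obtain ⟨C', hC'⟩ := hO.fib_near C
  refine Set.Finite.of_finite_fibers (fun g : Fb.ext_FinGroup A => (g.1.1 x0, g.1.2)) ?_ ?_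
  · refine ((Fb.thick.fin x0 C').prod (ball_FinGroup hg C)).subset ?_
    rintro _ ⟨g, hg', rfl⟩
    refine ⟨?_, ?_⟩
    · simpa [Fib.D] using hC' _ _ hg'
    · simpa using (hO.le_base _ _).trans hg'
  · rintro _ ⟨g, -, rfl⟩
    refine ((Fb.stab_FinGroup A x0).image (g * ·)).subset ?_
    rintro g' ⟨-, hg'⟩
    have h1 : g'.1.1 x0 = g.1.1 x0 := congrArg Prod.fst hg'
    have h2 : g'.1.2 = g.1.2 := congrArg (Prod.snd : P × SG h → SG h) hg'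
    refine ⟨g⁻¹ * g', ⟨?_, ?_⟩, by simp⟩
    · change g.1.1⁻¹ (g'.1.1 x0) = x0
      rw [h1]
      exact Equiv.symm_apply_apply _ _
    · change g.1.2⁻¹ * g'.1.2 = 1
      rw [h2, inv_mul_cancel]

theorem Fib.cocpt_FinGroup {r : ℝ}
    (hO : CombOut (cay (sgen h)) (Fb.D A) r) (x0 : P) :
    ∃ R : ℝ, ∀ X : P × SG h, ∃ g : Fb.ext_FinGroup A,
      gd (totG (cay (sgen h)) (Fb.D A) r) (g.1.1 x0, g.1.2 * 1) X ≤ R := by
  obtain ⟨T, hT⟩ := Fb.orb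
  obtain ⟨R, hR⟩ := (Set.finite_range fun a : T =>
    gd (totG (cay (sgen h)) (Fb.D A) r) (x0, 1) (a.1, 1)).bddAbove
  refine ⟨R, fun X => ?_⟩
  obtain ⟨o, y, hy, hx⟩ := hT ((Fb.s (A.ι X.2))⁻¹ X.1)
  let g : Fb.ext_FinGroup A := ⟨(Fb.s (A.ι X.2) * Fb.φ o, X.2),
    Fb.conj_FinGroup _ ⟨o, rfl⟩⟩
  have h1 := gd_hom_FinGroup hO.conn _ (Fb.adj_FinGroup A r g) (x0, 1) (y, 1)
  have h2 := hR ⟨⟨y, hy⟩, rfl⟩
  have e : (g.1.1 y, g.1.2 * 1) = X := by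
    refine Prod.ext ?_ (mul_one _)
    change Fb.s (A.ι X.2) (Fb.φ o y) = X.1
    rw [← hx]
    exact Equiv.apply_symm_apply _ _
  refine ⟨g, ?_⟩
  rw [← e]
  exact h1.trans h2

end

theorem Fib.group {Q P : Type} [MulAction G8 Q] {S : Base Q} {q0 : Q} (Fb : Fib S q0 P)
    {h : ℕ} (A : Arith h) (hg : Gens (sgen h)) (hH : ∃ δ, Hyp (gd (cay (sgen h))) δ)
    (hfl : ∃ (n : ℕ) (M : ℝ), 1 ≤ n ∧ Flares (cay (sgen h)) (Fb.D A) n M) :
    ∃ (G : Type) (_ : Group G) (n : ℕ) (s : Fin n → G) (i : SG 2 →* G) (p : G →* SG h),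
      Gens s ∧ FourPt s ∧ Function.Injective i ∧ Function.Surjective p ∧ i.range = p.ker := by
  obtain ⟨r, hO⟩ := Fb.comb_FinGroup A hg hH hfl
  obtain ⟨x0⟩ := Fb.ne
  obtain ⟨R, hR⟩ := Fb.cocpt_FinGroup A hO x0
  obtain ⟨δ, hδ⟩ := hO.hyp
  let := Fb.act_FinGroup A
  obtain ⟨n, s, K, hs, hq⟩ := svarc (G := Fb.ext_FinGroup A) (totG (cay (sgen h)) (Fb.D A) r)
    hO.conn (Fb.adj_FinGroup A r) (x0, 1) R hR (Fb.proper_FinGroup A hg hO x0)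
  obtain ⟨δ', hδ'⟩ := hyp_of_qie (cay_conn hs) hO.conn hδ hq
  let i0 : SG 2 →* Equiv.Perm P × SG h := Fb.φ.prod 1
  have hi0 : ∀ a, i0 a ∈ Fb.ext_FinGroup A := fun a => ⟨a, by simp [i0]⟩
  refine ⟨Fb.ext_FinGroup A, inferInstance, n, s, i0.codRestrict _ hi0,
    (MonoidHom.snd _ _).comp (Fb.ext_FinGroup A).subtype, hs, fourPt_of_hyp hs hδ', ?_, ?_, ?_⟩
  · intro a b hab
    exact Fb.inj (congrArg (fun x => x.1.1) hab)
  · intro b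
    exact ⟨⟨(Fb.s (A.ι b), b), 1, by simp⟩, rfl⟩
  · ext x
    constructor
    · rintro ⟨a, rfl⟩
      rfl
    · intro hx
      have hx' : x.1.2 = 1 := hx
      obtain ⟨o, ho'⟩ := x.2
      refine ⟨o, Subtype.ext (Prod.ext ?_ hx'.symm)⟩
      rw [hx'] at ho'
      simpa [i0] using ho'

end Pool.Agent.E5f.G2

end


section

namespace Pool.Agent.E5f.G2

/-- A hyperbolic extension from a base, a fibre family and the two interface systems. -/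
theorem group_of_sys {Q P : Type} [MulAction G8 Q] (S : Base Q) (q0 : Q) (Fb : Fib S q0 P)
    {O : Type} [AddCommGroup O] {E E' : Lat O}
    (Y : FSys E S.dv S.dh (fun q => ∃ γ : G8, S.dg γ = 0 ∧ q = γ • S.P0) Fb.dv Fb.dh)
    (Y' : FSys E' S.dh S.dv (fun q => ∃ γ : G8, S.dg γ = 0 ∧ q = γ • S.P0) Fb.dh Fb.dv) :
    ∃ h : ℕ, 2 ≤ h ∧ ∃ (G : Type) (_ : Group G) (n : ℕ) (s : Fin n → G) (i : SG 2 →* G)
      (p : G →* SG h), Gens s ∧ FourPt s ∧ Function.Injective i ∧ Function.Surjective p ∧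
        i.range = p.ker := by
  obtain ⟨h, hh, ⟨A⟩⟩ := arith_ex
  have hV := fside_of_sys (q0 := q0) Y (fun q hq Φ hΦ h1 h2 => zero_of_thick Fb q hq Φ hΦ h1 h2)
  have hH := fside_of_sys (q0 := q0) Y' (fun q hq Φ hΦ h1 h2 => by
    have hq' : Thick (fun x y => Fb.dv q x y + Fb.dh q x y) := by
      simpa only [add_comm] using hq
    have := zero_of_thick Fb q hq' Φ.swap (limF_swap hΦ) h2 h1
    simpa [add_comm] using this)
  have e2 : (fun (F : Q → ℝ) (z : ℝ) => ∃ Φ ∈ LimF Fb.dh Fb.dv, F = Φ.1 ∧ z = Φ.1 q0 + Φ.2 q0) =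
      fun F z => ∃ Φ ∈ LimF Fb.dv Fb.dh, F = Φ.2 ∧ z = Φ.1 q0 + Φ.2 q0 := by
    funext F z
    apply propext
    constructor
    · rintro ⟨Φ, hΦ, rfl, rfl⟩
      exact ⟨Φ.swap, limF_swap hΦ, rfl, add_comm _ _⟩
    · rintro ⟨Φ, hΦ, rfl, rfl⟩
      exact ⟨Φ.swap, limF_swap hΦ, rfl, add_comm _ _⟩
  rw [e2] at hH
  have hF := fclass_of Fb hV hH
  have hb := noBad S q0 _ hF A
  exact ⟨h, hh, Fb.group A (sgen_gens h) (hypH S q0 A) (Fb.flares A (sgen_gens h) hb)⟩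

end Pool.Agent.E5f.G2

end
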