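import Pool.Agent.Mg.S03381.Gc7f183
import Pool.Agent.Mg.S03381.Gb346c8

/-!
Four types of labels: definitions and the statements of the new steps (touches with four types,
the point reflection on words, the genus two subgroup).
-/

set_option autoImplicit false

namespace Pool.Agent.E5f.G2

open Classical

section touch
variable {L κ : Type} [LinearOrder κ]

/-- The two height patterns of the four types. -/
def hg (fl : Bool) : Fin 4 → ℕ := if fl = true then ![1, 3, 0, 2] else ![2, 0, 3, 1]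

/-- Block data at a collision of four types. -/
structure Blk {B : Type} (kk : Bool → L → κ) (ty : L → Fin 4) (bk : L → B) : Prop where
  uniq : ∀ x y, bk x = bk y → ty x = ty y → x = y
  out : ∀ s s' x x' y y', bk x = bk x' → bk y = bk y' → bk x ≠ bk y →
    (kk s x < kk s y ↔ kk s' x' < kk s' y')
  plus : ∀ x y, bk x = bk y → (kk true x < kk true y ↔ ty x < ty y)
  minus : ∀ x y, bk x = bk y → (kk false x < kk false y ↔ ty y < ty x)

/-- The block of `x` has all four types in `S`. -/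
def Full {B : Type} (S : Set L) (ty : L → Fin 4) (bk : L → B) (x : L) : Prop :=
  ∀ i, ∃ y ∈ S, bk y = bk x ∧ ty y = i

/-- One pass from the side `sd` to the other side with status `σ`. -/
def Pass (fl : Bool) (S : Set L) (kk : Bool → L → κ) (ty : L → Fin 4) (sd σ : Bool)
    (p p' : List L) : Prop :=
  ∃ c, FCh S (kk sd) (kk (!sd)) c ∧ (∀ e ∈ c, (hg fl (ty e.2) < hg fl (ty e.1) ↔ σ = true)) ∧
    p' = act c p

/-- A sequence of `n` passes with alternating status, from the side `sd` to the side `sd'`. -/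
def Tou (fl : Bool) (S : Set L) (kk : Bool → L → κ) (ty : L → Fin 4) :
    ℕ → Bool → Bool → List L → Bool → List L → Prop
  | 0, sd, _, p, sd', p' => sd' = sd ∧ p' = p
  | n + 1, sd, σ, p, sd', p' =>
      ∃ p1, Pass fl S kk ty sd σ p p1 ∧ Tou fl S kk ty n (!sd) (!σ) p1 sd' p'

/-- A monotone piece which contains some but not all labels of a full block in its interior. -/
def Mixed {B : Type} (S : Set L) (k : L → κ) (ty : L → Fin 4) (bk : L → B) (q : List L) : Prop :=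
  (∃ d, Mono k d q) ∧ ∃ x y, Full S ty bk x ∧ y ∈ S ∧ bk y = bk x ∧ x ∈ q ∧ y ∉ q ∧
    (∀ z, q.head? = some z → bk z ≠ bk x) ∧ (∀ z, q.getLast? = some z → bk z ≠ bk x)

/-- The map of a touch on a full block `o, a, c, b`: its two projections are three-label maps. -/
structure Q4 (o a c b : L) (n : ℕ) (τ : W L C2 →* W L C2) : Prop where
  oa : o ≠ a
  oc : o ≠ c
  ob : o ≠ b
  ac : a ≠ c
  ab : a ≠ b
  cb : c ≠ b
  inj : Function.Injective τ
  sup : ∀ g, Sup {o, a, c, b} g → Sup {o, a, c, b} (τ g)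
  ex : ∀ x g, expo x (τ g) = expo x g
  r1 : ∃ σ, ∀ g, Sup {o, a, c, b} g → ret {o, a, b} (τ g) = Wall.TT o a b n σ (ret {o, a, b} g)
  r2 : ∃ σ, ∀ g, Sup {o, a, c, b} g → ret {a, c, b} (τ g) = Wall.TT a c b n σ (ret {a, c, b} g)

/-- The local term of a syllable with both neighbours on the low side. -/
noncomputable def cL (u : L → ℝ) (s : List L) : ℝ := Wall.hdv u s + Var (s.map u) + Wall.lsv u s

/-- The local term of a syllable with both neighbours on the high side. -/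
noncomputable def cR (u : L → ℝ) (s : List L) : ℝ := -Wall.hdv u s + Var (s.map u) - Wall.lsv u s

end touch

/-- A touch is a chain of swaps inside blocks whose map on a full block satisfies `Q4`. -/
def S_T1 : Prop := ∀ (L κ B : Type) [LinearOrder κ] (fl : Bool) (S : Set L) (kk : Bool → L → κ)
  (ty : L → Fin 4) (bk : L → B), Blk kk ty bk → ∀ (n : ℕ) (sd σ sd' : Bool) (p p' : List L),
    Tou fl S kk ty n sd σ p sd' p' →
    ∃ c : List (L × L), (∀ e ∈ c, e.1 ∈ S ∧ e.2 ∈ S ∧ e.1 ≠ e.2 ∧ bk e.1 = bk e.2) ∧ p' = act c p ∧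
      sd' = (if Even n then sd else !sd) ∧ ∀ o ∈ S, ∀ a ∈ S, ∀ d ∈ S, ∀ b ∈ S, bk a = bk o →
        bk d = bk o → bk b = bk o → ty o = 0 → ty a = 1 → ty d = 2 → ty b = 3 →
        Q4 o a d b n (Wall.actH c)

/-- An even touch moves every nontrivial word in the two slower letters out of their subgroup. -/
def S_OA : Prop := ∀ (L : Type) (o a b : L), o ≠ a → o ≠ b → a ≠ b → ∀ (n : ℕ) (σ : Bool),
  2 ≤ n → Even n → (∀ h : W L C2, Sup {o, a} h → h ≠ 1 → b ∈ lab (Wall.TT o a b n σ h)) ∧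
    [b, o, b].Sublist (lab (Wall.TT o a b n σ (Wall.lc o)))

/-- Retractions shorten the list of labels, and the local terms are monotone. -/
def S_SB : Prop := ∀ (L : Type), (∀ (A : Set L) (g : W L C2), (lab (ret A g)).Sublist (lab g)) ∧
  ∀ (u : L → ℝ), (∀ x, u x = 0 ∨ u x = 1) → ∀ s t : List L, s ≠ [] → s.Sublist t →
    cL u s ≤ cL u t ∧ cR u s ≤ cR u t

/-- Wall inequalities for an even touch. -/
def S_TE : Prop := ∀ (L : Type) (o a c b : L) (n : ℕ) (τ : W L C2 →* W L C2), Q4 o a c b n τ →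
  2 ≤ n → Even n → ∀ h : W L C2, Sup {o, a, c, b} h → h ≠ 1 →
    ∀ u : L → ℝ, (∀ x, u x = 0 ∨ u x = 1) → u o = 0 → u b = 1 →
      (u a = 1 → u c = 1 → 4 ≤ cL u (lab h) + cL u (lab (τ h))) ∧
      (u a = 0 → u c = 1 → 2 ≤ cL u (lab h) + cL u (lab (τ h))) ∧
      (u a = 0 → 0 ≤ cR u (lab h) + cR u (lab (τ h)))

/-- Wall inequalities for an odd touch. -/
def S_TO : Prop := ∀ (L : Type) (o a c b : L) (n : ℕ) (τ : W L C2 →* W L C2), Q4 o a c b n τ →
  2 ≤ n → ¬ Even n → ∀ h : W L C2, Sup {o, a, c, b} h → h ≠ 1 →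
    (∀ u : L → ℝ, (∀ x, u x = 0 ∨ u x = 1) → u o = 0 → u b = 1 → u a ≤ u c →
      0 ≤ cL u (lab h) + cR u (lab (τ h)) ∧ 0 ≤ cR u (lab h) + cL u (lab (τ h))) ∧
    ∀ u u' : L → ℝ, (∀ x, u x = 0 ∨ u x = 1) → (∀ x, u' x = 0 ∨ u' x = 1) →
      u o = 0 → u a = 1 → u c = 1 → u b = 1 → u' o = 0 → u' a = 0 → u' c = 1 → u' b = 1 →
      2 ≤ cL u (lab h) + cR u (lab (τ h)) ∨ 2 ≤ cL u' (lab h) + cR u' (lab (τ h))

/-- A word without repetition that misses a label is mapped to a word with a repetition. -/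
def S_TM : Prop := ∀ (L : Type) (o a c b : L) (n : ℕ) (τ : W L C2 →* W L C2), Q4 o a c b n τ →
  2 ≤ n → ∀ h : W L C2, Sup {o, a, c, b} h → h ≠ 1 → (lab h).Nodup →
    ∀ y, (y = o ∨ y = a ∨ y = c ∨ y = b) → y ∉ lab h → ¬ (lab (τ h)).Nodup

/-- The gain at an essential touch with four types. -/
def S_T3 : Prop := ∀ (fl : Bool) (w : Fin 4 → ℝ), StrictMono w →
  ∃ c C : ℝ, 0 < c ∧ 0 ≤ C ∧ ∀ (L κ B : Type) [LinearOrder κ] (S : Set L) (kk : Bool → L → κ)
    (ty : L → Fin 4) (bk : L → B), Blk kk ty bk → ∀ (n : ℕ) (sd σ sd' : Bool) (p p' : List L),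
    2 ≤ n → Tou fl S kk ty n sd σ p sd' p' → Pth S p →
    (∀ x, TurnAt (kk sd) p x → Full S ty bk x) →
    c * turns (kk sd) p - C ≤ asl kk (fun x => w (ty x)) sd p + asl kk (fun x => w (ty x)) sd' p' ∧
    ∀ D, Dec D p → c * (D.countP (fun q => decide (Mixed S (kk sd) ty bk q)) : ℝ) - C ≤
      asl kk (fun x => w (ty x)) sd p + asl kk (fun x => w (ty x)) sd' p'

section refl
variable {L : Type}

/-- The involution `σ` reverses the order `X`. -/
structure Rev (σ : Equiv.Perm L) (X : Od L) : Prop where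
  inv : ∀ l, σ (σ l) = l
  rev : ∀ a b, X a < X b ↔ X (σ b) < X (σ a)

/-- The reflected complement of a set of labels. -/
def star (σ : Equiv.Perm L) (R : Set L) : Set L := {l | σ l ∉ R}

/-- The point reflection on words. -/
noncomputable def Jx (σ : Equiv.Perm L) (X : Od L) : WL L C2 →* WL L C2 :=
  (rlH σ).comp (Kh c2 X X)

/-- The ordered product of all letters. -/
noncomputable def dl (X : Od L) : WL L C2 := opH c2 X Set.univ

end refl

/-- The reflection of an ordered product. -/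
def S_J1 : Prop := ∀ (L : Type) (σ : Equiv.Perm L) (X : Od L), Rev σ X → ∀ D : Set L,
  Jx σ X (opH c2 X D) = dl X * (opH c2 X (star σ D))⁻¹

/-- The square of the reflection and the change of coordinates. -/
def S_JJ : Prop := ∀ (L : Type) (σ : Equiv.Perm L) (X : Od L), Rev σ X →
  (∀ g, Jx σ X (Jx σ X g) = dl X * g * (dl X)⁻¹) ∧
  ∀ Y : Od L, Rev σ Y → ∀ g, Kh c2 X Y (Jx σ X g) = (dl Y)⁻¹ * Jx σ Y (Kh c2 X Y g) * dl Y

/-- The reflection of a box word is a box word. -/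
def S_J2 : Prop := ∀ (L : Type) (σ : Equiv.Perm L) (Z : Cfg L) (t t' : ℝ), Rev σ Z.X →
  (∀ l, Z.x (σ l) = t - Z.x l) → (∀ l, Z.y (σ l) = t' - Z.y l) →
  ∀ (b : Bx) (R R' : Set L) (ω : WL L C2), BoxW c2 Z b R R' ω →
    ∃ b', BoxW c2 Z b' (star σ R) (star σ R')
      (Jx σ Z.X ((opH c2 Z.X R)⁻¹ * ω * opH c2 Z.X R'))

/-- The reflection preserves the distance in the tree of lines. -/
def S_J3 : Prop := ∀ (L : Type) (σ : Equiv.Perm L) (Z : Cfg L) (t : ℝ), Rev σ Z.X →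
  (∀ l, Z.x (σ l) = t - Z.x l) →
  ∀ (b : Bx) (R R' : Set L) (ω : WL L C2) (a a' : ℝ), BoxW c2 Z b R R' ω → At Z.x R a →
    At Z.x R' a' →
    dW Z.x (t - a) (Jx σ Z.X ((opH c2 Z.X R)⁻¹ * ω * opH c2 Z.X R')) (t - a') = dW Z.x a ω a'

/-- The product of the four cone generators. -/
def oC : OG 4 2 := oc 2 0 * oc 2 1 * oc 2 2 * oc 2 3

/-- The images of the cone generators under the reflection. -/
def alc : Fin 4 → OG 4 2 :=
  ![oc 2 0 * oc 2 1 * oc 2 2 * oc 2 3 * (oc 2 0 * oc 2 1 * oc 2 2)⁻¹,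
    oc 2 0 * oc 2 1 * oc 2 2 * (oc 2 0 * oc 2 1)⁻¹, oc 2 0 * oc 2 1 * (oc 2 0)⁻¹, oc 2 0]

theorem c2_sq : c2 ^ 2 = 1 := by decide

/-- The multiplier of the reflection of a grid. -/
noncomputable def kR {L : Type} {Z : Cfg L} (G : Grid Z 4) (σ : Equiv.Perm L) : WL L C2 :=
  stp c2 Z.X (Rs Z.x (0, false)) (star σ (Rs Z.x (0, false))) (G.Ar 1) *
    (Jx σ Z.X (opH c2 Z.X (Rs Z.x (0, false))))⁻¹

/-- The reflection of an element with translation part `v`. -/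
noncomputable def alB {L : Type} {Z : Cfg L} (G : Grid Z 4) (σ : Equiv.Perm L) (k : WL L C2)
    (v : ℤ × ℤ) : Big L C2 :=
  ⟨kR G σ * Jx σ Z.X k * (rlA (G.tv (-v)) (kR G σ))⁻¹, G.tv (-v)⟩

/-- The reflection on the generators of the orbifold group of a grid. -/
def S_R3 : Prop := ∀ (L : Type) (Z : Cfg L) (G : Grid Z 4) (σ : Equiv.Perm L), Rev σ Z.X →
  (∀ l, G.ty (σ l) = Fin.rev (G.ty l) ∧ G.p1 (σ l) = -G.p1 l ∧ G.p2 (σ l) = -G.p2 l) →
  G.ps c2 c2_sq (oC * (oa 4 2)⁻¹) = alB G σ (G.ps c2 c2_sq (oa 4 2)).left (1, 0) ∧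
  G.ps c2 c2_sq (oa 4 2 * (ob 4 2)⁻¹ * (oa 4 2)⁻¹) =
    alB G σ (G.ps c2 c2_sq (ob 4 2)).left (0, 1) ∧
  (∀ i, G.ps c2 c2_sq (alc i) = alB G σ (G.ps c2 c2_sq (oc 2 i)).left 0) ∧
  G.ps c2 c2_sq oC = SemidirectProduct.inl (kR G σ * Jx σ Z.X (kR G σ) * dl Z.X)

/-- The genus two surface group in the extension of the orbifold group by the reflection. -/
def S_K : Prop := ∀ (G : Type) [Group G] (φ : OG 4 2 →* G) (τ : G), Function.Injective φ →
  τ ∉ φ.range → τ * φ (oa 4 2) * τ⁻¹ = φ (oC * (oa 4 2)⁻¹) →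
  τ * φ (ob 4 2) * τ⁻¹ = φ (oa 4 2 * (ob 4 2)⁻¹ * (oa 4 2)⁻¹) →
  (∀ i, τ * φ (oc 2 i) * τ⁻¹ = φ (alc i)) → τ * τ = φ oC →
  ∃ Φ : SG 2 →* G, Function.Injective Φ ∧ (∀ x, Φ x ∈ φ.range ∨ Φ x * τ⁻¹ ∈ φ.range) ∧
    (∀ o, φ o ∈ Φ.range ∨ φ o * φ (oc 2 0) ∈ Φ.range) ∧
    ∀ s : G, (∀ o, s * φ o * s⁻¹ ∈ φ.range) → (∀ o, s⁻¹ * φ o * s ∈ φ.range) →
      s * τ * s⁻¹ * τ⁻¹ ∈ φ.range → s⁻¹ * τ * s * τ⁻¹ ∈ φ.range →
      ∀ x, s * Φ x * s⁻¹ ∈ Φ.range

end Pool.Agent.E5f.G2
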