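import Pool.Agent.Mg.S03381.Gf1d2bb
import Pool.Agent.MP_e5f6e8_al.G2.St

/-!
Lattice data with four types of labels and the one-sided properties of limit functionals.
-/

set_option autoImplicit false

namespace Pool.Agent.E5f.G2

/-- Lattice data with four multipliers. -/
structure Lat (O : Type) [AddCommGroup O] extends E5f.Lat O where
  mu : Fin 4 → O →+ O
  tq : Fin 4 ≃ Fin 4
  v : Fin 4 → ℝ
  v' : Fin 4 → ℝ
  fl : Bool
  wm : ℝ
  dlt : ℝ
  ξmu : ∀ i a, ξ (mu i a) = v (tq i) * ξ a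
  ηmu : ∀ i a, η (mu i a) = v' (tq i) * η a
  vm : StrictMono v
  hv : ∀ i j, hg fl i < hg fl j ↔ v' i < v' j
  dl0 : 0 < dlt
  gap : ∀ i j, i < j → dlt ≤ v j - v i
  bd : ∀ i, |v i| ≤ wm
  wd : ∀ i j, v j - v i ≤ wm
  un : ∀ i j, i ≠ j → ∀ d, ∃ a, mu i a - mu j a = d

theorem hg_conc : ∀ (fl : Bool) (j : Fin 4),
    (∃ k, (j < k ∧ hg fl j < hg fl k) ∨ (k < j ∧ hg fl k < hg fl j)) ∧
      ∃ l, (j < l ∧ hg fl l < hg fl j) ∨ (l < j ∧ hg fl j < hg fl l) := by decide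

theorem hg_top : ∀ fl : Bool, ∃ tp : Fin 4, 0 < tp ∧ tp < 3 ∧
    ∀ j, j ≠ tp → hg fl j < hg fl tp := by decide

theorem sgn4 {A A' B B' x y z w : ℝ} (h : (0 < A ∧ 0 < A') ∨ (A < 0 ∧ A' < 0))
    (h' : (0 < B ∧ B' < 0) ∨ (B < 0 ∧ 0 < B')) (e : A * x = B * y) (e' : A' * z = B' * w)
    (hz : z ≠ 0) : (0 < z * w ∧ x * y ≤ 0) ∨ (0 < z * (-w) ∧ x * (-y) ≤ 0) := by
  rcases h with ⟨h1, h2⟩ | ⟨h1, h2⟩ <;> rcases h' with ⟨h3, h4⟩ | ⟨h3, h4⟩
  · exact .inr ⟨sp1_FsLat (-B') A' (by linarith) h2 (by linarith) hz,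
      sp2_FsLat B A h3 h1 (by linarith)⟩
  · exact .inl ⟨sp1_FsLat B' A' h4 h2 (by linarith) hz,
      sp2_FsLat (-B) A (by linarith) h1 (by linarith)⟩
  · exact .inl ⟨sp1_FsLat (-B') (-A') (by linarith) (by linarith) (by linarith) hz,
      sp2_FsLat B (-A) h3 (by linarith) (by linarith)⟩
  · exact .inr ⟨sp1_FsLat B' (-A') h4 (by linarith) (by linarith) hz,
      sp2_FsLat (-B) (-A) (by linarith) (by linarith) (by linarith)⟩

theorem lin_shift {L κ : Type} [LinearOrder κ] (k : L → κ) (ρ : L → ℝ) (t : ℝ) (p : List L) :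
    lin k (fun x => ρ x - t) p = lin k ρ p := by
  induction p with
  | nil => simp [lin]
  | cons a l ih =>
    rcases l with _ | ⟨b, l⟩
    · simp [lin]
    · rw [lin, lin, ih]
      split_ifs <;> ring

end Pool.Agent.E5f.G2

section

namespace Pool.Agent.E5f.G2

open Classical Filter

namespace Lat

variable {O : Type} [AddCommGroup O] (E : Lat O)

/-- The speed of a label. -/
def sp (ν : Fin 4 × O) : ℝ := E.v (E.tq ν.1)

/-- The position of a label over the real coordinate `x`. -/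
def pos (x : ℝ) (ν : Fin 4 × O) : ℝ := E.ξ ν.2 + E.sp ν * x

/-- The order of the labels at a marker. -/
noncomputable def key (u : Mx) (ν : Fin 4 × O) : ℝ ×ₗ ℝ :=
  toLex (E.pos (ofLex u).1 ν, if (ofLex u).2 = true then E.sp ν else - E.sp ν)

/-- The block of a label at the lattice point `a`. -/
def bk (a : O) (ν : Fin 4 × O) : O := ν.2 + E.mu ν.1 a

/-- The type of a label. -/
def tyl (ν : Fin 4 × O) : Fin 4 := E.tq ν.1

end Lat

/-- Axioms on the base and the fibre. -/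
structure FSys {O : Type} [AddCommGroup O] (E : Lat O) {Q P : Type} (dv dh : Q → Q → ℝ)
    (Cu : Q → Prop) (fv fh : Q → P → P → ℝ) extends BSys E.toLat dv dh Cu where
  t3 : S_T3
  path : Q → Finset (Fin 4 × O) → P → P → List (Fin 4 × O)
  fpm : ∀ q, PM (fv q)
  fpm' : ∀ q, PM (fh q)
  ev : ∀ q x y, ∀ᶠ S in atTop, fv q x y = Var ((path q S x y).map (E.pos (toStp.px q)))
  pth : ∀ q x y, ∀ᶠ S : Finset (Fin 4 × O) in atTop, Pth (S : Set (Fin 4 × O)) (path q S x y)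
  box : ∀ q x y, ∃ (T : Finset (Fin 4 × O)) (Y : ℝ), ∀ᶠ S : Finset (Fin 4 × O) in atTop,
    (∀ ν, EndT (E.key (ux q)) (path q S x y) ν → ν ∈ T) ∧
    (∀ ν ∈ path q S x y, -Y ≤ E.η ν.2) ∧
    (∀ ν ∈ S, Y < E.η ν.2 → ¬ Skip (E.key (ux q)) (path q S x y) ν)
  chain : ∀ q r σ, St q r σ → ∀ x y, ∀ᶠ S : Finset (Fin 4 × O) in atTop, ∃ c,
    FCh (S : Set (Fin 4 × O)) (E.key (ux q)) (E.key (ux r)) c ∧
    (∀ e ∈ c, ∀ a, E.bk a e.1 = E.bk a e.2 →
      (G2.hg E.fl (E.tyl e.2) < G2.hg E.fl (E.tyl e.1) ↔ σ a = true)) ∧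
    path r S x y = act c (path q S x y)
  two : ∀ q r, St q r (E.lev (uy q)) → uy q = uy r → toStp.px q ≠ toStp.px r →
    toStp.px q ∉ Set.range E.ξ → toStp.px r ∉ Set.range E.ξ → toStp.py q ∉ Set.range E.η →
    Thick (fun x y => fv q x y + fh q x y) ∧
      ∃ c C : ℝ, 0 < c ∧ ∀ x y, c * fh q x y - C ≤ fv q x y + fv r x y

namespace FSys

variable {O : Type} [AddCommGroup O] {E : Lat O} {Q P : Type} {dv dh : Q → Q → ℝ}
  {Cu : Q → Prop} {fv fh : Q → P → P → ℝ} (Y : FSys E dv dh Cu fv fh)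

/-- The slope at `q` in direction `ε`. -/
noncomputable def sl (S : Finset (Fin 4 × O)) (x y : P) (q : Q) (ε : Bool) : ℝ :=
  (if ε = true then 1 else -1) * lin (E.key (Y.ux q)) E.sp (Y.path q S x y)

/-- The number of turns at `q`. -/
noncomputable def tu (S : Finset (Fin 4 × O)) (x y : P) (q : Q) : ℝ :=
  turns (E.key (Y.ux q)) (Y.path q S x y)

/-- The slope gain at a touch from `z` to `z'`. -/
noncomputable def tg (S : Finset (Fin 4 × O)) (x y : P) (z z' : Q) : ℝ :=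
  Y.sl S x y z' (Y.toStp.sx z') - Y.sl S x y z (!Y.toStp.sx z)

/-- The chain of a step. -/
structure CH (S : Finset (Fin 4 × O)) (x y : P) (q r : Q) (σ : O → Bool) (c : List ((Fin 4 × O) × (Fin 4 × O))) : Prop where
  fch : FCh (S : Set (Fin 4 × O)) (E.key (Y.ux q)) (E.key (Y.ux r)) c
  stat : ∀ e ∈ c, ∀ a, E.bk a e.1 = E.bk a e.2 →
    (G2.hg E.fl (E.tyl e.2) < G2.hg E.fl (E.tyl e.1) ↔ σ a = true)
  eq : Y.path r S x y = act c (Y.path q S x y)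
  pth : Pth (S : Set (Fin 4 × O)) (Y.path q S x y)

end FSys

end Pool.Agent.E5f.G2

end

section

namespace Pool.Agent.E5f.G2

open Classical Filter

namespace Lat

variable {O : Type} [AddCommGroup O] (E : Lat O)

theorem w_FsLat : StrictMono E.v := E.vm

theorem wm_pos : 0 < E.wm := (E.dl0.trans_le (E.gap 0 1 (by decide))).trans_le (E.wd 0 1)

theorem sp_FsLat {x y : Fin 4 × O} (h : E.sp x = E.sp y) : x.1 = y.1 :=
  E.tq.injective (E.w_FsLat.injective h)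

theorem lt_FsLat (u : Mx) (x y : Fin 4 × O) : E.key u x < E.key u y ↔
    E.pos (ofLex u).1 x < E.pos (ofLex u).1 y ∨ (E.pos (ofLex u).1 x = E.pos (ofLex u).1 y ∧
      if (ofLex u).2 = true then E.sp x < E.sp y else E.sp y < E.sp x) := by
  rw [key, key, Prod.Lex.toLex_lt_toLex]
  cases (ofLex u).2 <;> simp

theorem key_inj (u : Mx) : Function.Injective (E.key u) := fun x y h => by
  obtain ⟨h1, h2⟩ := Prod.ext_iff.1 (toLex.injective h)
  have h3 : E.sp x = E.sp y := by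
    dsimp only at h2
    split_ifs at h2
    exacts [h2, neg_injective h2]
  refine Prod.ext (E.sp_FsLat h3) (E.ξ_inj ?_)
  dsimp only [pos] at h1
  rw [h3] at h1
  exact add_right_cancel h1

theorem key_pos (u : Mx) {x y : Fin 4 × O} (h : E.key u x < E.key u y) :
    E.pos (ofLex u).1 x ≤ E.pos (ofLex u).1 y :=
  ((E.lt_FsLat u x y).1 h).elim le_of_lt fun h => h.1.le

theorem pos_key (u : Mx) {x y : Fin 4 × O} (h : E.pos (ofLex u).1 x < E.pos (ofLex u).1 y) :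
    E.key u x < E.key u y :=
  (E.lt_FsLat u x y).2 (.inl h)

theorem sp_abs (x : Fin 4 × O) : |E.sp x| ≤ E.wm := E.bd _

theorem sp_mem (x : Fin 4 × O) : E.v 0 ≤ E.sp x ∧ E.sp x ≤ E.v 3 :=
  ⟨E.vm.monotone (Fin.zero_le _), E.vm.monotone (Fin.le_last _)⟩

theorem sp_wd (x y : Fin 4 × O) : |E.sp x - E.sp y| ≤ E.wm :=
  abs_sub_le_iff.2 ⟨E.wd _ _, E.wd _ _⟩

theorem sp_gap {x y : Fin 4 × O} (h : E.sp x < E.sp y) : E.dlt ≤ E.sp y - E.sp x :=
  E.gap _ _ (E.vm.lt_iff_lt.1 h)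

theorem pos_bk (a : O) (x : Fin 4 × O) : E.pos (E.ξ a) x = E.ξ (E.bk a x) := by
  rw [pos, bk, map_add, E.ξmu, sp]

theorem blk (a : O) : Blk (fun s => E.key (toLex (E.ξ a, s))) E.tyl (E.bk a) := by
  have key : ∀ s x y, E.key (toLex (E.ξ a, s)) x < E.key (toLex (E.ξ a, s)) y ↔
      E.ξ (E.bk a x) < E.ξ (E.bk a y) ∨ (E.bk a x = E.bk a y ∧
        if s = true then E.tyl x < E.tyl y else E.tyl y < E.tyl x) := fun s x y => by
    simp only [lt_FsLat, ofLex_toLex, pos_bk, E.ξ_inj.eq_iff, sp, tyl, E.w_FsLat.lt_iff_lt]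
  refine ⟨fun x y h1 h2 => ?_, fun s s' x x' y y' h1 h2 h3 => ?_, fun x y h => ?_, fun x y h => ?_⟩
  · have h3 : x.1 = y.1 := E.tq.injective h2
    rw [bk, bk, h3] at h1
    exact Prod.ext h3 (add_right_cancel h1)
  · simp only [key, ← h1, ← h2, h3, false_and]
  · simp [key, h]
  · simp [key, h]

theorem key_same (u u' : Mx) {x y : Fin 4 × O} (h : x.1 = y.1) :
    E.key u x < E.key u y ↔ E.key u' x < E.key u' y := by
  simp [lt_FsLat, pos, sp, h]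

theorem col_ex {x y : Fin 4 × O} (h : x.1 ≠ y.1) : ∃ a, E.bk a x = E.bk a y := by
  obtain ⟨a, ha⟩ := E.un _ _ h (y.2 - x.2)
  exact ⟨a, by rw [bk, bk, sub_eq_iff_eq_add.1 ha]; abel⟩

theorem col_uniq {x y : Fin 4 × O} (h : x.1 ≠ y.1) {a a' : O} (h1 : E.bk a x = E.bk a y)
    (h2 : E.bk a' x = E.bk a' y) : a = a' := by
  have e1 := congrArg E.ξ h1
  have e2 := congrArg E.ξ h2
  simp only [← pos_bk, pos] at e1 e2
  refine E.ξ_inj (mul_left_cancel₀ (sub_ne_zero.2 fun e => h (E.sp_FsLat e)) ?_)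
  linarith

/-- The order of two colliding labels at a marker. -/
theorem key_col (u : Mx) {x y : Fin 4 × O} {a : O} (h : E.bk a x = E.bk a y)
    (hs : E.sp x < E.sp y) : E.key u x < E.key u y ↔ toLex (E.ξ a, true) ≤ u := by
  have e1 := congrArg E.ξ h
  simp only [← pos_bk, pos] at e1
  have e2 : E.pos (ofLex u).1 y - E.pos (ofLex u).1 x = (E.sp y - E.sp x) * ((ofLex u).1 - E.ξ a) := by
    unfold pos
    linarith
  rw [lt_FsLat, Prod.Lex.le_iff, ← sub_pos, eq_comm, ← sub_eq_zero, e2,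
    mul_pos_iff_of_pos_left (sub_pos.2 hs), mul_eq_zero_iff_left (sub_pos.2 hs).ne', sub_pos,
    sub_eq_zero, eq_comm]
  cases (ofLex u).2 <;> simp [hs, hs.asymm, show ¬true ≤ false by decide]

/-- Inverted pairs. -/
theorem inv_iff {ε : Bool} {u u' : Mx} (hd : Dir ε u u') (x y : Fin 4 × O) :
    (E.key u x < E.key u y ∧ E.key u' y < E.key u' x) ↔
      ∃ a, E.bk a x = E.bk a y ∧ E.Cr u u' a ∧
        (if ε = true then E.sp y < E.sp x else E.sp x < E.sp y) := by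
  have tf : ∀ t : ℝ, ¬toLex (t, true) ≤ toLex (t, false) := fun t =>
    not_le.2 ((side_FsLat _ t).2 le_rfl)
  have tot : ∀ {v : Mx} {x y}, E.sp x < E.sp y → ¬E.key v x < E.key v y → E.key v y < E.key v x :=
    fun hs h => (not_lt.1 h).lt_of_ne fun e => hs.ne' (congrArg _ (E.key_inj _ e))
  unfold Dir at hd
  constructor
  · rintro ⟨h1, h2⟩
    have h3 : x.1 ≠ y.1 := fun e => h2.asymm ((E.key_same u u' e).1 h1)
    obtain ⟨a, ha⟩ := E.col_ex h3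
    rcases lt_or_gt_of_ne fun e => h3 (E.sp_FsLat e) with hs | hs
    · have e1 := (E.key_col u ha hs).1 h1
      have e2 := (side_FsLat _ _).1 (not_le.1 (mt (E.key_col u' ha hs).2 h2.asymm))
      refine ⟨a, ha, .inr ⟨e2, e1⟩, ?_⟩
      split_ifs at hd ⊢
      exacts [(tf _ (e1.trans (hd.trans e2))).elim, hs]
    · have e1 := (E.key_col u' ha.symm hs).1 h2
      have e2 := (side_FsLat _ _).1 (not_le.1 (mt (E.key_col u ha.symm hs).2 h1.asymm))
      refine ⟨a, ha, .inl ⟨e2, e1⟩, ?_⟩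
      split_ifs at hd ⊢
      exacts [hs, (tf _ (e1.trans (hd.trans e2))).elim]
  · rintro ⟨a, ha, hc, hs⟩
    split_ifs at hd hs
    · obtain ⟨e1, e2⟩ := hc.resolve_right fun e => tf _ (e.2.trans (hd.trans e.1))
      exact ⟨tot hs fun e => tf _ (((E.key_col u ha.symm hs).1 e).trans e1),
        (E.key_col u' ha.symm hs).2 e2⟩
    · obtain ⟨e1, e2⟩ := hc.resolve_left fun e => tf _ (e.2.trans (hd.trans e.1))
      exact ⟨(E.key_col u ha hs).2 e2, tot hs fun e => tf _ (((E.key_col u' ha hs).1 e).trans e1)⟩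

/-- Labels in a rectangle. -/
theorem rect_fin (x R : ℝ) : {ν : Fin 4 × O | |E.pos x ν| ≤ R ∧ |E.η ν.2| ≤ R}.Finite := by
  refine (Set.finite_univ.prod (E.disc (R + E.wm * |x|))).subset fun ν h => ⟨trivial, ?_, ?_⟩
  · have h1 := abs_sub (E.pos x ν) (E.sp ν * x)
    rw [abs_mul, pos, add_sub_cancel_right] at h1
    exact h1.trans (add_le_add h.1 (mul_le_mul_of_nonneg_right (E.sp_abs ν) (abs_nonneg _)))
  · exact h.2.trans (le_add_of_nonneg_right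
      (mul_nonneg E.wm_pos.le (abs_nonneg _)))

/-- Two close labels of the same type are separated by a third label on a long step. -/
theorem same_lat (R : ℝ) : ∃ W : ℝ, ∀ (ε : Bool) (u u' : Mx) (lo hi : ℝ) (σ : O → Bool),
    Dir ε u u' → E.Thr lo hi u u' σ → W ≤ |(ofLex u').1 - (ofLex u).1| →
    ∀ l r : Fin 4 × O, l.1 = r.1 → l ≠ r → |E.ξ r.2 - E.ξ l.2| ≤ R →
    ∃ (β : Fin 4 × O) (a1 a2 : O), β.1 ≠ l.1 ∧ E.bk a1 β = E.bk a1 l ∧ E.bk a2 β = E.bk a2 r ∧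
      E.Cr u u' a1 ∧ E.Cr u u' a2 ∧ σ a1 ≠ σ a2 := by
  have hδ : 0 < E.dlt := E.dl0
  obtain ⟨K, hK, hR⟩ : ∃ K : ℝ, 0 < K ∧ R ≤ E.dlt * K :=
    ⟨|R| / E.dlt + 1, by positivity, by
      rw [mul_add, mul_div_cancel₀ _ hδ.ne']
      linarith [le_abs_self R]⟩
  refine ⟨8 * K + 2, fun ε u u' lo hi σ _ hT hW l r h1 h2 h3 => ?_⟩
  by_contra hn
  have hc : ∀ p, |E.ξ p - ((ofLex u).1 + (ofLex u').1) / 2| ≤ 4 * K → E.Cr u u' p := fun p h => by
    rw [abs_le] at h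
    exact (le_abs.1 hW).imp (fun e => cr_FsLat (by linarith) (by linarith))
      fun e => cr_FsLat (by linarith) (by linarith)
  generalize ((ofLex u).1 + (ofLex u').1) / 2 = X at hc
  have he : E.η (r.2 - l.2) ≠ 0 := (map_ne_zero_iff _ E.η_inj).2
    (sub_ne_zero.2 fun e => h2 (Prod.ext h1 e.symm))
  have hV : ∀ t, t ≠ E.tq l.1 → ∃ v, (E.v t - E.v (E.tq l.1)) * E.ξ v = E.ξ (r.2 - l.2) ∧
      (E.v' t - E.v' (E.tq l.1)) * E.η v = E.η (r.2 - l.2) ∧ E.η v ≠ 0 ∧ |E.ξ v| ≤ K ∧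
      ∀ p, |E.ξ p - X| ≤ 3 * K → σ (p + v) = σ p ∧ σ (p + -v) = σ p := fun t ht => by
    obtain ⟨k, rfl⟩ := E.tq.surjective t
    have hk : k ≠ l.1 := fun e => ht (congrArg _ e)
    obtain ⟨v, hv⟩ := E.un k l.1 hk (r.2 - l.2)
    have e1 : (E.v (E.tq k) - E.v (E.tq l.1)) * E.ξ v = E.ξ (r.2 - l.2) := by
      rw [← hv, map_sub, E.ξmu, E.ξmu, sub_mul]
    have e2 : (E.v' (E.tq k) - E.v' (E.tq l.1)) * E.η v = E.η (r.2 - l.2) := by
      rw [← hv, map_sub, E.ηmu, E.ηmu, sub_mul]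
    have e3 : |E.ξ v| ≤ K := by
      have f1 : E.dlt ≤ |E.v (E.tq k) - E.v (E.tq l.1)| :=
        le_abs.2 ((lt_or_gt_of_ne (E.w_FsLat.injective.ne ht)).symm.imp
          (fun h => E.sp_gap (x := l) (y := (k, 0)) h)
          fun h => by rw [neg_sub]; exact E.sp_gap (x := (k, 0)) (y := l) h)
      rw [← map_sub, ← e1, abs_mul] at h3
      exact le_of_mul_le_mul_left
        ((mul_le_mul_of_nonneg_right f1 (abs_nonneg _)).trans (h3.trans hR)) hδ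
    have e4 : ∀ p, E.Cr u u' p → E.Cr u u' (p + v) → σ (p + v) = σ p := fun p f1 f2 => by
      by_contra f3
      refine hn ⟨(k, l.2 + E.mu l.1 p - E.mu k p), p, p + v, hk, by simp [bk], ?_, f1, f2, Ne.symm f3⟩
      simp only [bk, map_add, ← h1, sub_eq_iff_eq_add.1 hv]
      abel
    refine ⟨v, e1, e2, fun e => he (by rw [← e2, e, mul_zero]), e3, fun p hp => ?_⟩
    rw [abs_le] at hp e3
    have f1 := hc p (abs_le.2 ⟨by linarith, by linarith⟩)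
    refine ⟨e4 p f1 (hc _ ?_), (e4 _ (hc _ ?_) (by simpa using f1)).symm.trans (by simp)⟩ <;>
      simp only [map_add, map_neg, abs_le] <;> exact ⟨by linarith, by linarith⟩
  have two := fun v1 v2 => E.two_FsLat σ v1 v2 X (2 * K) lo hi (by positivity)
    fun p hp => hT p (hc p (by linarith))
  have wk : ∀ {v p}, (∀ p, |E.ξ p - X| ≤ 3 * K → σ (p + v) = σ p ∧ σ (p + -v) = σ p) →
      |E.ξ p - X| ≤ 2 * K → σ (p + v) = σ p ∧ σ (p + -v) = σ p := fun h hp => h _ (by linarith)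
  obtain ⟨⟨k, hk⟩, l', hl⟩ := hg_conc E.fl (E.tq l.1)
  obtain ⟨a, a1, a2, a3, a4, a5⟩ := hV k (hk.elim (fun h => h.1.ne') fun h => h.1.ne)
  obtain ⟨b, b1, b2, b3, b4, b5⟩ := hV l' (hl.elim (fun h => h.1.ne') fun h => h.1.ne)
  rcases sgn4 (hk.imp (fun h => ⟨sub_pos.2 (E.vm h.1), sub_pos.2 ((E.hv _ _).1 h.2)⟩)
      fun h => ⟨sub_neg.2 (E.vm h.1), sub_neg.2 ((E.hv _ _).1 h.2)⟩)
    (hl.imp (fun h => ⟨sub_pos.2 (E.vm h.1), sub_neg.2 ((E.hv _ _).1 h.2)⟩)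
      fun h => ⟨sub_neg.2 (E.vm h.1), sub_pos.2 ((E.hv _ _).1 h.2)⟩)
    (a1.trans b1.symm) (a2.trans b2.symm) a3 with h | h
  · exact two a b h.1 h.2 (by linarith) (by linarith) (fun p => wk a5) fun p => wk b5
  · exact two a (-b) (by rw [map_neg]; exact h.1) (by rw [map_neg]; exact h.2) (by linarith)
      (by rw [map_neg, abs_neg]; linarith) (fun p => wk a5)
      fun p hp => by rw [neg_neg]; exact (wk b5 hp).symm

end Lat

end Pool.Agent.E5f.G2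

end

section

namespace Pool.Agent.E5f.G2

open Classical Filter

theorem hgt_inj_FsDrift : ∀ (fl : Bool) (i j : Fin 4),
    ¬ hg fl i < hg fl j → ¬ hg fl j < hg fl i → i = j := by decide

theorem hgt_asymm_FsDrift {fl : Bool} {i j : Fin 4} {s : Prop} (h1 : hg fl i < hg fl j ↔ s)
    (h2 : hg fl j < hg fl i ↔ s) : i = j :=
  hgt_inj_FsDrift fl i j (fun h => lt_asymm h (h2.2 (h1.1 h))) fun h => lt_asymm h (h1.2 (h2.1 h))

namespace Lat

variable {O : Type} [AddCommGroup O] (E : Lat O)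

/-- The label of index `i` in the block of `ν` at `a`. -/
def mv_FsDrift (a : O) (i : Fin 4) (ν : Fin 4 × O) : Fin 4 × O := (i, E.bk a ν - E.mu i a)

/-- The label `ν` is strictly between two labels over `x`. -/
def Btw_FsDrift (x : ℝ) (bl br ν : Fin 4 × O) : Prop :=
  E.pos x bl < E.pos x ν ∧ E.pos x ν < E.pos x br

/-- The closure rule for absent labels at the point `a` with status `s`. -/
def Rule_FsDrift (x m M r : ℝ) (a : O) (s : Bool) (q : List (Fin 4 × O)) : Prop :=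
  ∀ (ν : Fin 4 × O) (i : Fin 4), i ≠ ν.1 → (G2.hg E.fl (E.tq i) < G2.hg E.fl (E.tyl ν) ↔ s = true) →
    m ≤ E.pos x ν → E.pos x ν ≤ M → m ≤ E.pos x (E.mv_FsDrift a i ν) →
    E.pos x (E.mv_FsDrift a i ν) ≤ M → |E.η ν.2| ≤ r → ν ∉ q → E.mv_FsDrift a i ν ∉ q

theorem mv_bk_FsDrift (a : O) (i : Fin 4) (ν : Fin 4 × O) :
    E.bk a (E.mv_FsDrift a i ν) = E.bk a ν := sub_add_cancel _ _

theorem w2_pos_FsDrift : 0 < E.wm := E.wm_pos

theorem pos_move_FsDrift {x x' W : ℝ} (h : |x' - x| ≤ W) (ν : Fin 4 × O) :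
    |E.pos x' ν - E.pos x ν| ≤ E.wm * W := by
  have h1 : E.pos x' ν - E.pos x ν = E.sp ν * (x' - x) := by
    simp only [pos]
    ring
  rw [h1, abs_mul]
  exact mul_le_mul (E.sp_abs ν) h (abs_nonneg _) E.w2_pos_FsDrift.le

theorem pos_blk_FsDrift {x W : ℝ} {a : O} (h : |E.ξ a - x| ≤ W) {ν ν' : Fin 4 × O}
    (hb : E.bk a ν = E.bk a ν') : |E.pos x ν - E.pos x ν'| ≤ E.wm * W := by
  have h0 : E.pos (E.ξ a) ν = E.pos (E.ξ a) ν' := by rw [E.pos_bk, E.pos_bk, hb]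
  have h1 : E.pos x ν - E.pos x ν' = (E.sp ν' - E.sp ν) * (E.ξ a - x) := by
    simp only [pos] at h0 ⊢
    linarith
  rw [h1, abs_mul]
  exact mul_le_mul (E.sp_wd _ _) h (abs_nonneg _) E.w2_pos_FsDrift.le

theorem eta_mv_FsDrift {a : O} {U : ℝ} (hU : ∀ i, |E.η (E.mu i a)| ≤ U) (i : Fin 4)
    (ν : Fin 4 × O) : |E.η (E.mv_FsDrift a i ν).2| ≤ |E.η ν.2| + 2 * U := by
  have h1 := abs_le.1 (hU i)
  have h2 := abs_le.1 (hU ν.1)
  have h3 := le_abs_self (E.η ν.2)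
  have h4 := neg_abs_le (E.η ν.2)
  simp only [mv_FsDrift, bk, map_sub, map_add]
  exact abs_le.2 ⟨by linarith, by linarith⟩

theorem lab_ex_FsDrift : ∃ H : ℝ, 0 < H ∧ ∀ (x : ℝ) (i : Fin 4) (s y : ℝ), ∃ ν : Fin 4 × O,
    ν.1 = i ∧ s < E.pos x ν ∧ E.pos x ν < s + 1 ∧ y < E.η ν.2 ∧ E.η ν.2 < y + H := by
  obtain ⟨H, hH⟩ := E.densx 1 one_pos
  obtain ⟨b, -, -, h1, h2⟩ := hH 0 0
  refine ⟨H, by linarith, fun x i s y => ?_⟩
  obtain ⟨a, h3, h4, h5⟩ := hH (s - E.v (E.tq i) * x) y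
  refine ⟨(i, a), rfl, ?_, ?_, h5⟩ <;> simp only [pos, sp] <;> linarith

theorem key_le_FsDrift (u : Mx) {x y : Fin 4 × O} (h : E.key u x ≤ E.key u y) :
    E.pos (ofLex u).1 x ≤ E.pos (ofLex u).1 y := by
  rcases h.lt_or_eq with h | h
  · exact E.key_pos u h
  · rw [E.key_inj u h]

theorem sp_ne_FsDrift {x y : Fin 4 × O} (h : x.1 ≠ y.1) : E.sp x ≠ E.sp y :=
  fun e => h (E.sp_FsLat e)

/-- A piece that is not mixed contains all or none of the labels of a block in the middle. -/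
theorem notMixed_FsDrift {S : Set (Fin 4 × O)} {u : Mx} {a : O} (ha : (ofLex u).1 = E.ξ a)
    {q : List (Fin 4 × O)} {bl br ν ν' : Fin 4 × O} (hs : Spans (E.key u) bl br q)
    (hm : ¬ Mixed S (E.key u) E.tyl (E.bk a) q) (hν : ν ∈ S) (hF : Full S E.tyl (E.bk a) ν')
    (hb : E.bk a ν = E.bk a ν') (hw : E.Btw_FsDrift (ofLex u).1 bl br ν') (h : ν' ∈ q) :
    ν ∈ q := by
  by_contra hn
  obtain ⟨d, x, y, h1, h2, h3, h4⟩ := hs
  have key : ∀ z, (E.key u z < E.key u bl ∨ E.key u br < E.key u z) → E.bk a z ≠ E.bk a ν' := by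
    intro z hz e
    have h5 : E.pos (ofLex u).1 z = E.pos (ofLex u).1 ν' := by rw [ha, E.pos_bk, E.pos_bk, e]
    rcases hz with hz | hz
    · have := E.key_pos u hz
      linarith [hw.1]
    · have := E.key_pos u hz
      linarith [hw.2]
  refine hm ⟨⟨d, h1⟩, ν', ν, hF, hν, hb, h, hn, fun z hz => key z ?_, fun z hz => key z ?_⟩
  · obtain rfl : x = z := Option.some.inj (h2.symm.trans hz)
    exact h4.imp (·.1) (·.2)
  · obtain rfl : y = z := Option.some.inj (h3.symm.trans hz)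
    exact h4.symm.imp (·.1) (·.2)

/-- Barriers near the ends of a long interval. -/
theorem bar_FsDrift {S : Set (Fin 4 × O)} {e : Bool} {u u' : Mx} (hd : Dir e u u') {W H X : ℝ}
    (hW : |(ofLex u').1 - (ofLex u).1| ≤ W)
    (hH : ∀ (x : ℝ) (i : Fin 4) (s y : ℝ), ∃ ν : Fin 4 × O,
      ν.1 = i ∧ s < E.pos x ν ∧ E.pos x ν < s + 1 ∧ y < E.η ν.2 ∧ E.η ν.2 < y + H)
    (hS : ∀ ν, |E.pos (ofLex u).1 ν| ≤ X → |E.η ν.2| ≤ H → ν ∈ S) {lo hi : ℝ}
    (h1 : -X ≤ lo) (h2 : hi ≤ X) (h3 : lo + (6 + 12 * (E.wm * W)) ≤ hi) :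
    ∃ bl br, Bar S (E.key u) (E.key u') bl br ∧ lo < E.pos (ofLex u).1 bl ∧
      E.pos (ofLex u).1 br < hi ∧
      E.pos (ofLex u).1 bl + (4 + 12 * (E.wm * W)) ≤ E.pos (ofLex u).1 br := by
  have hV : 0 ≤ E.wm * W := mul_nonneg E.w2_pos_FsDrift.le ((abs_nonneg _).trans hW)
  obtain ⟨bl, a1, a2, a3, a4, a5⟩ := hH (ofLex u).1 (E.tq.symm (if e = true then 3 else 0)) lo 0
  obtain ⟨br, b1, b2, b3, b4, b5⟩ :=
    hH (ofLex u).1 (E.tq.symm (if e = true then 0 else 3)) (hi - 1) 0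
  have m1 := abs_le.1 (E.pos_move_FsDrift hW bl)
  have m2 := abs_le.1 (E.pos_move_FsDrift hW br)
  have s1 : E.sp bl = E.v (if e = true then 3 else 0) := by rw [sp, a1, Equiv.apply_symm_apply]
  have s2 : E.sp br = E.v (if e = true then 0 else 3) := by rw [sp, b1, Equiv.apply_symm_apply]
  refine ⟨bl, br, ⟨hS _ (abs_le.2 ⟨by linarith, by linarith⟩) (abs_le.2 ⟨by linarith, by linarith⟩),
    hS _ (abs_le.2 ⟨by linarith, by linarith⟩) (abs_le.2 ⟨by linarith, by linarith⟩),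
    E.pos_key u (by linarith), E.pos_key u' (by linarith), fun x _ hx => ?_, fun x _ hx => ?_⟩,
    a2, by linarith, by linarith⟩
  · by_contra hn
    have hlt : E.key u' bl < E.key u' x := lt_of_le_of_ne (not_lt.1 hn) fun h => by
      rw [E.key_inj u' h] at hx
      exact lt_irrefl _ hx
    obtain ⟨_, -, -, h5⟩ := (E.inv_iff hd x bl).1 ⟨hx, hlt⟩
    have h6 := E.sp_mem x
    cases e <;> simp at h5 s1 <;> linarith
  · by_contra hn
    have hlt : E.key u' x < E.key u' br := lt_of_le_of_ne (not_lt.1 hn) fun h => by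
      rw [E.key_inj u' h] at hx
      exact lt_irrefl _ hx
    obtain ⟨_, -, -, h5⟩ := (E.inv_iff hd br x).1 ⟨hx, hlt⟩
    have h6 := E.sp_mem x
    cases e <;> simp at h5 s2 <;> linarith

/-- Climbing from a low absent label to a high absent label. -/
theorem climb_FsDrift {x W H Y U b : ℝ} {a a' : O} {q : List (Fin 4 × O)}
    (hH : ∀ (x : ℝ) (i : Fin 4) (s y : ℝ), ∃ ν : Fin 4 × O,
      ν.1 = i ∧ s < E.pos x ν ∧ E.pos x ν < s + 1 ∧ y < E.η ν.2 ∧ E.η ν.2 < y + H)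
    (hY : 0 ≤ Y) (ha : |E.ξ a - x| ≤ W) (ha' : |E.ξ a' - x| ≤ W) (hη : E.η a' < E.η a)
    (hU : ∀ i, |E.η (E.mu i a)| ≤ U) (hU' : ∀ i, |E.η (E.mu i a')| ≤ U)
    (r1 : E.Rule_FsDrift x (b + 1 + 2 * (E.wm * W)) (b + 3 + 10 * (E.wm * W)) (Y + H + 4 * U)
      a true q)
    (r2 : E.Rule_FsDrift x (b + 1 + 2 * (E.wm * W)) (b + 3 + 10 * (E.wm * W)) (Y + H + 4 * U)
      a' false q) (hq : ∀ ν ∈ q, -Y ≤ E.η ν.2) :
    ∃ ν, ν ∉ q ∧ b + 1 + 2 * (E.wm * W) ≤ E.pos x ν ∧ E.pos x ν ≤ b + 3 + 10 * (E.wm * W) ∧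
      Y < E.η ν.2 ∧ E.η ν.2 ≤ Y + 4 * U := by
  obtain ⟨tp, t0, t3, ht⟩ := hg_top E.fl
  have hW : 0 ≤ W := (abs_nonneg _).trans ha
  have hV : 0 ≤ E.wm * W := mul_nonneg E.w2_pos_FsDrift.le hW
  have hU0 : 0 ≤ U := (abs_nonneg _).trans (hU 0)
  have hp : ∀ p : O, E.pos x (E.tq.symm tp, p) = E.ξ p + E.v tp * x := fun p => by
    simp only [pos, sp, Equiv.apply_symm_apply]
  obtain ⟨⟨i0, p0⟩, rfl, a2, a3, a4, a5⟩ :=
    hH x (E.tq.symm tp) (b + 2 + 6 * (E.wm * W)) (-Y - H)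
  rw [hp] at a2 a3
  have hd : |E.ξ (a - a')| ≤ 2 * W := by
    have h1 := abs_le.1 ha
    have h2 := abs_le.1 ha'
    rw [map_sub]
    exact abs_le.2 ⟨by linarith, by linarith⟩
  have hη' : 0 < E.η (a - a') := by rw [map_sub]; linarith
  have vξ : ∀ j, E.ξ (E.mu (E.tq.symm tp) (a - a') - E.mu (E.tq.symm j) (a - a')) =
      (E.v tp - E.v j) * E.ξ (a - a') := fun j => by
    rw [map_sub E.ξ, E.ξmu, E.ξmu, Equiv.apply_symm_apply, Equiv.apply_symm_apply, sub_mul]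
  have vη : ∀ j, E.η (E.mu (E.tq.symm tp) (a - a') - E.mu (E.tq.symm j) (a - a')) =
      (E.v' tp - E.v' j) * E.η (a - a') := fun j => by
    rw [map_sub E.η, E.ηmu, E.ηmu, Equiv.apply_symm_apply, Equiv.apply_symm_apply, sub_mul]
  have vU : ∀ j, E.η (E.mu (E.tq.symm tp) (a - a') - E.mu (E.tq.symm j) (a - a')) ≤ 4 * U :=
    fun j => by
      have h1 := abs_le.1 (hU (E.tq.symm tp))
      have h2 := abs_le.1 (hU (E.tq.symm j))
      have h3 := abs_le.1 (hU' (E.tq.symm tp))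
      have h4 := abs_le.1 (hU' (E.tq.symm j))
      simp only [map_sub]
      linarith
  have vK : ∀ j, |E.v tp - E.v j| ≤ E.wm →
      |E.ξ (E.mu (E.tq.symm tp) (a - a') - E.mu (E.tq.symm j) (a - a'))| ≤ 1 + 2 * (E.wm * W) :=
    fun j hj => by
      rw [vξ, abs_mul]
      have := mul_le_mul hj hd (abs_nonneg _) E.w2_pos_FsDrift.le
      linarith
  have step : ∀ j : Fin 4, j ≠ tp → ∀ p : O, (E.tq.symm tp, p) ∉ q →
      |E.ξ p - (b + 2 + 6 * (E.wm * W) - E.v tp * x)| ≤ 1 + 2 * (E.wm * W) → -Y - H ≤ E.η p →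
      E.η p ≤ Y →
      (E.tq.symm tp, p + (E.mu (E.tq.symm tp) (a - a') - E.mu (E.tq.symm j) (a - a'))) ∉ q := by
    intro j hj p h1 h2 h3 h4
    have hne : E.tq.symm j ≠ E.tq.symm tp := fun e => hj (E.tq.symm.injective e)
    have hh := ht j hj
    have c0 := abs_le.1 h2
    have c1 := abs_le.1 (E.pos_blk_FsDrift ha (E.mv_bk_FsDrift a (E.tq.symm j) (E.tq.symm tp, p)))
    have c2 := abs_le.1 (E.pos_blk_FsDrift ha' (E.mv_bk_FsDrift a' (E.tq.symm tp)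
      (E.mv_FsDrift a (E.tq.symm j) (E.tq.symm tp, p))))
    have c3 : |E.η p| ≤ Y + H := abs_le.2 ⟨by linarith, by linarith⟩
    have c4 := E.eta_mv_FsDrift hU (E.tq.symm j) (E.tq.symm tp, p)
    have c5 := hp p
    have e1 := r1 (E.tq.symm tp, p) (E.tq.symm j) hne (by simpa [tyl] using hh) (by linarith)
      (by linarith) (by linarith) (by linarith) (by linarith) h1
    have e2 := r2 _ (E.tq.symm tp) hne.symm (by simpa [tyl, mv_FsDrift] using hh.le) (by linarith)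
      (by linarith) (by linarith) (by linarith) (by linarith) e1
    have e3 : E.mv_FsDrift a' (E.tq.symm tp) (E.mv_FsDrift a (E.tq.symm j) (E.tq.symm tp, p)) =
        (E.tq.symm tp, p + (E.mu (E.tq.symm tp) (a - a') - E.mu (E.tq.symm j) (a - a'))) := by
      simp only [mv_FsDrift, bk, map_sub, Prod.mk.injEq, true_and]
      abel
    rwa [e3] at e2
  have w1 := E.vm t0
  have w2 := E.vm t3
  obtain ⟨p, h1, h2, h3, h4⟩ := E.ladder {p | (E.tq.symm tp, p) ∉ q} _ _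
    (b + 2 + 6 * (E.wm * W) - E.v tp * x) (1 + 2 * (E.wm * W)) (-Y - H) Y
    (by rw [vη 0]; exact mul_pos (sub_pos.2 ((E.hv _ _).1 (ht 0 t0.ne))) hη')
    (by rw [vη 3]; exact mul_pos (sub_pos.2 ((E.hv _ _).1 (ht 3 t3.ne'))) hη')
    (by
      rw [vξ, vξ, mul_mul_mul_comm]
      exact mul_nonpos_of_nonpos_of_nonneg
        (mul_nonpos_of_nonneg_of_nonpos (by linarith) (by linarith)) (mul_self_nonneg _))
    (vK 0 (abs_le.2 ⟨by linarith [E.wm_pos], E.wd _ _⟩))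
    (vK 3 (abs_le.2 ⟨by linarith [E.wd tp 3], E.wd _ _⟩))
    (fun p h1 h2 h3 h4 => ⟨step 0 t0.ne p h1 h2 h3 h4, step 3 t3.ne' p h1 h2 h3 h4⟩)
    (p0 := p0) (fun h => by have := hq _ h; simp only at this a5; linarith)
    (abs_le.2 ⟨by linarith, by linarith⟩) a4.le (by simp only at a5; linarith)
  have c0 := abs_le.1 h2
  have c1 := max_le (vU 0) (vU 3)
  exact ⟨(E.tq.symm tp, p), h1, by rw [hp]; linarith, by rw [hp]; linarith, h3, by linarith⟩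

end Lat

end Pool.Agent.E5f.G2

end


section

namespace Pool.Agent.E5f.G2

open Classical Filter

namespace FSys

variable {O : Type} [AddCommGroup O] {E : Lat O} {Q P : Type} {dv dh : Q → Q → ℝ}
  {Cu : Q → Prop} {fv fh : Q → P → P → ℝ} (Y : FSys E dv dh Cu fv fh)

theorem sl_not (S : Finset (Fin 4 × O)) (x y : P) (q : Q) (ε : Bool) :
    Y.sl S x y q (!ε) = - Y.sl S x y q ε := by
  cases ε <;> simp [sl]

/-- The slope is bounded by the number of turns. -/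
theorem sl_le (q : Q) (ε : Bool) (x y : P) :
    ∀ᶠ S in atTop, |Y.sl S x y q ε| ≤ E.wm * (Y.tu S x y q + 1) := by
  filter_upwards [Y.pth q x y] with S hS
  have h := lin_le_turns (E.key_inj (Y.ux q)) E.wm_pos.le (m := fun ν => E.sp ν - E.v 0)
    (fun ν => ⟨sub_nonneg.2 (E.sp_mem ν).1, E.wd _ _⟩) hS.rd
  rw [lin_shift] at h
  cases ε <;> simpa [sl, tu] using h

theorem fv_FsStep (q : Q) (x y : P) : ∀ᶠ S in atTop,
    fv q x y = lin (E.key (Y.ux q)) (E.pos (Y.toStp.px q)) (Y.path q S x y) := by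
  filter_upwards [Y.pth q x y, Y.ev q x y] with S hS h
  exact h.trans (lin_eq_var (E.key_inj _) hS.rd fun a _ b _ hab => E.key_pos _ hab).symm

theorem step_ev {q r : Q} {σ : O → Bool} {ε : Bool} (h : Y.St q r σ)
    (hd : Dir ε (Y.ux q) (Y.ux r)) (x y : P) : ∀ᶠ S in atTop, ∃ c, Y.CH S x y q r σ c ∧
      0 ≤ gains (E.key (Y.ux q)) c (Y.path q S x y) ∧
      E.dlt * gains (E.key (Y.ux q)) c (Y.path q S x y) ≤
        Y.sl S x y r ε - Y.sl S x y q ε ∧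
      |Y.toStp.px r - Y.toStp.px q| * Y.sl S x y q ε ≤ fv r x y - fv q x y ∧
      fv r x y - fv q x y ≤ |Y.toStp.px r - Y.toStp.px q| * Y.sl S x y r ε := by
  filter_upwards [Y.pth q x y, Y.chain q r σ h x y, Y.fv_FsStep q x y, Y.fv_FsStep r x y]
    with S hS hc hq hr
  obtain ⟨c, h1, h2, h3⟩ := hc
  have hΔ : |Y.toStp.px r - Y.toStp.px q| * (if ε = true then 1 else -1) =
      Y.toStp.px r - Y.toStp.px q := dir_FsStep hd
  have hp : ∀ k : Fin 4 × O → ℝ ×ₗ ℝ, ∀ p, lin k (E.pos (Y.toStp.px r)) p =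
      lin k (E.pos (Y.toStp.px q)) p + (Y.toStp.px r - Y.toStp.px q) * lin k E.sp p := fun k p => by
    rw [← lin_add]
    congr 1
    funext ν
    simp only [Lat.pos]
    ring
  refine ⟨c, ⟨h1, h2, h3, hS⟩, gains_nonneg h1 hS, ?_, ?_, ?_⟩
  · have := fch_lin h1 hS (ρ := fun ν => (if ε = true then 1 else -1) * E.sp ν)
      (δ := E.dlt) fun a _ b _ h0 h1 => by
        obtain ⟨-, -, -, h4⟩ := (E.inv_iff hd a b).1 ⟨h0, h1⟩
        cases ε
        · have := E.sp_gap (by simpa using h4 : E.sp a < E.sp b)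
          simp only [Bool.false_eq_true, if_false]
          linarith
        · have := E.sp_gap (by simpa using h4 : E.sp b < E.sp a)
          simp only [if_true]
          linarith
    rw [lin_mul_FsStep, lin_mul_FsStep, ← h3] at this
    unfold sl
    linarith
  · have := fch_lin h1 hS (ρ := E.pos (Y.toStp.px r)) (δ := 0) fun a _ b _ _ h1 =>
      sub_nonneg.2 (E.key_pos _ h1)
    rw [← h3, ← hr, hp, ← hq] at this
    rw [sl, ← mul_assoc, hΔ]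
    linarith
  · have := fch_lin h1 hS (ρ := fun ν => - E.pos (Y.toStp.px q) ν) (δ := 0) fun a _ b _ h0 _ => by
      have := E.key_pos _ h0
      unfold Stp.px
      linarith
    rw [lin_neg, lin_neg, ← h3, ← hq] at this
    rw [sl, ← mul_assoc, hΔ, hr, hp]
    linarith

theorem ux_FsStep {a : O} {q : Q} (h : Y.toStp.px q = E.ξ a) :
    Y.ux q = toLex (E.ξ a, Y.toStp.sx q) := by
  rw [← h]
  rfl

theorem mic_FsStep (a : O) (x y : P) (n : ℕ) : ∀ (σ : Bool) (q q' : Q), Y.toStp.Mic a n σ q q' →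
    fv q' x y = fv q x y ∧ ∀ᶠ S : Finset (Fin 4 × O) in atTop,
      Tou E.fl (S : Set (Fin 4 × O)) (fun s => E.key (toLex (E.ξ a, s))) E.tyl n (Y.toStp.sx q) σ
        (Y.path q S x y) (Y.toStp.sx q') (Y.path q' S x y) := by
  induction n with
  | zero =>
    rintro σ q q' rfl
    exact ⟨rfl, Eventually.of_forall fun S => ⟨rfl, rfl⟩⟩
  | succ n ih =>
    rintro σ q q' ⟨q1, h1, h2, h3, h4⟩
    obtain ⟨i1, i2⟩ := ih _ _ _ h4
    have e1 : Y.toStp.px q1 = E.ξ a := by rw [Stp.px, h2]; rfl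
    have e2 : Y.toStp.sx q1 = !Y.toStp.sx q := by rw [Stp.sx, h2]; rfl
    obtain ⟨ε, hd⟩ : ∃ ε, Dir ε (Y.ux q) (Y.ux q1) :=
      (le_total (Y.ux q) (Y.ux q1)).elim (fun h => ⟨true, by simpa [Dir] using h⟩)
        fun h => ⟨false, by simpa [Dir] using h⟩
    have hs := Y.step_ev h3 hd x y
    constructor
    · obtain ⟨S, c, -, -, -, h5, h6⟩ := hs.exists
      rw [e1, h1, sub_self, abs_zero, zero_mul] at h5 h6
      linarith
    · filter_upwards [hs, i2] with S hS i2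
      obtain ⟨c, hc, -⟩ := hS
      have hf := hc.fch
      rw [e2] at i2
      refine ⟨_, ⟨c, by rwa [Y.ux_FsStep h1, h2] at hf, fun e he => ?_, hc.eq⟩, i2⟩
      obtain ⟨-, -, m1, m2⟩ := fch_mem hf he
      obtain ⟨a', ha⟩ := E.col_ex (x := e.1) (y := e.2) fun m3 => by
        rw [E.key_same _ (Y.ux q1) m3] at m2
        exact m1 (E.key_inj _ (le_antisymm (not_lt.1 fun m => m.not_gt (m2.2 m))
          (not_lt.1 fun m => m.not_gt (m2.1 m))))
      exact hc.stat e he a' ha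

theorem full_FsStep (a : O) (q : Q) (x y : P) : ∀ᶠ S : Finset (Fin 4 × O) in atTop,
    ∀ ν, TurnAt (E.key (Y.ux q)) (Y.path q S x y) ν →
      Full (S : Set (Fin 4 × O)) E.tyl (E.bk a) ν := by
  obtain ⟨T, _, hT⟩ := Y.box q x y
  have h : ∀ᶠ S : Finset (Fin 4 × O) in atTop, ∀ ν ∈ T, ∀ i,
      (E.tq.symm i, E.bk a ν - E.mu (E.tq.symm i) a) ∈ S :=
    (eventually_all_finset T).2 fun ν _ => eventually_all.2 fun i =>
      (eventually_ge_atTop _).mono fun S hS => Finset.singleton_subset_iff.1 hS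
  filter_upwards [hT, h] with S h1 h2 ν hν i
  exact ⟨_, h2 ν (h1.1 ν (.inr (.inr hν))) i, sub_add_cancel _ _, E.tq.apply_symm_apply i⟩

theorem touch_ev : ∃ c C : ℝ, 0 < c ∧ 0 ≤ C ∧ ∀ (a : O) (z z' : Q), Y.toStp.Tch a z z' →
    ∀ x y : P, fv z' x y = fv z x y ∧ ∀ᶠ S in atTop,
      c * Y.tu S x y z - C ≤ Y.tg S x y z z' ∧
      ∀ D, Dec D (Y.path z S x y) → c * (D.countP (fun q => decide
        (Mixed (S : Set (Fin 4 × O)) (E.key (Y.ux z)) E.tyl (E.bk a) q)) : ℝ) - C ≤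
          Y.tg S x y z z' := by
  obtain ⟨c, C, hc, hC, H⟩ := Y.t3 E.fl E.v E.vm
  refine ⟨c, C, hc, hC, fun a z z' h x y => ?_⟩
  obtain ⟨h1, h2, -⟩ := Y.toBSys.tch_px h
  obtain ⟨n, σ, hn, hm⟩ := h
  obtain ⟨i1, i2⟩ := Y.mic_FsStep a x y n σ z z' hm
  refine ⟨i1, ?_⟩
  filter_upwards [i2, Y.pth z x y, Y.full_FsStep a z x y] with S i2 hp f1
  rw [Y.ux_FsStep h1] at f1
  have := H _ _ _ _ _ _ _ (E.blk a) n _ σ _ _ _ hn i2 hp f1
  rw [tg, sl_not, sub_neg_eq_add, add_comm, tu, sl, sl, Y.ux_FsStep h1, Y.ux_FsStep h2]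
  exact this

theorem route_ev : ∃ c C : ℝ, 0 < c ∧ 0 ≤ C ∧ ∀ (lo hi : ℝ) (p r : Q) (ε ε' : Bool) (l : ℝ)
    (n : ℕ), Y.toStp.Rt lo hi p ε r ε' l n → ∀ x y : P, ∀ᶠ S in atTop,
      Y.sl S x y p ε - n * C ≤ Y.sl S x y r ε' ∧
      l * (Y.sl S x y p ε - n * C) ≤ fv r x y - fv p x y ∧
      fv r x y - fv p x y ≤ l * (Y.sl S x y r ε' + n * C) ∧
      (0 < n → c * Y.tu S x y p - n * C ≤ Y.sl S x y r ε' - Y.sl S x y p ε) := by
  obtain ⟨c, C, hc, hC, H⟩ := Y.touch_ev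
  have hδ : 0 < E.dlt := E.dl0
  refine ⟨min c (E.dlt / 3), C, lt_min hc (by positivity), hC,
    fun lo hi p r ε ε' l n h x y => ?_⟩
  induction h with
  | one q r ε σ h =>
    filter_upwards [Y.step_ev h.st h.dir x y] with S hS
    obtain ⟨c', -, h1, h2, h3, h4⟩ := hS
    have := mul_nonneg hδ.le h1
    simp only [Nat.cast_zero, zero_mul, sub_zero, add_zero, lt_irrefl, false_imp_iff, and_true]
    exact ⟨by linarith, h3, h4⟩
  | cons q b b' r ε ε' σ a l n h hs ht hr ih =>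
    have hl := Y.toBSys.rt_nonneg hr
    obtain ⟨e1, e2⟩ := H a b b' ht x y
    filter_upwards [Y.step_ev h.st h.dir x y, e2, ih] with S hS e2 ih
    obtain ⟨c', hc', h1, h2, h3, h4⟩ := hS
    obtain ⟨i1, i2, i3, -⟩ := ih
    have e3 := e2.1
    rw [tg, hs, Bool.not_not] at e3
    have t0 : 0 ≤ Y.tu S x y b := Nat.cast_nonneg _
    have t1 := fch_turns hc'.fch hc'.pth
    rw [← hc'.eq] at t1
    change Y.tu S x y q - _ ≤ Y.tu S x y b at t1
    have t2 := mul_nonneg hδ.le h1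
    have t3 := mul_nonneg hc.le t0
    have t4 : 0 ≤ (n : ℝ) * C := mul_nonneg (Nat.cast_nonneg n) hC
    have hA := abs_nonneg (Y.toStp.px b - Y.toStp.px q)
    rw [e1] at i2 i3
    push_cast
    refine ⟨by linarith, ?_, ?_, fun _ => ?_⟩
    · have u1 := mul_le_mul_of_nonneg_left (show Y.sl S x y q ε - (n + 1) * C ≤
        Y.sl S x y b' (Y.toStp.sx b') - n * C by linarith) hl
      have u2 := mul_le_mul_of_nonneg_left (show Y.sl S x y q ε - (n + 1) * C ≤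
        Y.sl S x y q ε by linarith) hA
      linarith
    · have u1 := mul_le_mul_of_nonneg_left (show Y.sl S x y r ε' + n * C ≤
        Y.sl S x y r ε' + (n + 1) * C by linarith) hl
      have u2 := mul_le_mul_of_nonneg_left (show Y.sl S x y b ε ≤
        Y.sl S x y r ε' + (n + 1) * C by linarith) hA
      linarith
    · have u1 := mul_le_mul_of_nonneg_left t1
        (le_min hc.le (by positivity) : 0 ≤ min c (E.dlt / 3))
      have u2 := mul_le_mul_of_nonneg_right (min_le_left c (E.dlt / 3)) t0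
      have u3 := mul_le_mul_of_nonneg_right (min_le_right c (E.dlt / 3)) h1
      linarith

end FSys

end Pool.Agent.E5f.G2

end

section

namespace Pool.Agent.E5f.G2

open Classical Filter

namespace FSys

variable {O : Type} [AddCommGroup O] {E : Lat O} {Q P : Type} {dv dh : Q → Q → ℝ}
  {Cu : Q → Prop} {fv fh : Q → P → P → ℝ} (Y : FSys E dv dh Cu fv fh)

include Y

theorem fv_zero {p q : Q} (h : dv p q = 0) (x y : P) : fv p x y = fv q x y := by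
  obtain ⟨c, C, -, -, H⟩ := Y.route_ev
  obtain ⟨ε, ε', n, hr⟩ := Y.route p q
  obtain ⟨S, -, h1, h2, -⟩ := (H _ _ _ _ _ _ _ _ hr x y).exists
  rw [h, zero_mul] at h1 h2
  linarith

theorem lim_nonneg {F : Q → ℝ} (hF : F ∈ LimF1 fv) (q : Q) : 0 ≤ F q := nonneg_FsCvx Y.fpm hF q

theorem lim_zero {F : Q → ℝ} (hF : F ∈ LimF1 fv) {p q : Q} (h : dv p q = 0) : F p = F q := by
  have key : ∀ p q : Q, dv p q = 0 → F p ≤ F q := by
    intro p q h
    refine le_eps_FsCvx zero_le_two fun ε hε => ?_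
    obtain ⟨x, y, t, -, -, H⟩ := hF {p, q} ε hε
    have h1 := (abs_le.mp (H p (by simp))).1
    have h2 := (abs_le.mp (H q (by simp))).2
    rw [Y.fv_zero h] at h1
    linarith
  exact le_antisymm (key p q h) (key q p (by rw [Y.pv.symm, h]))

theorem lim_cvx {F : Q → ℝ} (hF : F ∈ LimF1 fv) {p q r : Q} (h : dv p q + dv q r = dv p r) :
    dv p r * F q ≤ dv q r * F p + dv p q * F r := by
  obtain ⟨c, C, -, hC, H⟩ := Y.route_ev
  obtain ⟨ε, ε', n, hr⟩ := Y.route p r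
  have hs : 0 ≤ dv p q := pm_nonneg_FsCvx Y.pv p q
  have hs' : 0 ≤ dv q r := pm_nonneg_FsCvx Y.pv q r
  obtain ⟨z, e, n1, n2, r1, r2⟩ := Y.toBSys.rt_split hr hs (by linarith)
  have hl : dv p r - dv p q = dv q r := by linarith
  rw [hl] at r2
  have d1 := Y.toBSys.rt_dv r1
  have d2 := Y.toBSys.rt_dv r2
  have d3 := Y.pv.tri p z r
  have hz : dv q z = 0 := tree0 Y.pv Y.hv h (by linarith) (by linarith)
  have hK : 0 ≤ dv p q * dv q r * ((n1 + n2) * C) := by positivity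
  have key : ∀ x y, dv p r * fv q x y ≤ dv q r * fv p x y + dv p q * fv r x y +
      dv p q * dv q r * ((n1 + n2) * C) := by
    intro x y
    obtain ⟨S, ⟨-, -, a1, -⟩, ⟨-, a2, -, -⟩⟩ :=
      ((H _ _ _ _ _ _ _ _ r1 x y).and (H _ _ _ _ _ _ _ _ r2 x y)).exists
    rw [Y.fv_zero hz, ← h]
    have b1 := mul_le_mul_of_nonneg_left a1 hs'
    have b2 := mul_le_mul_of_nonneg_left a2 hs
    nlinarith
  refine le_eps_FsCvx (K := 2 * dv p r + dv p q * dv q r * ((n1 + n2) * C))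
    (by linarith) fun δ hδ => ?_
  obtain ⟨x, y, t, ht, htδ, G⟩ := hF {p, q, r} δ hδ
  have g1 := (abs_le.mp (G p (by simp))).2
  have g2 := (abs_le.mp (G q (by simp))).1
  have g3 := (abs_le.mp (G r (by simp))).2
  have b0 := mul_le_mul_of_nonneg_left (key x y) ht.le
  have b1 := mul_le_mul_of_nonneg_left g1 hs'
  have b2 := mul_le_mul_of_nonneg_left g2 (add_nonneg hs hs')
  have b3 := mul_le_mul_of_nonneg_left g3 hs
  have b4 := mul_le_mul_of_nonneg_right htδ hK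
  rw [← h] at b0 ⊢
  nlinarith

theorem lim_b1 {Φ : (Q → ℝ) × (Q → ℝ)} (hΦ : Φ ∈ LimF fv fh) {p p' : Q} (h : Φ.1 p = 0)
    (h' : Φ.1 p' = 0) (hd : 0 < dv p p') :
    ∃ q, Thick (fun x y => fv q x y + fh q x y) ∧ Φ.1 q = 0 ∧ Φ.2 q = 0 := by
  have h1 : Φ.1 ∈ LimF1 fv := fun T ε hε => by
    obtain ⟨x, y, t, a, b, H⟩ := hΦ T ε hε
    exact ⟨x, y, t, a, b, fun q hq => (H q hq).1⟩
  have h2 : Φ.2 ∈ LimF1 fh := fun T ε hε => by
    obtain ⟨x, y, t, a, b, H⟩ := hΦ T ε hε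
    exact ⟨x, y, t, a, b, fun q hq => (H q hq).2⟩
  have hz : ∀ q, dv p q + dv q p' = dv p p' → Φ.1 q = 0 := by
    intro q hq
    have a1 := Y.lim_cvx h1 hq
    rw [h, h', mul_zero, mul_zero, add_zero] at a1
    refine le_antisymm ?_ (Y.lim_nonneg h1 q)
    by_contra hc
    exact absurd a1 (not_le.mpr (mul_pos hd (not_le.mp hc)))
  obtain ⟨q, r, s1, s2, s3, s4, s5, s6, s7, s8⟩ := Y.toBSys.gen_step hd
  obtain ⟨hT, c, C, hc, H⟩ := Y.two q r s1 s2 s3 s4 s5 s6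
  refine ⟨q, hT, hz q s7, le_antisymm ?_ (nonneg_FsCvx Y.fpm' h2 q)⟩
  have key : c * Φ.2 q ≤ 0 := by
    refine le_eps_FsCvx (K := c + |C| + 2) (by positivity) fun δ hδ => ?_
    obtain ⟨x, y, t, ht, htδ, G⟩ := hΦ {q, r} δ hδ
    have g1 := (abs_le.mp (G q (by simp)).1).2
    have g2 := (abs_le.mp (G q (by simp)).2).1
    have g3 := (abs_le.mp (G r (by simp)).1).2
    rw [hz q s7] at g1
    rw [hz r s8] at g3
    have b0 := mul_le_mul_of_nonneg_left (H x y) ht.le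
    have b1 := mul_le_mul_of_nonneg_left g2 hc.le
    have b2 := mul_le_mul_of_nonneg_left (le_abs_self C) ht.le
    have b3 := mul_le_mul_of_nonneg_right htδ (abs_nonneg C)
    nlinarith
  by_contra hn
  exact absurd key (not_le.mpr (mul_pos hc (not_le.mp hn)))

end FSys

end Pool.Agent.E5f.G2

end

section

namespace Pool.Agent.E5f.G2

open Classical Filter

theorem hgt_FsCore : ∀ (fl : Bool) (i j : Fin 4),
    i ≠ j → (hg fl i < hg fl j ↔ ¬ hg fl j < hg fl i) := by decide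

namespace Lat

variable {O : Type} [AddCommGroup O] (E : Lat O)

/-- No piece from `l` to `r` persists along a chain of the step. -/
def KillFsCore (u u' : Mx) (σ : O → Bool) (l r : Fin 4 × O) : Prop :=
  ∃ X : Finset (Fin 4 × O), ∀ S : Finset (Fin 4 × O), X ⊆ S → ∀ c,
    FCh (S : Set (Fin 4 × O)) (E.key u) (E.key u') c →
    (∀ e ∈ c, ∀ a, E.bk a e.1 = E.bk a e.2 → (G2.hg E.fl (E.tyl e.2) < G2.hg E.fl (E.tyl e.1) ↔ σ a = true)) →
    ∀ q, Pth (S : Set (Fin 4 × O)) q → 2 ≤ q.length → Pers (E.key u) true c q →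
      q.head? = some l → q.getLast? = some r → False

/-- The index `i` is faster than the index `j` in direction `ε`. -/
def FaFsCore (ε : Bool) (i j : Fin 4) : Prop :=
  if ε = true then E.v (E.tq j) < E.v (E.tq i) else E.v (E.tq i) < E.v (E.tq j)

theorem w_ne_FsCore {i j : Fin 4} (h : i ≠ j) : E.v (E.tq i) ≠ E.v (E.tq j) :=
  fun e => h (E.tq.injective (E.vm.injective e))

theorem fa_FsCore (ε : Bool) {i j : Fin 4} (h : i ≠ j) : E.FaFsCore ε i j ∨ E.FaFsCore ε j i := by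
  have := lt_or_gt_of_ne (E.w_ne_FsCore h)
  cases ε
  · exact this
  · exact this.symm

theorem δ_FsCore : 0 < E.dlt := E.dl0

variable {E} {ε : Bool} {u u' : Mx} {σ : O → Bool}

theorem inv_FsCore (hd : Dir ε u u') {x y : Fin 4 × O} {a : O} (hb : E.bk a x = E.bk a y)
    (hc : E.Cr u u' a) (hs : E.FaFsCore ε x.1 y.1) :
    E.key u x < E.key u y ∧ E.key u' y < E.key u' x := (E.inv_iff hd x y).2 ⟨a, hb, hc, hs⟩

theorem st_FsCore (hd : Dir ε u u') {S : Set (Fin 4 × O)} {c : List ((Fin 4 × O) × (Fin 4 × O))}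
    (h : FCh S (E.key u) (E.key u') c)
    (hs : ∀ e ∈ c, ∀ a, E.bk a e.1 = E.bk a e.2 →
      (G2.hg E.fl (E.tyl e.2) < G2.hg E.fl (E.tyl e.1) ↔ σ a = true))
    {x y : Fin 4 × O} (hx : x ∈ S) (hy : y ∈ S) (hne : x.1 ≠ y.1) {a : O}
    (hb : E.bk a x = E.bk a y) (hc : E.Cr u u' a) :
    (x, y) ∈ c ↔ (G2.hg E.fl (E.tq y.1) < G2.hg E.fl (E.tq x.1) ↔ σ a = true) := by
  have h1 : ((x, y) ∈ c ∨ (y, x) ∈ c) := by
    rcases E.fa_FsCore ε hne with h1 | h1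
    · exact (fch_inv h hx hy (inv_FsCore hd hb hc h1).1 (inv_FsCore hd hb hc h1).2).1
    · exact (fch_inv h hy hx (inv_FsCore hd hb.symm hc h1).1
        (inv_FsCore hd hb.symm hc h1).2).1.symm
  refine ⟨fun h2 => hs _ h2 a hb, fun h2 => h1.resolve_right fun h3 => ?_⟩
  have h4 : G2.hg E.fl (E.tq x.1) < G2.hg E.fl (E.tq y.1) ↔ σ a = true := hs _ h3 a hb.symm
  have h5 := hgt_FsCore E.fl _ _ (E.tq.injective.ne hne)
  tauto

theorem killA_FsCore (hd : Dir ε u u') {l r β : Fin 4 × O} {a1 a2 : O} (hlr : l.1 = r.1)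
    (hβ : β.1 ≠ l.1) (h1 : E.bk a1 β = E.bk a1 l) (h2 : E.bk a2 β = E.bk a2 r)
    (c1 : E.Cr u u' a1) (c2 : E.Cr u u' a2) (hσ : σ a1 ≠ σ a2) : E.KillFsCore u u' σ l r := by
  refine ⟨{β}, fun S hS c h hs q hq hq2 hp hl hr => hσ ?_⟩
  have hβS : β ∈ (S : Set (Fin 4 × O)) := hS (Finset.mem_singleton_self β)
  obtain ⟨hlS, hrS⟩ := mem_LsCC hq hl hr
  have e1 := st_FsCore hd h hs hβS hlS hβ h1 c1
  have e2 := st_FsCore hd h hs hβS hrS (hlr ▸ hβ) h2 c2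
  have e3 : (β, l) ∈ c ↔ (β, r) ∈ c := by
    rcases E.fa_FsCore ε hβ with h3 | h3
    · exact cc2a h hq hq2 hp hl hr hβS (inv_FsCore hd h1 c1 h3).1
        (inv_FsCore hd h2 c2 (hlr ▸ h3)).2
    · exact cc2b h hq hq2 hp hl hr hβS (inv_FsCore hd h2.symm c2 (hlr ▸ h3)).1
        (inv_FsCore hd h1.symm c1 h3).2
  rw [← hlr] at e2
  rw [Bool.eq_iff_iff]
  tauto

theorem killB_FsCore (hd : Dir ε u u') {l r : Fin 4 × O} {a : O} (hlr : l.1 ≠ r.1)
    (hb : E.bk a l = E.bk a r) (hc : E.Cr u u' a) : E.KillFsCore u u' σ l r := by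
  refine ⟨∅, fun S _ c h _ q hq hq2 hp hl hr => ?_⟩
  obtain ⟨h0, h1⟩ := pers_ends h hq hq2 hp hl hr
  rcases E.fa_FsCore ε hlr with h3 | h3
  · exact lt_asymm h1 (inv_FsCore hd hb hc h3).2
  · exact lt_asymm h0 (inv_FsCore hd hb.symm hc h3).1

theorem killC_FsCore (hd : Dir ε u u') {l r : Fin 4 × O} {a0 a a' : O} (hlr : l.1 ≠ r.1)
    (hb : E.bk a0 l = E.bk a0 r) (h0 : Dir ε (toLex (E.ξ a0, ε)) u) (ca : E.Cr u u' a)
    (ca' : E.Cr u u' a') (cb : E.Cr u u' (a + a' - a0)) (e : σ a = σ a')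
    (hσ : σ (a + a' - a0) ≠ σ a) : E.KillFsCore u u' σ l r := by
  obtain ⟨β, hβ⟩ : ∃ β : Fin 4 × O, β = (r.1, l.2 + E.mu l.1 a - E.mu r.1 a) := ⟨_, rfl⟩
  obtain ⟨α, hα⟩ : ∃ α : Fin 4 × O, α = (l.1, r.2 + E.mu r.1 a' - E.mu l.1 a') := ⟨_, rfl⟩
  have β1 : β.1 = r.1 := by rw [hβ]
  have α1 : α.1 = l.1 := by rw [hα]
  have b1 : E.bk a β = E.bk a l := by simp [hβ, bk]
  have b2 : E.bk a' r = E.bk a' α := by simp [hα, bk]
  have b3 : E.bk (a + a' - a0) β = E.bk (a + a' - a0) α := by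
    have : l.2 = r.2 + E.mu r.1 a0 - E.mu l.1 a0 := eq_sub_of_add_eq hb
    simp only [hα, hβ, bk, map_sub, map_add, this]
    abel
  refine ⟨{α, β}, fun S hS c h hs q hq hq2 hp hl hr => hσ ?_⟩
  have hαS : α ∈ (S : Set (Fin 4 × O)) := hS (by simp)
  have hβS : β ∈ (S : Set (Fin 4 × O)) := hS (by simp)
  obtain ⟨hlS, hrS⟩ := mem_LsCC hq hl hr
  have k0 := (pers_ends h hq hq2 hp hl hr).1
  have hf : E.FaFsCore ε r.1 l.1 := by
    refine (E.fa_FsCore ε hlr).resolve_left fun h3 => ?_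
    cases ε
    · exact (E5f.Lat.tf_FsCore _).not_ge (((E.key_col u hb h3).1 k0).trans h0)
    · exact lt_asymm k0 ((E.key_col u hb.symm h3).2 h0)
  have i1 := inv_FsCore hd b1 ca (β1 ▸ hf)
  have i2 := inv_FsCore hd b2 ca' (α1 ▸ hf)
  have i3 := inv_FsCore hd b3 cb (β1 ▸ α1 ▸ hf)
  have hc := cc1 h hq hq2 hp hl hr hαS hβS i1.1 ((E.key_same u u' β1).1 (i1.1.trans k0)) i2.1
    ((E.key_same u u' α1.symm).1 (k0.trans i2.1)) i3.2
  have n1 : β.1 ≠ l.1 := β1 ▸ hlr.symm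
  have n2 : r.1 ≠ α.1 := α1 ▸ hlr.symm
  have n3 : β.1 ≠ α.1 := α1 ▸ n1
  rw [st_FsCore hd h hs hβS hlS n1 b1 ca, st_FsCore hd h hs hrS hαS n2 b2 ca',
    st_FsCore hd h hs hβS hαS n3 b3 cb, st_FsCore hd h hs hlS hβS n1.symm b1.symm ca,
    st_FsCore hd h hs hαS hrS n2.symm b2.symm ca',
    st_FsCore hd h hs hαS hβS n3.symm b3.symm cb, β1, α1, ← e,
    hgt_FsCore E.fl _ _ (E.tq.injective.ne hlr)] at hc
  rw [Bool.eq_iff_iff]
  tauto

theorem near_FsCore {l r : Fin 4 × O} {a : O} (hlr : l.1 ≠ r.1) (hb : E.bk a l = E.bk a r)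
    {t R : ℝ} (h : |E.pos t r - E.pos t l| ≤ R) :
    |E.ξ a - t| ≤ R / E.dlt := by
  have h1 : E.pos (E.ξ a) l = E.pos (E.ξ a) r := by rw [E.pos_bk, E.pos_bk, hb]
  have h2 : E.pos t r - E.pos t l = (E.sp l - E.sp r) * (E.ξ a - t) := by
    simp only [pos] at h1 ⊢
    linarith
  have h3 : E.dlt ≤ |E.sp l - E.sp r| := by
    rcases lt_or_gt_of_ne (E.w_ne_FsCore hlr) with h4 | h4
    · exact (E.sp_gap h4).trans (abs_sub_comm (E.sp l) _ ▸ le_abs_self _)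
    · exact (E.sp_gap h4).trans (le_abs_self _)
  rw [h2, abs_mul] at h
  rw [le_div_iff₀' E.δ_FsCore]
  exact (mul_le_mul_of_nonneg_right h3 (abs_nonneg _)).trans h

theorem same_FsCore {l r : Fin 4 × O} (hlr : l.1 = r.1) (t : ℝ) :
    E.pos t r - E.pos t l = E.ξ r.2 - E.ξ l.2 := by
  simp only [pos, sp, hlr]
  ring

end Lat

namespace FSys

variable {O : Type} [AddCommGroup O] {E : Lat O} {Q P : Type} {dv dh : Q → Q → ℝ}
  {Cu : Q → Prop} {fv fh : Q → P → P → ℝ} (Y : FSys E dv dh Cu fv fh)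

theorem count_FsCore {R : ℝ} (hR : 0 < R) {z r r' : Q} {ε ε' : Bool} {σ σ' : O → Bool}
    (h : Y.St z r σ) (hd : Dir ε (Y.ux z) (Y.ux r)) (h' : Y.St z r' σ')
    (hd' : Dir ε' (Y.ux z) (Y.ux r'))
    (hK : ∀ l m : Fin 4 × O, l ≠ m → |E.pos (Y.toStp.px z) m - E.pos (Y.toStp.px z) l| ≤ R →
      E.KillFsCore (Y.ux z) (Y.ux r) σ l m ∨ E.KillFsCore (Y.ux z) (Y.ux r') σ' l m)
    (x y : P) : ∀ᶠ S in atTop, ∀ g : ℝ, 0 ≤ g → Y.sl S x y r ε - Y.sl S x y z ε ≤ g →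
      Y.sl S x y r' ε' - Y.sl S x y z ε' ≤ g →
      Y.tu S x y z ≤ fv z x y / R + 6 / E.dlt * (g + 1) := by
  have hδ := E.δ_FsCore
  obtain ⟨T, Y0, hT⟩ := Y.box z x y
  have hX : ∀ e : (Fin 4 × O) × (Fin 4 × O), ∃ X : Finset (Fin 4 × O),
      ∀ S : Finset (Fin 4 × O), X ⊆ S → ∀ c c', Y.CH S x y z r σ c → Y.CH S x y z r' σ' c' →
      ∀ q, Pth (S : Set (Fin 4 × O)) q → 2 ≤ q.length → Pers (E.key (Y.ux z)) true c q →
        Pers (E.key (Y.ux z)) true c' q → q.head? = some e.1 → q.getLast? = some e.2 →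
        R < |E.pos (Y.toStp.px z) e.2 - E.pos (Y.toStp.px z) e.1| := by
    rintro ⟨l, m⟩
    by_cases h1 : l = m
    · exact ⟨∅, fun S _ c c' hc _ q hq h2 hp _ hl hm =>
        absurd (pers_ends hc.fch hq h2 hp hl hm).1 (by simp [h1])⟩
    rcases lt_or_ge R |E.pos (Y.toStp.px z) m - E.pos (Y.toStp.px z) l| with h2 | h2
    · exact ⟨∅, fun _ _ _ _ _ _ _ _ _ _ _ _ _ => h2⟩
    rcases hK l m h1 h2 with ⟨X, hX⟩ | ⟨X, hX⟩
    · exact ⟨X, fun S hS c c' hc _ q hq h2 hp _ hl hm =>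
        (hX S hS c hc.fch hc.stat q hq h2 hp hl hm).elim⟩
    · exact ⟨X, fun S hS c c' _ hc q hq h2 _ hp hl hm =>
        (hX S hS c' hc.fch hc.stat q hq h2 hp hl hm).elim⟩
  choose X hX using hX
  filter_upwards [hT, Y.ev z x y, Y.step_ev h hd x y, Y.step_ev h' hd' x y,
    eventually_ge_atTop ((T ×ˢ T).biUnion X)] with S hT hev ⟨c, hc, _, g1, _⟩ ⟨c', hc', _, g2, _⟩ hS
    g hg s1 s2
  have hC : 0 ≤ 6 / E.dlt := by positivity
  have hf : 0 ≤ fv z x y := hev ▸ var_nonneg _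
  by_cases h2 : 2 ≤ (Y.path z S x y).length
  swap
  · have : Y.tu S x y z = 0 := by
      unfold tu
      generalize Y.path z S x y = p at h2
      rcases p with _ | ⟨a, _ | ⟨b, p⟩⟩
      · simp [turns]
      · simp [turns]
      · simp at h2
    rw [this]
    positivity
  obtain ⟨D, hD, hA, hlen, hend⟩ := buildT (E.key_inj (Y.ux z)) hc.pth.rd h2
  have t1 := trackT hc.fch hc.pth hD hA
  have t2 := trackT hc'.fch hc.pth hD hA
  have t3 := cnt_FsCore (fun q => Var (q.map (E.pos (Y.toStp.px z)))) (fun _ => var_nonneg _) R D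
  rw [← dec_var hD, ← hev, ← le_div_iff₀' hR] at t3
  have t4 := cnt3_FsCore (fun q => decide (¬ ∃ d, Pers (E.key (Y.ux z)) d c q))
    (fun q => decide (¬ ∃ d, Pers (E.key (Y.ux z)) d c' q))
    (fun q => decide (R < Var (q.map (E.pos (Y.toStp.px z))))) D fun q hq => by
      simp only [decide_eq_true_eq]
      by_contra hn
      simp only [not_or, not_not] at hn
      obtain ⟨⟨d, hp⟩, ⟨d', hp'⟩, hv⟩ := hn
      have q2 := hD.two q hq
      have qn : q ≠ [] := by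
        rintro rfl
        simp at q2
      have hx := List.head?_eq_some_head qn
      have hy := List.getLast?_eq_some_getLast qn
      have xT := hT.1 _ (hend q hq _ (.inl hx))
      have yT := hT.1 _ (hend q hq _ (.inr hy))
      rw [var_mono (p := q) (ρ := E.pos (Y.toStp.px z)) (hp [] c rfl) fun a _ b _ => E.key_pos _,
        extn_eq_LsBasic _ hx hy] at hv
      obtain ⟨q', l, m, a1, a2, a3, a4, a5, a6, a7⟩ := norm_FsCore hc.fch hc'.fch
        (pth_inf hc.pth (dec_inf hD hq) qn) q2 hp hp' hx hy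
      have hm : (l, m) ∈ T ×ˢ T := by
        rcases a7 with ⟨rfl, rfl⟩ | ⟨rfl, rfl⟩ <;> exact Finset.mem_product.2 ⟨by assumption,
          by assumption⟩
      have := hX (l, m) S ((Finset.subset_biUnion_of_mem X hm).trans hS) c c' hc hc' q' a1 a2 a3
        a4 a5 a6
      rcases a7 with ⟨rfl, rfl⟩ | ⟨rfl, rfl⟩
      · exact hv this
      · exact hv (this.trans_eq (abs_sub_comm _ _))
  rw [hlen, ← Nat.cast_le (α := ℝ)] at t4
  push_cast at t4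
  unfold tu
  have g3 := (le_div_iff₀' hδ).2 (g1.trans s1)
  have g4 := (le_div_iff₀' hδ).2 (g2.trans s2)
  have e : 6 / E.dlt * (g + 1) =
      6 * (g / E.dlt) + 6 / E.dlt := by ring
  linarith

/-- Few turns in the middle of a long step. -/
theorem core2 : ∃ C : ℝ, 0 ≤ C ∧ ∀ R : ℝ, 0 < R → ∃ W : ℝ, ∀ (lo hi : ℝ) (z r r' : Q) (ε : Bool)
    (σ σ' : O → Bool), Y.toStp.DSt lo hi ε z r σ → Y.toStp.DSt lo hi (!ε) z r' σ' →
    W ≤ |Y.toStp.px r - Y.toStp.px z| → W ≤ |Y.toStp.px r' - Y.toStp.px z| →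
    ∀ x y : P, ∀ᶠ S in atTop, ∀ g : ℝ, 0 ≤ g → Y.sl S x y r ε - Y.sl S x y z ε ≤ g →
      Y.sl S x y r' (!ε) - Y.sl S x y z (!ε) ≤ g →
      Y.tu S x y z ≤ fv z x y / R + C * (g + 1) := by
  refine ⟨6 / E.dlt, div_nonneg (by norm_num) E.δ_FsCore.le, fun R hR => ?_⟩
  obtain ⟨W, hW⟩ := E.same_lat R
  refine ⟨max W (R / E.dlt + 1), fun lo hi z r r' ε σ σ' h h' w w' =>
    Y.count_FsCore hR h.st h.dir h'.st h'.dir fun l m hne hlm => ?_⟩
  by_cases h1 : l.1 = m.1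
  · obtain ⟨β, a1, a2, b1, b2, b3, b4, b5, b6⟩ := hW ε _ _ lo hi σ h.dir h.thr
      ((le_max_left _ _).trans w) l m h1 hne (by rwa [Lat.same_FsCore h1] at hlm)
    exact .inl (Lat.killA_FsCore h.dir h1 b1 b2 b3 b4 b5 b6)
  obtain ⟨a, ha⟩ := E.col_ex h1
  have h2 := Lat.near_FsCore h1 ha hlm
  by_cases h3 : Dir ε (toLex (E.ξ a, ε)) (Y.ux z)
  · refine .inr (Lat.killB_FsCore h'.dir h1 ha (Lat.ahead_FsCore h'.dir h2
      ((le_max_right _ _).trans w') fun h4 => (Lat.tf_FsCore (E.ξ a)).not_ge ?_))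
    cases ε
    · exact le_trans h4 h3
    · exact le_trans h3 h4
  · exact .inl (Lat.killB_FsCore h.dir h1 ha (Lat.ahead_FsCore h.dir h2
      ((le_max_right _ _).trans w) h3))

/-- Few turns at the start of a long step unless the step runs over a prong. -/
theorem core1 : ∃ C : ℝ, 0 ≤ C ∧ ∀ R : ℝ, 0 < R → ∃ R' : ℝ, ∀ B N : ℝ, ∃ L : ℝ,
    ∀ (y0 : ℝ) (z r : Q) (ε : Bool) (σ : O → Bool), Y.toStp.DSt (y0 - B) (y0 + B) ε z r σ →
    L ≤ |Y.toStp.px r - Y.toStp.px z| →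
    (∃ a0, |E.ξ a0 - Y.toStp.px z| ≤ R' ∧ ∀ a, E.Cr (Y.ux z) (Y.ux r) a →
      |E.ξ a - Y.toStp.px z| ≤ N → (σ a = true ↔ E.η a < E.η a0)) ∨
    ∀ x y : P, ∀ᶠ S in atTop, ∀ g : ℝ, 0 ≤ g → Y.sl S x y r ε - Y.sl S x y z ε ≤ g →
      Y.tu S x y z ≤ fv z x y / R + C * (g + 1) := by
  refine ⟨6 / E.dlt, div_nonneg (by norm_num) E.δ_FsCore.le, fun R hR =>
    ⟨R / E.dlt, fun B N => ?_⟩⟩
  obtain ⟨W, hW⟩ := E.same_lat R
  obtain ⟨L0, hL⟩ := E.sg_lat (R / E.dlt) B N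
  refine ⟨max (max W L0) (R / E.dlt + 1), fun y0 z r ε σ h w =>
    or_iff_not_imp_left.2 fun hn x y => ?_⟩
  refine (Y.count_FsCore hR h.st h.dir h.st h.dir (fun l m hne hlm => .inl ?_) x y).mono
    fun S hS g hg h1 => hS g hg h1 h1
  by_cases h1 : l.1 = m.1
  · obtain ⟨β, a1, a2, b1, b2, b3, b4, b5, b6⟩ := hW ε _ _ _ _ σ h.dir h.thr
      (((le_max_left _ _).trans (le_max_left _ _)).trans w) l m h1 hne
      (by rwa [Lat.same_FsCore h1] at hlm)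
    exact Lat.killA_FsCore h.dir h1 b1 b2 b3 b4 b5 b6
  obtain ⟨a, ha⟩ := E.col_ex h1
  have h2 := Lat.near_FsCore h1 ha hlm
  by_cases h3 : Dir ε (toLex (E.ξ a, ε)) (Y.ux z)
  · by_contra hk
    refine hn ⟨a, h2, hL ε _ _ y0 σ a h.dir h.thr
      (((le_max_right _ _).trans (le_max_left _ _)).trans w) h2 h3 fun b b' c1 c2 c3 e => ?_⟩
    by_contra h4
    exact hk (Lat.killC_FsCore h.dir h1 ha h3 c1 c2 c3 e h4)
  · exact Lat.killB_FsCore h.dir h1 ha (Lat.ahead_FsCore h.dir h2 ((le_max_right _ _).trans w) h3)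

end FSys

end Pool.Agent.E5f.G2

end

section

namespace Pool.Agent.E5f.G2

open Classical Filter

namespace FSys

variable {O : Type} [AddCommGroup O] {E : Lat O} {Q P : Type} {dv dh : Q → Q → ℝ}
  {Cu : Q → Prop} {fv fh : Q → P → P → ℝ} (Y : FSys E dv dh Cu fv fh)

include Y

theorem apx_FsB5u {F : Q → ℝ} (hF : F ∈ LimF1 fv) {lo hi : ℝ} {p1 z z' p2 : Q}
    {e1 e e' e2 : Bool} {n1 n2 : ℕ} (r1 : Y.toStp.Rt lo hi p1 e1 z e (1 / 2) n1)
    (r2 : Y.toStp.Rt lo hi z' e' p2 e2 (1 / 2) n2) : ∃ K : ℝ, 0 ≤ K ∧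
    ∀ (R : P → P → Finset (Fin 4 × O) → Prop), (∀ x y, ∀ᶠ S in atTop, R x y S) →
      ∀ ε, 0 < ε → ∃ x y S t, 0 < t ∧ t ≤ ε ∧ R x y S ∧
        2 * (F z - F p1) - ε * K ≤ t * Y.sl S x y z e ∧
        t * Y.sl S x y z' e' ≤ 2 * (F p2 - F z') + ε * K ∧
        Y.sl S x y z e ≤ E.wm * (Y.tu S x y z + 1) ∧ t * fv z x y ≤ F z + ε := by
  obtain ⟨c, C, -, hC, h⟩ := Y.route_ev
  have m1 : 0 ≤ (n1 : ℝ) * C := by positivity
  have m2 : 0 ≤ (n2 : ℝ) * C := by positivity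
  refine ⟨4 + n1 * C + n2 * C, by positivity, fun R hR ε hε => ?_⟩
  obtain ⟨x, y, t, t0, t1, ht⟩ := hF {p1, z, z', p2} ε hε
  obtain ⟨S, a1, a2, a3, a4⟩ := ((hR x y).and ((h _ _ _ _ _ _ _ _ r1 x y).and
    ((h _ _ _ _ _ _ _ _ r2 x y).and (Y.sl_le z e x y)))).exists
  have b1 := abs_le.1 (ht p1 (by simp))
  have b2 := abs_le.1 (ht z (by simp))
  have b3 := abs_le.1 (ht z' (by simp))
  have b4 := abs_le.1 (ht p2 (by simp))
  have c1 := mul_le_mul_of_nonneg_left a2.2.2.1 t0.le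
  have c2 := mul_le_mul_of_nonneg_left a3.2.1 t0.le
  have c3 := mul_le_mul_of_nonneg_left t1 m1
  have c4 := mul_le_mul_of_nonneg_left t1 m2
  have c5 := mul_nonneg m1 hε.le
  have c6 := mul_nonneg m2 hε.le
  exact ⟨x, y, S, t, t0, t1, a1, by linarith [b1.1, b2.1, b1.2, b2.2],
    by linarith [b3.1, b4.1, b3.2, b4.2], (le_abs_self _).trans a4, by linarith [b2.2]⟩

theorem lim_b5u (B : ℝ) : ∃ R : ℝ, ∀ N : ℝ, ∃ L η : ℝ, N ≤ L ∧ 0 < η ∧ ∀ F ∈ LimF1 fv,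
    ∀ (p0 p1 p2 p3 : Q) (s : ℝ), dv p0 p1 = 1 → dv p1 p2 = L → dv p2 p3 = 1 →
      dv p0 p2 = L + 1 → dv p1 p3 = L + 1 → dv p0 p3 = L + 2 → dh p1 p2 ≤ B → 0 < s →
      s ≤ F p1 - F p0 → F p3 - F p2 ≤ (1 + η) * s → F p1 ≤ B * s →
      ∃ c, Cu c ∧ dv c p1 ≤ R ∧ ∃ z : ℝ → Q, ∀ τ, 1 ≤ τ → τ ≤ N →
        dh (z τ) c = 0 ∧ dv p1 (z τ) = τ ∧ dv (z τ) p2 = L - τ := by
  have hw : 0 < E.wm := E.wm_pos
  have hP := Y.pv
  obtain ⟨B', hB, hB1⟩ : ∃ B', B ≤ B' ∧ 1 ≤ B' := ⟨max B 1, le_max_left _ _, le_max_right _ _⟩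
  obtain ⟨c, C, hc, hC, hrt⟩ := Y.route_ev
  obtain ⟨C1, hC1, h1⟩ := Y.core1
  obtain ⟨R', h2⟩ := h1 (4 * (B' + 1) * E.wm) (by positivity)
  refine ⟨R' + 1 / 2, fun N => ?_⟩
  obtain ⟨L0, h3⟩ := h2 B' N
  obtain ⟨L, l1, l2, l3⟩ : ∃ L, L0 + 2 ≤ L ∧ N + 2 ≤ L ∧ 2 ≤ L :=
    ⟨max (max L0 N) 0 + 2, by
      have := le_max_left (max L0 N) 0
      have := le_max_right (max L0 N) 0
      have := le_max_left L0 N
      have := le_max_right L0 N
      exact ⟨by linarith, by linarith, by linarith⟩⟩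
  obtain ⟨η, e0, e1, e2, e3⟩ : ∃ η : ℝ, 0 < η ∧ η ≤ 1 ∧ η * (2 * E.wm) ≤ c ∧
      η * (4 * E.wm * (C1 + 1)) ≤ 1 :=
    ⟨min 1 (min (c / (2 * E.wm)) (1 / (4 * E.wm * (C1 + 1)))), by positivity, min_le_left _ _,
      (le_div_iff₀ (by positivity)).1 ((min_le_right _ _).trans (min_le_left _ _)),
      (le_div_iff₀ (by positivity)).1 ((min_le_right _ _).trans (min_le_right _ _))⟩
  refine ⟨L, η, by linarith, e0, ?_⟩
  intro F hF p0 p1 p2 p3 s d01 d12 d23 d02 d13 d03 hh hs s1 s2 s3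
  obtain ⟨ε1, ε2, n, r⟩ := Y.route p1 p2
  rw [d12] at r
  replace r := Y.rt_mono r (lo' := Y.toStp.py p1 - B') (hi' := Y.toStp.py p1 + B')
    (by linarith) (by linarith)
  obtain ⟨z, e, n1, n2, r1, r'⟩ := Y.rt_split r (s := 1 / 2) (by norm_num) (by linarith)
  obtain ⟨z', e', n3, n4, r2, r3⟩ := Y.rt_split r' (s := L - 1) (by linarith) (by linarith)
  rw [show L - 1 / 2 - (L - 1) = 1 / 2 by ring] at r3
  have a1 := Y.rt_dv r1
  have a2 := Y.rt_dv r2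
  have a3 := Y.rt_dv r3
  have t1 := hP.tri p1 z p2
  have t2 := hP.tri z z' p2
  have t3 := hP.tri p1 z z'
  have t4 := hP.tri p1 z' p2
  have t5 := hP.tri p0 z p2
  have t6 := hP.tri p0 p1 z
  have t7 := hP.tri p1 z' p3
  have t8 := hP.tri z' p2 p3
  have d1 : dv p1 z = 1 / 2 := by linarith
  have d2 : dv z p2 = L - 1 / 2 := by linarith
  have d3 : dv z' p2 = 1 / 2 := by linarith
  have d4 : dv p0 z = 3 / 2 := by linarith
  have d5 : dv z' p3 = 3 / 2 := by linarith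
  have c1 := Y.lim_cvx hF (p := p0) (q := p1) (r := z) (by linarith)
  have c2 := Y.lim_cvx hF (p := z') (q := p2) (r := p3) (by linarith)
  have c3 := Y.lim_cvx hF (p := p1) (q := z) (r := p2) (by linarith)
  have c4 := Y.lim_cvx hF (p := p1) (q := p2) (r := p3) (by linarith)
  rw [d4, d1, d01] at c1
  rw [d5, d23, d3] at c2
  rw [d12, d2, d1] at c3
  rw [d13, d23, d12] at c4
  have f1 : F z ≤ (B' + 1) * s := by
    have g1 : η * s ≤ 1 * s := mul_le_mul_of_nonneg_right e1 hs.le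
    have g2 : L * (F p3 - F p2) ≤ L * (2 * s) :=
      mul_le_mul_of_nonneg_left (by linarith) (by linarith)
    have g3 : F z - F p1 ≤ s := le_of_mul_le_mul_left (a := L) (by linarith) (by linarith)
    have g4 : B * s ≤ B' * s := mul_le_mul_of_nonneg_right hB hs.le
    linarith
  obtain ⟨K, hK, hA⟩ := Y.apx_FsB5u hF r1 r3
  rcases Nat.eq_zero_or_pos n3 with rfl | hn
  swap
  · refine (small_FsB5u (A := c * s / 2)
      (M := c * K + c * E.wm + 2 * E.wm * K + E.wm * (n3 * C)) (by positivity)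
      fun ε hε => ?_).elim
    obtain ⟨x, y, S, t, b1, b2, b3, b4, b5, b6, -⟩ := hA _ (hrt _ _ _ _ _ _ _ _ r2) ε hε
    exact num1_FsB5u (K := K) hc hw hs e2 b1 b2 (by positivity) (by linarith)
      (b := Y.sl S x y z' e') (by linarith) b6 (b3.2.2.2 hn)
  obtain ⟨rfl, hl, σ, hσ⟩ := Y.rt_zero r2
  rcases h3 _ _ _ _ _ hσ (by linarith) with ⟨a0, h4, h5⟩ | h4
  · obtain ⟨q, q1, q2, y, q3⟩ := Y.prong hσ h4 h5 (by linarith)
    have u1 := hP.tri q z p1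
    rw [hP.symm z p1] at u1
    refine ⟨q, q1, by linarith, fun τ => y (τ - 1 / 2), fun τ k1 k2 => ?_⟩
    obtain ⟨v1, v2, v3⟩ := q3 (τ - 1 / 2) (by linarith) (by linarith)
    have v4 := hP.tri p1 z (y (τ - 1 / 2))
    have v5 := hP.tri (y (τ - 1 / 2)) z' p2
    have v6 := hP.tri p1 (y (τ - 1 / 2)) p2
    exact ⟨v1, by linarith, by linarith⟩
  · refine (small_FsB5u (A := s / 2)
      (M := K + E.wm + 1 / (4 * (B' + 1)) + E.wm * C1 * (2 * K + 1)) (by positivity)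
      fun ε hε => ?_).elim
    obtain ⟨x, y, S, t, b1, b2, b3, b4, b5, b6, b7⟩ := hA _ h4 ε hε
    refine num2_FsB5u (K := K) (b := B' + 1) (f := fv z x y) hC1 hw hs (by linarith) e3 e0 b1 b2
      (by linarith) b6 (by linarith) (b3 _ (by positivity) ?_)
    rw [le_div_iff₀ b1]
    linarith

end FSys

end Pool.Agent.E5f.G2

end


section

namespace Pool.Agent.E5f.G2

open Classical Filter

namespace FSys

variable {O : Type} [AddCommGroup O] {E : Lat O} {Q P : Type} {dv dh : Q → Q → ℝ}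
  {Cu : Q → Prop} {fv fh : Q → P → P → ℝ} (Y : FSys E dv dh Cu fv fh)

theorem tg_symm_FsDrift (S : Finset (Fin 4 × O)) (x y : P) (z z' : Q) :
    Y.tg S x y z z' = Y.tg S x y z' z := by
  simp only [tg, sl_not]
  ring

theorem ws_FsDrift {A B : Q} {e s : Bool} {σ : O → Bool} {a : O} {o : Option (Q × Q)}
    (h : Y.toStp.WS A B e σ s a o) :
    |E.ξ a - Y.toStp.px A| ≤ |Y.toStp.px B - Y.toStp.px A| := by
  cases o with
  | none => exact E.cr_FsDrift h.1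
  | some z =>
    obtain ⟨h1, h2, -⟩ := Y.toBSys.tch_px h.1
    rcases h.2 with ⟨rfl, -⟩ | ⟨rfl, -⟩
    · rw [← h2, sub_self, abs_zero]
      exact abs_nonneg _
    · rw [← h1]

/-- All but few of the surviving pieces obey the closure rule at a point of the window. -/
theorem rule_FsDrift : ∃ c C : ℝ, 0 < c ∧ 0 ≤ C ∧ ∀ (A B : Q) (e s : Bool) (σ : O → Bool) (a : O)
    (o : Option (Q × Q)), Dir e (Y.ux A) (Y.ux B) → Y.toStp.WS A B e σ s a o → ∀ x y : P,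
    ∀ᶠ S in atTop, ∀ g : ℝ, 0 ≤ g → (∀ z, o = some z → Y.tg S x y z.1 z.2 ≤ g) →
      ∀ ch D D' (Z : List (List (Fin 4 × O) × List (Fin 4 × O))), Y.CH S x y A B σ ch →
      Dec D (Y.path A S x y) → Dec D' (Y.path B S x y) → (Z.map Prod.fst).Sublist D →
      (Z.map Prod.snd).Sublist D' → ∃ bad : List (Fin 4 × O) × List (Fin 4 × O) → Bool,
        c * (Z.countP bad : ℝ) - C ≤ g ∧ ∀ z ∈ Z, bad z = false → ∀ bl br,
          Spans (E.key (Y.ux A)) bl br z.1 →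
          GoodL (S : Set (Fin 4 × O)) (E.key (Y.ux B)) ch bl br z.1 z.2 →
          ∀ ν ν', ν ∈ S → ν' ∈ S → Full (S : Set (Fin 4 × O)) E.tyl (E.bk a) ν' →
            E.bk a ν = E.bk a ν' → ν.1 ≠ ν'.1 → (G2.hg E.fl (E.tyl ν') < G2.hg E.fl (E.tyl ν) ↔ s = true) →
            E.Btw_FsDrift (Y.toStp.px A) bl br ν' → E.Btw_FsDrift (Y.toStp.px B) bl br ν →
            E.Btw_FsDrift (Y.toStp.px B) bl br ν' → ν' ∈ z.1 → ν ∈ z.1 := by
  obtain ⟨c, C, hc, hC, ht⟩ := Y.touch_ev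
  refine ⟨c, C, hc, hC, fun A B e s σ a o hd hw x y => ?_⟩
  have deep : ∀ {S : Finset (Fin 4 × O)} {bl br ν : Fin 4 × O}, ν ∈ S →
      E.Btw_FsDrift (Y.toStp.px B) bl br ν →
      Deep (S : Set (Fin 4 × O)) (E.key (Y.ux B)) bl br ν :=
    fun h1 h2 => ⟨h1, E.pos_key _ h2.1, E.pos_key _ h2.2⟩
  cases o with
  | none =>
    refine Eventually.of_forall fun S g hg _ ch D D' Z hch _ _ _ _ =>
      ⟨fun _ => false, by simp; linarith, ?_⟩
    intro z _ _ bl br _ hG ν ν' h1 h2 _ hb hne hh _ b1 b2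
    have inv : ∀ μ μ' : Fin 4 × O, μ ∈ S → μ' ∈ S → E.bk a μ = E.bk a μ' →
        (if e = true then E.sp μ' < E.sp μ else E.sp μ < E.sp μ') →
        (μ, μ') ∈ ch ∨ (μ', μ) ∈ ch := fun μ μ' g1 g2 g3 g4 => by
      obtain ⟨g5, g6⟩ := (E.inv_iff hd μ μ').2 ⟨a, g3, hw.1, g4⟩
      exact (fch_inv hch.fch g1 g2 g5 g6).1
    have h3 : (ν, ν') ∈ ch ∨ (ν', ν) ∈ ch := by
      rcases lt_or_gt_of_ne (E.sp_ne_FsDrift hne) with h | h <;> cases e
      · exact inv ν ν' h1 h2 hb (by simpa using h)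
      · exact (inv ν' ν h2 h1 hb.symm (by simpa using h)).symm
      · exact (inv ν' ν h2 h1 hb.symm (by simpa using h)).symm
      · exact inv ν ν' h1 h2 hb (by simpa using h)
    rcases h3 with h3 | h3
    · exact hG.imp _ h3 (deep h1 b1) (deep h2 b2)
    · have h4 := hch.stat _ h3 a hb.symm
      rw [hw.2] at h4
      exact absurd (E.tq.injective (hgt_asymm_FsDrift h4 hh)) hne
  | some z =>
    obtain ⟨z1, z2⟩ := z
    obtain ⟨p1, p2, -⟩ := Y.toBSys.tch_px hw.1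
    rcases hw.2 with ⟨rfl, -⟩ | ⟨rfl, -⟩
    · filter_upwards [(ht a _ _ (Y.toBSys.tch_symm hw.1) x y).2] with S hS g _ hg ch D D' Z _ hD _
        s1 _
      refine ⟨fun z => decide (Mixed (S : Set (Fin 4 × O)) (E.key (Y.ux z2)) E.tyl (E.bk a) z.1),
        ?_, ?_⟩
      · have h1 := hS.2 D hD
        have h2 := s1.countP_le (p := fun q => decide
          (Mixed (S : Set (Fin 4 × O)) (E.key (Y.ux z2)) E.tyl (E.bk a) q))
        rw [List.countP_map] at h2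
        have h3 := hg _ rfl
        rw [Y.tg_symm_FsDrift] at h3
        refine le_trans (sub_le_sub_right (mul_le_mul_of_nonneg_left ?_ hc.le) C) (h1.trans h3)
        exact_mod_cast h2
      · intro z _ hz bl br hs _ ν ν' h1 _ hF hb _ _ b0 _ _
        exact E.notMixed_FsDrift p2 hs (of_decide_eq_false hz) h1 hF hb b0
    · filter_upwards [(ht a _ _ hw.1 x y).2] with S hS g _ hg ch D D' Z _ _ hD _ s2
      refine ⟨fun z => decide (Mixed (S : Set (Fin 4 × O)) (E.key (Y.ux z1)) E.tyl (E.bk a) z.2),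
        ?_, ?_⟩
      · have h1 := hS.2 D' hD
        have h2 := s2.countP_le (p := fun q => decide
          (Mixed (S : Set (Fin 4 × O)) (E.key (Y.ux z1)) E.tyl (E.bk a) q))
        rw [List.countP_map] at h2
        refine le_trans (sub_le_sub_right (mul_le_mul_of_nonneg_left ?_ hc.le) C)
          (h1.trans (hg _ rfl))
        exact_mod_cast h2
      · intro z _ hz bl br _ hG ν ν' h1 h2 hF hb _ _ _ b1 b2 h3
        exact (hG.mem _ (deep h1 b1)).1 (E.notMixed_FsDrift p1 hG.sp (of_decide_eq_false hz) h1 hF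
          hb b2 ((hG.mem _ (deep h2 b2)).2 h3))

/-- An inverted pair in a closed window forces many turns. -/
theorem drift (W : ℝ) : ∃ L C : ℝ, 0 < L ∧ 0 ≤ C ∧ ∀ (A B : Q) (e : Bool) (σ : O → Bool)
    (a a' : O) (o o' : Option (Q × Q)), Y.St A B σ → Dir e (Y.ux A) (Y.ux B) →
    |Y.toStp.px B - Y.toStp.px A| ≤ W → E.η a' < E.η a → Y.toStp.WS A B e σ true a o →
    Y.toStp.WS A B e σ false a' o' → ∀ x y : P, ∀ᶠ S in atTop, ∀ g : ℝ, 0 ≤ g →
      Y.sl S x y B e - Y.sl S x y A e ≤ g →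
      (∀ z, (o = some z ∨ o' = some z) → Y.tg S x y z.1 z.2 ≤ g) →
      fv A x y / L - C * (g + 1) ≤ Y.tu S x y A := by
  obtain ⟨c, C, hc, hC, hr⟩ := Y.rule_FsDrift
  obtain ⟨H, hH0, hH⟩ := E.lab_ex_FsDrift
  have hδ : 0 < E.dlt := E.dl0
  have hw2 := E.w2_pos_FsDrift
  refine ⟨6 + 12 * (E.wm * |W|) + 1, 1 + 2 / c + 2 * C / c + 1 / E.dlt,
    by positivity, by positivity, fun A B e σ a a' o o' hst hd hW hη h1 h2 x y => ?_⟩
  have hW0 : 0 ≤ W := (abs_nonneg _).trans hW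
  rw [abs_of_nonneg hW0]
  have hV : 0 ≤ E.wm * W := by positivity
  have ha := (Y.ws_FsDrift h1).trans hW
  have ha' := (Y.ws_FsDrift h2).trans hW
  obtain ⟨T, Y0, hbox⟩ := Y.box A x y
  obtain ⟨X, hX0, hX⟩ : ∃ X : ℝ, 0 ≤ X ∧ ∀ ν ∈ T, |E.pos (Y.toStp.px A) ν| ≤ X :=
    ⟨∑ ν ∈ T, |E.pos (Y.toStp.px A) ν|, Finset.sum_nonneg fun _ _ => abs_nonneg _, fun ν hν =>
      Finset.single_le_sum (f := fun ν => |E.pos (Y.toStp.px A) ν|) (fun _ _ => abs_nonneg _) hν⟩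
  obtain ⟨U, hU, hU'⟩ : ∃ U : ℝ, (∀ i, |E.η (E.mu i a)| ≤ U) ∧ ∀ i, |E.η (E.mu i a')| ≤ U := by
    have := fun i => Finset.single_le_sum (f := fun i => |E.η (E.mu i a)| + |E.η (E.mu i a')|)
      (fun _ _ => by positivity) (Finset.mem_univ i)
    exact ⟨_, fun i => le_trans (le_add_of_nonneg_right (abs_nonneg _)) (this i),
      fun i => le_trans (le_add_of_nonneg_left (abs_nonneg _)) (this i)⟩
  have hU0 : 0 ≤ U := (abs_nonneg _).trans (hU 0)
  have hY0 := abs_nonneg Y0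
  filter_upwards [eventually_ge_atTop (E.rect_fin (Y.toStp.px A)
      (X + E.wm * W + |Y0| + H + 6 * U)).toFinset, Y.ev A x y, hbox, Y.step_ev hst hd x y,
    hr A B e true σ a o hd h1 x y, hr A B e false σ a' o' hd h2 x y]
    with S hS0 hev ⟨b1, b2, b3⟩ ⟨ch, hch, g0, g1, _⟩ r1 r2 g hg hsl htg
  have hS : ∀ ν, |E.pos (Y.toStp.px A) ν| ≤ X + E.wm * W → |E.η ν.2| ≤ |Y0| + H + 6 * U →
      ν ∈ S := fun ν k1 k2 => hS0 ((Set.Finite.mem_toFinset _).2 ⟨by linarith, by linarith⟩)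
  have hk := E.key_inj (Y.ux A)
  have hp := hch.pth
  have hgain : gains (E.key (Y.ux A)) ch (Y.path A S x y) ≤ g / E.dlt := by
    rw [le_div_iff₀' hδ]
    linarith
  have hfin : ∀ t : ℝ, t - 1 - (2 * (g + C) / c + g / E.dlt) ≤
      Y.tu S x y A → t - (1 + 2 / c + 2 * C / c + 1 / E.dlt) * (g + 1) ≤
      Y.tu S x y A := fun t ht => by
    have k1 : (1 + 2 / c + 2 * C / c + 1 / E.dlt) * (g + 1) =
        1 + (2 * (g + C) / c + g / E.dlt) +
          (g + 2 / c + 2 * C / c * g + 1 / E.dlt) := by ring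
    have k2 : 0 ≤ g + 2 / c + 2 * C / c * g + 1 / E.dlt := by positivity
    linarith
  refine hfin _ ?_
  rw [hev, tu]
  have heq := hch.eq
  generalize Y.path A S x y = p at *
  by_cases h2p : 2 ≤ p.length
  swap
  · have k1 : Var (p.map (E.pos (Y.toStp.px A))) = 0 := by
      match p, h2p with
      | [], _ => rfl
      | [_], _ => rfl
      | _ :: _ :: _, h => exact absurd (by simp) h
    have k2 : 0 ≤ 2 * (g + C) / c + g / E.dlt := by positivity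
    have k3 : (0 : ℝ) ≤ turns (E.key (Y.ux A)) p := Nat.cast_nonneg _
    rw [k1, zero_div]
    linarith
  have hpX : ∀ ν ∈ p, -X ≤ E.pos (Y.toStp.px A) ν ∧ E.pos (Y.toStp.px A) ν ≤ X := fun ν hν => by
    obtain ⟨y1, y2, k1, k2, k3, k4⟩ := mem_between hk hp.rd hν
    exact ⟨(abs_le.1 (hX _ (b1 _ k1))).1.trans (E.key_le_FsDrift _ k3),
      (E.key_le_FsDrift _ k4).trans (abs_le.1 (hX _ (b1 _ k2))).2⟩
  have hchain : p.IsChain
      (fun μ ν => |E.pos (Y.toStp.px A) ν - E.pos (Y.toStp.px A) μ| ≤ 1) := by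
    refine List.isChain_iff_forall_rel_of_append_cons_cons.2 fun μ ν l1 l2 hl => ?_
    have k1 := hpX μ (by simp [hl])
    have k2 := hpX ν (by simp [hl])
    by_contra hn
    obtain ⟨z, -, k3, k4, k5, k6⟩ := hH (Y.toStp.px A) 0
      (min (E.pos (Y.toStp.px A) μ) (E.pos (Y.toStp.px A) ν)) |Y0|
    have k7 := le_abs_self Y0
    rcases lt_abs.1 (not_le.1 hn) with k | k
    · rw [min_eq_left (by linarith)] at k3 k4
      exact b3 z (hS z (abs_le.2 ⟨by linarith, by linarith⟩) (abs_le.2 ⟨by linarith, by linarith⟩))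
        (by linarith) ⟨l1, l2, μ, ν, hl,
          Or.inl ⟨E.pos_key _ k3, E.pos_key _ (show E.pos (Y.toStp.px A) z <
            E.pos (Y.toStp.px A) ν by linarith)⟩⟩
    · rw [min_eq_right (by linarith)] at k3 k4
      exact b3 z (hS z (abs_le.2 ⟨by linarith, by linarith⟩) (abs_le.2 ⟨by linarith, by linarith⟩))
        (by linarith) ⟨l1, l2, μ, ν, hl,
          Or.inr ⟨E.pos_key _ k3, E.pos_key _ (show E.pos (Y.toStp.px A) z <
            E.pos (Y.toStp.px A) μ by linarith)⟩⟩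
  obtain ⟨D, hD, hcnt⟩ := buildL hk hp.rd h2p (ρ := E.pos (Y.toStp.px A))
    (fun _ _ _ _ h => E.key_pos _ h) zero_le_one
    (show 0 < 6 + 12 * (E.wm * W) by positivity) hchain
  have hbar : ∀ q : List (Fin 4 × O), ∃ bl br : Fin 4 × O,
      (q ∈ D → ((∃ d, Mono (E.key (Y.ux A)) d q) ∧
          6 + 12 * (E.wm * W) ≤ extn (E.pos (Y.toStp.px A)) q) →
        Bar (S : Set (Fin 4 × O)) (E.key (Y.ux A)) (E.key (Y.ux B)) bl br ∧
          Spans (E.key (Y.ux A)) bl br q) ∧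
      (bl = br ∨ (-X ≤ E.pos (Y.toStp.px A) bl ∧ E.pos (Y.toStp.px A) br ≤ X ∧
        E.pos (Y.toStp.px A) bl + (4 + 12 * (E.wm * W)) ≤ E.pos (Y.toStp.px A) br)) := by
    intro q
    by_cases hq : q ∈ D ∧ (∃ d, Mono (E.key (Y.ux A)) d q) ∧
        6 + 12 * (E.wm * W) ≤ extn (E.pos (Y.toStp.px A)) q
    swap
    · exact ⟨(0, 0), (0, 0), fun k1 k2 => absurd ⟨k1, k2⟩ hq, Or.inl rfl⟩
    obtain ⟨k1, ⟨d, k2⟩, k3⟩ := hq
    have hne : q ≠ [] := fun h => by simpa [h] using hD.two q k1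
    have k4 := List.head?_eq_some_head hne
    have k5 := List.getLast?_eq_some_getLast hne
    have k6 := hpX _ ((dec_inf hD k1).subset (List.head_mem hne))
    have k7 := hpX _ ((dec_inf hD k1).subset (List.getLast_mem hne))
    rw [extn_eq_LsBasic _ k4 k5] at k3
    have hS' : ∀ ν, |E.pos (ofLex (Y.ux A)).1 ν| ≤ X → |E.η ν.2| ≤ H →
        ν ∈ (S : Set (Fin 4 × O)) :=
      fun ν m1 m2 => hS ν (m1.trans (le_add_of_nonneg_right hV)) (by linarith)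
    rcases le_abs.1 k3 with k | k
    · obtain ⟨bl, br, m1, m2, m3, m4⟩ := E.bar_FsDrift hd hW hH hS' k6.1 k7.2 (by linarith)
      exact ⟨bl, br, fun _ _ => ⟨m1, d, _, _, k2, k4, k5,
        Or.inl ⟨E.pos_key _ m2, E.pos_key _ m3⟩⟩, Or.inr ⟨k6.1.trans m2.le, m3.le.trans k7.2, m4⟩⟩
    · obtain ⟨bl, br, m1, m2, m3, m4⟩ := E.bar_FsDrift hd hW hH hS' k7.1 k6.2 (by linarith)
      exact ⟨bl, br, fun _ _ => ⟨m1, d, _, _, k2, k4, k5,
        Or.inr ⟨E.pos_key _ m2, E.pos_key _ m3⟩⟩, Or.inr ⟨k7.1.trans m2.le, m3.le.trans k6.2, m4⟩⟩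
  choose bl br hb1 hb2 using hbar
  obtain ⟨D', Z, hD', s1, s2, hZ, hcnt'⟩ := trackL hch.fch hp hD bl br
  rw [← heq] at hD'
  obtain ⟨bad1, c1, q1⟩ := r1 g hg (fun z hz => htg z (Or.inl hz)) ch D D' Z hch hD hD' s1 s2
  obtain ⟨bad2, c2, q2⟩ := r2 g hg (fun z hz => htg z (Or.inr hz)) ch D D' Z hch hD hD' s1 s2
  have hlen := count_FsDrift bad1 bad2 Z fun z hz n1 n2 => by
    obtain ⟨k1, k2, k3⟩ := hZ z hz
    have hzD : z.1 ∈ D := s1.subset (List.mem_map_of_mem hz)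
    obtain ⟨m1, m2, m3⟩ := (hb2 z.1).resolve_left fun h => by
      have := k1.lt0
      rw [h] at this
      exact lt_irrefl _ this
    have v1 := abs_le.1 (E.pos_move_FsDrift hW (bl z.1))
    have v2 := abs_le.1 (E.pos_move_FsDrift hW (br z.1))
    have rule : ∀ (a0 : O) (s : Bool), |E.ξ a0 - Y.toStp.px A| ≤ W → (∀ i, |E.η (E.mu i a0)| ≤ U) →
        (∀ ν ν', ν ∈ S → ν' ∈ S → Full (S : Set (Fin 4 × O)) E.tyl (E.bk a0) ν' →
          E.bk a0 ν = E.bk a0 ν' → ν.1 ≠ ν'.1 → (G2.hg E.fl (E.tyl ν') < G2.hg E.fl (E.tyl ν) ↔ s = true) →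
          E.Btw_FsDrift (Y.toStp.px A) (bl z.1) (br z.1) ν' →
          E.Btw_FsDrift (Y.toStp.px B) (bl z.1) (br z.1) ν →
          E.Btw_FsDrift (Y.toStp.px B) (bl z.1) (br z.1) ν' → ν' ∈ z.1 → ν ∈ z.1) →
        E.Rule_FsDrift (Y.toStp.px A) (E.pos (Y.toStp.px A) (bl z.1) + 1 + 2 * (E.wm * W))
          (E.pos (Y.toStp.px A) (bl z.1) + 3 + 10 * (E.wm * W)) (|Y0| + H + 4 * U) a0 s z.1 := by
      intro a0 s u1 u2 u3 ν i t1 t2 t3 t4 t5 t6 t7 t8 t9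
      have mem : ∀ j, E.mv_FsDrift a0 j ν ∈ S := fun j => by
        have f1 := abs_le.1 (E.pos_blk_FsDrift u1 (E.mv_bk_FsDrift a0 j ν))
        have f2 := E.eta_mv_FsDrift u2 j ν
        exact hS _ (abs_le.2 ⟨by linarith, by linarith⟩) (by linarith)
      have v3 := abs_le.1 (E.pos_move_FsDrift hW ν)
      have v4 := abs_le.1 (E.pos_move_FsDrift hW (E.mv_FsDrift a0 i ν))
      refine t8 (u3 ν _ (hS ν (abs_le.2 ⟨by linarith, by linarith⟩) (by linarith)) (mem i)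
        (fun j => ⟨_, mem (E.tq.symm j), ?_, E.tq.apply_symm_apply j⟩)
        (E.mv_bk_FsDrift a0 i ν).symm t1.symm t2 ⟨by linarith, by linarith⟩
        ⟨by linarith, by linarith⟩ ⟨by linarith, by linarith⟩ t9)
      rw [E.mv_bk_FsDrift, E.mv_bk_FsDrift]
    obtain ⟨ν, t1, t2, t3, t4, t5⟩ := E.climb_FsDrift hH hY0 ha ha' hη hU hU'
      (rule a true ha hU (q1 z hz n1 _ _ k2 k3)) (rule a' false ha' hU' (q2 z hz n2 _ _ k2 k3))
      fun ν hν => (neg_le_neg (le_abs_self Y0)).trans (b2 ν ((dec_inf hD hzD).subset hν))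
    obtain ⟨d, x0, y0, t6, t7, t8, t9⟩ := k2
    have e1 : E.key (Y.ux A) (bl z.1) < E.key (Y.ux A) ν :=
      E.pos_key _ (show E.pos (Y.toStp.px A) _ < E.pos (Y.toStp.px A) _ by linarith)
    have e2 : E.key (Y.ux A) ν < E.key (Y.ux A) (br z.1) :=
      E.pos_key _ (show E.pos (Y.toStp.px A) _ < E.pos (Y.toStp.px A) _ by linarith)
    have e3 := (mem_or_skip hk t6 t7 t8 (z := ν)
      (t9.imp (fun h => ⟨h.1.trans e1, e2.trans h.2⟩) fun h => ⟨h.1.trans e1, e2.trans h.2⟩)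
      ).resolve_left t1
    exact b3 ν (hS ν (abs_le.2 ⟨by linarith, by linarith⟩) (abs_le.2 ⟨by linarith, by linarith⟩))
      ((le_abs_self Y0).trans_lt t4) (skip_inf (dec_inf hD hzD) e3)
  have hmono := List.countP_mono_left (l := D)
    (p := fun q => decide ((∃ d, Mono (E.key (Y.ux A)) d q) ∧
      6 + 12 * (E.wm * W) ≤ extn (E.pos (Y.toStp.px A)) q))
    (q := fun q => decide (Bar (S : Set (Fin 4 × O)) (E.key (Y.ux A)) (E.key (Y.ux B)) (bl q)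
      (br q) ∧ Spans (E.key (Y.ux A)) (bl q) (br q) q))
    fun q hq h => decide_eq_true (hb1 q hq (of_decide_eq_true h))
  have hmono' := (Nat.cast_le (α := ℝ)).2 hmono
  have hlen' := (Nat.cast_le (α := ℝ)).2 hlen
  rw [Nat.cast_add] at hlen'
  have hz : (Z.length : ℝ) ≤ 2 * (g + C) / c := by
    rw [le_div_iff₀' hc]
    nlinarith
  linarith

end FSys

end Pool.Agent.E5f.G2

end


section

namespace Pool.Agent.E5f.G2

open Classical Filter

namespace FSys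

variable {O : Type} [AddCommGroup O] {E : Lat O} {Q P : Type} {dv dh : Q → Q → ℝ}
  {Cu : Q → Prop} {fv fh : Q → P → P → ℝ} (Y : FSys E dv dh Cu fv fh)

/-- Slopes on a route lie between the slopes at the ends up to a constant. -/
theorem on_bd_b5l {lo hi : ℝ} {a d z : Q} {ea ed e : Bool}
    (h : Y.toStp.OnR lo hi a ea d ed z e) : ∃ K : ℝ, 0 ≤ K ∧ ∀ x y : P, ∀ᶠ S in atTop,
      Y.sl S x y a ea - K ≤ Y.sl S x y z e ∧ Y.sl S x y z e ≤ Y.sl S x y d ed + K := by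
  obtain ⟨c0, C0, _, hC0, hr⟩ := Y.route_ev
  obtain ⟨⟨l, n, h1⟩, ⟨l', n', h2⟩⟩ := h
  have hn : (0 : ℝ) ≤ n * C0 := mul_nonneg (Nat.cast_nonneg n) hC0
  have hn' : (0 : ℝ) ≤ n' * C0 := mul_nonneg (Nat.cast_nonneg n') hC0
  refine ⟨n * C0 + n' * C0, by linarith, fun x y => ?_⟩
  filter_upwards [hr _ _ _ _ _ _ _ _ h1 x y, hr _ _ _ _ _ _ _ _ h2 x y] with S s1 s2
  constructor
  · linarith [s1.1]
  · linarith [s2.1]

/-- Gains at touches on a route. -/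
theorem tg_bd_b5l {lo hi : ℝ} {a d : Q} {ea ed : Bool} (o : Option (Q × Q))
    (h : ∀ z, o = some z → Y.toStp.OnR lo hi a ea d ed z.1 (!Y.toStp.sx z.1) ∧
      Y.toStp.OnR lo hi a ea d ed z.2 (Y.toStp.sx z.2)) :
    ∃ K : ℝ, 0 ≤ K ∧ ∀ x y : P, ∀ᶠ S in atTop, ∀ z, o = some z →
      Y.tg S x y z.1 z.2 ≤ Y.sl S x y d ed - Y.sl S x y a ea + K := by
  cases o with
  | none => exact ⟨0, le_rfl, fun x y => Eventually.of_forall (fun S z hz => by cases hz)⟩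
  | some z0 =>
    obtain ⟨h1, h2⟩ := h z0 rfl
    obtain ⟨K1, k1, e1⟩ := Y.on_bd_b5l h1
    obtain ⟨K2, k2, e2⟩ := Y.on_bd_b5l h2
    refine ⟨K1 + K2, by linarith, fun x y => ?_⟩
    filter_upwards [e1 x y, e2 x y] with S s1 s2 z hz
    cases hz
    unfold tg
    linarith [s1.1, s2.2]

/-- Few turns at a point in the middle of a route with long ends. -/
theorem up_b5l {lo hi R0 W C2 : ℝ} (hR0 : 0 < R0) (hC2 : 0 ≤ C2)
    (hW : ∀ (z r r' : Q) (ε : Bool)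
      (σ σ' : O → Bool), Y.toStp.DSt lo hi ε z r σ → Y.toStp.DSt lo hi (!ε) z r' σ' →
      W ≤ |Y.toStp.px r - Y.toStp.px z| → W ≤ |Y.toStp.px r' - Y.toStp.px z| →
      ∀ x y : P, ∀ᶠ S in atTop, ∀ g : ℝ, 0 ≤ g → Y.sl S x y r ε - Y.sl S x y z ε ≤ g →
        Y.sl S x y r' (!ε) - Y.sl S x y z (!ε) ≤ g →
        Y.tu S x y z ≤ fv z x y / R0 + C2 * (g + 1))
    {a d A : Q} {ea ed e : Bool} {l l' : ℝ} {n n' : ℕ}
    (h1 : Y.toStp.Rt lo hi a ea A e l n) (h2 : Y.toStp.Rt lo hi A e d ed l' n')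
    (hl : W ≤ l) (hl' : W ≤ l') :
    ∃ K : ℝ, 0 ≤ K ∧ ∀ x y : P, ∀ᶠ S in atTop, ∀ g : ℝ, 0 ≤ g →
      Y.sl S x y d ed - Y.sl S x y A e ≤ g → Y.sl S x y A e - Y.sl S x y a ea ≤ g →
      Y.tu S x y A ≤ fv A x y / R0 + K * (g + 1) := by
  obtain ⟨c0, C0, hc0, hC0, hr⟩ := Y.route_ev
  have aux : ∀ (m : ℕ) (t g f : ℝ), 0 ≤ g → 0 ≤ f → c0 * t - m * C0 ≤ g →
      t ≤ f / R0 + ((1 + m * C0) / c0) * (g + 1) := by
    intro m t g f hg hf h
    have hm : (0 : ℝ) ≤ m * C0 := mul_nonneg (Nat.cast_nonneg m) hC0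
    have h3 : 0 ≤ f / R0 := div_nonneg hf hR0.le
    have h4 : t ≤ ((1 + m * C0) / c0) * (g + 1) := by
      rw [div_mul_eq_mul_div, le_div_iff₀ hc0]
      have := mul_nonneg hm hg
      linarith only [this, h, hm]
    linarith only [h3, h4]
  have h1' := Y.toBSys.rt_rev h1
  rcases Nat.eq_zero_or_pos n' with rfl | hn'
  · rcases Nat.eq_zero_or_pos n with rfl | hn
    · obtain ⟨e1, l1, σ1, s1⟩ := Y.toBSys.rt_zero h2
      obtain ⟨e2, l2, σ2, s2⟩ := Y.toBSys.rt_zero h1'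
      refine ⟨C2, hC2, fun x y => ?_⟩
      filter_upwards [hW A d a e σ1 σ2 s1 s2 (l1 ▸ hl') (l2 ▸ hl) x y] with S hS g hg g1 g2
      refine hS g hg (e1 ▸ g1) ?_
      have e3 : ea = e := Bool.not_inj e2
      rw [Y.sl_not, Y.sl_not]
      rw [e3] at g2
      linarith
    · refine ⟨(1 + n * C0) / c0, div_nonneg
        (by have := mul_nonneg (Nat.cast_nonneg (α := ℝ) n) hC0; linarith) hc0.le, fun x y => ?_⟩
      filter_upwards [hr _ _ _ _ _ _ _ _ h1' x y] with S hS g hg _ g2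
      refine aux n _ g _ hg (pm_nonneg_b5l (Y.fpm A) x y) ?_
      have := hS.2.2.2 hn
      rw [Y.sl_not, Y.sl_not] at this
      linarith
  · refine ⟨(1 + n' * C0) / c0, div_nonneg
      (by have := mul_nonneg (Nat.cast_nonneg (α := ℝ) n') hC0; linarith) hc0.le, fun x y => ?_⟩
    filter_upwards [hr _ _ _ _ _ _ _ _ h2 x y] with S hS g hg g1 _
    refine aux n' _ g _ hg (pm_nonneg_b5l (Y.fpm A) x y) ?_
    have := hS.2.2.2 hn'
    linarith

/-- An inverted pair in the middle of a route bounds the length by the variation at the ends. -/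
theorem key_b5l (W : ℝ) : ∃ W1 : ℝ, 1 ≤ W1 ∧ ∀ {lo hi : ℝ} {p a b c d r : Q}
    {ep ea eb ec ed er : Bool} {n1 n2 n4 n5 : ℕ},
    Y.toStp.Rt lo hi p ep a ea 1 n1 → Y.toStp.Rt lo hi a ea b eb W1 n2 →
    Y.toStp.Rt lo hi c ec d ed W1 n4 → Y.toStp.Rt lo hi d ed r er 1 n5 →
    (∃ (A B : Q) (e : Bool) (σ : O → Bool) (a0 a' : O) (o o' : Option (Q × Q)),
      Y.toStp.DSt lo hi e A B σ ∧ |Y.toStp.px B - Y.toStp.px A| ≤ W ∧ E.η a' < E.η a0 ∧
      Y.toStp.WS A B e σ true a0 o ∧ Y.toStp.WS A B e σ false a' o' ∧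
      Y.toStp.OnR lo hi b eb c ec A e ∧ Y.toStp.OnR lo hi b eb c ec B e ∧
      ∀ z, (o = some z ∨ o' = some z) → Y.toStp.OnR lo hi b eb c ec z.1 (!Y.toStp.sx z.1) ∧
        Y.toStp.OnR lo hi b eb c ec z.2 (Y.toStp.sx z.2)) →
    ∃ M : ℝ, 0 ≤ M ∧ ∀ (x y : P) (u : ℝ), 0 ≤ u → fv p x y - fv a x y ≤ u →
      fv r x y - fv d x y ≤ u → fv b x y ≤ M * (u + 1) := by
  obtain ⟨L1, C1, hL1, hC1, hdr⟩ := Y.drift W
  obtain ⟨C2, hC2, hco⟩ := Y.core2
  obtain ⟨W0, hW0⟩ := hco (2 * L1) (by linarith)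
  refine ⟨max W0 1, le_max_right _ _, ?_⟩
  intro lo hi p a b c d r ep ea eb ec ed er n1 n2 n4 n5 r1 r2 r4 r5 hinv
  obtain ⟨A, B, e, σ, a0, a', o, o', hst, hlen, hη, w1, w2, oA, oB, oz⟩ := hinv
  obtain ⟨c0, C0, hc0, hC0, hr⟩ := Y.route_ev
  have ext : ∀ z ez, Y.toStp.OnR lo hi b eb c ec z ez → Y.toStp.OnR lo hi a ea d ed z ez := by
    rintro z ez ⟨⟨l, n, h1⟩, ⟨l', n', h2⟩⟩
    exact ⟨⟨_, _, Y.toBSys.rt_append r2 h1⟩, ⟨_, _, Y.toBSys.rt_append h2 r4⟩⟩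
  obtain ⟨KA, kA, eA⟩ := Y.on_bd_b5l (ext _ _ oA)
  obtain ⟨KB, kB, eB⟩ := Y.on_bd_b5l (ext _ _ oB)
  obtain ⟨Ko, ko, eo⟩ := Y.tg_bd_b5l o
    (fun z hz => ⟨ext _ _ (oz z (Or.inl hz)).1, ext _ _ (oz z (Or.inl hz)).2⟩)
  obtain ⟨Ko', ko', eo'⟩ := Y.tg_bd_b5l o'
    (fun z hz => ⟨ext _ _ (oz z (Or.inr hz)).1, ext _ _ (oz z (Or.inr hz)).2⟩)
  obtain ⟨⟨l, n, h1⟩, ⟨l', n', h2⟩⟩ := oA
  have hl := Y.toBSys.rt_nonneg h1
  have hl' := Y.toBSys.rt_nonneg h2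
  obtain ⟨Kb, kb, eb'⟩ := Y.on_bd_b5l (lo := lo) (hi := hi) (a := a) (d := d) (z := b) (ea := ea)
    (ed := ed) (e := eb) ⟨⟨_, _, r2⟩,
      ⟨_, _, Y.toBSys.rt_append (Y.toBSys.rt_append h1 h2) r4⟩⟩
  obtain ⟨KU, kU, eU⟩ := Y.up_b5l (R0 := 2 * L1) (W := W0) (by linarith) hC2 (hW0 lo hi)
    (Y.toBSys.rt_append r2 h1) (Y.toBSys.rt_append h2 r4)
    (by linarith [le_max_left W0 1]) (by linarith [le_max_left W0 1])
  have hn1 : (0 : ℝ) ≤ n1 * C0 := mul_nonneg (Nat.cast_nonneg _) hC0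
  have hn5 : (0 : ℝ) ≤ n5 * C0 := mul_nonneg (Nat.cast_nonneg _) hC0
  have hn : (0 : ℝ) ≤ n * C0 := mul_nonneg (Nat.cast_nonneg _) hC0
  obtain ⟨K, hK⟩ : ∃ K : ℝ, K = n1 * C0 + n5 * C0 + n * C0 + KA + KB + Ko + Ko' + Kb + 2 :=
    ⟨_, rfl⟩
  have hK2 : 2 ≤ K := by linarith only [hK, hn1, hn5, hn, kA, kB, ko, ko', kb]
  have hCK : 0 ≤ C1 + KU := by linarith only [hC1, kU]
  refine ⟨2 * L1 * (C1 + KU) * (K + 1) + l * K, by positivity, fun x y u hu u1 u2 => ?_⟩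
  obtain ⟨S, s1, s5, s3, sA, sB, so, so', sb, sU, sD⟩ := ((hr _ _ _ _ _ _ _ _ r1 x y).and
    ((hr _ _ _ _ _ _ _ _ r5 x y).and ((hr _ _ _ _ _ _ _ _ h1 x y).and ((eA x y).and ((eB x y).and
    ((eo x y).and ((eo' x y).and ((eb' x y).and ((eU x y).and
    (hdr A B e σ a0 a' o o' hst.st hst.dir hlen hη w1 w2 x y)))))))))).exists
  have ba : -u - n1 * C0 ≤ Y.sl S x y a ea := by linarith only [s1.2.2.1, u1]
  have bd : Y.sl S x y d ed ≤ u + n5 * C0 := by linarith only [s5.2.1, u2]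
  have hg : 0 ≤ 2 * u + K := by linarith only [hu, hK2]
  have up := sU (2 * u + K) hg (by linarith only [sA.1, ba, bd, hK, hn, kB, ko, ko', kb])
    (by linarith only [sA.2, ba, bd, hK, hn, kB, ko, ko', kb])
  have dn := sD (2 * u + K) hg (by linarith only [sA.1, sB.2, ba, bd, hK, hn, ko, ko', kb]) (by
    rintro z (hz | hz)
    · linarith only [so z hz, ba, bd, hK, hn, kA, kB, ko', kb]
    · linarith only [so' z hz, ba, bd, hK, hn, kA, kB, ko, kb])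
  have hA : fv A x y ≤ 2 * L1 * ((C1 + KU) * (2 * u + K + 1)) := by
    have e1 : fv A x y / L1 = 2 * (fv A x y / (2 * L1)) := by field_simp
    have e2 : fv A x y / (2 * L1) ≤ (C1 + KU) * (2 * u + K + 1) := by
      linarith only [e1, up, dn]
    rw [div_le_iff₀ (by linarith only [hL1])] at e2
    linarith only [e2]
  have hb : fv b x y ≤ fv A x y + l * (u + K) := by
    have e1 : -(u + K) ≤ Y.sl S x y b eb - n * C0 := by
      linarith only [sb.1, ba, hK, hn5, kA, kB, ko, ko']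
    have e2 := mul_le_mul_of_nonneg_left e1 hl
    linarith only [s3.2.1, e2]
  have e0 : 0 ≤ (K - 1) * u := mul_nonneg (by linarith only [hK2]) hu
  have e3 : 2 * u + K + 1 ≤ (K + 1) * (u + 1) := by linarith only [e0]
  have e4 : u + K ≤ K * (u + 1) := by linarith only [e0]
  have e5 := mul_le_mul_of_nonneg_left e3 (by positivity : 0 ≤ 2 * L1 * (C1 + KU))
  have e6 := mul_le_mul_of_nonneg_left e4 hl
  linarith only [hA, hb, e5, e6]

include Y

theorem lim_b5l {F : Q → ℝ} (hF : F ∈ LimF1 fv) (σ : ℝ → Q) (c : ℝ)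
    (hσ : ∀ s s', dv (σ s) (σ s') = |s - s'|) (hc : 0 < c) (h : ∀ s, F (σ s) = c) (R : ℝ) :
    ∃ z : ℝ → Q, ∀ s s', |s| ≤ R → |s'| ≤ R → dv (z s) (σ s) = 0 ∧ dh (z s) (z s') = 0 := by
  rcases lt_or_ge R 0 with hR | hR
  · exact ⟨σ, fun s s' hs _ => absurd (le_trans (abs_nonneg s) hs) (not_le.2 hR)⟩
  obtain ⟨W1, hW1, hkey⟩ := Y.key_b5l (2 * R)
  obtain ⟨R', hR'⟩ : ∃ R' : ℝ, R' = R + W1 + 1 := ⟨_, rfl⟩
  have hpr : dv (σ (-R')) (σ R') = 2 * R' := by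
    rw [hσ, abs_of_nonpos (by linarith)]; ring
  have on : ∀ q s, -R' ≤ s → s ≤ R' → dv (σ (-R')) q ≤ R' + s → dv q (σ R') ≤ R' - s →
      dv q (σ s) = 0 := by
    intro q s s1 s2 d1 d2
    have t := Y.pv.tri (σ (-R')) q (σ R')
    have e1 : dv (σ (-R')) (σ s) = R' + s := by rw [hσ, abs_of_nonpos (by linarith)]; ring
    have e2 : dv (σ s) (σ R') = R' - s := by rw [hσ, abs_of_nonpos (by linarith)]; ring
    exact tree0 Y.pv Y.hv (p := σ (-R')) (r := σ R') (by linarith) (by linarith) (by linarith)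
  obtain ⟨ep, er, n, rt⟩ := Y.route (σ (-R')) (σ R')
  rw [hpr] at rt
  obtain ⟨a, ea, n1, m1, r1, rt1⟩ := Y.toBSys.rt_split rt (s := 1) (by linarith) (by linarith)
  obtain ⟨b, eb, n2, m2, r2, rt2⟩ := Y.toBSys.rt_split rt1 (s := W1) (by linarith) (by linarith)
  obtain ⟨c', ec, n3, m3, r3, rt3⟩ := Y.toBSys.rt_split rt2 (s := 2 * R) (by linarith)
    (by linarith)
  obtain ⟨d, ed, n4, n5, r4, r5⟩ := Y.toBSys.rt_split rt3 (s := W1) (by linarith) (by linarith)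
  have e5 : 2 * R' - 1 - W1 - 2 * R - W1 = 1 := by rw [hR']; ring
  rw [e5] at r5
  have d1 := Y.toBSys.rt_dv r1
  have d1' := Y.toBSys.rt_dv rt1
  have d2 := Y.toBSys.rt_dv (Y.toBSys.rt_append r1 r2)
  have d2' := Y.toBSys.rt_dv rt2
  have d3' := Y.toBSys.rt_dv rt3
  have d4 := Y.toBSys.rt_dv
    (Y.toBSys.rt_append (Y.toBSys.rt_append (Y.toBSys.rt_append r1 r2) r3) r4)
  have d4' := Y.toBSys.rt_dv r5
  rcases Y.toBSys.dich r3 with ⟨z, hz1, hz2⟩ | hinv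
  · refine ⟨fun s => z (s + R), fun s s' hs hs' => ?_⟩
    obtain ⟨s1, s2⟩ := abs_le.1 hs
    obtain ⟨s1', s2'⟩ := abs_le.1 hs'
    refine ⟨?_, hz2 _ _ (by linarith) (by linarith) (by linarith) (by linarith)⟩
    obtain ⟨z1, z2⟩ := hz1 (s + R) (by linarith) (by linarith)
    have t1 := Y.pv.tri (σ (-R')) b (z (s + R))
    have t2 := Y.pv.tri (z (s + R)) c' (σ R')
    exact on _ s (by linarith) (by linarith) (by linarith) (by linarith)
  · exfalso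
    obtain ⟨M, hM, hb⟩ := hkey r1 r2 r4 r5 hinv
    have Fa : F a = c := by
      rw [Y.lim_zero hF (on a (1 - R') (by linarith) (by linarith) (by linarith) (by linarith)), h]
    have Fb : F b = c := by
      rw [Y.lim_zero hF (on b (-R) (by linarith) (by linarith) (by linarith) (by linarith)), h]
    have Fd : F d = c := by
      rw [Y.lim_zero hF (on d (R' - 1) (by linarith) (by linarith) (by linarith) (by linarith)), h]
    have hε : 0 < c / (3 * M + 2) := by positivity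
    obtain ⟨ε, hεd⟩ : ∃ ε : ℝ, ε = c / (3 * M + 2) := ⟨_, rfl⟩
    rw [← hεd] at hε
    have hεc : ε * (3 * M + 2) = c := by rw [hεd]; field_simp
    obtain ⟨x, y, t, ht, htε, hT⟩ := hF {σ (-R'), a, b, d, σ R'} ε hε
    have tp := abs_le.1 (hT (σ (-R')) (by simp))
    have ta := abs_le.1 (hT a (by simp))
    have tb := abs_le.1 (hT b (by simp))
    have td := abs_le.1 (hT d (by simp))
    have tr := abs_le.1 (hT (σ R') (by simp))
    rw [h] at tp tr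
    rw [Fa] at ta
    rw [Fb] at tb
    rw [Fd] at td
    have := hb x y (2 * ε / t) (by positivity)
      (by rw [le_div_iff₀ ht]; linarith [tp.2, ta.1])
      (by rw [le_div_iff₀ ht]; linarith [tr.2, td.1])
    have e1 := mul_le_mul_of_nonneg_left this ht.le
    have e2 : t * (M * (2 * ε / t + 1)) = M * (2 * ε + t) := by field_simp
    have e3 := mul_le_mul_of_nonneg_left htε hM
    linarith [tb.1]

end FSys

end Pool.Agent.E5f.G2

end

section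

namespace Pool.Agent.E5f.G2

open Classical Filter

theorem fside_of_sys {O : Type} [AddCommGroup O] {E : Lat O} {Q P : Type} [MulAction G8 Q]
    {dv dh : Q → Q → ℝ} {dg : G8 → ℤ} {P0 q0 : Q} {fv fh : Q → P → P → ℝ}
    (Y : FSys E dv dh (fun q => ∃ γ : G8, dg γ = 0 ∧ q = γ • P0) fv fh)
    (hz : ∀ q, Thick (fun x y => fv q x y + fh q x y) → ∀ Φ ∈ LimF fv fh, Φ.1 q = 0 → Φ.2 q = 0 →
      Φ.1 q0 + Φ.2 q0 = 0) :
    FSide dv dh dg P0 (fun F z => ∃ Φ ∈ LimF fv fh, F = Φ.1 ∧ z = Φ.1 q0 + Φ.2 q0) where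
  zero := by
    rintro F z ⟨Φ, hΦ, rfl, rfl⟩ p q h
    exact Y.lim_zero (limF_fst hΦ) h
  cvx := by
    rintro F z ⟨Φ, hΦ, rfl, rfl⟩ p q r h
    exact Y.lim_cvx (limF_fst hΦ) h
  b1 := by
    rintro F z ⟨Φ, hΦ, rfl, rfl⟩ p p' h h' hd
    obtain ⟨q, h1, h2, h3⟩ := Y.lim_b1 hΦ h h' hd
    exact hz q h1 Φ hΦ h2 h3
  b5l := by
    rintro F z ⟨Φ, hΦ, rfl, rfl⟩ σ c h1 h2 h3 R
    exact Y.lim_b5l (limF_fst hΦ) σ c h1 h2 h3 R
  b5u := by
    intro B
    obtain ⟨R, hR⟩ := Y.lim_b5u B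
    refine ⟨R, fun N => ?_⟩
    obtain ⟨L, η, h1, h2, h3⟩ := hR N
    refine ⟨L, η, h1, h2, ?_⟩
    rintro F z ⟨Φ, hΦ, rfl, rfl⟩ p0 p1 p2 p3 s a1 a2 a3 a4 a5 a6 a7 a8 a9 a10 a11
    obtain ⟨c, ⟨γ, hγ, rfl⟩, b1, b2⟩ :=
      h3 _ (limF_fst hΦ) p0 p1 p2 p3 s a1 a2 a3 a4 a5 a6 a7 a8 a9 a10 a11
    exact ⟨γ, hγ, b1, b2⟩

end Pool.Agent.E5f.G2

end
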