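import Pool.Agent.MP_e5f6e8_al.G2.Emb
import Pool.Agent.MP_e5f6e8_al.G2.Fib

/-!
Covers and anti-covers of a family of fibres; the fibre data with the genus two surface group.
-/

set_option autoImplicit false


section

namespace Pool.Agent.E5f.G2

open Filter Classical

namespace Fam

variable {E : Emb} {Q P : Type} (F : Fam E Q P)

/-- A self-map of the base together with a compatible relabelling. -/
structure Adm (τ : Q → Q) (σ : Equiv.Perm Lam) (s t s' t' : ℝ) : Prop where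
  mv : ∀ p q, F.B.MV p q → F.B.MV (τ p) (τ q)
  mh : ∀ p q, F.B.MH p q → F.B.MH (τ p) (τ q)
  kx : ∀ q a b, E.key (F.B.u q) a < E.key (F.B.u q) b ↔
    E.key (F.B.u (τ q)) (σ a) < E.key (F.B.u (τ q)) (σ b)
  ky : ∀ q a b, E.tr.key (F.B.w q) a < E.tr.key (F.B.w q) b ↔
    E.tr.key (F.B.w (τ q)) (σ a) < E.tr.key (F.B.w (τ q)) (σ b)
  px : ∀ q l, E.pos (F.B.u (τ q)).1 (σ l) = s * E.pos (F.B.u q).1 l + t
  py : ∀ q l, E.tr.pos (F.B.w (τ q)).1 (σ l) = s' * E.tr.pos (F.B.w q).1 l + t'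
  s0 : 0 < s
  s0' : 0 < s'

/-- The map `f` covers `τ` at `q` with multiplier `k`. -/
def Cov (τ : Q → Q) (σ : Equiv.Perm Lam) (f : P → P) (q : Q) (k : WL Lam C2) : Prop :=
  ∀ x, F.lb (f x) = σ (F.lb x) ∧ F.gv (τ q) (f x) = k * rlA σ (F.gv q x)

variable {F} {τ τ' : Q → Q} {σ σ' : Equiv.Perm Lam} {s t s' t' : ℝ} {f f' : P → P} {q : Q}
  {k k' : WL Lam C2}

theorem Adm.tr (h : F.Adm τ σ s t s' t') : F.tr.Adm τ σ s' t' s t :=
  ⟨h.mh, h.mv, h.ky, h.kx, h.py, h.px, h.s0', h.s0⟩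

theorem Cov.tr (h : F.Adm τ σ s t s' t') (hc : F.Cov τ σ f q k) : ∃ k', F.tr.Cov τ σ f q k' := by
  refine ⟨Kh c2 (E.key (F.B.u (τ q))) (E.tr.key (F.B.w (τ q))) k, fun x => ⟨(hc x).1, ?_⟩⟩
  show F.gh (τ q) (f x) = _ * rlA σ (F.gh q x)
  rw [F.relv, F.relv, (hc x).1, (hc x).2, kap_mul, rlA_kap σ c2 (h.kx q) (h.ky q)]

theorem Cov.mv (h : F.Adm τ σ s t s' t') (hc : F.Cov τ σ f q k) {q' : Q} (hm : F.B.MV q q') :
    F.Cov τ σ f q' k := fun x =>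
  ⟨(hc x).1, by rw [← F.mv _ _ _ (h.mv _ _ hm), ← F.mv _ _ _ hm, (hc x).2]⟩

theorem Cov.all (h : F.Adm τ σ s t s' t') (hc : F.Cov τ σ f q k) (q' : Q) :
    ∃ k', F.Cov τ σ f q' k' := by
  induction F.B.conn q q' with
  | refl => exact ⟨k, hc⟩
  | tail _ h2 ih =>
    obtain ⟨k1, h1⟩ := ih
    rcases h2 with h2 | h2
    · exact ⟨k1, h1.mv h h2⟩
    · obtain ⟨k2, h3⟩ := h1.tr h
      exact (h3.mv h.tr h2).tr h.tr

theorem Cov.dv (h : F.Adm τ σ s t s' t') (hc : F.Cov τ σ f q k) (q' : Q) (x y : P) :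
    F.dv (τ q') (f x) (f y) = s * F.dv q' x y := by
  obtain ⟨k1, h1⟩ := hc.all h q'
  obtain ⟨b, hb⟩ := F.cv q' x y
  have e : (F.gv (τ q') (f x))⁻¹ * F.gv (τ q') (f y) = rlA σ ((F.gv q' x)⁻¹ * F.gv q' y) := by
    rw [(h1 x).2, (h1 y).2, map_mul, map_inv]; group
  unfold Fam.dv
  rw [e, (h1 x).1, (h1 y).1, h.px, h.px]
  exact hb.dW_rl (Cfg.at_Rl _ _) (Cfg.at_Rl _ _) σ h.s0.le (h.px q')

theorem Cov.dh (h : F.Adm τ σ s t s' t') (hc : F.Cov τ σ f q k) (q' : Q) (x y : P) :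
    F.dh (τ q') (f x) (f y) = s' * F.dh q' x y := by
  obtain ⟨k1, h1⟩ := hc.tr h
  exact h1.dv h.tr q' x y

theorem Adm.ex (h : F.Adm τ σ s t s' t') (q : Q) {x0 y0 : P} (hl : F.lb y0 = σ (F.lb x0)) :
    ∃ f k, F.Cov τ σ f q k ∧ f x0 = y0 := by
  have key : ∀ x, ∃ y, F.lb y = σ (F.lb x) ∧
      F.gv (τ q) y = (F.gv (τ q) y0 * (rlA σ (F.gv q x0))⁻¹) * rlA σ (F.gv q x) := by
    intro x
    obtain ⟨b, hb⟩ := F.cv q x0 x
    have h1 := hb.aff (Z' := E.fc (F.B.u (τ q)) (F.B.w (τ q))) σ h.s0 h.s0' (h.kx q) (h.px q)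
      (h.py q)
    rw [Rl_image σ (h.kx q), Rl_image σ (h.kx q), ← hl] at h1
    obtain ⟨y, h2, h3⟩ := F.clv (τ q) y0 _ _ _ h1
    refine ⟨y, h2, ?_⟩
    rw [h3, map_mul, map_inv, mul_assoc]
  choose f hf using key
  refine ⟨f, _, hf, F.ext (τ q) _ _ ((hf x0).1.trans hl.symm) ?_⟩
  rw [(hf x0).2, inv_mul_cancel_right]

theorem Cov.eq (hc : F.Cov τ σ f q k) (hc' : F.Cov τ σ f' q k) : f = f' :=
  funext fun x => F.ext (τ q) _ _ ((hc x).1.trans (hc' x).1.symm) ((hc x).2.trans (hc' x).2.symm)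

theorem Cov.eq' (hc : F.Cov τ σ f q k) (hc' : F.Cov τ σ f' q k') {x0 : P} (h : f x0 = f' x0) :
    f = f' := by
  have e : k = k' := by
    have h1 := (hc x0).2
    rw [h, (hc' x0).2] at h1
    exact (mul_right_cancel h1).symm
  subst e
  exact hc.eq hc'

theorem Cov.comp (hc : F.Cov τ σ f (τ' q) k) (hc' : F.Cov τ' σ' f' q k') :
    F.Cov (τ ∘ τ') (σ * σ') (f ∘ f') q (k * rlA σ k') := fun x => by
  refine ⟨by rw [Function.comp_apply, (hc _).1, (hc' x).1]; rfl, ?_⟩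
  rw [Function.comp_apply, Function.comp_apply, (hc _).2, (hc' x).2, map_mul, map_mul, mul_assoc]
  rfl

theorem cov_id (F : Fam E Q P) (q : Q) : F.Cov id 1 id q 1 := fun x => ⟨rfl, by simp⟩

end Fam

end Pool.Agent.E5f.G2

end

section

namespace Pool.Agent.E5f.G2

open Filter Classical

/-- Affine relabelling. -/
def Emb.affP (E : Emb) (ε : Zlˣ) (e : Zl) : Equiv.Perm Lam where
  toFun := E.aff ε e
  invFun := E.aff (ε⁻¹ : Zlˣ) (-((ε⁻¹ : Zlˣ) * e))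
  left_inv := fun l => by rw [E.aff_aff, Units.inv_mul, add_neg_cancel, E.aff_one]
  right_inv := fun l => by
    rw [E.aff_aff, Units.mul_inv, mul_neg, ← mul_assoc, Units.mul_inv, one_mul, neg_add_cancel,
      E.aff_one]

/-- Translation of labels. -/
def trlP (v : Zl) : Equiv.Perm Lam where
  toFun := trl v
  invFun := trl (-v)
  left_inv := fun l => by rw [trl_trl, neg_add_cancel, trl_zero]
  right_inv := fun l => by rw [trl_trl, add_neg_cancel, trl_zero]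

theorem Fam.adm_trl {E : Emb} {Q P : Type} (F : Fam E Q P) (v : Zl) :
    F.Adm id (trlP v) 1 (E.ξ v) 1 (E.η v) :=
  ⟨fun _ _ h => h, fun _ _ h => h, fun _ a b => (E.key_trl v _ a b).symm,
    fun _ a b => (E.tr.key_trl v _ a b).symm, fun _ l => by rw [one_mul]; exact E.pos_trl v _ l,
    fun _ l => by rw [one_mul]; exact E.tr.pos_trl v _ l, one_pos, one_pos⟩

section bact

variable {Q P : Type} [MulAction G8 Q] {F : Fam E4 Q P} {P0 : Q} (A : BAct F.B P0)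

/-- The relabelling of fibre labels. -/
noncomputable def sg (γ : G8) : Equiv.Perm Lam := E4.affP (E0.uω ^ (2 * g8deg γ)) (A.e γ)

theorem sg_apply (γ : G8) (l : Lam) :
    sg A γ l = E4.aff ((E0.uω ^ (2 * g8deg γ) : Zlˣ) : Zl) (A.e γ) l := rfl

theorem sg_mul (γ γ' : G8) : sg A (γ * γ') = sg A γ * sg A γ' := by
  have h1 := A.rt (γ * γ') 0
  rw [map_mul, SemidirectProduct.mul_right, Equiv.Perm.mul_apply, A.rt, A.rt] at h1
  simp only [mul_zero, zero_add] at h1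
  ext1 l
  rw [Equiv.Perm.mul_apply, sg_apply, sg_apply, sg_apply, E4.aff_aff, h1, g8deg_mul_MoFib, mul_add,
    zpow_add, Units.val_mul]

theorem sg_one : sg A 1 = 1 := by
  have h := sg_mul A 1 1
  rw [mul_one] at h
  exact left_eq_mul.1 h

theorem sg_zero (γ : G8) : sg A γ (0, 0) = (0, 0) := by
  rw [sg_apply]
  refine Prod.ext rfl ?_
  simp [E4.nu0]

theorem adm (γ : G8) : F.Adm (fun q => γ • q) (sg A γ) ((Real.goldenRatio ^ 2) ^ g8deg γ) 0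
    ((Real.goldenRatio ^ 2) ^ (-g8deg γ)) 0 := by
  have p1 : 0 < (Real.goldenRatio ^ 2) ^ g8deg γ := zpow_pos (pow_pos Real.goldenRatio_pos 2) _
  have p2 : 0 < (Real.goldenRatio ^ 2) ^ (-g8deg γ) := zpow_pos (pow_pos Real.goldenRatio_pos 2) _
  have e1 := E0.ξ_uω2 (g8deg γ)
  have e2 : E0.tr.ξ _ = _ := E0.η_uω2 (g8deg γ)
  refine ⟨fun _ _ h => A.mv γ h, fun _ _ h => A.mh γ h, fun q a b => ?_, fun q a b => ?_,
    fun q l => ?_, fun q l => ?_, p1, p2⟩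
  · rw [A.hu, ← e1]
    exact (E4.key_aff (p1.trans_eq e1.symm) _ _ a b).symm
  · rw [A.hw, ← e2]
    exact (E4.tr.key_aff (p2.trans_eq e2.symm) _ _ a b).symm
  · rw [A.hu, ← e1, add_zero]
    exact E4.pos_aff _ _ _ l
  · rw [A.hw, ← e2, add_zero]
    exact E4.tr.pos_aff _ _ _ l

theorem s_ex (q0 : Q) {x0 : P} (h1 : F.lb x0 = (0, 0)) : ∃ s : G8 →* Equiv.Perm P, ∀ γ,
    ∃ k, F.Cov (fun q => γ • q) (sg A γ) (s γ) q0 k := by
  have key : ∀ γ : G8, ∃ f k, F.Cov (fun q => γ • q) (sg A γ) f q0 k ∧ f x0 = x0 := fun γ =>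
    (adm A γ).ex q0 (by rw [h1, sg_zero A])
  choose f k hf hx using key
  let s0 : G8 →* Function.End P :=
    { toFun := f
      map_one' := by
        have h2 : F.Cov (fun q => (1 : G8) • q) (sg A 1) id q0 1 := by
          rw [sg_one A, show (fun q : Q => (1 : G8) • q) = id from funext fun q => one_smul _ q]
          exact F.cov_id q0
        exact (hf 1).eq' h2 (hx 1)
      map_mul' := fun γ γ' => by
        obtain ⟨k1, h2⟩ := (hf γ).all (adm A γ) (γ' • q0)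
        have h3 := h2.comp (τ' := fun q => γ' • q) (hf γ')
        rw [← sg_mul A] at h3
        have h4 : ((fun q : Q => γ • q) ∘ fun q => γ' • q) = fun q => (γ * γ') • q :=
          funext fun q => (mul_smul γ γ' q).symm
        rw [h4] at h3
        have h5 : f (γ * γ') = f γ ∘ f γ' :=
          (hf (γ * γ')).eq' h3 (x0 := x0) (by rw [Function.comp_apply, hx, hx, hx])
        exact h5 }
  exact ⟨s0.toHomPerm, fun γ => ⟨k γ, hf γ⟩⟩

end bact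

theorem m4_nonneg (i : Fin 4) : 0 ≤ E4.m i :=
  E4.m_zero.ge.trans (not_lt.1 fun h => absurd (E4.m_lt.1 h) (not_lt.2 (Fin.zero_le i)))

/-- The fibre configuration as a grid. -/
noncomputable def gridF (u w : Mk) (h3 : (E4.fc u w).Gen) (h4 : 0 < u.1) (h5 : u.1 < 1 / 2) :
    Grid (E4.fc u w) 4 where
  e := Equiv.prodCongr (Equiv.refl _) (QuadraticAlgebra.equivProd 1 1)
  ox := fun i => E4.m i * u.1
  oy := fun i => E4.tr.m i * w.1
  hx := fun l => by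
    show E0.ξ l.2 + E4.m l.1 * u.1 = E4.m l.1 * u.1 + l.2.re + Real.goldenRatio * l.2.im
    rw [show E0.ξ l.2 = l.2.re + l.2.im * Real.goldenRatio from
      embR_apply _ (by rw [← sq, Real.goldenRatio_sq]) l.2]
    ring
  hy := fun l => by
    show E0.η l.2 + E4.tr.m l.1 * w.1 = E4.tr.m l.1 * w.1 + l.2.re + Real.goldenConj * l.2.im
    rw [show E0.η l.2 = l.2.re + l.2.im * Real.goldenConj from
      embR_apply _ (by rw [← sq, Real.goldenConj_sq]) l.2]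
    ring
  ox0 := fun i => mul_nonneg (m4_nonneg i) h4.le
  ox1 := fun i => by
    have := (abs_le.1 (E4.m_abs i)).2
    have := m4_nonneg i
    have := gr_bounds.1
    nlinarith
  inj := h3.1

theorem gridF_tv (u w : Mk) (h3 : (E4.fc u w).Gen) (h4 : 0 < u.1) (h5 : u.1 < 1 / 2)
    (v : ℤ × ℤ) : (gridF u w h3 h4 h5).tv v = trlP ⟨v.1, v.2⟩ := by
  ext1 l
  rfl

theorem gam_iff_MoFib {Q P : Type} (F : Fam E4 Q P) (q0 : Q) (x0 : P) (h1 : F.lb x0 = (0, 0))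
    (h2 : F.gv q0 x0 = 1) (h3 : (F.Z q0).Gen) (h4 : 0 < (F.B.u q0).1) (h5 : (F.B.u q0).1 < 1 / 2)
    (z : Big Lam C2) : z ∈ (gridF _ _ h3 h4 h5).Gam c2 ↔
      ∃ v y, z.right = trlP v ∧ F.lb y = (0, v) ∧ F.gv q0 y = z.left := by
  have x00 : ∀ v : Zl, (F.Z q0).x (0, v) = E0.ξ v := fun v => by
    show E0.ξ v + E4.m 0 * _ = _
    rw [E4.m_zero, zero_mul, add_zero]
  have im : ∀ v : Zl, trlP v '' Rs (F.Z q0).x (0, false) =
      Rs (F.Z q0).x ((F.Z q0).x (0, v), false) := fun v => by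
    have := Rs_image (trlP v) one_pos ((F.adm_trl v).px q0) (0, false)
    rw [mul_zero, zero_add] at this
    rw [x00]
    exact this
  have z0 : Rs (F.Z q0).x (0, false) = Rs (F.Z q0).x ((F.Z q0).x (0, 0), false) := by
    rw [x00, map_zero]
  constructor
  · rintro ⟨v, b, k1, k2⟩
    rw [gridF_tv] at k1 k2
    obtain ⟨b', k3⟩ := box_tr3_MoFib (box_inv_MoFib (box_side_MoFib h3.1 (0, 0)))
      ⟨b, by rw [← z0, ← im]; exact k2⟩ (box_side_MoFib h3.1 (0, ⟨v.1, v.2⟩))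
    rw [← h1] at k3
    obtain ⟨y, k4, k5⟩ := F.clv q0 x0 _ _ _ k3
    exact ⟨_, y, k1, k4, by rw [k5, h2, one_mul]⟩
  · rintro ⟨v, y, k1, k2, k3⟩
    obtain ⟨b, hb⟩ := F.cv q0 x0 y
    rw [h1, k2, h2, k3, inv_one, one_mul] at hb
    obtain ⟨b', k4⟩ := box_tr3_MoFib (box_side_MoFib h3.1 (0, 0)) ⟨b, hb⟩
      (box_inv_MoFib (box_side_MoFib h3.1 (0, v)))
    refine ⟨(v.re, v.im), b', by rw [gridF_tv]; exact k1, ?_⟩
    rw [gridF_tv]
    rw [← z0, ← im] at k4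
    exact k4

end Pool.Agent.E5f.G2

end

section

namespace Pool.Agent.E5f.G2

open Filter Classical

section words
variable {L : Type} {σ : Equiv.Perm L} {X Y : Od L}

theorem c2_inv : c2⁻¹ = c2 := by decide

theorem sp_sq (l : L) : (emb (lt l c2) : WL L C2) * emb (lt l c2) = 1 := by
  rw [← map_mul, lt_sq_link, map_one]

theorem sp_inv (l : L) : (emb (lt l c2) : WL L C2)⁻¹ = emb (lt l c2) :=
  inv_eq_of_mul_eq_one_right (sp_sq l)

theorem op_Rle (X : Od L) (l : L) :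
    opH c2 X (Rle X l) = emb (lt l c2) * opH c2 X (Rl X l) := by
  rw [← opH_singleton c2 X]
  refine opH_split c2 X (fun m => ⟨fun h => ?_, ?_⟩) ?_
  · exact (eq_or_lt_of_le (a := X l) h).imp (fun e => (X.injective e).symm) id
  · rintro (rfl | h)
    · exact self_mem_Rle X _
    · exact le_of_lt (a := X l) h
  · rintro a rfl b hb
    exact hb

theorem star_Rl (h : Rev σ X) (l : L) : star σ (Rl X l) = Rle X (σ l) := by
  ext m
  change ¬ X l < X (σ m) ↔ X (σ l) ≤ X m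
  rw [h.rev, h.inv, not_lt]

theorem star_Rle (h : Rev σ X) (l : L) : star σ (Rle X l) = Rl X (σ l) := by
  ext m
  change ¬ X l ≤ X (σ m) ↔ X (σ l) < X m
  rw [not_le, h.rev, h.inv]

theorem kap_spin (X Y : Od L) (l : L) (g : WL L C2) :
    kap c2 X Y l (g * emb (lt l c2)) = kap c2 X Y l g * emb (lt l c2) := by
  rw [kap_eq, kap_eq, map_mul, Kh_emb_lt, c2_inv]
  group

theorem jx_rl {X' : Od L} {ρ : Equiv.Perm L}
    (hx : ∀ a b, X a < X b ↔ X' (ρ a) < X' (ρ b)) (g : WL L C2) :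
    Jx σ X' (rlA ρ g) = rlA (σ * ρ * σ⁻¹) (Jx σ X g) := by
  change rlH σ (Kh c2 X' X' (rlA ρ g)) = rlH _ (rlH σ (Kh c2 X X g))
  rw [← rlA_Kh ρ c2 hx hx, rlA_apply, ← rlH_mul, ← rlH_mul, inv_mul_cancel_right]

theorem jx_spin (h1 : S_J1) (h : Rev σ X) (l : L) :
    Jx σ X (emb (lt l c2) * opH c2 X (Rl X l)) =
      Jx σ X (opH c2 X (Rl X l)) * emb (lt (σ l) c2) := by
  rw [← op_Rle, h1 L σ X h, h1 L σ X h, star_Rl h, star_Rle h, op_Rle, mul_inv_rev, sp_inv,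
    mul_assoc, mul_assoc, sp_sq, mul_one]

theorem kap_jx (h1 : S_J1) (hj : S_JJ) (hX : Rev σ X) (hY : Rev σ Y) (l : L) (g : WL L C2) :
    kap c2 X Y (σ l) (Jx σ X (g * opH c2 X (Rl X l))) * emb (lt (σ l) c2) =
      (dl Y)⁻¹ * Jx σ Y (kap c2 X Y l g * opH c2 Y (Rl Y l)) := by
  have e1 : Kh c2 X Y (opH c2 X (Rl X l)) = (opH c2 Y (Rl X l))⁻¹ := by
    have := Kh_opH c2 (X := X) (Y := Y) (up_Rl X l) (A := Set.univ) fun _ _ _ _ => trivial
    rwa [Set.inter_univ] at this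
  have e2 : opH c2 Y (star σ (UR X Y l)) =
      opH c2 Y (Rle X (σ l) \ Rle Y (σ l)) * opH c2 Y (Rle Y (σ l)) := by
    refine opH_split c2 Y (fun m => ?_) fun a ha b hb => (not_le.1 ha.2).trans_le hb
    rw [Set.mem_sdiff, ← star_Rl hX, ← star_Rl hY]
    simp only [star, Set.mem_ofPred_eq, UR, Set.mem_inter_iff]
    tauto
  have e0 : opH c2 Y (Rle X (σ l) ∩ Rle Y (σ l)) =
      emb (lt (σ l) c2) * opH c2 Y (UR X Y (σ l)) := by
    rw [← opH_singleton c2 Y]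
    refine opH_split c2 Y (fun m => ⟨fun h => ?_, ?_⟩) ?_
    · by_cases e : m = σ l
      · exact .inl e
      · exact .inr ⟨lt_of_le_of_ne (a := X (σ l)) h.1 fun k => e (X.injective k).symm,
          lt_of_le_of_ne (a := Y (σ l)) h.2 fun k => e (Y.injective k).symm⟩
    · rintro (rfl | h)
      · exact ⟨self_mem_Rle X _, self_mem_Rle Y _⟩
      · exact ⟨le_of_lt (a := X (σ l)) h.1, le_of_lt (a := Y (σ l)) h.2⟩
    · rintro a rfl b hb
      exact hb.2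
  have e3 : opH c2 Y (Rle X (σ l)) = opH c2 Y (Rle X (σ l) \ Rle Y (σ l)) *
      (emb (lt (σ l) c2) * opH c2 Y (UR X Y (σ l))) := by
    rw [← e0]
    refine opH_split c2 Y (fun m => ?_) fun a ha b hb => (not_le.1 ha.2).trans_le hb.2
    rw [Set.mem_sdiff, Set.mem_inter_iff]
    tauto
  rw [kap_eq, kap_eq, (hj L σ X hX).2 Y hY]
  simp only [map_mul, map_inv, e1, h1 L σ Y hY]
  rw [star_Rl hX, star_Rl hY, e2, e3]
  have e4 : ∀ a b : WL L C2, a = b * (emb (lt (σ l) c2) * emb (lt (σ l) c2)) → a = b :=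
    fun a b h => by rw [h, sp_sq, mul_one]
  apply e4
  group

end words

/-- The point reflection of the labels. -/
def rfP : Equiv.Perm Lam where
  toFun l := (Fin.rev l.1, -l.2)
  invFun l := (Fin.rev l.1, -l.2)
  left_inv l := by simp
  right_inv l := by simp

theorem rfP_rfP (l : Lam) : rfP (rfP l) = l := rfP.left_inv l

theorem Emb.pos_rf (E : Emb) (t : ℝ) (l : Lam) : E.pos t (rfP l) = E.m 3 * t - E.pos t l := by
  change E.ξ (-l.2) + E.m (Fin.rev l.1) * t = _ - (E.ξ l.2 + E.m l.1 * t)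
  rw [map_neg, E.m_rev]
  ring

theorem Emb.rev_key (E : Emb) (u : Mk) : Rev rfP (E.key u) := by
  refine ⟨rfP_rfP, fun a b => ?_⟩
  have e : ∀ l : Lam, E.m (rfP l).1 = E.m 3 - E.m l.1 := fun l => E.m_rev l.1
  simp only [E.key_lt_iff, E.pos_rf, e, sub_lt_sub_iff_left, sub_right_inj]
  rw [eq_comm]

theorem rf_trl (v : Zl) : rfP * trlP v * rfP⁻¹ = trlP (-v) := by
  ext1 l
  refine Prod.ext (Fin.rev_rev _) ?_
  change -(-l.2 + v) = l.2 + -v
  ring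

namespace Fam
variable {E : Emb} {Q P : Type} (F : Fam E Q P)

/-- The map `z` goes once around the base label. -/
def Spin (z : P → P) : Prop := ∀ q y, F.lb (z y) = F.lb y ∧
  F.gv q (z y) = F.gv q y * emb (lt (F.lb y) c2) ∧ F.gh q (z y) = F.gh q y * emb (lt (F.lb y) c2)

/-- The map `f` covers the point reflection at `q` with multiplier `k`. -/
def ACov (f : P → P) (q : Q) (k : WL Lam C2) : Prop :=
  ∀ x, F.lb (f x) = rfP (F.lb x) ∧ F.gv q (f x) = k * Jx rfP (E.key (F.B.u q))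
    (F.gv q x * opH c2 (E.key (F.B.u q)) (Rl (E.key (F.B.u q)) (F.lb x)))

theorem spin_ex (q0 : Q) : ∃ z, F.Spin z := by
  have key : ∀ y, ∃ y', F.lb y' = F.lb y ∧ F.gv q0 y' = F.gv q0 y * emb (lt (F.lb y) c2) := by
    intro y
    let Z := F.Z q0
    let l := F.lb y
    let b : Bx := ⟨Z.x l, Z.x l, Z.y l, Z.y l⟩
    have a1 : InB Z.x b.x0 b.x1 (Rle Z.X l) := (Z.at_Rle l).inB le_rfl le_rfl
    have a2 : InB Z.x b.x0 b.x1 (Rl Z.X l) := (Z.at_Rl l).inB le_rfl le_rfl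
    have h1 := BoxW.single (c := c2) (b := b) (D := Rl Z.Y l) (up_Rle Z.X l) a1 (up_Rl Z.X l) a2
      ((Z.tr.at_Rl l).inB le_rfl le_rfl)
    have h2 := BoxW.single (c := c2) (b := b) (D := Rle Z.Y l) (up_Rle Z.X l) a1 (up_Rl Z.X l) a2
      ((Z.tr.at_Rle l).inB le_rfl le_rfl)
    rw [stp_Rle' c2 _ _ (self_not_mem_Rl _ _)] at h1
    rw [stp_Rle c2 _ _ (self_mem_Rle _ _)] at h2
    have h3 := h1.symm.trans h2
    rw [inv_one, one_mul] at h3
    exact F.clv q0 y l b _ h3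
  choose z hz using key
  have all : ∀ q y, F.gv q (z y) = F.gv q y * emb (lt (F.lb y) c2) := by
    intro q y
    induction F.B.conn q0 q with
    | refl => exact (hz y).2
    | @tail p p' _ k ih =>
      rcases k with k | k
      · rw [← F.mv p p' _ k, ← F.mv p p' _ k, ih]
      · rw [F.relh p', F.relh p', ← F.mh p p' _ k, ← F.mh p p' _ k, (hz y).1, ← kap_spin,
          F.relv p (z y), F.relv p y, (hz y).1, ih, kap_spin]
  refine ⟨z, fun q y => ⟨(hz y).1, all q y, ?_⟩⟩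
  rw [F.relv q (z y), F.relv q y, (hz y).1, all, kap_spin]

variable {F} {z f f' g : P → P} {q q' : Q} {k k' : WL Lam C2}

theorem Spin.tr (h : F.Spin z) : F.tr.Spin z := fun q y => ⟨(h q y).1, (h q y).2.2, (h q y).2.1⟩

theorem Spin.zz (h : F.Spin z) (q : Q) (y : P) : z (z y) = y :=
  F.ext q _ _ ((h q _).1.trans (h q y).1)
    (by rw [(h q _).2.1, (h q y).2.1, (h q y).1, mul_assoc, sp_sq, mul_one])

theorem Spin.dv0 (h : F.Spin z) (q : Q) (y : P) : F.dv q y (z y) = 0 := by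
  unfold Fam.dv
  rw [(h q y).2.1, inv_mul_cancel_left, (h q y).1]
  exact dW_eq ∅ (fun S _ => dT_ret_lt _ _ _ _)

theorem Spin.dv (h : F.Spin z) (q : Q) (x y : P) : F.dv q (z x) y = F.dv q x y := by
  have p := F.dv_pm q
  have := h.dv0 q x
  linarith [p.tri x (z x) y, p.tri (z x) x y, p.symm x (z x)]

theorem Spin.cov (h : F.Spin z) {τ : Q → Q} {ρ : Equiv.Perm Lam} (hc : F.Cov τ ρ g q k) (x : P) :
    g (z x) = z (g x) :=
  F.ext (τ q) _ _ (by rw [(hc _).1, (h q _).1, (h q _).1, (hc _).1]) (by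
    rw [(hc _).2, (h _ _).2.1, (h _ _).2.1, (hc _).2, (hc _).1, map_mul, rlA_emb, rl_lt, mul_assoc])

theorem Spin.acov (h1 : S_J1) (h : F.Spin z) (hc : F.ACov f q k) (x : P) :
    f (z x) = z (f x) :=
  F.ext q _ _ (by rw [(hc _).1, (h q _).1, (h q _).1, (hc _).1]) (by
    rw [(hc _).2, (h _ _).2.1, (h _ _).2.1, (hc _).2, (hc _).1, (h q _).1, mul_assoc (F.gv q x),
      map_mul, jx_spin h1 (E.rev_key _), map_mul]
    simp only [mul_assoc])

theorem ACov.tr (h1 : S_J1) (hj : S_JJ) (h : F.Spin z) (hc : F.ACov f q k) :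
    ∃ k', F.tr.ACov (z ∘ f) q k' := by
  refine ⟨Kh c2 (E.key (F.B.u q)) (E.tr.key (F.B.w q)) k * (dl (E.tr.key (F.B.w q)))⁻¹,
    fun x => ⟨(h q _).1.trans (hc x).1, ?_⟩⟩
  change F.gh q (z (f x)) = _ * Jx rfP (E.tr.key (F.B.w q)) (F.gh q x * opH c2 (E.tr.key (F.B.w q))
    (Rl (E.tr.key (F.B.w q)) (F.lb x)))
  rw [(h q _).2.2, F.relv, F.relv, (hc x).1, (hc x).2, kap_mul, mul_assoc, mul_assoc,
    kap_jx h1 hj (E.rev_key _) (E.tr.rev_key _)]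

theorem ACov.mv (hc : F.ACov f q k) (hm : F.B.MV q q') : F.ACov f q' k := fun x =>
  ⟨(hc x).1, by rw [← F.mv _ _ _ hm, ← F.mv _ _ _ hm, ← hm.2, (hc x).2]⟩

theorem ACov.all (h1 : S_J1) (hj : S_JJ) (h : F.Spin z) (hc : F.ACov f q k) (q' : Q) :
    ∃ k', F.ACov f q' k' := by
  induction F.B.conn q q' with
  | refl => exact ⟨k, hc⟩
  | tail _ h2 ih =>
    obtain ⟨k1, a1⟩ := ih
    rcases h2 with h2 | h2
    · exact ⟨k1, a1.mv h2⟩
    · obtain ⟨k2, a2⟩ := a1.tr h1 hj h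
      obtain ⟨k3, a3⟩ := (a2.mv h2).tr h1 hj h.tr
      rw [show z ∘ z ∘ f = f from funext fun x => h.zz q _] at a3
      exact ⟨k3, a3⟩

theorem ACov.word (hc : F.ACov f q k) (x y : P) : (F.gv q (f x))⁻¹ * F.gv q (f y) =
    Jx rfP (E.key (F.B.u q)) ((opH c2 (E.key (F.B.u q)) (Rl (E.key (F.B.u q)) (F.lb x)))⁻¹ *
      ((F.gv q x)⁻¹ * F.gv q y) * opH c2 (E.key (F.B.u q)) (Rl (E.key (F.B.u q)) (F.lb y))) := by
  rw [(hc x).2, (hc y).2]
  simp only [map_mul, map_inv]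
  group

theorem ACov.dv (h3 : S_J3) (hc : F.ACov f q k) (x y : P) : F.dv q (f x) (f y) = F.dv q x y := by
  obtain ⟨b, hb⟩ := F.cv q x y
  unfold Fam.dv
  rw [hc.word, (hc x).1, (hc y).1, E.pos_rf, E.pos_rf]
  exact h3 Lam rfP (F.Z q) _ (E.rev_key _) (E.pos_rf _) b _ _ _ _ _ hb (Cfg.at_Rl _ _)
    (Cfg.at_Rl _ _)

theorem acov_ex (h2 : S_J2) (q : Q) {x0 y0 : P} (hl : F.lb y0 = rfP (F.lb x0)) :
    ∃ f k, F.ACov f q k ∧ f x0 = y0 := by
  have cr : ∀ l, ∃ b, BoxW c2 (F.Z q) b (Rle (F.Z q).X l) (Rl (F.Z q).X l) 1 := fun l => by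
    have h1 := BoxW.single (c := c2) (Z := F.Z q)
      (b := ⟨(F.Z q).x l, (F.Z q).x l, (F.Z q).y l, (F.Z q).y l⟩) (D := Rl (F.Z q).Y l)
      (up_Rle _ l) (((F.Z q).at_Rle l).inB le_rfl le_rfl) (up_Rl _ l)
      (((F.Z q).at_Rl l).inB le_rfl le_rfl) (((F.Z q).tr.at_Rl l).inB le_rfl le_rfl)
    rw [stp_Rle' c2 _ _ (self_not_mem_Rl _ _)] at h1
    exact ⟨_, h1⟩
  have key : ∀ x, ∃ y, F.lb y = rfP (F.lb x) ∧ F.gv q y = (F.gv q y0 * (Jx rfP (F.Z q).X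
      (F.gv q x0 * opH c2 (F.Z q).X (Rl (F.Z q).X (F.lb x0))))⁻¹) *
      Jx rfP (F.Z q).X (F.gv q x * opH c2 (F.Z q).X (Rl (F.Z q).X (F.lb x))) := by
    intro x
    obtain ⟨b, hb⟩ := F.cv q x0 x
    have r : Rev rfP (F.Z q).X := E.rev_key _
    have h3 := h2 Lam rfP (F.Z q) _ _ r (E.pos_rf _) (E.tr.pos_rf _) b _ _ _ hb
    change ∃ b', BoxW c2 (F.Z q) b' (star rfP (Rl (F.Z q).X _)) (star rfP (Rl (F.Z q).X _)) _ at h3
    rw [star_Rl r, star_Rl r] at h3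
    obtain ⟨b', h4⟩ := box_tr3_MoFib (box_inv_MoFib (cr _)) h3 (cr _)
    rw [← hl] at h4
    obtain ⟨y, h5, h6⟩ := F.clv q y0 _ _ _ h4
    refine ⟨y, h5, ?_⟩
    rw [h6]
    simp only [map_mul, map_inv, mul_inv_rev, mul_assoc]
    rfl
  choose f hf using key
  refine ⟨f, _, hf, F.ext q _ _ ((hf x0).1.trans hl.symm) ?_⟩
  rw [(hf x0).2, inv_mul_cancel_right]

theorem ACov.sq (h1 : S_J1) (hj : S_JJ) (h : F.Spin z) (hc : F.ACov f q k) :
    F.Cov id 1 (f ∘ f ∘ z) q (k * Jx rfP (E.key (F.B.u q)) k * dl (E.key (F.B.u q))) := fun x => by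
  have r := E.rev_key (F.B.u q)
  refine ⟨by rw [Function.comp_apply, (hc _).1, Function.comp_apply, (hc _).1, (h q _).1,
    rfP_rfP]; rfl, ?_⟩
  change F.gv q (f (f (z x))) = _
  rw [(hc _).2, (hc _).2, (hc _).1, (h q _).1, (h q _).2.1, mul_assoc (F.gv q x), ← op_Rle,
    map_mul, map_mul, (hj _ _ _ r).1, h1 _ _ _ r, star_Rl r, rfP_rfP, map_one, MulAut.one_apply]
  group

theorem ACov.conj {τ : Q → Q} {ρ : Equiv.Perm Lam} {fe : Equiv.Perm P} {k0 k1 k2 : WL Lam C2}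
    (hx : ∀ a b, E.key (F.B.u q) a < E.key (F.B.u q) b ↔
      E.key (F.B.u (τ q)) (ρ a) < E.key (F.B.u (τ q)) (ρ b))
    (hc : F.Cov τ ρ g q k1) (a2 : F.ACov fe q k2) (a0 : F.ACov fe (τ q) k0) :
    F.Cov τ (rfP * ρ * rfP⁻¹) (fe ∘ g ∘ fe.symm) q
      (k0 * Jx rfP (E.key (F.B.u (τ q))) k1 * (rlA (rfP * ρ * rfP⁻¹) k2)⁻¹) := fun y => by
  obtain ⟨x, rfl⟩ := fe.surjective y
  simp only [Function.comp_apply, Equiv.symm_apply_apply]
  refine ⟨by rw [(a0 _).1, (hc _).1, (a2 _).1]; simp, ?_⟩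
  have e := rlA_opH ρ c2 (X := E.key (F.B.u q)) (X' := E.key (F.B.u (τ q)))
    (A := Rl (E.key (F.B.u q)) (F.lb x)) (A' := Rl (E.key (F.B.u (τ q))) (ρ (F.lb x)))
    (fun a _ b _ h => (hx a b).1 h) (fun m => (hx _ m).symm)
  rw [(a0 _).2, (a2 _).2, (hc _).1, (hc _).2, ← e, mul_assoc k1, ← map_mul, map_mul, jx_rl hx,
    map_mul (rlA _)]
  group

end Fam

end Pool.Agent.E5f.G2

end

section

namespace Pool.Agent.E5f.G2

open Filter Classical

/-- The diagonal action on the double. -/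
def dg2 (P : Type) : Equiv.Perm P →* Equiv.Perm (P × Bool) where
  toFun g := Equiv.prodCongr g (Equiv.refl _)
  map_one' := Equiv.ext fun _ => rfl
  map_mul' _ _ := Equiv.ext fun _ => rfl

theorem dg2_apply {P : Type} (g : Equiv.Perm P) (x : P × Bool) : dg2 P g x = (g x.1, x.2) := rfl

/-- The exchange of the two sheets. -/
def tw {P : Type} (f z : Equiv.Perm P) : Equiv.Perm (P × Bool) where
  toFun x := (if x.2 = true then f x.1 else f (z x.1), !x.2)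
  invFun x := (if x.2 = true then z.symm (f.symm x.1) else f.symm x.1, !x.2)
  left_inv := by rintro ⟨x, _ | _⟩ <;> simp
  right_inv := by rintro ⟨x, _ | _⟩ <;> simp

theorem tw_apply {P : Type} (f z : Equiv.Perm P) (x : P × Bool) :
    tw f z x = (if x.2 = true then f x.1 else f (z x.1), !x.2) := rfl

theorem tw_conj {P : Type} {f z g : Equiv.Perm P} (h : ∀ x, g (z x) = z (g x)) :
    tw f z * dg2 P g * (tw f z)⁻¹ = dg2 P (f * g * f⁻¹) := by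
  rw [mul_inv_eq_iff_eq_mul]
  ext1 x
  simp only [Equiv.Perm.mul_apply, dg2_apply, tw_apply]
  obtain ⟨x, _ | _⟩ := x <;> simp [h]

theorem tw_sq {P : Type} {f z : Equiv.Perm P} (h : ∀ x, f (z x) = z (f x)) :
    tw f z * tw f z = dg2 P (f * f * z) := by
  ext1 x
  obtain ⟨x, _ | _⟩ := x <;> simp [dg2_apply, tw_apply, h]

theorem thick_dbl {P : Type} {d : P → P → ℝ} (h : Thick d) :
    Thick (fun x y : P × Bool => d x.1 y.1) := by
  obtain ⟨δ, h1⟩ := h.hyp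
  obtain ⟨κ, h2, h3⟩ := h.rg
  refine ⟨⟨δ, fun w x y z => h1 w.1 x.1 y.1 z.1⟩, ⟨κ, h2, fun x y t a b => ?_⟩, fun x R => ?_⟩
  · obtain ⟨z, hz⟩ := h3 x.1 y.1 t a b
    exact ⟨(z, true), hz⟩
  · exact ((h.fin x.1 R).prod (Set.finite_univ (α := Bool))).subset fun y hy => ⟨hy, trivial⟩

theorem pm_dbl {P : Type} {d : P → P → ℝ} (h : PM d) : PM (fun x y : P × Bool => d x.1 y.1) :=
  ⟨fun x => h.self x.1, fun x y => h.symm x.1 y.1, fun x y z => h.tri x.1 y.1 z.1⟩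

/-- The interface system on the double. -/
def FSys.dbl {O : Type} [AddCommGroup O] {E : Lat O} {Q P : Type} {dv dh : Q → Q → ℝ}
    {Cu : Q → Prop} {fv fh : Q → P → P → ℝ} (Y : FSys E dv dh Cu fv fh) :
    FSys E dv dh Cu (fun q (x y : P × Bool) => fv q x.1 y.1) (fun q x y => fh q x.1 y.1) where
  toBSys := Y.toBSys
  t3 := Y.t3
  path := fun q S x y => Y.path q S x.1 y.1
  fpm := fun q => pm_dbl (Y.fpm q)
  fpm' := fun q => pm_dbl (Y.fpm' q)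
  ev := fun q x y => Y.ev q x.1 y.1
  pth := fun q x y => Y.pth q x.1 y.1
  box := fun q x y => Y.box q x.1 y.1
  chain := fun q r σ h x y => Y.chain q r σ h x.1 y.1
  two := fun q r a1 a2 a3 a4 a5 a6 => by
    obtain ⟨h1, c, C, h2, h3⟩ := Y.two q r a1 a2 a3 a4 a5 a6
    exact ⟨thick_dbl h1, c, C, h2, fun x y => h3 x.1 y.1⟩

open SemidirectProduct in
theorem ps_pres {L : Type} {Z : Cfg L} (G : Grid Z 4) :
    Function.Injective (G.ps c2 c2_sq) ∧ Set.range (G.ps c2 c2_sq) = G.Gam c2 := by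
  have hn : 0 < 4 := by norm_num
  obtain ⟨h1, h2⟩ := G.th_main c2_sq c2_gen c2_lift
  refine ⟨(G.Th_inj hn c2).comp ((MulAut.conj _).injective.comp h1), Set.Subset.antisymm ?_ ?_⟩
  · rintro _ ⟨o, rfl⟩
    exact G.ps_mem c2_sq o
  · rintro z ⟨v, b, h3, h4⟩
    obtain ⟨v', b', h5, h6⟩ := G.ps_mem c2_sq (oa 4 2 ^ v.1 * ob 4 2 ^ v.2)
    have h7 := G.ps_right c2_sq v.1 v.2
    rw [G.tv_inj hn (h5.symm.trans h7)] at h6
    obtain ⟨o, ho⟩ := Subgroup.mul_mem _ (G.box_mem _ (G.lam_mem c2_sq h2) h4)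
      (Subgroup.inv_mem _ (G.box_mem _ (G.lam_mem c2_sq h2) h6))
    refine ⟨o * (oa 4 2 ^ v.1 * ob 4 2 ^ v.2), ?_⟩
    rw [map_mul, ho]
    refine SemidirectProduct.ext ?_ ?_
    · rw [mul_left, left_inl, right_inl, map_one, MulAut.one_apply]
      group
    · rw [mul_right, h7, h3]
      simp

/-- The anti-cover with the multiplier of the grid. -/
theorem acov_kR {Q P : Type} (F : Fam E4 Q P) (j1 : S_J1) (j2 : S_J2) {z : P → P} (hz : F.Spin z)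
    (q0 : Q) (x0 : P) (h1 : F.lb x0 = (0, 0)) (h2 : F.gv q0 x0 = 1) (h3 : (F.Z q0).Gen)
    (G : Grid (F.Z q0) 4) : ∃ f, F.ACov f q0 (kR G rfP) := by
  have r : Rev rfP (F.Z q0).X := E4.rev_key _
  have x00 : (F.Z q0).x (0, 0) = 0 := by
    show E4.ξ 0 + E4.m 0 * _ = _
    rw [E4.m_zero, zero_mul, add_zero, map_zero]
  have e0 : Rs (F.Z q0).x (0, false) = Rle (F.Z q0).X (0, 0) := by
    ext m
    change _ ↔ (F.Z q0).X (0, 0) ≤ (F.Z q0).X m
    rw [← not_lt, (F.Z q0).X_iff h3.1, x00, not_lt, le_iff_lt_or_eq]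
    simp [Rs]
  obtain ⟨y0, y1, a1, a2⟩ := G.band (min 0 ((F.Z q0).x (rfP (0, 0))))
    (max 0 ((F.Z q0).x (rfP (0, 0)))) 1 1
  have b1 := BoxW.band (c := c2) (Z := F.Z q0) (b := ⟨min 0 ((F.Z q0).x (rfP (0, 0))),
    max 0 ((F.Z q0).x (rfP (0, 0))), y0, y1⟩) (D := G.Ar 1) ((F.Z q0).up_Rs (0, false))
    ((at_Rs _ _).inB (min_le_left _ _) (le_max_left _ _)) (up_Rl _ (rfP (0, 0)))
    (((F.Z q0).at_Rl _).inB (min_le_right _ _) (le_max_right _ _)) a1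
    fun l k1 k2 => ⟨(a2 l k1 k2).1, fun k k' => absurd k' (not_le.2 ((a2 l k1 k2).2 k))⟩
  have b0 := box_side_MoFib h3.1 (0, 0)
  rw [x00] at b0
  obtain ⟨b, b2⟩ := box_tr3_MoFib (box_inv_MoFib b0) ⟨_, b1⟩ ⟨_, BoxW.refl b1.right.1 b1.right.2⟩
  rw [← h1] at b2
  obtain ⟨y, c1, c2'⟩ := F.clv q0 x0 _ _ _ b2
  obtain ⟨f, k, hf, hx⟩ := Fam.acov_ex j2 q0 (x0 := x0) (y0 := z y) ((hz q0 y).1.trans c1)
  refine ⟨f, ?_⟩
  have e := (hf x0).2
  rw [hx, (hz q0 y).2.1, c2', c1, h2, one_mul, one_mul, h1] at e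
  have e' : k = kR G rfP := by
    change _ = k * Jx rfP (F.Z q0).X (opH c2 (F.Z q0).X (Rl (F.Z q0).X (0, 0))) at e
    rw [kR, e0, star_Rle r, op_Rle, jx_spin j1 r, ← e0, mul_inv_rev, sp_inv, ← mul_assoc, e,
      mul_inv_cancel_right]
  rwa [← e']

theorem fib_ex (j1 : S_J1) (jj : S_JJ) (j2 : S_J2) (j3 : S_J3) (r3 : S_R3) (hK : S_K)
    {Q P : Type} [MulAction G8 Q] (F : Fam E4 Q P) {P0 : Q} (A : BAct F.B P0)
    (q0 : Q) (x0 : P) (h1 : F.lb x0 = (0, 0)) (h2 : F.gv q0 x0 = 1) (h3 : (F.Z q0).Gen)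
    (h4 : 0 < (F.B.u q0).1) (h5 : (F.B.u q0).1 < 1 / 2) (S : Base Q)
    (h6 : S.lam = Real.goldenRatio ^ 2) (h7 : S.dg = g8deg) :
    ∃ Fb : Fib S q0 (P × Bool), Fb.dv = (fun q x y => F.dv q x.1 y.1) ∧
      Fb.dh = fun q x y => F.dh q x.1 y.1 := by
  obtain ⟨s, hs⟩ := s_ex A q0 h1
  obtain ⟨G, hG⟩ : ∃ G : Grid (F.Z q0) 4, G = gridF _ _ h3 h4 h5 := ⟨_, rfl⟩
  have tv : ∀ v, G.tv v = trlP ⟨v.1, v.2⟩ := fun v => by rw [hG]; exact gridF_tv _ _ h3 h4 h5 v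
  obtain ⟨R1, R2, R3, R4⟩ := r3 Lam (F.Z q0) G rfP (E4.rev_key _)
    (by rw [hG]; exact fun l => ⟨rfl, rfl, rfl⟩)
  have Ra : (G.ps c2 c2_sq (oa 4 2)).right = G.tv (1, 0) := by rw [G.ps_a]; rfl
  have Rb : (G.ps c2 c2_sq (ob 4 2)).right = G.tv (0, 1) := by rw [G.ps_b]; rfl
  have Rc : ∀ i, (G.ps c2 c2_sq (oc 2 i)).right = G.tv 0 := fun i => by
    rw [G.ps_inl c2_sq _ _ (G.th_c c2_sq i), G.tv_zero]; rfl
  obtain ⟨ψi, ψr⟩ := ps_pres G
  obtain ⟨z, hz⟩ := F.spin_ex q0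
  obtain ⟨f0, a0⟩ := acov_kR F j1 j2 hz q0 x0 h1 h2 h3 G
  generalize G.ps c2 c2_sq = ψ at *
  have gam : ∀ z, z ∈ G.Gam c2 ↔ ∃ v y, z.right = trlP v ∧ F.lb y = (0, v) ∧
      F.gv q0 y = z.left := by
    rw [hG]
    exact gam_iff_MoFib F q0 x0 h1 h2 h3 h4 h5
  have t0 : ∀ v : Zl, trlP v (0, 0) = (0, v) := fun v => Prod.ext rfl (zero_add v)
  have back : ∀ (v : Zl) (f : P → P) (k : WL Lam C2), F.Cov id (trlP v) f q0 k →
      ∃ o, ψ o = ⟨k, trlP v⟩ := by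
    intro v f k hc
    have : (⟨k, trlP v⟩ : Big Lam C2) ∈ Set.range ψ := by
      rw [ψr, gam]
      refine ⟨v, f x0, rfl, by rw [(hc x0).1, h1, t0], ?_⟩
      have := (hc x0).2
      rwa [h2, map_one, mul_one] at this
    exact this
  have key : ∀ o, ∃ f v, (ψ o).right = trlP v ∧ F.Cov id (ψ o).right f q0 (ψ o).left := by
    intro o
    obtain ⟨v, y, k1, k2, k3⟩ := (gam _).1 (ψr ▸ Set.mem_range_self o)
    obtain ⟨f, k, k4, k5⟩ := (F.adm_trl v).ex q0 (x0 := x0) (y0 := y) (by rw [k2, h1, t0])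
    have k6 := (k4 x0).2
    rw [k5, h2, map_one, mul_one] at k6
    refine ⟨f, v, k1, ?_⟩
    rw [k1, ← k3]
    exact (show F.gv q0 y = k from k6) ▸ k4
  choose f v hv hf using key
  let φ0 : OG 4 2 →* Function.End P :=
    { toFun := f
      map_one' := by
        have := hf 1
        rw [map_one] at this
        exact this.eq (F.cov_id q0)
      map_mul' := fun o o' => by
        have := hf (o * o')
        rw [map_mul] at this
        have h8 : F.Cov id (ψ o * ψ o').right (f o ∘ f o') q0 (ψ o * ψ o').left :=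
          Fam.Cov.comp (τ := id) (τ' := id) (hf o) (hf o')
        exact this.eq h8 }
  obtain ⟨φ, hφ⟩ : ∃ φ : OG 4 2 →* Equiv.Perm P, ∀ o, ⇑(φ o) = f o :=
    ⟨φ0.toHomPerm, fun _ => rfl⟩
  have hf0 : ∀ o, F.Cov id (ψ o).right (φ o) q0 (ψ o).left := fun o => hφ o ▸ hf o
  have hf' : ∀ o, F.Cov id (trlP (v o)) (φ o) q0 (ψ o).left := fun o => hv o ▸ hf0 o
  have free : ∀ o x, φ o x = x → o = 1 := by
    intro o x hx
    obtain ⟨k1, k2⟩ := hf' o x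
    rw [hx] at k1 k2
    have k3 : v o = 0 := left_eq_add.1 (congrArg Prod.snd k1)
    have k4 : trlP (v o) = 1 := by
      rw [k3]
      ext1 l
      exact trl_zero l
    rw [k4, map_one] at k2
    apply ψi
    rw [map_one]
    exact SemidirectProduct.ext (right_eq_mul.1 k2) ((hv o).trans k4)
  have onto : ∀ (w : Zl) (g : P → P) (k : WL Lam C2), F.Cov id (trlP w) g q0 k →
      ∃ o, ⇑(φ o) = g := by
    intro w g k hc
    obtain ⟨o, ho⟩ := back w g k hc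
    have := hf0 o
    rw [ho] at this
    exact ⟨o, this.eq hc⟩
  have sq0 : ⇑(φ oC) = f0 ∘ f0 ∘ z := by
    have := hf0 oC
    rw [R4] at this
    exact this.eq (a0.sq j1 jj hz)
  have zi : Function.Involutive z := hz.zz q0
  have fb : Function.Bijective f0 := by
    have b := (φ oC).bijective
    rw [sq0] at b
    refine ⟨fun x y e => ?_, b.2.of_comp⟩
    refine zi.injective (b.1 ?_)
    simp only [Function.comp_apply, zi x, zi y, e]
  obtain ⟨fe, hfe⟩ : ∃ fe : Equiv.Perm P, ⇑fe = f0 := ⟨Equiv.ofBijective f0 fb, rfl⟩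
  obtain ⟨ze, hze⟩ : ∃ ze : Equiv.Perm P, ⇑ze = z := ⟨zi.toPerm z, rfl⟩
  subst hfe hze
  have cj : ∀ o o' w, (ψ o).right = G.tv w → ψ o' = alB G rfP (ψ o).left w →
      tw fe ze * dg2 P (φ o) * (tw fe ze)⁻¹ = dg2 P (φ o') := by
    intro o o' w e1 e2
    rw [tw_conj (hz.cov (hf0 o))]
    have b1 := Fam.ACov.conj (τ := id) ((F.adm_trl (v o)).kx q0) (hf' o) a0 a0
    have b2 := hf0 o'
    have e3 : rfP * trlP (v o) * rfP⁻¹ = G.tv (-w) := by
      rw [← hv, e1, tv, tv, rf_trl]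
      rfl
    rw [e3] at b1
    rw [e2] at b2
    exact congrArg _ (Equiv.ext (congrFun (b1.eq b2)))
  have nm : ∀ γ o, ∃ o', s γ * φ o * (s γ)⁻¹ = φ o' := by
    intro γ o
    obtain ⟨k1, a1⟩ := hs γ⁻¹
    obtain ⟨k2, a2⟩ := (hf' o).all (F.adm_trl _) (γ⁻¹ • q0)
    obtain ⟨k0, a0⟩ := hs γ
    obtain ⟨k3, a3⟩ := a0.all (adm A γ) (γ⁻¹ • q0)
    have a4 := Fam.Cov.comp (τ' := id ∘ fun q => γ⁻¹ • q) a3
      (a2.comp (τ' := fun q => γ⁻¹ • q) a1)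
    have e1 : ((fun q : Q => γ • q) ∘ id ∘ fun q => γ⁻¹ • q) = id :=
      funext fun q => smul_inv_smul γ q
    have e2 : sg A γ * (trlP (v o) * sg A γ⁻¹) =
        trlP (((E0.uω ^ (2 * g8deg γ) : Zlˣ) : Zl) * v o) := by
      have e3 : sg A γ * trlP (v o) =
          trlP (((E0.uω ^ (2 * g8deg γ) : Zlˣ) : Zl) * v o) * sg A γ := by
        ext1 l
        exact E4.aff_trl _ _ _ l
      rw [← mul_assoc, e3, mul_assoc, ← sg_mul A, mul_inv_cancel, sg_one A, mul_one]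
    rw [e1, e2] at a4
    obtain ⟨o', ho'⟩ := onto _ _ _ a4
    refine ⟨o', Equiv.ext fun x => ?_⟩
    rw [ho', ← map_inv]
    rfl
  have nt : ∀ γ, dg2 P (s γ) * tw fe ze * (dg2 P (s γ))⁻¹ * (tw fe ze)⁻¹ ∈
      ((dg2 P).comp φ).range := by
    intro γ
    obtain ⟨k1, a1⟩ := hs γ⁻¹
    obtain ⟨k2, a2⟩ := a0.all j1 jj hz (γ⁻¹ • q0)
    have b1 := Fam.ACov.conj (τ := fun q => γ⁻¹ • q) ((adm A γ⁻¹).kx q0) a1 a0 a2
    obtain ⟨k0, b0⟩ := hs γ
    obtain ⟨k3, a3⟩ := b0.all (adm A γ) (γ⁻¹ • q0)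
    have a4 := Fam.Cov.comp (τ' := fun q => γ⁻¹ • q) a3 b1
    have e1 : ((fun q : Q => γ • q) ∘ fun q => γ⁻¹ • q) = id :=
      funext fun q => smul_inv_smul γ q
    have e2 : sg A γ * (rfP * sg A γ⁻¹ * rfP⁻¹) = trlP (-(E4.nu 3 * A.e γ)) := by
      have e3 : sg A γ * rfP = trlP (-(E4.nu 3 * A.e γ)) * rfP * sg A γ := by
        ext1 l
        refine Prod.ext rfl ?_
        change _ * (-l.2) - E4.nu (Fin.rev l.1) * _ = -(_ * l.2 - E4.nu l.1 * _) + _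
        rw [E4.rv]
        ring
      rw [← mul_assoc, ← mul_assoc, e3, mul_assoc _ (sg A γ), ← sg_mul A, mul_inv_cancel,
        sg_one A, mul_one, mul_inv_cancel_right]
    rw [e1, e2] at a4
    obtain ⟨o', ho'⟩ := onto _ _ _ a4
    refine ⟨o', ?_⟩
    rw [mul_assoc, mul_assoc, ← mul_assoc (tw fe ze), ← map_inv, ← map_inv, tw_conj (hz.cov a1),
      ← map_mul]
    exact congrArg (dg2 P) (Equiv.ext fun x => congrFun ho' x)
  have nm' : ∀ γ o, dg2 P (s γ) * ((dg2 P).comp φ) o * (dg2 P (s γ))⁻¹ ∈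
      ((dg2 P).comp φ).range := fun γ o => by
    obtain ⟨o', h⟩ := nm γ o
    exact ⟨o', by rw [MonoidHom.comp_apply, MonoidHom.comp_apply, ← h, map_mul, map_mul, map_inv]⟩
  have flip : ∀ (g : Equiv.Perm P) (x : P × Bool), (dg2 P g * tw fe ze) x ≠ x := fun g x e => by
    have := congrArg Prod.snd e
    simp [dg2_apply, tw_apply] at this
  obtain ⟨Φ, Φi, Φ1, Φ2, Φ3⟩ := hK _ ((dg2 P).comp φ) (tw fe ze)
    ((injective_iff_map_eq_one _).2 fun o ho => free o x0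
      (congrArg Prod.fst (Equiv.ext_iff.1 ho (x0, true))))
    (fun ⟨o, ho⟩ => by
      have := congrArg Prod.snd (Equiv.ext_iff.1 ho (x0, true))
      simp [dg2_apply, tw_apply] at this)
    (cj _ _ _ Ra R1) (cj _ _ _ Rb R2) (fun i => cj _ _ _ (Rc i) (R3 i))
    (by rw [tw_sq (hz.acov j1 a0)]; exact congrArg _ (Equiv.ext (congrFun sq0.symm)))
  have iso : ∀ d : P → P → ℝ, PM d → (∀ o x y, d (φ o x) (φ o y) = d x y) →
      (∀ x y, d (ze x) y = d x y) → (∀ x y, d (fe x) (fe y) = d x y) →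
      ∀ o (x y : P × Bool), d (Φ o x).1 (Φ o y).1 = d x.1 y.1 := by
    intro d pm i1 i2 i3 o x y
    have i4 : ∀ x y, d x (ze y) = d x y := fun x y => by rw [pm.symm, i2, pm.symm]
    rcases Φ1 o with ⟨o', h⟩ | ⟨o', h⟩
    · rw [← h]
      exact i1 o' _ _
    · rw [← mul_inv_eq_iff_eq_mul.1 h.symm |>.symm]
      refine (i1 o' _ _).trans ?_
      obtain ⟨x, _ | _⟩ := x <;> obtain ⟨y, _ | _⟩ := y <;> simp [i2, i3, i4]
  refine ⟨⟨fun q x y => F.dv q x.1 y.1, fun q x y => F.dh q x.1 y.1, fun q => pm_dbl (F.dv_pm q),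
    fun q => pm_dbl (F.tr.dv_pm q), Φ, Φi, (dg2 P).comp s, fun γ o => ?_, fun q => ?_, fun q => ?_,
    ?_, ?_, thick_dbl (F.thick q0 h3), ⟨(x0, true)⟩, ?_, ?_⟩, rfl, rfl⟩
  · obtain ⟨o', h⟩ := Φ3 (dg2 P (s γ)) (nm' γ)
      (fun o => by simpa only [map_inv, inv_inv] using nm' γ⁻¹ o) (nt γ)
      (by simpa only [map_inv, inv_inv] using nt γ⁻¹) o
    exact ⟨o', h.symm⟩
  · obtain ⟨k, a⟩ := a0.all j1 jj hz q
    exact iso _ (F.dv_pm q) (fun o x y => by simpa using (hf' o).dv (F.adm_trl _) q x y)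
      (hz.dv q) (a.dv j3)
  · obtain ⟨k, a⟩ := a0.all j1 jj hz q
    obtain ⟨k', a'⟩ := a.tr j1 jj hz
    have p := F.tr.dv_pm q
    refine iso _ p (fun o x y => by simpa using (hf' o).dh (F.adm_trl _) q x y)
      (hz.tr.dv q) fun x y => ?_
    change F.tr.dv q _ _ = F.tr.dv q _ _
    rw [← a'.dv j3 x y, Function.comp_apply, Function.comp_apply, hz.tr.dv, p.symm _ (ze _),
      hz.tr.dv, p.symm]
  · intro γ q x y
    obtain ⟨k, a⟩ := hs γ
    rw [h6, h7]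
    exact a.dv (adm A γ) q x.1 y.1
  · intro γ q x y
    obtain ⟨k, a⟩ := hs γ
    rw [h6, h7]
    exact a.dh (adm A γ) q x.1 y.1
  · have rep : ∀ i : Fin 4, ∃ y : P, ∀ x, (F.lb x).1 = i → (F.lb y).1 = i := by
      intro i
      by_cases h : ∃ x, (F.lb x).1 = i
      · exact h.imp fun _ k _ _ => k
      · exact ⟨x0, fun x k => absurd ⟨x, k⟩ h⟩
    choose y hy using rep
    refine ⟨Finset.univ.image (fun e : Fin 4 × Bool => (y e.1, e.2)) ∪ Finset.univ.image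
      (fun e : Fin 4 × Bool => (dg2 P (φ (oc 2 0)))⁻¹ (y e.1, e.2)), fun x => ?_⟩
    obtain ⟨g, k, a1, a2⟩ := (F.adm_trl ((F.lb x.1).2 - (F.lb (y (F.lb x.1).1)).2)).ex q0
      (x0 := y (F.lb x.1).1) (y0 := x.1) (Prod.ext (hy _ x.1 rfl).symm (add_sub_cancel _ _).symm)
    obtain ⟨o, ho⟩ := onto _ _ _ a1
    have e : x = dg2 P (φ o) (y (F.lb x.1).1, x.2) := by rw [dg2_apply, ho, a2]
    rcases Φ2 o with ⟨o', h⟩ | ⟨o', h⟩
    · exact ⟨o', _, Finset.mem_union_left _ (Finset.mem_image_of_mem _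
        (Finset.mem_univ ((F.lb x.1).1, x.2))), by rw [h]; exact e⟩
    · refine ⟨o', _, Finset.mem_union_right _ (Finset.mem_image_of_mem _
        (Finset.mem_univ ((F.lb x.1).1, x.2))), ?_⟩
      rw [h, ← Equiv.Perm.mul_apply]
      change x = (dg2 P (φ o) * dg2 P (φ (oc 2 0)) * (dg2 P (φ (oc 2 0)))⁻¹) _
      rw [mul_inv_cancel_right]
      exact e
  · intro x
    refine (Set.finite_singleton 1).subset fun o ho => ?_
    change Φ o x = x at ho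
    rcases Φ1 o with ⟨o', h⟩ | ⟨o', h⟩
    · rw [← h] at ho
      rw [free o' x.1 (congrArg Prod.fst ho), map_one] at h
      exact Φi (h.symm.trans (map_one Φ).symm)
    · rw [mul_inv_eq_iff_eq_mul.1 h.symm] at ho
      exact absurd ho (flip _ x)

theorem main_group (t3 : S_T3) (j1 : S_J1) (jj : S_JJ) (j2 : S_J2) (j3 : S_J3) (r3 : S_R3)
    (hK : S_K) : ∃ h : ℕ, 2 ≤ h ∧ ∃ (G : Type) (_ : Group G) (n : ℕ) (s : Fin n → G)
    (i : SG 2 →* G) (p : G →* SG h), Gens s ∧ FourPt s ∧ Function.Injective i ∧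
      Function.Surjective p ∧ i.range = p.ker := by
  obtain ⟨Q, B, P0, h0, h1, h2⟩ := plan_ex cz E0.bc 1 (E0.bc.x 0, false) (E0.bc.y 0, false)
  obtain ⟨inst, ⟨A⟩⟩ := bact_ex B P0 h0 ⟨h1, h2⟩
  obtain ⟨S, s1, s2, s3, s4, s5⟩ := A.base_ex
  obtain ⟨s, a1, a2, a3⟩ := E0.exists_generic (show (0 : ℝ) < 1 / 2 by norm_num)
  obtain ⟨t, -, -, b3⟩ := E0.tr.exists_generic (show (0 : ℝ) < 1 / 2 by norm_num)
  obtain ⟨q1, -, -, c1⟩ := B.mvh P0 (s, false)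
  obtain ⟨q0, -, c2, c3⟩ := B.mvv q1 (t, false)
  obtain ⟨P, F, x0, rfl, f1, f2⟩ := fam_ex E4 B q0
  have hu : (F.B.u q0).1 = s := by rw [c2, c1]
  have hw : (F.B.w q0).1 = t := by rw [c3]
  obtain ⟨Fb, g1, g2⟩ := fib_ex j1 jj j2 j3 r3 hK F A q0 x0 f1 f2
    (E4.fc_gen (by rw [hu]; exact a3) (by rw [hw]; exact b3)) (by rw [hu]; exact a1)
    (by rw [hu]; exact a2) S s5 s3
  have hc : ∀ r a, F.B.Cusp a r → ∃ γ : G8, S.dg γ = 0 ∧ γ • S.P0 = r := fun r a h => by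
    rw [s3, s4]
    exact A.cusp r a h
  refine group_of_sys S q0 Fb (O := Zl) (E := E4.lat) (E' := E4.tr.lat) ?_ ?_
  · rw [s1, s2, g1, g2]
    exact (F.fsys t3 _ (fun r a h => (hc r a h).imp fun γ h' => ⟨h'.1, h'.2.symm⟩)).dbl
  · rw [s1, s2, g1, g2]
    exact (F.tr.fsys t3 _
      (fun r a h => (hc r a ⟨h.2, h.1⟩).imp fun γ h' => ⟨h'.1, h'.2.symm⟩)).dbl

end Pool.Agent.E5f.G2

end
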