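import Pool.Agent.MP_e5f6e8_al.G2.St

/-!
The point reflection on words and on the orbifold group of a grid; the genus two subgroup.
-/

set_option autoImplicit false

section

/-!
The point reflection on words: ordered products, the square, the change of coordinates.
-/

set_option autoImplicit false

namespace Pool.Agent.E5f.G2

open Classical OrderDual

section fin
variable {L C : Type} [CommGroup C]

theorem Kf_self_J1 (c : C) (X : Od L) (S : Finset L) : ∀ T ⊆ S,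
    (∀ m ∈ S, ∀ l ∈ T, X l < X m → m ∈ T) → ∀ D ⊆ T,
      Kf c X X S (op X c D) = (op X c T)⁻¹ * op X c (T \ D) := by
  refine finset_ind_max (k := toDual ∘ X)
    (p := fun T => (∀ m ∈ S, ∀ l ∈ T, X l < X m → m ∈ T) → ∀ D ⊆ T,
      Kf c X X S (op X c D) = (op X c T)⁻¹ * op X c (T \ D)) S (dual_inj X S) ?_ ?_
  · intro _ D hD
    rw [Finset.subset_empty.1 hD]
    simp
  · intro T T' l hT hTT hl ih hup D hD
    have hl' : ∀ a ∈ T', X l < X a := fun a ha => hl a ha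
    have hlT : l ∈ T := (hTT l).2 (Or.inr rfl)
    have hT'T : ∀ a ∈ T', a ∈ T := fun a ha => (hTT a).2 (Or.inl ha)
    have hmem : ∀ m ∈ S, X l < X m → m ∈ T' := by
      intro m hm h
      rcases (hTT m).1 (hup m hm l hlT h) with k | k
      · exact k
      · rw [k] at h
        exact absurd h (lt_irrefl _)
    have hup' : ∀ m ∈ S, ∀ n ∈ T', X n < X m → m ∈ T' := fun m hm n hn h =>
      hmem m hm ((hl' n hn).trans h)
    have hnot : l ∉ T' := fun h => lt_irrefl _ (hl' l h)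
    have hcut : cut S (UR X X l) = T' := by
      ext m
      rw [mem_cut, mem_UR]
      exact ⟨fun h => hmem m h.1 h.2.1, fun h => ⟨hT (hT'T m h), hl' m h, hl' m h⟩⟩
    have eT : op X c T = lt l c * op X c T' :=
      op_min c X.injective.injOn (fun m => (hTT m).trans or_comm) hl'
    by_cases hlD : l ∈ D
    · have hsub : D.erase l ⊆ T' := by
        intro m hm
        rw [Finset.mem_erase] at hm
        exact ((hTT m).1 (hD hm.2)).resolve_right hm.1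
      have eD : op X c D = lt l c * op X c (D.erase l) := by
        refine op_min c X.injective.injOn (fun m => ?_) (fun a ha => hl' a (hsub ha))
        rw [Finset.mem_erase]
        constructor
        · intro h
          by_cases k : m = l
          · exact Or.inl k
          · exact Or.inr ⟨k, h⟩
        · rintro (k | k)
          · rw [k]; exact hlD
          · exact k.2
      have eS : T \ D = T' \ D.erase l := by
        ext m
        simp only [Finset.mem_sdiff, Finset.mem_erase, hTT]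
        constructor
        · rintro ⟨k | k, k'⟩
          · exact ⟨k, fun h => k' h.2⟩
          · rw [k] at k'
            exact absurd hlD k'
        · rintro ⟨k, k'⟩
          exact ⟨Or.inl k, fun h => k' ⟨fun e => hnot (e ▸ k), h⟩⟩
      rw [eD, map_mul, Kf_lt, hcut, ih hup' _ hsub, eT, eS, lt_inv]
      group
    · have hsub : D ⊆ T' := by
        intro m hm
        exact ((hTT m).1 (hD hm)).resolve_right (fun e => hlD (e ▸ hm))
      have eS : op X c (T \ D) = lt l c * op X c (T' \ D) := by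
        refine op_min c X.injective.injOn (fun m => ?_)
          (fun a ha => hl' a (Finset.mem_sdiff.1 ha).1)
        simp only [Finset.mem_sdiff, hTT]
        constructor
        · rintro ⟨k | k, k'⟩
          · exact Or.inr ⟨k, k'⟩
          · exact Or.inl k
        · rintro (k | k)
          · exact ⟨Or.inr k, k ▸ hlD⟩
          · exact ⟨Or.inl k.1, k.2⟩
      rw [ih hup' _ hsub, eT, eS]
      group

theorem Kh_self_J1 (c : C) (X : Od L) (D : Set L) :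
    Kh c X X (opH c X D) = (opH c X Set.univ)⁻¹ * opH c X Dᶜ :=
  WL_ext fun S => by
    have e1 : cut S (Set.univ : Set L) = S := by ext l; simp
    have e2 : S \ cut S D = cut S Dᶜ := by
      ext l
      simp only [Finset.mem_sdiff, mem_cut, Set.mem_compl_iff]
      tauto
    rw [pj_Kh, map_mul, map_inv, pj_opH, pj_opH, pj_opH,
      Kf_self_J1 c X S S (Finset.Subset.refl S) (fun m hm _ _ _ => hm) _ (cut_sub S D), e1, e2]

theorem opH_tri_J1 (c : C) (X : Od L) {A A1 A2 : Set L} {m : L}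
    (hA : ∀ n, n ∈ A ↔ n ∈ A1 ∨ n = m ∨ n ∈ A2) (h1 : ∀ a ∈ A1, X a < X m)
    (h2 : ∀ b ∈ A2, X m < X b) : opH c X A = opH c X A1 * emb (lt m c) * opH c X A2 := by
  have e : opH c X ({m} ∪ A2) = emb (lt m c) * opH c X A2 := by
    rw [opH_split c X (A1 := {m}) (A2 := A2) (fun l => Set.mem_union _ _ _)
      (fun a ha b hb => by rw [Set.mem_singleton_iff.1 ha]; exact h2 b hb), opH_singleton]
  rw [opH_split c X (A1 := A1) (A2 := {m} ∪ A2) (fun l => by rw [hA]; rfl) ?_, e, mul_assoc]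
  intro a ha b hb
  rcases hb with hb | hb
  · rw [Set.mem_singleton_iff.1 hb]; exact h1 a ha
  · exact (h1 a ha).trans (h2 b hb)

/-- Maps whose levels depend on finite levels. -/
def Loc_J1 (f : WL L C →* WL L C) : Prop :=
  ∀ S : Finset L, ∃ S' : Finset L, ∀ ω ω' : WL L C, pj S' ω = pj S' ω' →
    pj S (f ω) = pj S (f ω')

theorem loc_comp_J1 {f g : WL L C →* WL L C} (hf : Loc_J1 f) (hg : Loc_J1 g) :
    Loc_J1 (f.comp g) := fun S => by
  obtain ⟨S1, h1⟩ := hf S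
  obtain ⟨S2, h2⟩ := hg S1
  exact ⟨S2, fun ω ω' h => h1 _ _ (h2 _ _ h)⟩

theorem loc_Kh_J1 (c : C) (X Y : Od L) : Loc_J1 (Kh c X Y) := fun S =>
  ⟨S, fun ω ω' h => by rw [pj_Kh, pj_Kh, h]⟩

theorem loc_rlH_J1 (σ : Equiv.Perm L) : Loc_J1 (rlH σ : WL L C →* WL L C) := fun S =>
  ⟨S.map σ.symm.toEmbedding, fun ω ω' h => by rw [pj_rlH, pj_rlH, h]⟩

theorem loc_conj_J1 (k : WL L C) : Loc_J1 (MulAut.conj k).toMonoidHom := fun S =>
  ⟨S, fun ω ω' h => by
    simp only [MulEquiv.coe_toMonoidHom, MulAut.conj_apply, map_mul, map_inv, h]⟩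

theorem loc_ext_J1 {c : C} (hg : ∀ x : C, ∃ k : ℤ, x = c ^ k) {f f' : WL L C →* WL L C}
    (hf : Loc_J1 f) (hf' : Loc_J1 f') (h : ∀ l, f (emb (lt l c)) = f' (emb (lt l c)))
    (ω : WL L C) : f ω = f' ω := by
  have e : f.comp emb = f'.comp emb := W_ext_gen hg h
  refine WL_ext fun S => ?_
  obtain ⟨S1, h1⟩ := hf S
  obtain ⟨S2, h2⟩ := hf' S
  have e1 : pj S1 ω = pj S1 (emb (pj (S1 ∪ S2) ω)) := by
    rw [pj_emb, ret_pj Finset.subset_union_left]
  have e2 : pj S2 ω = pj S2 (emb (pj (S1 ∪ S2) ω)) := by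
    rw [pj_emb, ret_pj Finset.subset_union_right]
  rw [h1 _ _ e1, h2 _ _ e2]
  exact congrArg (pj S) (DFunLike.congr_fun e _)

end fin

section refl
variable {L : Type}

theorem c2_inv_J1 : c2⁻¹ = c2 := by decide

theorem c2_gen_J1 : ∀ x : C2, ∃ k : ℤ, x = c2 ^ k := by
  intro x
  rcases Wall.c2_cases x with h | h
  · exact ⟨0, by rw [h, zpow_zero]⟩
  · exact ⟨1, by rw [h, zpow_one]⟩

theorem rev_left_J1 {σ : Equiv.Perm L} {X : Od L} (h : Rev σ X) (a b : L) :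
    X a < X (σ b) ↔ X b < X (σ a) := by
  rw [h.rev a (σ b), h.inv]

theorem rlH_opH_J1 {σ : Equiv.Perm L} {X : Od L} (h : Rev σ X) {A A' : Set L}
    (hA : ∀ l, σ l ∈ A' ↔ l ∈ A) : rlH σ (opH c2 X A) = (opH c2 X A')⁻¹ :=
  WL_ext fun S => by
    rw [pj_rlH, map_inv, pj_opH, pj_opH, ← op_dual c2 X.injective.injOn, c2_inv_J1]
    refine rl_op σ c2 X.injective.injOn (fun a _ b _ k => (h.rev a b).1 k) (fun l' => ?_)
    simp only [mem_cut]
    constructor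
    · intro k
      refine ⟨σ.symm l', ⟨by simpa using k.1, (hA _).1 (by simpa using k.2)⟩, by simp⟩
    · rintro ⟨l, hl, rfl⟩
      exact ⟨by simpa using hl.1, (hA l).2 hl.2⟩

theorem loc_Jx_J1 (σ : Equiv.Perm L) (X : Od L) : Loc_J1 (Jx σ X) :=
  loc_comp_J1 (loc_rlH_J1 σ) (loc_Kh_J1 c2 X X)

/-- Labels to the left of a label. -/
def Lo_J1 (X : Od L) (m : L) : Set L := {n | X n < X m}

theorem tri_J1 (X : Od L) (n m : L) : X n < X m ∨ n = m ∨ X m < X n := by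
  rcases lt_trichotomy (X n) (X m) with k | k | k
  · exact Or.inl k
  · exact Or.inr (Or.inl (X.injective k))
  · exact Or.inr (Or.inr k)

theorem dl_eq_J1 (X : Od L) (m : L) :
    dl X = opH c2 X (Lo_J1 X m) * emb (lt m c2) * opH c2 X (Rl X m) :=
  opH_tri_J1 c2 X (fun n => iff_of_true (Set.mem_univ n) (tri_J1 X n m)) (fun _ h => h)
    (fun _ h => h)

theorem Jx_lt_J1 {σ : Equiv.Perm L} {X : Od L} (h : Rev σ X) (l : L) :
    Jx σ X (emb (lt l c2)) =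
      opH c2 X (Lo_J1 X (σ l)) * emb (lt (σ l) c2) * (opH c2 X (Lo_J1 X (σ l)))⁻¹ := by
  have e : rlH σ (opH c2 X (UR X X l)) = (opH c2 X (Lo_J1 X (σ l)))⁻¹ :=
    rlH_opH_J1 h (fun n => by
      rw [mem_UR, and_self]
      exact (h.rev l n).symm)
  have e' : rlH σ (emb (lt l c2)) = (emb (lt (σ l) c2) : WL L C2) := by
    rw [← rlA_apply, rlA_emb, rl_lt]
  unfold Jx
  rw [MonoidHom.comp_apply, Kh_emb_lt, c2_inv_J1, map_mul, map_mul, map_inv, e, e', inv_inv]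

end refl

theorem s_j1 : S_J1 := by
  intro L σ X h D
  have e1 : rlH σ (opH c2 X Set.univ) = (opH c2 X Set.univ)⁻¹ :=
    rlH_opH_J1 h (fun _ => Iff.rfl)
  have e2 : rlH σ (opH c2 X Dᶜ) = (opH c2 X (star σ D))⁻¹ :=
    rlH_opH_J1 h (fun l => by
      show σ (σ l) ∉ D ↔ l ∉ D
      rw [h.inv])
  unfold Jx dl
  rw [MonoidHom.comp_apply, Kh_self_J1, map_mul, map_inv, e1, e2, inv_inv]

theorem s_jj (h : S_J1) : S_JJ := by
  intro L σ X hX
  constructor
  · intro g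
    refine loc_ext_J1 c2_gen_J1 (f := (Jx σ X).comp (Jx σ X))
      (f' := (MulAut.conj (dl X)).toMonoidHom)
      (loc_comp_J1 (loc_Jx_J1 σ X) (loc_Jx_J1 σ X)) (loc_conj_J1 _) (fun l => ?_) g
    have e : opH c2 X (star σ (Lo_J1 X (σ l))) = opH c2 X (Lo_J1 X l) * emb (lt l c2) := by
      rw [opH_tri_J1 c2 X (A1 := Lo_J1 X l) (A2 := ∅) (m := l) (fun n => ?_) (fun _ k => k)
        (fun _ k => absurd k (Set.notMem_empty _)), opH_empty, mul_one]
      show ¬ X (σ n) < X (σ l) ↔ X n < X l ∨ n = l ∨ False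
      rw [← hX.rev l n, or_false]
      constructor
      · intro k
        rcases tri_J1 X n l with k' | k' | k'
        · exact Or.inl k'
        · exact Or.inr k'
        · exact absurd k' k
      · rintro (k | k)
        · exact not_lt.2 k.le
        · rw [k]; exact lt_irrefl _
    rw [MonoidHom.comp_apply, Jx_lt_J1 hX, map_mul, map_mul, map_inv, h L σ X hX, Jx_lt_J1 hX,
      hX.inv, e]
    simp only [MulEquiv.coe_toMonoidHom, MulAut.conj_apply]
    group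
  · intro Y hY g
    have key := loc_ext_J1 c2_gen_J1 (f := (Kh c2 X Y).comp (Jx σ X))
      (f' := (MulAut.conj (dl Y)⁻¹).toMonoidHom.comp ((Jx σ Y).comp (Kh c2 X Y)))
      (loc_comp_J1 (loc_Kh_J1 c2 X Y) (loc_Jx_J1 σ X))
      (loc_comp_J1 (loc_conj_J1 _) (loc_comp_J1 (loc_Jx_J1 σ Y) (loc_Kh_J1 c2 X Y)))
      (fun l => ?_) g
    · simpa only [MonoidHom.comp_apply, MulEquiv.coe_toMonoidHom, MulAut.conj_apply, inv_inv]
        using key
    have upu : ∀ Z : Od L, Up Z Set.univ := fun _ _ _ _ _ => Set.mem_univ _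
    have k1 : Kh c2 X Y (dl X) = (dl Y)⁻¹ := by
      have := Kh_opH c2 (upu X) (upu Y)
      rwa [Set.inter_self] at this
    have k2 : Kh c2 X Y (opH c2 X (Rl X (σ l))) = (opH c2 Y (Rl X (σ l)))⁻¹ := by
      have := Kh_opH c2 (up_Rl X (σ l)) (upu Y)
      rwa [Set.inter_univ] at this
    have k3 : opH c2 X (Lo_J1 X (σ l)) =
        dl X * (opH c2 X (Rl X (σ l)))⁻¹ * (emb (lt (σ l) c2))⁻¹ := by
      rw [dl_eq_J1 X (σ l)]
      group
    have k4 : opH c2 Y (Rl X (σ l)) =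
        opH c2 Y (Rl X (σ l) ∩ Lo_J1 Y (σ l)) * opH c2 Y (UR X Y (σ l)) := by
      refine opH_split c2 Y (fun n => ?_) (fun a ha b hb => lt_trans ha.2 hb.2)
      constructor
      · intro k
        rcases tri_J1 Y n (σ l) with k' | k' | k'
        · exact Or.inl ⟨k, k'⟩
        · rw [k'] at k
          exact absurd k (lt_irrefl (X (σ l)))
        · exact Or.inr ⟨k, k'⟩
      · rintro (k | k)
        · exact k.1
        · exact k.1
    have k5 : opH c2 Y (star σ (UR X Y l)) = opH c2 Y (Rl X (σ l) ∩ Lo_J1 Y (σ l)) *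
        emb (lt (σ l) c2) * opH c2 Y (Rl Y (σ l)) := by
      refine opH_tri_J1 c2 Y (fun n => ?_) (fun _ k => k.2) (fun _ k => k)
      show ¬ (X l < X (σ n) ∧ Y l < Y (σ n)) ↔
        (X (σ l) < X n ∧ Y n < Y (σ l)) ∨ n = σ l ∨ Y (σ l) < Y n
      rw [rev_left_J1 hX, rev_left_J1 hY]
      constructor
      · intro k
        rcases tri_J1 Y n (σ l) with k' | k' | k'
        · rcases tri_J1 X n (σ l) with j | j | j
          · exact absurd ⟨j, k'⟩ k
          · exact Or.inr (Or.inl j)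
          · exact Or.inl ⟨j, k'⟩
        · exact Or.inr (Or.inl k')
        · exact Or.inr (Or.inr k')
      · rintro (k | k | k) j
        · exact lt_asymm k.1 j.1
        · rw [k] at j
          exact lt_irrefl _ j.1
        · exact lt_asymm k j.2
    simp only [MonoidHom.comp_apply, MulEquiv.coe_toMonoidHom, MulAut.conj_apply, inv_inv]
    rw [Jx_lt_J1 hX, k3, Kh_emb_lt c2 X Y l, c2_inv_J1]
    simp only [map_mul, map_inv]
    rw [k1, k2, Kh_emb_lt c2 X Y (σ l), c2_inv_J1, h L σ Y hY, Jx_lt_J1 hY, k4, k5,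
      dl_eq_J1 Y (σ l)]
    group

end Pool.Agent.E5f.G2

end

section

set_option autoImplicit false

namespace Pool.Agent.E5f.G2

open Classical

section
variable {L : Type}

theorem star_up_J2 {σ : Equiv.Perm L} {X : Od L} (h : Rev σ X) {R : Set L} (hR : Up X R) :
    Up X (star σ R) := fun l m hl hlm hm => hl (hR _ _ hm ((h.rev l m).1 hlm))

theorem star_inB_J2 {σ : Equiv.Perm L} {ρ : L → ℝ} {t lo hi : ℝ} (h : ∀ l, ρ (σ l) = t - ρ l)
    {R : Set L} (hR : InB ρ lo hi R) : InB ρ (t - hi) (t - lo) (star σ R) := fun l =>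
  ⟨fun k => (hR (σ l)).2 (by rw [h]; linarith),
    fun k k' => k' ((hR (σ l)).1 (by rw [h]; linarith))⟩

theorem lt_up_J2 {X : Od L} {R : Set L} (hR : Up X R) {a b : L} (ha : a ∉ R) (hb : b ∈ R) :
    X a < X b := by
  rcases lt_trichotomy (X a) (X b) with h | h | h
  · exact h
  · exact absurd (X.injective h ▸ hb) ha
  · exact absurd (hR b a hb h) ha

theorem J_inter_J2 (h : S_J1) {σ : Equiv.Perm L} {X : Od L} (hσ : Rev σ X) {R : Set L}
    (hR : Up X R) (D : Set L) : Jx σ X (opH c2 X (R ∩ D)) =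
      dl X * (opH c2 X (star σ R))⁻¹ * opH c2 X (star σ R ∩ star σ D) *
        (opH c2 X (star σ D))⁻¹ := by
  have u := star_up_J2 hσ hR
  have e1 : opH c2 X (star σ (R ∩ D)) =
      opH c2 X (star σ D \ star σ R) * opH c2 X (star σ R) := by
    refine opH_split c2 X (fun l => ?_) (fun a ha b hb => lt_up_J2 u ha.2 hb)
    simp only [star, Set.mem_ofPred_eq, Set.mem_inter_iff, Set.mem_sdiff]
    tauto
  have e2 : opH c2 X (star σ D) =
      opH c2 X (star σ D \ star σ R) * opH c2 X (star σ R ∩ star σ D) := by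
    refine opH_split c2 X (fun l => ?_) (fun a ha b hb => lt_up_J2 u ha.2 hb.1)
    simp only [Set.mem_inter_iff, Set.mem_sdiff]
    tauto
  rw [h L σ X hσ, e1, e2]
  group

theorem J_stp_J2 (h : S_J1) {σ : Equiv.Perm L} {X : Od L} (hσ : Rev σ X) {R R' : Set L}
    (hR : Up X R) (hR' : Up X R') (D : Set L) :
    Jx σ X ((opH c2 X R)⁻¹ * stp c2 X R R' D * opH c2 X R') =
      stp c2 X (star σ R) (star σ R') (star σ D) := by
  unfold stp
  simp only [map_mul, map_inv]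
  rw [J_inter_J2 h hσ hR, J_inter_J2 h hσ hR', h L σ X hσ, h L σ X hσ]
  group

/-- The conjugated change of generators at a finite level. -/
noncomputable def T_J2 (X : Od L) (S : Finset L) (R R' : Set L) (g : W L C2) : W L C2 :=
  op X c2 (cut S R) * Kf c2 X X S g * (op X c2 (cut S R'))⁻¹

theorem Kf_up_J2 {X : Od L} (S : Finset L) {R : Set L} (hR : Up X R) :
    Kf c2 X X S (op X c2 (cut S R)) = (op X c2 (cut S R))⁻¹ := by
  have := Kf_op c2 (X := X) (Y := X) S hR hR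
  rwa [Set.inter_self] at this

theorem T_T_J2 {X : Od L} (S : Finset L) {R R' : Set L} (hR : Up X R) (hR' : Up X R')
    (g : W L C2) : T_J2 X S R R' (T_J2 X S R R' g) = g := by
  unfold T_J2
  rw [map_mul, map_mul, map_inv, Kf_up_J2 S hR, Kf_up_J2 S hR', Kf_Kf]
  group

theorem dT_cut_J2 (Z : Cfg L) (S : Finset L) {R R' : Set L} {a a' : ℝ} (hR : Up Z.X R)
    (hR' : Up Z.X R') (ha : At Z.x R a) (ha' : At Z.x R' a') :
    dT Z.x a (op Z.X c2 (cut S R) * (op Z.X c2 (cut S R'))⁻¹) a' = |a' - a| := by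
  have := dT_stp Z c2 S Set.univ hR hR' ha ha'
  rwa [pj_stp, Set.inter_univ, Set.inter_univ] at this

theorem T_le_J2 (Z : Cfg L) (S : Finset L) {R R' : Set L} {a a' : ℝ} (hR : Up Z.X R)
    (hR' : Up Z.X R') (ha : At Z.x R a) (ha' : At Z.x R' a') (g : W L C2) :
    dT Z.x a (T_J2 Z.X S R R' g) a' ≤ dT Z.x a g a' := by
  have key : ∀ (w : List (L × C2)) (R : Set L) (a : ℝ), Up Z.X R → At Z.x R a →
      dT Z.x a (T_J2 Z.X S R R' (ev w)) a' ≤ Var (a :: w.map (fun e => Z.x e.1) ++ [a']) := by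
    intro w
    induction w with
    | nil =>
      intro R a hR ha
      unfold T_J2
      rw [ev_nil, map_one, mul_one, dT_cut_J2 Z S hR hR' ha ha']
      simp [Var_cons2]
    | cons e w ih =>
      intro R a hR ha
      have i := ih (Rl Z.X e.1) (Z.x e.1) (up_Rl _ _) (Z.at_Rl e.1)
      have q : T_J2 Z.X S R R' (ev (e :: w)) =
          (op Z.X c2 (cut S R) * (op Z.X c2 (cut S (Rl Z.X e.1)))⁻¹) *
            (lt e.1 e.2⁻¹ * T_J2 Z.X S (Rl Z.X e.1) R' (ev w)) := by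
        unfold T_J2
        rw [ev_cons, map_mul, Kf_lt, UR, Set.inter_self]
        group
      have k1 := dT_mul_le Z.x a (Z.x e.1) a'
        (op Z.X c2 (cut S R) * (op Z.X c2 (cut S (Rl Z.X e.1)))⁻¹)
        (lt e.1 e.2⁻¹ * T_J2 Z.X S (Rl Z.X e.1) R' (ev w))
      have k2 := dT_lt_mul_le Z.x (Z.x e.1) a' e.1 e.2⁻¹ (T_J2 Z.X S (Rl Z.X e.1) R' (ev w))
      rw [dT_cut_J2 Z S hR (up_Rl _ _) ha (Z.at_Rl e.1)] at k1
      rw [sub_self, abs_zero, zero_add] at k2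
      rw [q]
      simp only [List.map_cons, List.cons_append, Var_cons2] at i ⊢
      linarith
  have := key (wd g) R a hR ha
  rwa [ev_wd, ← dT_wd] at this

theorem T_eq_J2 (Z : Cfg L) (S : Finset L) {R R' : Set L} {a a' : ℝ} (hR : Up Z.X R)
    (hR' : Up Z.X R') (ha : At Z.x R a) (ha' : At Z.x R' a') (g : W L C2) :
    dT Z.x a (T_J2 Z.X S R R' g) a' = dT Z.x a g a' := by
  refine le_antisymm (T_le_J2 Z S hR hR' ha ha' g) ?_
  have := T_le_J2 Z S hR hR' ha ha' (T_J2 Z.X S R R' g)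
  rwa [T_T_J2 S hR hR'] at this

theorem Var_neg_J2 (t : ℝ) : ∀ l : List ℝ, Var (l.map (fun x => t - x)) = Var l
  | [] => by simp
  | [_] => by simp
  | x :: y :: l => by
    have := Var_neg_J2 t (y :: l)
    simp only [List.map_cons] at this ⊢
    rw [Var_cons2, Var_cons2, this, show t - y - (t - x) = -(y - x) by ring, abs_neg]

theorem dT_neg_J2 {σ : L → L} (hσ : Function.Injective σ) {ρ : L → ℝ} {t : ℝ}
    (hρ : ∀ l, ρ (σ l) = t - ρ l) (a a' : ℝ) (g : W L C2) :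
    dT ρ (t - a) (rl σ g) (t - a') = dT ρ a g a' := by
  unfold dT
  rw [← Var_neg_J2 t (a :: (lab g).map ρ ++ [a']), lab_rl hσ]
  simp [List.map_map, Function.comp_def, hρ]

end

theorem s_j2 (h : S_J1) : S_J2 := by
  intro L σ Z t t' hσ hx hy b R R' ω hb
  refine ⟨⟨t - b.x1, t - b.x0, t' - b.y1, t' - b.y0⟩, ?_⟩
  induction hb with
  | refl h1 h2 =>
    rw [mul_one, inv_mul_cancel, map_one]
    exact BoxW.refl (star_up_J2 hσ h1) (star_inB_J2 hx h2)
  | @step R1 R2 D ω h0 h1 h2 h3 ih =>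
    have e : (opH c2 Z.X R)⁻¹ * (ω * stp c2 Z.X R1 R2 D) * opH c2 Z.X R2 =
        ((opH c2 Z.X R)⁻¹ * ω * opH c2 Z.X R1) *
          ((opH c2 Z.X R1)⁻¹ * stp c2 Z.X R1 R2 D * opH c2 Z.X R2) := by group
    rw [e, map_mul, J_stp_J2 h hσ h0.right.1 h1]
    exact BoxW.step ih (star_up_J2 hσ h1) (star_inB_J2 hx h2) (star_inB_J2 hy h3)

theorem s_j3 : S_J3 := by
  intro L σ Z t _ hx b R R' ω a a' hb ha ha'
  refine dW_eq ((Z.bl_fin b).toFinset.map σ.toEmbedding) fun S hS => ?_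
  have e : pj S (Jx σ Z.X ((opH c2 Z.X R)⁻¹ * ω * opH c2 Z.X R')) =
      rl σ (T_J2 Z.X (S.map σ.symm.toEmbedding) R R' (pj (S.map σ.symm.toEmbedding) ω)) := by
    unfold Jx T_J2
    rw [MonoidHom.comp_apply, pj_rlH, pj_Kh]
    simp only [map_mul, map_inv, pj_opH, Kf_up_J2 _ hb.left.1, Kf_up_J2 _ hb.right.1, inv_inv]
  rw [e, dT_neg_J2 σ.injective hx, T_eq_J2 Z _ hb.left.1 hb.right.1 ha ha', hb.att ha ha']
  intro l hl
  have : σ l ∈ S := hS (Finset.mem_map_of_mem _ ((Z.bl_fin b).mem_toFinset.2 hl))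
  simpa using this

end Pool.Agent.E5f.G2

end

section

set_option autoImplicit false

namespace Pool.Agent.E5f.G2

open Classical

section
variable {L : Type} {Z : Cfg L} (G : Grid Z 4) (σ : Equiv.Perm L)

/-- The rows up to `r`. -/
noncomputable def Nn_R3 (r : ℤ) : WL L C2 := opH c2 G.Yp {l | G.p1 l ≤ r}

/-- The labels before the base label of type `j`. -/
noncomputable def Lw_R3 (j : Fin 4) : WL L C2 := opH c2 G.Yp {l | G.Yp l < G.Yp (G.lb j 0 0)}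

/-- The letter at the base label of type `j`. -/
noncomputable def cc_R3 (j : Fin 4) : WL L C2 := emb (lt (G.lb j 0 0) c2)

/-- The multiplier in the lexicographic coordinates. -/
noncomputable def k0_R3 : WL L C2 := G.Oq c2 0 0 * (Nn_R3 G 0)⁻¹

theorem dl_R3 : dl G.Yp = Nn_R3 G 0 * opH c2 G.Yp (G.Ar 1) :=
  opH_split c2 _ (fun l => by
      simp only [Set.mem_univ, Grid.Ar, Set.mem_ofPred_eq, true_iff]; omega)
    (fun a ha b hb => by
      simp only [Grid.Ar, Set.mem_ofPred_eq] at ha hb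
      rw [G.Yp_lt]; omega)

theorem rl_Nn_R3 (v : ℤ × ℤ) (r : ℤ) : rlA (G.tv v) (Nn_R3 G r) = Nn_R3 G (r + v.1) :=
  rlA_opH _ c2 (fun a _ b _ h => (G.Yp_tv v a b).1 h) (fun l => by simp)

theorem rl_Oq_R3 (v : ℤ × ℤ) (r s : ℤ) :
    rlA (G.tv v) (G.Oq c2 r s) = G.Oq c2 (r + v.1) (s + v.2) :=
  rlA_opH _ c2 (fun a _ b _ h => (G.Yp_tv v a b).1 h) (fun l => by simp)

theorem rl_dl_R3 (v : ℤ × ℤ) : rlA (G.tv v) (dl G.Yp) = dl G.Yp :=
  rlA_opH _ c2 (fun a _ b _ h => (G.Yp_tv v a b).1 h) (fun l => by simp)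

theorem Lw_succ_R3 (i j : Fin 4) (h : (j : ℕ) = i + 1) : Lw_R3 G j = Lw_R3 G i * cc_R3 G i := by
  unfold Lw_R3 cc_R3
  rw [← opH_singleton c2 G.Yp]
  refine opH_split c2 _ (fun l => ?_) (fun a ha b hb => ?_)
  · simp only [Set.mem_ofPred_eq, Set.mem_singleton_iff, G.Yp_lt, G.p1_lb, G.p2_lb, G.ty_lb]
    constructor
    · intro h1
      by_cases h2 : G.p1 l = 0 ∧ G.p2 l = 0 ∧ G.ty l = i
      · exact Or.inr (G.lab_ext (by simp [h2.2.2]) (by simp [h2.1]) (by simp [h2.2.1]))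
      · left; omega
    · rintro (h1 | rfl)
      · omega
      · rw [G.p1_lb, G.p2_lb, G.ty_lb]; omega
  · rw [Set.mem_singleton_iff.mp hb]; exact ha

theorem Nn_eq_R3 : Nn_R3 G 0 = Lw_R3 G 0 * G.Oq c2 0 0 :=
  opH_split c2 _ (fun l => by
      simp only [Set.mem_ofPred_eq, G.Yp_lt, G.p1_lb, G.p2_lb, G.ty_lb]; omega)
    (fun a ha b hb => by
      simp only [Set.mem_ofPred_eq, G.Yp_lt, G.p1_lb, G.p2_lb, G.ty_lb] at ha hb
      rw [G.Yp_lt]; omega)

theorem Oq_eq_R3 :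
    cc_R3 G 0 * cc_R3 G 1 * cc_R3 G 2 * cc_R3 G 3 = G.Oq c2 0 0 * (G.Oq c2 0 1)⁻¹ := by
  rw [G.Oq_eq]
  simp [cc_R3, List.ofFn_succ, mul_assoc]

variable {G σ}

theorem revY_R3 (hX : Rev σ Z.X)
    (hσ : ∀ l, G.ty (σ l) = Fin.rev (G.ty l) ∧ G.p1 (σ l) = -G.p1 l ∧ G.p2 (σ l) = -G.p2 l) :
    Rev σ G.Yp :=
  ⟨hX.inv, fun a b => by
    rw [G.Yp_lt, G.Yp_lt, (hσ a).1, (hσ a).2.1, (hσ a).2.2, (hσ b).1, (hσ b).2.1, (hσ b).2.2,
      Fin.rev_lt_rev]
    omega⟩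

theorem J_tv_R3
    (hσ : ∀ l, G.ty (σ l) = Fin.rev (G.ty l) ∧ G.p1 (σ l) = -G.p1 l ∧ G.p2 (σ l) = -G.p2 l)
    (v : ℤ × ℤ) (g : WL L C2) : Jx σ G.Yp (rlA (G.tv v) g) = rlA (G.tv (-v)) (Jx σ G.Yp g) := by
  have e : σ * G.tv v = G.tv (-v) * σ := Equiv.ext fun l => G.lab_ext
    (by simp [(hσ _).1]) (by simp [(hσ _).2.1]; ring) (by simp [(hσ _).2.2]; ring)
  show rlH σ (Kh c2 G.Yp G.Yp (rlA (G.tv v) g)) = rlH (G.tv (-v)) (rlH σ (Kh c2 G.Yp G.Yp g))
  rw [← rlA_Kh (G.tv v) c2 (G.Yp_tv v) (G.Yp_tv v), rlA_apply, ← rlH_mul, ← rlH_mul, e]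

theorem kap_R3 (h1 : S_J1) (hX : Rev σ Z.X)
    (hσ : ∀ l, G.ty (σ l) = Fin.rev (G.ty l) ∧ G.p1 (σ l) = -G.p1 l ∧ G.p2 (σ l) = -G.p2 l) :
    Kh c2 Z.X G.Yp (kR G σ) = (G.Bw c2)⁻¹ * k0_R3 G * Jx σ G.Yp (G.Bw c2) * dl G.Yp := by
  have hY := revY_R3 hX hσ
  have u0 : Up Z.X (Rs Z.x (0, false)) := Z.up_Rs _
  have u1 : Up Z.X (star σ (Rs Z.x (0, false))) := fun l m hl hlm hm =>
    hl (u0 _ _ hm ((hX.rev l m).1 hlm))
  have uu : ∀ X : Od L, Up X Set.univ := fun _ _ _ _ _ => trivial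
  have a1 := Kh_opH c2 u1 (uu G.Yp)
  have a2 := Kh_opH c2 (uu Z.X) (uu G.Yp)
  rw [Set.inter_univ] at a1 a2
  generalize hR : star σ (Rs Z.x (0, false)) = R at u1 a1
  have lt1 : ∀ a ∈ R \ G.Ar 1, ∀ b ∈ G.Ar 1, G.Yp a < G.Yp b := fun a ha b hb => by
    have k1 : ¬ 1 ≤ G.p1 a := ha.2
    have k2 : 1 ≤ G.p1 b := hb
    rw [G.Yp_lt]; omega
  have b1 : opH c2 G.Yp R = opH c2 G.Yp (R \ G.Ar 1) * opH c2 G.Yp (R ∩ G.Ar 1) :=
    opH_split c2 _ (fun l => by simp only [Set.mem_sdiff, Set.mem_inter_iff]; tauto)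
      (fun a ha b hb => lt1 a ha b hb.2)
  have b2 : opH c2 G.Yp (star σ (Rs Z.x (0, false) ∩ G.Ar 0)) =
      opH c2 G.Yp (R \ G.Ar 1) * opH c2 G.Yp (G.Ar 1) :=
    opH_split c2 _ (fun l => by
      rw [← hR]
      simp only [star, Set.mem_sdiff, Set.mem_inter_iff, Grid.Ar, Set.mem_ofPred_eq, (hσ l).2.1]
      by_cases k : 1 ≤ G.p1 l
      · simp only [k, not_true, and_false, or_true, iff_true]
        exact fun k' => by omega
      · simp only [k, not_false_iff, and_true, or_false]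
        exact not_congr (and_iff_left (by omega))) lt1
  have b3 : Jx σ G.Yp (G.Bw c2) = dl G.Yp * (opH c2 G.Yp (R \ G.Ar 1) * opH c2 G.Yp (G.Ar 1))⁻¹ := by
    rw [← b2]; exact h1 L σ G.Yp hY _
  unfold kR stp
  rw [h1 L σ Z.X hX, hR, b3]
  simp only [map_mul, map_inv, Kh_opH c2 u0 (G.up_Ar 1), Kh_opH c2 u1 (G.up_Ar 1), a1]
  have a3 : Kh c2 Z.X G.Yp (dl Z.X) = (dl G.Yp)⁻¹ := a2
  rw [a3, G.Bw_eq, b1, k0_R3]
  conv_rhs => rw [dl_R3 G]
  conv_lhs => rw [dl_R3 G]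
  group

theorem gen_R3 (h1 : S_J1) (hj : S_JJ) (hX : Rev σ Z.X)
    (hσ : ∀ l, G.ty (σ l) = Fin.rev (G.ty l) ∧ G.p1 (σ l) = -G.p1 l ∧ G.p2 (σ l) = -G.p2 l)
    (o o' : OG 4 2) (k k' : WL L C2) (v : ℤ × ℤ)
    (ho : G.th c2 c2_sq o = ⟨k, Multiplicative.ofAdd v⟩)
    (ho' : G.th c2 c2_sq o' = ⟨k', Multiplicative.ofAdd (-v)⟩)
    (hk : k' = k0_R3 G * Jx σ G.Yp k * (rlA (G.tv (-v)) (k0_R3 G))⁻¹) :
    G.ps c2 c2_sq o' = alB G σ (G.ps c2 c2_sq o).left v := by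
  rw [G.ps_eq c2_sq o k v ho, G.ps_eq c2_sq o' k' (-v) ho']
  unfold alB
  refine SemidirectProduct.ext ?_ rfl
  apply Kh_injective c2 Z.X G.Yp
  show Kh c2 Z.X G.Yp (Kh c2 G.Yp Z.X _) = Kh c2 Z.X G.Yp (_ * Jx σ Z.X (Kh c2 G.Yp Z.X _) * _)
  rw [Kh_Kh, map_mul (Kh c2 Z.X G.Yp), map_mul (Kh c2 Z.X G.Yp), map_inv (Kh c2 Z.X G.Yp),
    (hj L σ Z.X hX).2 G.Yp (revY_R3 hX hσ), Kh_Kh,
    ← rlA_Kh (G.tv (-v)) c2 (G.X_tv _) (G.Yp_tv _), kap_R3 h1 hX hσ, hk]
  simp only [map_mul, map_inv, J_tv_R3 hσ, rl_dl_R3]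
  group

theorem J_Oq_R3 (h1 : S_J1) (hX : Rev σ Z.X)
    (hσ : ∀ l, G.ty (σ l) = Fin.rev (G.ty l) ∧ G.p1 (σ l) = -G.p1 l ∧ G.p2 (σ l) = -G.p2 l) :
    Jx σ G.Yp (G.Oq c2 0 0) = Nn_R3 G 0 * (G.Oq c2 0 1)⁻¹ * (Nn_R3 G (-1))⁻¹ := by
  have b1 : opH c2 G.Yp {l | (G.p1 l = 0 ∧ 1 ≤ G.p2 l) ∨ 1 ≤ G.p1 l} =
      G.Oq c2 0 1 * opH c2 G.Yp (G.Ar 1) :=
    opH_split c2 _ (fun l => Iff.rfl) (fun a ha b hb => by
      simp only [Grid.Ar, Set.mem_ofPred_eq] at ha hb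
      rw [G.Yp_lt]; omega)
  have b2 : opH c2 G.Yp (star σ {l | G.p1 l = 0 ∧ 0 ≤ G.p2 l}) =
      Nn_R3 G (-1) * opH c2 G.Yp {l | (G.p1 l = 0 ∧ 1 ≤ G.p2 l) ∨ 1 ≤ G.p1 l} :=
    opH_split c2 _ (fun l => by
      simp only [star, Set.mem_ofPred_eq, (hσ l).2.1, (hσ l).2.2]; omega) (fun a ha b hb => by
      simp only [Set.mem_ofPred_eq] at ha hb
      rw [G.Yp_lt]; omega)
  have := h1 L σ G.Yp (revY_R3 hX hσ) {l | G.p1 l = 0 ∧ 0 ≤ G.p2 l}
  rw [b2, b1, dl_R3] at this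
  refine Eq.trans this ?_
  group

theorem J_cc_R3 (h1 : S_J1) (hX : Rev σ Z.X)
    (hσ : ∀ l, G.ty (σ l) = Fin.rev (G.ty l) ∧ G.p1 (σ l) = -G.p1 l ∧ G.p2 (σ l) = -G.p2 l)
    (i : Fin 4) :
    Jx σ G.Yp (cc_R3 G i) = Lw_R3 G i.rev * cc_R3 G i.rev * (Lw_R3 G i.rev)⁻¹ := by
  have e : σ (G.lb i.rev 0 0) = G.lb i 0 0 :=
    G.lab_ext (by simp [(hσ _).1]) (by simp [(hσ _).2.1]) (by simp [(hσ _).2.2])
  unfold cc_R3 Lw_R3
  generalize G.lb i.rev 0 0 = m at e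
  have b1 : opH c2 G.Yp (star σ {G.lb i 0 0}) =
      opH c2 G.Yp {l | G.Yp l < G.Yp m} * opH c2 G.Yp {l | G.Yp m < G.Yp l} :=
    opH_split c2 _ (fun l => by
      simp only [star, Set.mem_ofPred_eq, Set.mem_singleton_iff, ← e, σ.injective.eq_iff]
      rw [← G.Yp.injective.eq_iff]
      exact ne_iff_lt_or_gt) (fun a ha b hb => lt_trans ha hb)
  have b2 : opH c2 G.Yp {l | G.Yp m ≤ G.Yp l} =
      opH c2 G.Yp {m} * opH c2 G.Yp {l | G.Yp m < G.Yp l} :=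
    opH_split c2 _ (fun l => by
      simp only [Set.mem_ofPred_eq, Set.mem_singleton_iff]
      rw [← G.Yp.injective.eq_iff, le_iff_eq_or_lt, eq_comm]) (fun a ha b hb => by
      rw [Set.mem_singleton_iff.mp ha]; exact hb)
  have b3 : dl G.Yp = opH c2 G.Yp {l | G.Yp l < G.Yp m} * opH c2 G.Yp {l | G.Yp m ≤ G.Yp l} :=
    opH_split c2 _ (fun l => by
      simp only [Set.mem_univ, Set.mem_ofPred_eq, true_iff]
      exact lt_or_ge _ _) (fun a ha b hb => lt_of_lt_of_le ha hb)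
  rw [← opH_singleton c2 G.Yp, ← opH_singleton c2 G.Yp, h1 L σ G.Yp (revY_R3 hX hσ), b1, b3, b2]
  group

end

theorem s_r3 (h1 : S_J1) (hj : S_JJ) : S_R3 := by
  intro L Z G σ hX hσ
  have hY := revY_R3 hX hσ
  have tc : ∀ i, G.th c2 c2_sq (oc 2 i) = SemidirectProduct.inl (cc_R3 G i) := G.th_c c2_sq
  have tC : G.th c2 c2_sq oC = SemidirectProduct.inl (G.Oq c2 0 0 * (G.Oq c2 0 1)⁻¹) := by
    rw [← Oq_eq_R3]
    simp only [oC, map_mul, tc]
  have ta : G.th c2 c2_sq (oa 4 2) = ⟨G.Oq c2 0 0, Multiplicative.ofAdd (1, 0)⟩ := by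
    have m1 := G.inr_conj (1, 0) (G.Mq c2 0 0)
    rw [G.rl_Mq] at m1
    simp only [zero_add, add_zero] at m1
    have m2 : G.Oq c2 0 0 = G.Mq c2 0 0 * (G.Mq c2 1 0)⁻¹ := by rw [G.Mq_eq c2 0 0]; simp
    rw [G.th_a, SemidirectProduct.mk_eq_inl_mul_inr, m2, map_mul, map_inv, ← m1]
    group
  have tb : G.th c2 c2_sq (ob 4 2) = ⟨1, Multiplicative.ofAdd (0, 1)⟩ := G.th_b c2_sq
  refine ⟨?_, ?_, fun i => ?_, ?_⟩
  · refine gen_R3 h1 hj hX hσ _ _ _ (G.Oq c2 0 0 * (G.Oq c2 0 1)⁻¹ * (G.Oq c2 (-1) 0)⁻¹) (1, 0)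
      ta ?_ ?_
    · have m1 := G.inr_conj (-(1, 0)) (G.Oq c2 0 0)
      rw [rl_Oq_R3] at m1
      simp only [Prod.fst_neg, Prod.snd_neg, neg_zero, zero_add, add_zero] at m1
      rw [map_mul, map_inv, tC, ta, SemidirectProduct.mk_eq_inl_mul_inr,
        SemidirectProduct.mk_eq_inl_mul_inr, map_mul _ _ (G.Oq c2 (-1) 0)⁻¹,
        map_inv _ (G.Oq c2 (-1) 0), ← m1, ofAdd_neg, map_inv SemidirectProduct.inr]
      group
    · rw [J_Oq_R3 h1 hX hσ, k0_R3]
      simp only [map_mul, map_inv, rl_Oq_R3, rl_Nn_R3, Prod.fst_neg, Prod.snd_neg, neg_zero,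
        zero_add, add_zero]
      group
  · refine gen_R3 h1 hj hX hσ _ _ _ (G.Oq c2 0 0 * (G.Oq c2 0 (-1))⁻¹) (0, 1) tb ?_ ?_
    · have m1 := G.inr_conj (-(0, 1)) (G.Oq c2 0 0)
      rw [rl_Oq_R3] at m1
      simp only [Prod.fst_neg, Prod.snd_neg, neg_zero, zero_add, add_zero] at m1
      have hc : (SemidirectProduct.inr (Multiplicative.ofAdd (1, 0)) *
          (SemidirectProduct.inr (Multiplicative.ofAdd (0, 1)))⁻¹ *
          (SemidirectProduct.inr (Multiplicative.ofAdd (1, 0)))⁻¹ : G.BT C2) =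
          (SemidirectProduct.inr (Multiplicative.ofAdd (0, 1)))⁻¹ := by
        rw [← map_inv SemidirectProduct.inr, ← map_inv SemidirectProduct.inr,
          ← map_mul SemidirectProduct.inr, ← map_mul SemidirectProduct.inr]
        rfl
      rw [map_mul, map_mul, map_inv, map_inv, ta, G.th_b, SemidirectProduct.mk_eq_inl_mul_inr,
        SemidirectProduct.mk_eq_inl_mul_inr, map_mul _ _ (G.Oq c2 0 (-1))⁻¹,
        map_inv _ (G.Oq c2 0 (-1)), ← m1, ofAdd_neg, map_inv SemidirectProduct.inr]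
      generalize (SemidirectProduct.inr (Multiplicative.ofAdd (0, 1)) : G.BT C2) = B at hc ⊢
      generalize (SemidirectProduct.inr (Multiplicative.ofAdd (1, 0)) : G.BT C2) = A at hc ⊢
      generalize (SemidirectProduct.inl (G.Oq c2 0 0) : G.BT C2) = M
      calc _ = M * (A * B⁻¹ * A⁻¹) * M⁻¹ := by group
        _ = _ := by rw [hc]; group
    · rw [k0_R3]
      simp only [map_mul, map_inv, map_one, rl_Oq_R3, rl_Nn_R3, Prod.fst_neg, Prod.snd_neg,
        neg_zero, zero_add, add_zero]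
      group
  · have l1 := Lw_succ_R3 G 0 1 rfl
    have l2 := Lw_succ_R3 G 1 2 rfl
    have l3 := Lw_succ_R3 G 2 3 rfl
    refine gen_R3 h1 hj hX hσ _ _ (cc_R3 G i)
      (k0_R3 G * Jx σ G.Yp (cc_R3 G i) * (k0_R3 G)⁻¹) 0 (tc i) ?_ ?_
    · rw [neg_zero, J_cc_R3 h1 hX hσ, k0_R3, Nn_eq_R3]
      show _ = SemidirectProduct.inl _
      fin_cases i
      · show G.th c2 c2_sq (oc 2 0 * oc 2 1 * oc 2 2 * oc 2 3 * (oc 2 0 * oc 2 1 * oc 2 2)⁻¹) =
          SemidirectProduct.inl (_ * (Lw_R3 G 3 * cc_R3 G 3 * (Lw_R3 G 3)⁻¹) * _)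
        simp only [l3, l2, l1, map_mul, map_inv, tc]
        group
      · show G.th c2 c2_sq (oc 2 0 * oc 2 1 * oc 2 2 * (oc 2 0 * oc 2 1)⁻¹) =
          SemidirectProduct.inl (_ * (Lw_R3 G 2 * cc_R3 G 2 * (Lw_R3 G 2)⁻¹) * _)
        simp only [l2, l1, map_mul, map_inv, tc]
        group
      · show G.th c2 c2_sq (oc 2 0 * oc 2 1 * (oc 2 0)⁻¹) =
          SemidirectProduct.inl (_ * (Lw_R3 G 1 * cc_R3 G 1 * (Lw_R3 G 1)⁻¹) * _)
        simp only [l1, map_mul, map_inv, tc]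
        group
      · show G.th c2 c2_sq (oc 2 0) =
          SemidirectProduct.inl (_ * (Lw_R3 G 0 * cc_R3 G 0 * (Lw_R3 G 0)⁻¹) * _)
        simp only [map_mul, map_inv, tc]
        group
    · rw [neg_zero, G.tv_zero, map_one, MulAut.one_apply]
  · rw [G.ps_inl c2_sq _ _ tC]
    congr 1
    apply Kh_injective c2 Z.X G.Yp
    have a2 := Kh_opH c2 (X := Z.X) (Y := G.Yp) (R := Set.univ) (A := Set.univ)
      (fun _ _ _ _ => trivial) (fun _ _ _ _ => trivial)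
    rw [Set.inter_univ] at a2
    have a3 : Kh c2 Z.X G.Yp (dl Z.X) = (dl G.Yp)⁻¹ := a2
    have j1 : Jx σ G.Yp (dl G.Yp) = dl G.Yp := by
      have := h1 L σ G.Yp hY Set.univ
      rw [opH_congr c2 G.Yp (A := star σ Set.univ) (A' := ∅) (fun l => by simp [star]), opH_empty,
        inv_one, mul_one] at this
      exact this
    have j2 : Jx σ G.Yp (Nn_R3 G 0) = dl G.Yp * (Nn_R3 G (-1))⁻¹ := by
      have := h1 L σ G.Yp hY {l | G.p1 l ≤ 0}
      rw [opH_congr c2 G.Yp (A := star σ {l | G.p1 l ≤ 0}) (A' := {l | G.p1 l ≤ -1}) (fun l => by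
        simp only [star, Set.mem_ofPred_eq, (hσ l).2.1]; omega)] at this
      exact this
    rw [Kh_Kh, map_mul (Kh c2 Z.X G.Yp), map_mul (Kh c2 Z.X G.Yp), (hj L σ Z.X hX).2 G.Yp hY, a3,
      kap_R3 h1 hX hσ, k0_R3]
    simp only [map_mul, map_inv, (hj L σ G.Yp hY).1, j1, j2, J_Oq_R3 h1 hX hσ]
    group

end Pool.Agent.E5f.G2

end

section

set_option autoImplicit false

namespace Pool.Agent.E5f.G2

open Classical

/-- Six involutions with product one. -/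
structure Six_K {P : Type} [Group P] (E : Fin 6 → P) : Prop where
  sq : ∀ i, E i * E i = 1
  pr : E 0 * E 1 * E 2 * E 3 * E 4 * E 5 = 1

section gen
variable {P : Type} [Group P] {E : Fin 6 → P}

theorem Six_K.inv (h : Six_K E) (i : Fin 6) : (E i)⁻¹ = E i := inv_eq_of_mul_eq_one_right (h.sq i)

theorem Six_K.can (h : Six_K E) (i : Fin 6) (x : P) : E i * (E i * x) = x := by
  rw [← mul_assoc, h.sq, one_mul]

theorem Six_K.five (h : Six_K E) : E 5 = (E 0 * E 1 * E 2 * E 3 * E 4)⁻¹ :=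
  eq_inv_of_mul_eq_one_right h.pr

theorem Six_K.rel (h : Six_K E) (x : P) : E 0 * (E 1 * (E 2 * (E 3 * (E 4 * (E 5 * x))))) = x := by
  simpa only [mul_assoc, one_mul] using congrArg (· * x) h.pr

theorem Six_K.rot (h : Six_K E) (x : P) : E 4 * (E 5 * (E 0 * (E 1 * (E 2 * x)))) = E 3 * x := by
  have := congrArg (fun y => E 3 * ((E 0 * E 1 * E 2)⁻¹ * y * (E 0 * E 1 * E 2) * x)) h.pr
  simpa only [mul_assoc, mul_inv_rev, inv_mul_cancel_left, h.can, one_mul] using this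

theorem srel_K {Q : Type} [Group Q] (F : FreeGroup (Fin 2 ⊕ Fin 2) →* Q) : F (srel 2) =
    F (.of (.inl 0)) * F (.of (.inr 0)) * (F (.of (.inl 0)))⁻¹ * (F (.of (.inr 0)))⁻¹ *
      (F (.of (.inl 1)) * F (.of (.inr 1)) * (F (.of (.inl 1)))⁻¹ * (F (.of (.inr 1)))⁻¹) := by
  simp [srel, List.ofFn_succ]

theorem Six_K.prod (h : Six_K E) {Q : Type} [Group Q] {D : Fin 6 → Q} (h' : Six_K D) :
    Six_K fun i => (E i, D i) :=
  ⟨fun i => Prod.ext (h.sq i) (h'.sq i), Prod.ext h.pr h'.pr⟩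

theorem two_K (R : Subgroup P) (t : P) (h1 : ∀ x ∈ R, t * x * t⁻¹ ∈ R) (h2 : t * t ∈ R) :
    ∃ S : Subgroup P, ∀ z, z ∈ S ↔ z ∈ R ∨ z * t⁻¹ ∈ R := by
  refine ⟨{ carrier := {z | z ∈ R ∨ z * t⁻¹ ∈ R}
            one_mem' := Or.inl (one_mem _)
            mul_mem' := ?_
            inv_mem' := ?_ }, fun _ => Iff.rfl⟩
  · rintro x y (hx | hx) (hy | hy)
    · exact Or.inl (mul_mem hx hy)
    · exact Or.inr (by simpa only [mul_assoc] using mul_mem hx hy)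
    · exact Or.inr (by simpa [mul_assoc] using mul_mem hx (h1 y hy))
    · exact Or.inl (by simpa [mul_assoc] using mul_mem (mul_mem hx (h1 _ hy)) h2)
  · rintro x (hx | hx)
    · exact Or.inl (inv_mem hx)
    · exact Or.inr (by simpa [mul_assoc] using mul_mem (inv_mem h2) (h1 _ (inv_mem hx)))

/-- The map from the orbifold group. -/
def og_K (h : Six_K E) : OG 4 2 →* P := PresentedGroup.toGroup
  (f := Sum.elim ![E 0 * E 1 * E 2 * E 3, E 3 * E 4] ![E 1, E 2,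
    (E 0 * E 1 * E 2)⁻¹ * (E 1 * E 2 * E 1) * (E 0 * E 1 * E 2),
    (E 0 * E 1 * E 2)⁻¹ * E 1 * (E 0 * E 1 * E 2)]) (by
  rintro _ (⟨i, rfl⟩ | rfl)
  · fin_cases i <;> simp [pow_two, mul_assoc, h.inv, h.can, h.sq]
  · have h5 := h.sq 5
    rw [h.five, ← mul_inv_rev, inv_eq_one] at h5
    have := congrArg (fun x => E 0 * E 1 * E 2 * x * (E 0 * E 1 * E 2)⁻¹) h5
    simpa [List.ofFn_succ, mul_assoc, h.inv, h.can, h.sq] using this)

theorem og_a_K (h : Six_K E) : og_K h (oa 4 2) = E 0 * E 1 * E 2 * E 3 := PresentedGroup.toGroup.of _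
theorem og_b_K (h : Six_K E) : og_K h (ob 4 2) = E 3 * E 4 := PresentedGroup.toGroup.of _
theorem og_c_K (h : Six_K E) (i : Fin 4) : og_K h (oc 2 i) = ![E 1, E 2,
    (E 0 * E 1 * E 2)⁻¹ * (E 1 * E 2 * E 1) * (E 0 * E 1 * E 2),
    (E 0 * E 1 * E 2)⁻¹ * E 1 * (E 0 * E 1 * E 2)] i := PresentedGroup.toGroup.of _

theorem ogen_K (H : Subgroup (OG 4 2)) (ha : oa 4 2 ∈ H) (hb : ob 4 2 ∈ H) (hc : ∀ i, oc 2 i ∈ H)
    (o : OG 4 2) : o ∈ H := by
  refine PresentedGroup.generated_by _ H ?_ o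
  rintro (i | i)
  · fin_cases i
    · exact ha
    · exact hb
  · exact hc i

theorem l1_K (h : Six_K E) {z : P} (hz : z ∈ Subgroup.closure (Set.range E)) :
    z ∈ (og_K h).range ∨ z * (E 0 * E 1 * E 2)⁻¹ ∈ (og_K h).range := by
  obtain ⟨S, hS⟩ := two_K (og_K h).range (E 0 * E 1 * E 2) (by
    rintro _ ⟨o, rfl⟩
    refine ogen_K ((og_K h).range.comap
      ((MulAut.conj (E 0 * E 1 * E 2)).toMonoidHom.comp (og_K h))) ⟨oC * (oa 4 2)⁻¹, ?_⟩
      ⟨oa 4 2 * (ob 4 2)⁻¹ * (oa 4 2)⁻¹, ?_⟩ (fun i => ⟨alc i, ?_⟩) o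
    · simp [oC, og_a_K, og_c_K, mul_assoc, h.inv, h.can, h.sq]
    · simp [og_a_K, og_b_K, mul_assoc, h.inv, h.can, h.sq]
    · fin_cases i <;> simp [alc, og_c_K, mul_assoc, h.inv, h.can, h.sq])
    ⟨oC, by simp [oC, og_c_K, mul_assoc, h.inv, h.can]⟩
  have t : E 0 * E 1 * E 2 ∈ S := (hS _).2 (Or.inr (by simp [one_mem]))
  have r : ∀ o, og_K h o ∈ S := fun o => (hS _).2 (Or.inl ⟨o, rfl⟩)
  have e1 : E 1 ∈ S := by simpa [og_c_K] using r (oc 2 0)
  have e2 : E 2 ∈ S := by simpa [og_c_K] using r (oc 2 1)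
  have e0 : E 0 ∈ S := (S.mul_mem_cancel_right e1).1 ((S.mul_mem_cancel_right e2).1 t)
  have e3 : E 3 ∈ S := (S.mul_mem_cancel_left t).1 (og_a_K h ▸ r _)
  have e4 : E 4 ∈ S := (S.mul_mem_cancel_left e3).1 (og_b_K h ▸ r _)
  refine (hS z).1 ((Subgroup.closure_le S).2 ?_ hz)
  rintro _ ⟨i, rfl⟩
  fin_cases i
  exacts [e0, e1, e2, e3, e4, h.five ▸ inv_mem (mul_mem (mul_mem t e3) e4)]

theorem l2_K (h : Six_K E) (o : OG 4 2) : og_K h o ∈ Subgroup.closure (Set.range E) := by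
  have e : ∀ i, E i ∈ Subgroup.closure (Set.range E) := fun i => Subgroup.subset_closure ⟨i, rfl⟩
  refine ogen_K ((Subgroup.closure (Set.range E)).comap (og_K h)) ?_ ?_ (fun i => ?_) o
  · simp [og_a_K, Subgroup.mul_mem_cancel_right _ (e _), e]
  · simp [og_b_K, mul_mem, e]
  · fin_cases i <;> simp [og_c_K, h.inv, ← mul_assoc, Subgroup.mul_mem_cancel_right _ (e _), e]

/-- The map from the surface group. -/
def sg_K (h : Six_K E) : SG 2 →* P := PresentedGroup.toGroup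
  (f := Sum.elim ![E 0 * E 1, E 3 * E 4] ![E 2 * E 1, E 5 * E 4]) (by
  rintro _ rfl
  simpa [srel_K, mul_assoc, h.inv, h.can, h.rel] using h.pr)

theorem sg_of_K (h : Six_K E) (k : Fin 2 ⊕ Fin 2) : sg_K h (sgen 2 k) =
    Sum.elim ![E 0 * E 1, E 3 * E 4] ![E 2 * E 1, E 5 * E 4] k := PresentedGroup.toGroup.of _

theorem sgen_K (h : Six_K E) (H : Subgroup P) (hH : ∀ i j, E i * E j ∈ H) (x : SG 2) :
    sg_K h x ∈ H := by
  refine PresentedGroup.generated_by _ (H.comap (sg_K h)) ?_ x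
  rintro (i | i) <;> refine Subgroup.mem_comap.2 ((sg_of_K h _).symm ▸ ?_) <;> fin_cases i <;>
    exact hH _ _

theorem sg_prod_K (h : Six_K E) {Q : Type} [Group Q] {D : Fin 6 → Q} (h' : Six_K D) (x : SG 2) :
    sg_K (h.prod h') x = (sg_K h x, sg_K h' x) := by
  refine DFunLike.congr_fun (show sg_K (h.prod h') = (sg_K h).prod (sg_K h') from
    PresentedGroup.ext fun k => ?_) x
  change sg_K _ (sgen 2 k) = (sg_K h (sgen 2 k), sg_K h' (sgen 2 k))
  rw [sg_of_K, sg_of_K, sg_of_K]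
  rcases k with i | i <;> fin_cases i <;> rfl

/-- The words of the products with the second involution. -/
def w_K : Fin 6 → SG 2 := ![sgen 2 (.inl 0), 1, sgen 2 (.inr 0),
  (sgen 2 (.inr 1))⁻¹ * sgen 2 (.inl 0) * sgen 2 (.inr 0),
  (sgen 2 (.inl 1))⁻¹ * (sgen 2 (.inr 1))⁻¹ * sgen 2 (.inl 0) * sgen 2 (.inr 0),
  sgen 2 (.inr 1) * (sgen 2 (.inl 1))⁻¹ * (sgen 2 (.inr 1))⁻¹ * sgen 2 (.inl 0) * sgen 2 (.inr 0)]

theorem pair_K (h : Six_K E) (i j : Fin 6) : E i * E j ∈ (sg_K h).range := by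
  have e : ∀ i, E i * E 1 ∈ (sg_K h).range := fun i => ⟨w_K i, by
    fin_cases i <;> simp [w_K, sg_of_K, mul_assoc, h.rot, h.inv, h.can, h.sq]⟩
  simpa [mul_assoc, h.inv, h.can] using mul_mem (e i) (inv_mem (e j))

theorem l3_K (h : Six_K E) {z : P} (hz : z ∈ Subgroup.closure (Set.range E)) :
    z ∈ (sg_K h).range ∨ z * E 1 ∈ (sg_K h).range := by
  obtain ⟨S, hS⟩ := two_K (sg_K h).range (E 1) (by
    rintro _ ⟨x, rfl⟩
    refine sgen_K h ((sg_K h).range.comap (MulAut.conj (E 1)).toMonoidHom) (fun i j => ?_) x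
    simpa [mul_assoc, h.inv] using mul_mem (pair_K h 1 i) (pair_K h j 1)) (pair_K h 1 1)
  rw [h.inv] at hS
  refine (hS z).1 ((Subgroup.closure_le S).2 ?_ hz)
  rintro _ ⟨i, rfl⟩
  exact (hS _).2 (Or.inr (pair_K h i 1))

theorem l4_K (h : Six_K E) (x : SG 2) : sg_K h x ∈ Subgroup.closure (Set.range E) :=
  sgen_K h _ (fun i j => mul_mem (Subgroup.subset_closure (Set.mem_range_self i))
    (Subgroup.subset_closure (Set.mem_range_self j))) x

theorem fun_K (h : Six_K E) (h1 : Function.Injective (og_K h))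
    (h2 : E 0 * E 1 * E 2 ∉ (og_K h).range) {Q : Type} [Group Q] {D : Fin 6 → Q} (h' : Six_K D)
    {x : P} {y y' : Q} (a : (x, y) ∈ Subgroup.closure (Set.range fun i => (E i, D i)))
    (b : (x, y') ∈ Subgroup.closure (Set.range fun i => (E i, D i))) : y = y' := by
  have e : (MonoidHom.fst P Q).comp (og_K (h.prod h')) = og_K h := PresentedGroup.ext (by
    rintro (i | i)
    · fin_cases i
      · exact (congrArg Prod.fst (og_a_K _)).trans (og_a_K h).symm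
      · exact (congrArg Prod.fst (og_b_K _)).trans (og_b_K h).symm
    · refine (congrArg Prod.fst (og_c_K _ i)).trans (Eq.trans ?_ (og_c_K h i).symm)
      fin_cases i <;> rfl)
  rcases l1_K (h.prod h') (mul_mem (inv_mem a) b) with ⟨o, ho⟩ | ⟨o, ho⟩
  · have : o = 1 := h1 (by rw [← e, MonoidHom.comp_apply, ho]; simp)
    rw [this, map_one] at ho
    exact inv_mul_eq_one.1 (congrArg Prod.snd ho).symm
  · exact absurd ⟨o⁻¹, by rw [map_inv, ← e, MonoidHom.comp_apply, ho]; simp [mul_assoc]⟩ h2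

end gen

/-- The model. -/
def pm_K (i : Fin 6) : Equiv.Perm (Bool × SG 2) :=
  Function.Involutive.toPerm (fun x => (!x.1, if x.1 then w_K i * x.2 else (w_K i)⁻¹ * x.2)) (by
    rintro ⟨_ | _, x⟩ <;> simp)

theorem six_K : Six_K pm_K := by
  have h : PresentedGroup.mk {srel 2} (srel 2) = 1 := PresentedGroup.one_of_mem rfl
  have h' : sgen 2 (.inl 0) * sgen 2 (.inr 0) * (sgen 2 (.inl 0))⁻¹ * (sgen 2 (.inr 0))⁻¹ *
      (sgen 2 (.inl 1) * sgen 2 (.inr 1) * (sgen 2 (.inl 1))⁻¹ * (sgen 2 (.inr 1))⁻¹) = 1 :=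
    (srel_K _).symm.trans h
  refine ⟨fun i => Equiv.ext ?_, Equiv.ext ?_⟩
  · rintro ⟨_ | _, x⟩ <;> simp [pm_K]
  · rintro ⟨_ | _, x⟩
    · simp [pm_K, w_K, mul_assoc]
    · have := congrArg (fun y => (sgen 2 (.inl 0) * sgen 2 (.inr 0))⁻¹ * y *
        (sgen 2 (.inl 0) * sgen 2 (.inr 0)) * x) h'
      simpa [pm_K, w_K, mul_assoc] using this

theorem free_K (g x : SG 2) : sg_K six_K g (false, x) = (false, g * x) := by
  revert x
  refine PresentedGroup.generated_by _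
    { carrier := {g | ∀ x, sg_K six_K g (false, x) = (false, g * x)}
      one_mem' := fun x => by simp
      mul_mem' := fun {a b} ha hb x => by rw [map_mul, Equiv.Perm.mul_apply, hb, ha, mul_assoc]
      inv_mem' := fun {a} ha x => by
        rw [map_inv, Equiv.Perm.inv_eq_iff_eq, ha, mul_inv_cancel_left] } (fun k x => ?_) g
  change sg_K six_K (sgen 2 k) _ = (false, sgen 2 k * x)
  rw [sg_of_K]
  rcases k with i | i <;> fin_cases i <;> simp [pm_K, w_K, mul_assoc]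

theorem chi_K (χ : SG 2 →* Multiplicative (ZMod 2)) {g : SG 2} (hg : g * g = 1) : χ g = 1 := by
  let f : SG 2 →* Multiplicative ℤ := PresentedGroup.toGroup
    (f := fun k => Multiplicative.ofAdd ((χ (sgen 2 k)).toAdd.val : ℤ)) (by
      rintro _ rfl
      simp [srel_K])
  have e : χ = (AddMonoidHom.toMultiplicative (Int.castAddHom (ZMod 2))).comp f :=
    PresentedGroup.ext fun k => by simp [f, sgen]
  have h := congrArg (fun x => (f x).toAdd) hg
  simp only [map_mul, map_one, toAdd_mul, toAdd_one] at h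
  rw [e, MonoidHom.comp_apply, show f g = 1 from toAdd_eq_zero.1 (by omega), map_one]

theorem ex_K {G : Type} [Group G] {a b c0 c1 c2 c3 τ : G} (s0 : c0 * c0 = 1) (s1 : c1 * c1 = 1)
    (ha : τ * a * τ⁻¹ = τ * τ * a⁻¹) (hb : τ * b * τ⁻¹ = a * b⁻¹ * a⁻¹)
    (ht : τ * τ = c0 * c1 * c2 * c3) (hr : τ * τ * b * a * b⁻¹ * a⁻¹ = 1)
    (h2 : τ * c2 * τ⁻¹ = c0 * c1 * c0) (h3 : τ * c3 * τ⁻¹ = c0) :
    ∃ d : Fin 6 → G, Six_K d ∧ d 0 * d 1 * d 2 = τ ∧ d 1 = c0 ∧ d 2 = c1 ∧ τ * d 3 = a ∧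
      d 3 * d 4 = b := by
  have p0 : c0 * c1 * τ⁻¹ * c0 * c1 = τ := by
    have : c2 * c3 = τ⁻¹ * (c0 * c1) * τ := by
      calc _ = τ⁻¹ * (τ * c2 * τ⁻¹ * (τ * c3 * τ⁻¹)) * τ := by group
        _ = _ := by rw [h2, h3, mul_assoc _ c0 c0, s0, mul_one]
    rw [mul_assoc _ c2, this] at ht
    rw [← mul_left_inj τ, ht]
    group
  have p3 : τ * (a⁻¹ * τ) = a := by
    rw [mul_assoc τ, mul_assoc τ, mul_right_inj] at ha
    rw [← mul_assoc, ← ha, inv_mul_cancel_right]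
  have p5 : τ * b * (τ * b) = 1 := by
    calc _ = τ * b * τ⁻¹ * (τ * τ * b * a * b⁻¹ * a⁻¹) * (a * b * a⁻¹) := by group
      _ = 1 := by rw [hr, hb]; group
  have q3 : a⁻¹ * τ * (a⁻¹ * τ) = 1 := by rw [mul_assoc, p3, inv_mul_cancel]
  have q4 : a⁻¹ * τ * (a⁻¹ * τ * b) = b := by rw [← mul_assoc, q3, one_mul]
  have q0 : c0 * c1 * τ⁻¹ * (c0 * c1 * τ⁻¹) = 1 := by
    simpa only [mul_assoc, mul_inv_cancel] using congrArg (· * τ⁻¹) p0
  have q5 : a⁻¹ * τ * b * (a⁻¹ * τ * b) = 1 := by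
    calc _ = a⁻¹ * (τ * b * τ⁻¹) * (τ * (a⁻¹ * τ)) * b := by group
      _ = 1 := by rw [hb, p3]; group
  refine ⟨![c0 * c1 * τ⁻¹, c0, c1, a⁻¹ * τ, a⁻¹ * τ * b, τ * b], ⟨fun i => ?_, ?_⟩, p0, rfl, rfl,
    p3, q4⟩
  · fin_cases i
    exacts [q0, s0, s1, q3, q5, p5]
  · change c0 * c1 * τ⁻¹ * c0 * c1 * (a⁻¹ * τ) * (a⁻¹ * τ * b) * (τ * b) = 1
    rw [p0, mul_assoc τ, q4, p5]

theorem cj_K {G : Type} [Group G] {d : Fin 6 → G} (h : Six_K d) (s : G)
    (h1 : ∀ o, s * og_K h o * s⁻¹ ∈ (og_K h).range)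
    (h2 : s * (d 0 * d 1 * d 2) * s⁻¹ * (d 0 * d 1 * d 2)⁻¹ ∈ (og_K h).range) :
    ∀ x ∈ Subgroup.closure (Set.range d), s * x * s⁻¹ ∈ Subgroup.closure (Set.range d) := by
  intro x hx
  have r : ∀ y ∈ (og_K h).range, y ∈ Subgroup.closure (Set.range d) := by
    rintro _ ⟨o, rfl⟩
    exact l2_K h o
  have e : ∀ i, d i ∈ Subgroup.closure (Set.range d) := fun i => Subgroup.subset_closure ⟨i, rfl⟩
  rcases l1_K h hx with ⟨o, rfl⟩ | ⟨o, ho⟩
  · exact r _ (h1 o)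
  · have := mul_mem (mul_mem (r _ (h1 o)) (r _ h2)) (mul_mem (mul_mem (e 0) (e 1)) (e 2))
    rw [ho] at this
    generalize d 0 * d 1 * d 2 = t at this
    simpa [mul_assoc] using this

theorem inj_K {G : Type} [Group G] {d : Fin 6 → G} (h : Six_K d)
    (hφ : Function.Injective (og_K h)) (hτ : d 0 * d 1 * d 2 ∉ (og_K h).range) :
    Function.Injective (sg_K h) := (injective_iff_map_eq_one _).2 fun x hx => by
  have a := l4_K (h.prod six_K) x
  rw [sg_prod_K h six_K, hx] at a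
  have := free_K x 1
  rw [fun_K (y' := 1) h hφ hτ six_K a (one_mem _)] at this
  simpa using this.symm

theorem norm_K {G : Type} [Group G] {d : Fin 6 → G} (h : Six_K d)
    (hφ : Function.Injective (og_K h)) (hτ : d 0 * d 1 * d 2 ∉ (og_K h).range) (s : G)
    (c1 : ∀ x ∈ Subgroup.closure (Set.range d), s * x * s⁻¹ ∈ Subgroup.closure (Set.range d))
    (c2 : ∀ x ∈ Subgroup.closure (Set.range d), s⁻¹ * x * s ∈ Subgroup.closure (Set.range d))
    (x : SG 2) : s * sg_K h x * s⁻¹ ∈ (sg_K h).range := by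
  have hw : Six_K fun _ : Fin 6 => Multiplicative.ofAdd (1 : ZMod 2) := ⟨fun _ => rfl, rfl⟩
  have ex : ∀ y, ∃ e, (s⁻¹ * sg_K h y * s, e) ∈
      Subgroup.closure (Set.range fun i => (d i, Multiplicative.ofAdd (1 : ZMod 2))) := fun y => by
    have := c2 _ (l4_K h y)
    rw [show Set.range d = MonoidHom.fst _ _ '' Set.range
      fun i => (d i, Multiplicative.ofAdd (1 : ZMod 2)) by rw [← Set.range_comp]; rfl,
      ← MonoidHom.map_closure] at this
    obtain ⟨z, h5, h6⟩ := this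
    exact ⟨z.2, by rw [← h6]; exact h5⟩
  choose χ hχ using ex
  have k : ∀ i, s * d i * s⁻¹ * d 1 ∈ (sg_K h).range := fun i => by
    refine (l3_K h (c1 _ (Subgroup.subset_closure ⟨i, rfl⟩))).resolve_left ?_
    rintro ⟨g, hg⟩
    have g2 : g * g = 1 := inj_K h hφ hτ (by rw [map_mul, hg, map_one]; simp [mul_assoc, h.can])
    have h5 := chi_K (MonoidHom.mk' χ fun a b => fun_K h hφ hτ hw (hχ (a * b)) (by
      simpa [mul_assoc] using mul_mem (hχ a) (hχ b))) g2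
    have h6 := hχ g
    rw [hg, show χ g = 1 from h5, show s⁻¹ * (s * d i * s⁻¹) * s = d i by group] at h6
    exact absurd (fun_K h hφ hτ hw h6 (Subgroup.subset_closure ⟨i, rfl⟩)) (by decide)
  refine sgen_K h ((sg_K h).range.comap (MulAut.conj s).toMonoidHom) (fun i j => ?_) x
  simpa [mul_assoc, h.inv, h.can] using mul_mem (k i) (inv_mem (k j))

theorem s_k : S_K := by
  intro G _ φ τ hφ hτ ha hb hc ht
  have sq : ∀ i, φ (oc 2 i) * φ (oc 2 i) = 1 := fun i => by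
    rw [← map_mul, ← pow_two, oc_pow, map_one]
  have hr := congrArg φ (og_rel (n := 4) (m := 2))
  have c2 := hc 2
  have c3 := hc 3
  rw [map_mul, ← ht, map_inv] at ha
  simp only [oC, map_mul] at ht
  simp only [List.ofFn_succ, List.ofFn_zero, List.prod_cons, List.prod_nil, map_mul, map_inv,
    map_one, mul_one] at hr hb
  change φ (oc 2 0) * (φ (oc 2 1) * (φ (oc 2 2) * φ (oc 2 3))) * _ * _ * _ * _ = 1 at hr
  rw [← mul_assoc, ← mul_assoc, ← ht] at hr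
  change _ = φ (oc 2 0 * oc 2 1 * (oc 2 0)⁻¹) at c2
  change _ = φ (oc 2 0) at c3
  rw [map_mul, map_mul, map_inv, inv_eq_of_mul_eq_one_right (sq 0)] at c2
  obtain ⟨d, h, t, d1, d2, d3, d4⟩ := ex_K (sq 0) (sq 1) ha hb ht hr c2 c3
  have e : og_K h = φ := PresentedGroup.ext (by
    rintro (i | i)
    · fin_cases i
      · exact (og_a_K h).trans (by rw [t]; exact d3)
      · exact (og_b_K h).trans d4
    · refine (og_c_K h i).trans ?_
      rw [t, d1, d2, ← c2]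
      fin_cases i
      · rfl
      · rfl
      · exact (by group : τ⁻¹ * (τ * φ (oc 2 2) * τ⁻¹) * τ = φ (oc 2 2))
      · exact (by rw [← c3]; group : τ⁻¹ * φ (oc 2 0) * τ = φ (oc 2 3)))
  rw [← d1, ← e, ← t]
  rw [← e] at hφ
  rw [← e, ← t] at hτ
  exact ⟨sg_K h, inj_K h hφ hτ, fun x => l1_K h (l4_K h x), fun o => l3_K h (l2_K h o),
    fun s h1 h2 h3 h4 => norm_K h hφ hτ s (cj_K h s h1 h3) (by
      simpa only [inv_inv] using cj_K h s⁻¹ (by simpa only [inv_inv] using h2) (by rwa [inv_inv]))⟩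

end Pool.Agent.E5f.G2

end
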