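import Pool.Agent.MP_e5f6e8_al.G2.St

/-!
Touches with four types: the chain, wall inequalities and the gain.
-/

set_option autoImplicit false

section

set_option autoImplicit false

namespace Pool.Agent.E5f.G2

open Classical Wall

section
variable {L κ B : Type} [LinearOrder κ]

/-- The swaps with both ends in `T`. -/
noncomputable def flt_T1 (T : Set L) (c : List (L × L)) : List (L × L) :=
  c.filter (fun e => decide (e.1 ∈ T ∧ e.2 ∈ T))

theorem mem_flt_T1 {T : Set L} {c : List (L × L)} {e : L × L} (h : e ∈ flt_T1 T c) :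
    e ∈ c ∧ e.1 ∈ T ∧ e.2 ∈ T :=
  ⟨(List.mem_filter.1 h).1, of_decide_eq_true (List.mem_filter.1 h).2⟩

theorem ret_lc_T1 (T : Set L) (l : L) : ret T (lc l) = if l ∈ T then lc l else 1 := ret_lt T l c2

theorem ret_sw_T1 (T : Set L) (x y : L) (g : W L C2) : ret T (sw x y c2 g) =
    if x ∈ T ∧ y ∈ T then sw x y c2 (ret T g) else ret T g := by
  split_ifs with h
  · refine ext_lc (S := Set.univ) (f := (ret T).comp (sw x y c2)) (f' := (sw x y c2).comp (ret T))
      (fun l _ => ?_) (fun _ _ => trivial)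
    by_cases e : l = y
    · subst e
      simp [sw_lc, ret_lc_T1, h.1, h.2]
    · by_cases e' : l ∈ T <;> simp [sw_lc, ret_lc_T1, e, e']
  · refine ext_lc (S := Set.univ) (f := (ret T).comp (sw x y c2)) (f' := ret T)
      (fun l _ => ?_) (fun _ _ => trivial)
    by_cases e : l = y
    · subst e
      by_cases e1 : x ∈ T <;> by_cases e2 : l ∈ T <;> simp_all [sw_lc, ret_lc_T1]
    · simp [sw_lc, e]

theorem ret_act_T1 (T : Set L) (c : List (L × L)) (g : W L C2) :
    ret T (actH c g) = actH (flt_T1 T c) (ret T g) := by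
  induction c generalizing g with
  | nil => rfl
  | cons e c ih =>
    change ret T (actH c (sw e.1 e.2 c2 g)) = _
    rw [ih, ret_sw_T1, flt_T1, flt_T1, List.filter_cons]
    split_ifs with h1 h2 h2
    · rfl
    · exact absurd (decide_eq_true h1) h2
    · exact absurd (of_decide_eq_true h2) h1
    · rfl

theorem expo_act_T1 (x : L) (c : List (L × L)) (g : W L C2) : expo x (actH c g) = expo x g := by
  induction c generalizing g with
  | nil => rfl
  | cons e c ih =>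
    change expo x (actH c (sw e.1 e.2 c2 g)) = _
    rw [ih]
    refine ext_lc (S := Set.univ) (f := (expo x).comp (sw e.1 e.2 c2)) (f' := expo x)
      (fun l _ => ?_) (fun _ _ => trivial)
    rw [MonoidHom.comp_apply, sw_lc]
    split_ifs with h
    · rw [map_mul, map_mul, mul_right_comm, ← map_mul, lc_mul, map_one, one_mul, h]
    · rfl

theorem chn_flt_T1 {S T : Set L} (hT : T ⊆ S) {k0 k1 : L → κ} (c : List (L × L)) :
    ∀ k k' : L → κ, Function.Injective k → (∀ x ∈ T, ∀ y ∈ T, (k x < k y ↔ k' x < k' y)) →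
      Chn S k0 k1 k c → Chn T k0 k1 k' (flt_T1 T c) ∧
        ∀ x ∈ T, ∀ y ∈ T, (kend k c x < kend k c y ↔
          kend k' (flt_T1 T c) x < kend k' (flt_T1 T c) y) := by
  induction c with
  | nil => exact fun k k' _ h _ => ⟨trivial, h⟩
  | cons e c ih =>
    intro k k' hk h ⟨hA, h1, h2, h3⟩
    rw [flt_T1, List.filter_cons]
    split_ifs with he
    · obtain ⟨e1, e2⟩ := of_decide_eq_true he
      have m : ∀ x ∈ T, Equiv.swap e.1 e.2 x ∈ T := fun x hx => by
        rw [Equiv.swap_apply_def]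
        split_ifs <;> assumption
      obtain ⟨i1, i2⟩ := ih (ks k e.1 e.2) (ks k' e.1 e.2) (ks_inj hk _ _)
        (fun x hx y hy => h _ (m x hx) _ (m y hy)) h3
      refine ⟨⟨⟨e1, e2, hA.ne, fun z hz a b => ?_⟩, (h _ e1 _ e2).symm.trans h1,
        (h _ e1 _ e2).symm.trans h2, i1⟩, i2⟩
      rw [← h _ hz _ e1, ← h _ hz _ e2]
      exact hA.adj z (hT hz) a b
    · refine ih (ks k e.1 e.2) k' (ks_inj hk _ _) (fun x hx y hy => ?_) h3
      rw [← h x hx y hy]
      refine ks_ne_LsChain hk hA (hT hx) (hT hy) (fun q => he (decide_eq_true ?_))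
        fun q => he (decide_eq_true ?_)
      · obtain ⟨q1, q2⟩ := Prod.ext_iff.1 q
        exact ⟨q1 ▸ hx, q2 ▸ hy⟩
      · obtain ⟨q1, q2⟩ := Prod.ext_iff.1 q
        exact ⟨q1 ▸ hy, q2 ▸ hx⟩

theorem fch_flt_T1 {S T : Set L} (hT : T ⊆ S) {k0 k1 : L → κ} {c : List (L × L)}
    (h : FCh S k0 k1 c) : FCh T k0 k1 (flt_T1 T c) := by
  obtain ⟨i1, i2⟩ := chn_flt_T1 hT c k0 k0 h.inj0 (fun _ _ _ _ => Iff.rfl) h.chn
  exact ⟨h.inj0, h.inj1, i1, fun x hx y hy => (i2 x hx y hy).symm.trans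
    (h.fin x (hT hx) y (hT hy))⟩

variable {S : Set L} {kk : Bool → L → κ} {ty : L → Fin 4} {bk : L → B} (hB : Blk kk ty bk)
include hB

theorem ord_T1 (s : Bool) {x y : L} (h : bk x = bk y) (ht : ty x < ty y) :
    (kk s x < kk s y ↔ s = true) := by
  cases s
  · rw [hB.minus x y h]; simpa using ht.le
  · rw [hB.plus x y h]; simpa using ht

theorem pass_T1 {fl sd σ σ' : Bool} {c : List (L × L)} (hF : FCh S (kk sd) (kk (!sd)) c)
    (hσ : ∀ e ∈ c, (hg fl (ty e.2) < hg fl (ty e.1) ↔ σ = true)) {o a b : L} (ho : o ∈ S)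
    (ha : a ∈ S) (hb : b ∈ S) (qa : bk a = bk o) (qb : bk b = bk o) (l1 : ty o < ty a)
    (l3 : ty a < ty b) (p1 : hg fl (ty o) < hg fl (ty a) ↔ σ' = σ)
    (p2 : hg fl (ty o) < hg fl (ty b) ↔ σ' = σ) (p3 : hg fl (ty b) < hg fl (ty a) ↔ σ' = σ)
    (g : W L C2) : ret {o, a, b} (actH c g) = TP o a b σ' (ret {o, a, b} g) := by
  have l2 := l1.trans l3
  have hoa : o ≠ a := fun e => by rw [e] at l1; exact lt_irrefl _ l1
  have hob : o ≠ b := fun e => by rw [e] at l2; exact lt_irrefl _ l2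
  have hab : a ≠ b := fun e => by rw [e] at l3; exact lt_irrefl _ l3
  have nb : ((!sd) = true) ↔ ¬ sd = true := by cases sd <;> simp
  have tot : ∀ i j : Fin 4, i ≠ j → (hg fl i < hg fl j ↔ ¬ hg fl j < hg fl i) := by
    cases fl <;> decide
  have p1' := tot _ _ l1.ne'
  have p2' := tot _ _ l2.ne'
  have p3' := tot _ _ l3.ne
  rw [ret_act_T1]
  refine pass_eq hoa hob hab (S := {o, a, b}) (by simp) (by simp) (by simp) (d := sd = true)
    (ord_T1 hB sd qa.symm l1) (ord_T1 hB sd qb.symm l2) (ord_T1 hB sd (qa.trans qb.symm) l3)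
    ((ord_T1 hB _ qa.symm l1).trans nb) ((ord_T1 hB _ qb.symm l2).trans nb)
    ((ord_T1 hB _ (qa.trans qb.symm) l3).trans nb)
    (fch_flt_T1 (by rintro x (rfl | rfl | rfl) <;> assumption) hF) (fun e he => .inr ?_)
    (E5f.sup_ret _ g)
  obtain ⟨h1, h6, h7⟩ := mem_flt_T1 he
  have h3 := (fch_mem hF h1).2.2.1
  have h5 := hσ e h1
  obtain ⟨x, y⟩ := e
  simp only at h3 h5 h6 h7
  rcases h6 with rfl | rfl | rfl <;> rcases h7 with rfl | rfl | rfl <;>
    first
    | exact absurd rfl h3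
    | (cases σ <;> cases σ' <;> simp_all)

theorem chain_T1 {fl : Bool} {n : ℕ} {sd σ sd' : Bool} {p p' : List L}
    (h : Tou fl S kk ty n sd σ p sd' p') :
    ∃ c : List (L × L), (∀ e ∈ c, e.1 ∈ S ∧ e.2 ∈ S ∧ e.1 ≠ e.2 ∧ bk e.1 = bk e.2) ∧ p' = act c p ∧
      sd' = (if Even n then sd else !sd) ∧ ∀ o ∈ S, ∀ a ∈ S, ∀ b ∈ S, bk a = bk o → bk b = bk o →
        ty o < ty a → ty a < ty b → ∀ t : Bool, (hg fl (ty o) < hg fl (ty a) ↔ t = true) →
        (hg fl (ty o) < hg fl (ty b) ↔ t = true) → (hg fl (ty b) < hg fl (ty a) ↔ t = true) →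
        ∀ g, ret {o, a, b} (actH c g) = TT o a b n (σ == t) (ret {o, a, b} g) := by
  induction n generalizing sd σ p with
  | zero => exact ⟨[], by simp, h.2, by simpa using h.1, fun _ _ _ _ _ _ _ _ _ _ _ _ _ _ _ => rfl⟩
  | succ n ih =>
    obtain ⟨p1, ⟨c1, hF, hσ, rfl⟩, h2⟩ := h
    obtain ⟨c, hc, rfl, hsd, hf⟩ := ih h2
    have hc1 : ∀ e ∈ c1, e.1 ∈ S ∧ e.2 ∈ S ∧ e.1 ≠ e.2 ∧ bk e.1 = bk e.2 := by
      intro e he
      obtain ⟨h1, h2, h3, h4⟩ := fch_mem hF he
      refine ⟨h1, h2, h3, ?_⟩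
      by_contra h5
      rw [hB.out sd (!sd) _ _ _ _ rfl rfl h5] at h4
      rcases lt_trichotomy (kk (!sd) e.1) (kk (!sd) e.2) with h6 | h6 | h6
      · exact lt_asymm h6 (h4.1 h6)
      · exact h3 (hF.inj1 h6)
      · exact lt_asymm h6 (h4.2 h6)
    refine ⟨c1 ++ c, fun e he => (List.mem_append.1 he).elim (hc1 e) (hc e),
      (act_append _ _ _).symm, ?_, fun o ho a ha b hb qa qb l1 l3 t p1 p2 p3 g => ?_⟩
    · rw [hsd]
      by_cases h : Even n <;> simp [h, Nat.even_add_one]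
    · have e : (t = true) ↔ (σ == t) = σ := by cases σ <;> cases t <;> simp
      rw [actH_append, hf o ho a ha b hb qa qb l1 l3 t p1 p2 p3,
        pass_T1 hB hF hσ ho ha hb qa qb l1 l3 (p1.trans e) (p2.trans e) (p3.trans e),
        show ((!σ) == t) = !(σ == t) by cases σ <;> cases t <;> rfl]
      rfl

end

theorem s_t1 : S_T1 := by
  intro L κ B _ fl S kk ty bk hB n sd σ sd' p p' h
  obtain ⟨c, h1, h2, h3, h4⟩ := chain_T1 hB h
  refine ⟨c, h1, h2, h3, fun o ho a ha d hd b hb qa qd qb t0 t1 t2 t3 => ?_⟩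
  have ne : ∀ {x y : L} {i j : Fin 4}, ty x = i → ty y = j → i ≠ j → x ≠ y :=
    fun e1 e2 e3 e => e3 (by rw [← e1, ← e2, e])
  have mem : ∀ x, x ∈ ({o, a, d, b} : Set L) ↔ bk x = bk o := fun x => by
    constructor
    · rintro (rfl | rfl | rfl | rfl) <;> first | rfl | assumption
    · intro hx
      have : ty x = 0 ∨ ty x = 1 ∨ ty x = 2 ∨ ty x = 3 := by generalize ty x = i; revert i; decide
      rcases this with e | e | e | e
      · exact .inl (hB.uniq _ _ hx (e.trans t0.symm))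
      · exact .inr (.inl (hB.uniq _ _ (hx.trans qa.symm) (e.trans t1.symm)))
      · exact .inr (.inr (.inl (hB.uniq _ _ (hx.trans qd.symm) (e.trans t2.symm))))
      · exact .inr (.inr (.inr (hB.uniq _ _ (hx.trans qb.symm) (e.trans t3.symm))))
  refine ⟨ne t0 t1 (by decide), ne t0 t2 (by decide), ne t0 t3 (by decide), ne t1 t2 (by decide),
    ne t1 t3 (by decide), ne t2 t3 (by decide), actH_inj fun e he => (h1 e he).2.2.1,
    fun g hg => actH_sup (fun e he k => (mem _).2 ((h1 e he).2.2.2.trans ((mem _).1 k))) hg,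
    fun x g => expo_act_T1 x c g, ⟨σ == fl, fun g _ => ?_⟩, ⟨σ == !fl, fun g _ => ?_⟩⟩
  · refine h4 o ho a ha b hb qa qb ?_ ?_ fl ?_ ?_ ?_ g <;> simp only [t0, t1, t3] <;>
      cases fl <;> decide
  · refine h4 a ha d hd b hb (qd.trans qa.symm) (qb.trans qa.symm) ?_ ?_ (!fl) ?_ ?_ ?_ g <;>
      simp only [t1, t2, t3] <;> cases fl <;> decide

end Pool.Agent.E5f.G2

end

section

set_option autoImplicit false

namespace Pool.Agent.E5f.G2

open Classical Wall DihedralGroup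

section
variable {L : Type} {o a b : L}

/-- The exact form of a map on the three letters. -/
def Ex_OA (o a b : L) (τ : W L C2 →* W L C2) (i : ℤ) : Prop :=
  τ (lc o) = (lc o * lc a * lc b) ^ i * lc o * (lc o * lc a * lc b) ^ (-i) ∧
  τ (lc a) = (lc o * lc a * lc b) ^ i * ((lc a * lc b) ^ (-(2 * i)) * lc a *
    (lc a * lc b) ^ (2 * i)) * (lc o * lc a * lc b) ^ (-i) ∧
  τ (lc b) = (lc o * lc a * lc b) ^ i * ((lc a * lc b) ^ (-(2 * i)) * lc b *
    (lc a * lc b) ^ (2 * i)) * (lc o * lc a * lc b) ^ (-i)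

theorem comp_OA {τ υ : W L C2 →* W L C2} {i e : ℤ} (h : Ex_OA o a b τ i) (h' : Ex_OA o a b υ e) :
    Ex_OA o a b (τ.comp υ) (i + e) := by
  obtain ⟨h1, h2, h3⟩ := h
  obtain ⟨k1, k2, k3⟩ := h'
  have hE : τ (lc a * lc b) =
      (lc o * lc a * lc b) ^ i * (lc a * lc b) * (lc o * lc a * lc b) ^ (-i) := by
    rw [map_mul, h2, h3]
    have e1 : ∀ D E x y : W L C2, D ^ i * (E ^ (-(2 * i)) * x * E ^ (2 * i)) * D ^ (-i) *
        (D ^ i * (E ^ (-(2 * i)) * y * E ^ (2 * i)) * D ^ (-i)) =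
        D ^ i * (E ^ (-(2 * i)) * (x * y) * E ^ (2 * i)) * D ^ (-i) := by
      intro D E x y
      group
    rw [e1]
    generalize (lc a * lc b : W L C2) = E
    group
  have hD : τ (lc o * lc a * lc b) = lc o * lc a * lc b := by
    rw [mul_assoc, map_mul, h1, hE]
    have e1 : ∀ D x y : W L C2, D ^ i * x * D ^ (-i) * (D ^ i * y * D ^ (-i)) =
        D ^ i * (x * y) * D ^ (-i) := by
      intro D x y
      group
    rw [e1, ← mul_assoc (lc o)]
    generalize (lc o * lc a * lc b : W L C2) = D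
    group
  have hZ : ∀ k : ℤ, τ ((lc a * lc b) ^ k) =
      (lc o * lc a * lc b) ^ i * (lc a * lc b) ^ k * (lc o * lc a * lc b) ^ (-i) := by
    intro k
    rw [map_zpow, hE, zpow_neg, conj_zpow]
  refine ⟨?_, ?_, ?_⟩
  · rw [MonoidHom.comp_apply, k1, map_mul τ _ (_ ^ _), map_mul τ (_ ^ _), map_zpow, map_zpow, hD,
      h1]
    generalize (lc o * lc a * lc b : W L C2) = D
    group
  · rw [MonoidHom.comp_apply, k2, map_mul τ _ (_ ^ _), map_mul τ (_ ^ _), map_mul τ _ (_ ^ _),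
      map_mul τ (_ ^ _), hZ, hZ, map_zpow, map_zpow, hD, h2]
    generalize (lc o * lc a * lc b : W L C2) = D
    generalize (lc a * lc b : W L C2) = E
    group
  · rw [MonoidHom.comp_apply, k3, map_mul τ _ (_ ^ _), map_mul τ (_ ^ _), map_mul τ _ (_ ^ _),
      map_mul τ (_ ^ _), hZ, hZ, map_zpow, map_zpow, hD, h3]
    generalize (lc o * lc a * lc b : W L C2) = D
    generalize (lc a * lc b : W L C2) = E
    group

theorem two_OA (hoa : o ≠ a) (hob : o ≠ b) (hab : a ≠ b) (σ : Bool) :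
    Ex_OA o a b ((TP o a b (!σ)).comp (TP o a b σ)) (if σ = true then 1 else -1) := by
  cases σ <;> refine ⟨?_, ?_, ?_⟩ <;>
    simp [TP_o hoa hob hab, TP_a hoa hab, TP_b hob hab, mul_assoc, zpow_ofNat, pow_two]

theorem ex_OA (hoa : o ≠ a) (hob : o ≠ b) (hab : a ≠ b) (σ : Bool) (j : ℕ) :
    Ex_OA o a b (TT o a b (2 * j) σ) (if σ = true then j else -j) := by
  induction j with
  | zero => refine ⟨?_, ?_, ?_⟩ <;> simp [TT]
  | succ j ih =>
    have h := comp_OA ih (two_OA hoa hob hab σ)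
    have e1 : TT o a b (2 * (j + 1)) σ =
        (TT o a b (2 * j) σ).comp ((TP o a b (!σ)).comp (TP o a b σ)) := by
      show ((TT o a b (2 * j) (!!σ)).comp (TP o a b (!σ))).comp (TP o a b σ) = _
      rw [Bool.not_not]
      rfl
    have e2 : (if σ = true then ((j + 1 : ℕ) : ℤ) else -((j + 1 : ℕ) : ℤ)) =
        (if σ = true then (j : ℤ) else -j) + (if σ = true then 1 else -1) := by
      cases σ <;> simp; ring
    rw [e1, e2]
    exact h

theorem form_OA {h : W L C2} (hh : Sup {o, a} h) :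
    ∃ k : ℤ, h = (lc o * lc a) ^ k ∨ h = (lc o * lc a) ^ k * lc o := by
  have e1 : ∀ k : ℤ, lc o * (lc o * lc a) ^ k = (lc o * lc a) ^ (-k) * lc o := by
    intro k
    have : (lc o * lc a : W L C2)⁻¹ = lc o * (lc o * lc a) * (lc o)⁻¹ := by simp
    rw [zpow_neg, ← inv_zpow, this, conj_zpow]
    simp [mul_assoc]
  have e2 : (lc a : W L C2) = (lc o * lc a) ^ (-1 : ℤ) * lc o := by simp [mul_assoc]
  have ho : ∀ g : W L C2, (∃ k : ℤ, g = (lc o * lc a) ^ k ∨ g = (lc o * lc a) ^ k * lc o) →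
      ∃ k : ℤ, lc o * g = (lc o * lc a) ^ k ∨ lc o * g = (lc o * lc a) ^ k * lc o := by
    rintro g ⟨k, rfl | rfl⟩
    · exact ⟨-k, Or.inr (e1 k)⟩
    · exact ⟨-k, Or.inl (by rw [← mul_assoc, e1, mul_assoc, lc_mul, mul_one])⟩
  refine sup_ind (p := fun g => ∃ k : ℤ, g = (lc o * lc a) ^ k ∨ g = (lc o * lc a) ^ k * lc o)
    ⟨0, Or.inl (by simp)⟩ (fun l hl x g hg => ?_) hh
  rcases c2_cases x with rfl | rfl
  · simpa using hg
  · rcases hl with rfl | rfl
    · exact ho g hg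
    · obtain ⟨k, h1⟩ := ho g hg
      have e3 : (lt l c2 : W L C2) * g = (lc o * lc l) ^ (-1 : ℤ) * (lc o * g) := by
        rw [← mul_assoc, ← e2]
        rfl
      refine ⟨-1 + k, h1.imp (fun h1 => ?_) fun h1 => ?_⟩
      · rw [e3, h1, zpow_add]
      · rw [e3, h1, zpow_add, mul_assoc]

theorem bob_OA (hoa : o ≠ a) (hob : o ≠ b) (hab : a ≠ b) {i : ℤ} (hi : i ≠ 0) : [b, o, b].Sublist
    (lab ((lc o * lc a * lc b) ^ i * lc o * (lc o * lc a * lc b) ^ (-i))) := by
  rcases lt_or_gt_of_ne hi with hi | hi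
  · have e : lab (lc b * lc a * lc o * (lc a * lc b)) = [b, a, o, a, b] := by
      rw [lab_mul_W] <;> simp [lab_lc3 hab.symm hoa.symm, lab_lc2 hab, hoa]
    have hc : CB o (lc b * lc a * lc o * (lc a * lc b)) := by
      unfold CB; rw [e]; simpa using hob.symm
    refine List.Sublist.trans ?_ (subB hoa hob hab 1 (by omega) hc (by simp [mul_assoc]))
    rw [e]
    exact ((((List.Sublist.refl [b]).cons a).cons_cons o).cons a).cons_cons b
  · have hc : CA o (lc o) := by unfold CA; simp [lab_lc]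
    have e := conjA hoa hob hab hc
    have hc' := (powA hoa hob hab hc 1).1
    refine List.Sublist.trans ?_ (subA hoa hob hab 1 (by omega) hc' rfl)
    simp only [Nat.cast_one, zpow_neg, zpow_one]
    rw [e, lab_lc]
    exact ((((List.Sublist.cons_cons b (by simp)).cons_cons o).cons_cons b).cons a).cons o

theorem dih_OA (hob : o ≠ b) (hab : a ≠ b) : ∃ φ : W L C2 →* DihedralGroup 0,
    φ (lc o) = sr 0 ∧ φ (lc a) = sr 0 ∧ φ (lc b) = sr 1 := by
  obtain ⟨f0, h0⟩ := c2_lift (DihedralGroup 0) (sr 0) (by rw [pow_two, sr_mul_self])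
  obtain ⟨f1, h1⟩ := c2_lift (DihedralGroup 0) (sr 1) (by rw [pow_two, sr_mul_self])
  refine ⟨lf fun l => if l = b then f1 else f0, ?_, ?_, ?_⟩
  · rw [lc, lf_lt, if_neg hob, h0]
  · rw [lc, lf_lt, if_neg hab, h0]
  · rw [lc, lf_lt, if_pos rfl, h1]

theorem pow_OA (i : ℤ) :
    (sr 1 : DihedralGroup 0) ^ i = 1 ∨ (sr 1 : DihedralGroup 0) ^ i = sr 1 := by
  have h2 : (sr 1 : DihedralGroup 0) ^ (2 : ℤ) = 1 := by rw [zpow_ofNat, pow_two, sr_mul_self]
  rcases Int.even_or_odd' i with ⟨k, rfl | rfl⟩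
  · exact Or.inl (by rw [zpow_mul, h2, one_zpow])
  · exact Or.inr (by rw [zpow_add, zpow_mul, h2, one_zpow, one_mul, zpow_one])

/-- the rotation by an integer -/
def rz_OA (m : ℤ) : DihedralGroup 0 := r m

/-- the reflection attached to an integer -/
def sz_OA (m : ℤ) : DihedralGroup 0 := sr m

theorem first_OA (hob : o ≠ b) (hab : a ≠ b) {τ : W L C2 →* W L C2} {i : ℤ}
    (hi : i ≠ 0) (hτ : Ex_OA o a b τ i) {h : W L C2} (hh : Sup {o, a} h)
    (hs : Sup {o, a} (τ h)) : h = 1 ∨ h = lc o := by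
  obtain ⟨φ, p0, pa, pb⟩ := dih_OA hob hab
  have rr : ∀ m n : ℤ, rz_OA m * rz_OA n = rz_OA (m + n) := fun _ _ => rfl
  have rs : ∀ m n : ℤ, rz_OA m * sz_OA n = sz_OA (n - m) := fun _ _ => rfl
  have sr' : ∀ m n : ℤ, sz_OA m * rz_OA n = sz_OA (m + n) := fun _ _ => rfl
  have ss : ∀ m n : ℤ, sz_OA m * sz_OA n = rz_OA (n - m) := fun _ _ => rfl
  have rp : ∀ m k : ℤ, rz_OA m ^ k = rz_OA (m * k) := fun m k => r_zpow (n := 0) m k
  have ri : ∀ m n : ℤ, rz_OA m = rz_OA n → m = n := fun m n h => r.inj h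
  have si : ∀ m n : ℤ, sz_OA m = sz_OA n → m = n := fun m n h => sr.inj h
  have ne : ∀ m n : ℤ, rz_OA m ≠ sz_OA n := fun m n h => by cases h
  have q0 : φ (lc o) = sz_OA 0 := p0
  have qa : φ (lc a) = sz_OA 0 := pa
  have qb : φ (lc b) = sz_OA 1 := pb
  have hD : φ (lc o * lc a * lc b) = sz_OA 1 := by
    rw [map_mul, map_mul, q0, qa, qb, ss, rs]
    simp
  have hE : φ (lc a * lc b) = rz_OA 1 := by
    rw [map_mul, qa, qb, ss]
    simp
  have hval : φ (τ h) = rz_OA 0 ∨ φ (τ h) = sz_OA 0 := by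
    obtain ⟨k, h1 | h1⟩ := form_OA hs
    · left
      rw [h1, map_zpow, map_mul, q0, qa, ss, rp]
      simp
    · right
      rw [h1, map_mul, map_zpow, map_mul, q0, qa, ss, rp, rs]
      simp
  obtain ⟨c, hc, hc1, hc2⟩ : ∃ c : DihedralGroup 0, (c = rz_OA 0 ∨ c = sz_OA 1) ∧
      sz_OA 1 ^ i = c ∧ sz_OA 1 ^ (-i) = c := by
    rcases pow_OA i with h1 | h1
    · exact ⟨_, Or.inl rfl, h1, by rw [zpow_neg, show sz_OA 1 ^ i = 1 from h1, inv_one]; rfl⟩
    · exact ⟨_, Or.inr rfl, h1, by rw [zpow_neg, show sz_OA 1 ^ i = sz_OA 1 from h1]; rfl⟩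
  have t0 : φ (τ (lc o)) = c * sz_OA 0 * c := by
    rw [hτ.1, map_mul φ _ (_ ^ _), map_mul φ (_ ^ _), map_zpow, map_zpow, hD, q0, hc1, hc2]
  have ta : φ (τ (lc a)) = c * sz_OA (4 * i) * c := by
    rw [hτ.2.1, map_mul φ _ (_ ^ _), map_mul φ (_ ^ _), map_mul φ _ (_ ^ _), map_mul φ (_ ^ _),
      map_zpow, map_zpow, map_zpow, map_zpow, hD, hE, qa, hc1, hc2, rp, rp, rs, sr']
    congr 3
    ring
  obtain ⟨k, rfl | rfl⟩ := form_OA hh
  · have hk : k = 0 := by
      rw [map_zpow, map_zpow, map_mul, map_mul, t0, ta] at hval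
      rcases hc with rfl | rfl <;> simp only [rr, rs, sr', ss, rp] at hval <;>
        rcases hval with h1 | h1
      · have h2 := ri _ _ h1
        have h3 : i * k = 0 := by linarith
        exact (mul_eq_zero.1 h3).resolve_left hi
      · exact (ne _ _ h1).elim
      · have h2 := ri _ _ h1
        have h3 : i * k = 0 := by linarith
        exact (mul_eq_zero.1 h3).resolve_left hi
      · exact (ne _ _ h1).elim
    exact Or.inl (by rw [hk, zpow_zero])
  · have hk : k = 0 := by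
      rw [map_mul, map_mul, map_zpow, map_zpow, map_mul, map_mul, t0, ta] at hval
      rcases hc with rfl | rfl <;> simp only [rr, rs, sr', ss, rp] at hval <;>
        rcases hval with h1 | h1
      · exact (ne _ _ h1.symm).elim
      · have h2 := si _ _ h1
        have h3 : i * k = 0 := by linarith
        exact (mul_eq_zero.1 h3).resolve_left hi
      · exact (ne _ _ h1.symm).elim
      · have h2 := si _ _ h1
        have h3 : 4 * (i * k) + 2 = 0 := by linarith
        omega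
    exact Or.inr (by rw [hk, zpow_zero, one_mul])

end

theorem s_oa : S_OA := by
  intro L o a b hoa hob hab n σ hn he
  obtain ⟨j, rfl⟩ : ∃ j, n = 2 * j := he.two_dvd
  have hτ := ex_OA hoa hob hab σ j
  have hi : (if σ = true then (j : ℤ) else -j) ≠ 0 := by split_ifs <;> omega
  have h2 : [b, o, b].Sublist (lab (TT o a b (2 * j) σ (lc o))) := by
    rw [hτ.1]
    exact bob_OA hoa hob hab hi
  refine ⟨fun h hh h1 => ?_, h2⟩
  by_contra hb
  have h3 : Sup {o, a, b} h := fun l hl => by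
    rcases hh l hl with h | h <;> simp [show l = _ from h]
  have h4 : Sup {o, a} (TT o a b (2 * j) σ h) := fun l hl => by
    rcases sup_TT hoa hob hab (2 * j) σ h3 l hl with h | h | h
    · exact Or.inl h
    · exact Or.inr h
    · exact (hb ((show l = b from h) ▸ hl)).elim
  rcases first_OA hob hab hi hτ hh h4 with h5 | h5
  · exact h1 h5
  · exact hb (h5 ▸ h2.subset (by simp))

end Pool.Agent.E5f.G2

end

section

/-!
Retractions shorten the list of labels, monotone local terms, and repetitions after a touch.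
-/

set_option autoImplicit false

namespace Pool.Agent.E5f.G2

open Classical

theorem lab_lt_mul_SB {L : Type} (l : L) (x : C2) (g : W L C2) :
    (lab (lt l x * g)).Sublist (l :: lab g) := by
  unfold lab
  rcases wd_lt_mul l x g with ⟨-, h⟩ | ⟨-, -, h⟩ | ⟨t, h1, h⟩ | ⟨y, t, h1, -, h⟩
  · rw [h]; exact List.sublist_cons_self _ _
  · rw [h]; exact List.Sublist.refl _
  · rw [h, h1]
    exact (List.sublist_cons_self _ _).trans (List.sublist_cons_self _ _)
  · rw [h, h1]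
    exact List.sublist_cons_self _ _

theorem lab_ret_ev_SB {L : Type} (A : Set L) (w : List (L × C2)) :
    (lab (ret A (ev w))).Sublist (w.map Prod.fst) := by
  induction w with
  | nil => simp
  | cons e w ih =>
    rw [ev_cons, map_mul, ret_lt, List.map_cons]
    split_ifs with h
    · exact (lab_lt_mul_SB _ _ _).trans (ih.cons_cons _)
    · rw [one_mul]; exact ih.cons _

theorem lab_ret_SB {L : Type} (A : Set L) (g : W L C2) : (lab (ret A g)).Sublist (lab g) := by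
  have := lab_ret_ev_SB A (wd g)
  rwa [ev_wd] at this

theorem var_ends_SB {L : Type} (u : L → ℝ) (x : ℝ) {s : List L} (hs : s ≠ []) :
    Var (x :: (s.map u ++ [x])) =
      |Wall.hdv u s - x| + Var (s.map u) + |x - Wall.lsv u s| := by
  have h1 : Var (x :: (s.map u ++ [x])) = |Wall.hdv u s - x| + Var (s.map u ++ [x]) := by
    obtain ⟨a, s1, rfl⟩ := List.exists_cons_of_ne_nil hs
    simp only [List.map_cons, List.cons_append, Var_cons2]
    rfl
  have h2 : Var (s.map u ++ [x]) = Var (s.map u) + |x - Wall.lsv u s| := by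
    rcases List.eq_nil_or_concat s with h | ⟨t, c, h⟩
    · exact absurd h hs
    · simp only [List.concat_eq_append] at h
      have := Var_split (t.map u) (u c) [x]
      rw [h, Wall.lsv_concat, List.map_append, List.append_assoc]
      simp only [List.map_cons, List.map_nil, List.cons_append, List.nil_append]
      rw [this, Var_cons2, Var_single, add_zero]
  rw [h1, h2, add_assoc]

theorem cL_eq_SB {L : Type} {u : L → ℝ} (hu : ∀ x, u x = 0 ∨ u x = 1) {s : List L} (hs : s ≠ []) :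
    cL u s = Var (0 :: (s.map u ++ [0])) ∧ cR u s + 2 = Var (1 :: (s.map u ++ [1])) := by
  rw [var_ends_SB u 0 hs, var_ends_SB u 1 hs]
  unfold cL cR
  obtain ⟨a, -, ha⟩ := Wall.hdv_mem u hs
  obtain ⟨b, -, hb⟩ := Wall.lsv_mem u hs
  rw [ha, hb]
  rcases hu a with h | h <;> rcases hu b with h' | h' <;> rw [h, h'] <;> constructor <;>
    norm_num <;> ring

theorem s_sb : S_SB := by
  intro L
  refine ⟨lab_ret_SB, fun u hu s t hs hst => ?_⟩
  have ht : t ≠ [] := by
    rintro rfl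
    exact hs (List.sublist_nil.1 hst)
  obtain ⟨a1, a2⟩ := cL_eq_SB hu hs
  obtain ⟨b1, b2⟩ := cL_eq_SB hu ht
  have h0 := Wall.var_sublist_cons ((hst.map u).append_right [0]) 0
  have h1 := Wall.var_sublist_cons ((hst.map u).append_right [1]) 1
  constructor <;> linarith

theorem expo_ret_SB {L : Type} {T : Set L} {p : L} (hp : p ∈ T) (g : W L C2) :
    expo p (ret T g) = expo p g := by
  have : (expo p).comp (ret T) = (expo p : W L C2 →* C2) := by
    refine W_ext (fun l x => ?_)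
    rw [MonoidHom.comp_apply, ret_lt]
    by_cases h : l ∈ T
    · rw [if_pos h]
    · rw [if_neg h, map_one, expo_lt, if_neg (fun e : l = p => h (e ▸ hp))]
  exact DFunLike.congr_fun this g

theorem ret_ne_SB {L : Type} {T : Set L} {p : L} (hp : p ∈ T) {h : W L C2} (hN : (lab h).Nodup)
    (hph : p ∈ lab h) : ret T h ≠ 1 := by
  intro e
  have h1 := expo_ret_SB hp h
  have h2 : h = pl c2 (lab h) := Wall.eq_prod_lc h
  have h3 := expo_pl p c2 hN
  rw [← h2, if_pos hph] at h3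
  rw [e, map_one, h3] at h1
  exact Wall.c2_ne h1.symm

theorem key_SB (hs : S_SB) {L : Type} {o a b : L} (hoa : o ≠ a) (hob : o ≠ b) (hab : a ≠ b)
    {n : ℕ} (hn : 2 ≤ n) {σ : Bool} {h k : W L C2}
    (e : ret {o, a, b} k = Wall.TT o a b n σ (ret {o, a, b} h)) (hN : (lab h).Nodup) {p y : L}
    (hp : p = o ∨ p = a ∨ p = b) (hph : p ∈ lab h) (hy : y = o ∨ y = a ∨ y = b)
    (hyh : y ∉ lab h) : ¬ (lab k).Nodup := by
  intro hk
  have s1 := (hs L).1 {o, a, b} h
  have s2 := (hs L).1 {o, a, b} k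
  refine Wall.MX hoa hob hab hn σ (sup_ret {o, a, b} h) (ret_ne_SB (p := p) hp hN hph)
    (hN.sublist s1) hy (fun hm => hyh (s1.subset hm)) ?_
  rw [← e]
  exact hk.sublist s2

theorem s_tm (hs : S_SB) : S_TM := by
  intro L o a c b n τ Q hn h hh h1 hN y hy hyh
  obtain ⟨σ1, r1⟩ := Q.r1
  obtain ⟨σ2, r2⟩ := Q.r2
  have k1 := fun p y => key_SB hs Q.oa Q.ob Q.ab hn (r1 h hh) hN (p := p) (y := y)
  have k2 := fun p y => key_SB hs Q.ac Q.ab Q.cb hn (r2 h hh) hN (p := p) (y := y)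
  by_cases ha : a ∈ lab h
  · rcases hy with e | e | e | e
    · exact k1 a y (Or.inr (Or.inl rfl)) ha (Or.inl e) hyh
    · exact absurd (e ▸ ha) hyh
    · exact k2 a y (Or.inl rfl) ha (Or.inr (Or.inl e)) hyh
    · exact k1 a y (Or.inr (Or.inl rfl)) ha (Or.inr (Or.inr e)) hyh
  · obtain ⟨x, hx⟩ := List.exists_mem_of_ne_nil (lab h) (fun e => h1 (Wall.lab_eq_nil.1 e))
    rcases hh x hx with e | e | e | e
    · exact k1 x a (Or.inl e) hx (Or.inr (Or.inl rfl)) ha
    · exact absurd (e ▸ hx) ha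
    · exact k2 x a (Or.inr (Or.inl e)) hx (Or.inl rfl) ha
    · exact k1 x a (Or.inr (Or.inr e)) hx (Or.inr (Or.inl rfl)) ha

end Pool.Agent.E5f.G2

end

section

set_option autoImplicit false

namespace Pool.Agent.E5f.G2

open Classical

section
variable {L : Type} {o a c b : L} {n : ℕ}

/-- the relation between a word and its image under a three-label touch -/
def Rl_TE (n : ℕ) (o a b : L) (h h' : W L C2) : Prop :=
  ∃ σ, ret {o, a, b} h' = Wall.TT o a b n σ (ret {o, a, b} h)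

theorem symm_TE (oa : o ≠ a) (ob : o ≠ b) (ab : a ≠ b) {h h' : W L C2} (H : Rl_TE n o a b h h') :
    Rl_TE n o a b h' h := by
  obtain ⟨σ, e⟩ := H
  exact ⟨_, by rw [e, Wall.TT_inv oa ob ab n σ (sup_ret _ _)]⟩

theorem sub_TE (hs : S_SB) {h h' : W L C2} (H : Rl_TE n o a b h h') (hh : Sup {o, a, b} h) :
    ∃ σ, (lab (Wall.TT o a b n σ h)).Sublist (lab h') := by
  obtain ⟨σ, e⟩ := H
  rw [sup_iff.1 hh] at e
  exact ⟨σ, e ▸ (hs L).1 _ h'⟩

theorem cL0_TE {u : L → ℝ} (hu : ∀ x, u x = 0 ∨ u x = 1) {s : List L} (h : s ≠ []) :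
    0 ≤ cL u s ∧ -2 ≤ cR u s := by
  obtain ⟨⟨a1, a2⟩, a3, a4⟩ := Wall.ends01 hu h
  have := var_nonneg (s.map u)
  constructor
  · unfold cL
    linarith
  · unfold cR
    linarith

theorem one_TE (hs : S_SB) (ho : S_OA) (oa : o ≠ a) (ob : o ≠ b) (ab : a ≠ b) (hn : 2 ≤ n)
    (he : Even n) {h h' : W L C2} (H : Rl_TE n o a b h h') (h1 : h ≠ 1)
    (h2 : ∀ x ∈ lab h, x = o) {u : L → ℝ} (uo : u o = 0) (ub : u b = 1) :
    4 ≤ cL u (lab h') := by
  obtain ⟨σ, e⟩ := sub_TE hs H fun x hx => Or.inl (h2 x hx)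
  rw [Wall.eq_lc h1 h2] at e
  exact Wall.J101 ((ho L o a b oa ob ab n σ hn he).2.trans e) ub uo ub

theorem three_TE (hs : S_SB) (oa : o ≠ a) (ob : o ≠ b) (ac : a ≠ c) (ab : a ≠ b) (cb : c ≠ b)
    (hn : 2 ≤ n) {h h' : W L C2} (H : Rl_TE n o a b h h') (H' : Rl_TE n a c b h h')
    (hh : Sup {o, a, c, b} h) (h1 : h ≠ 1) {u : L → ℝ} (hu : ∀ x, u x = 0 ∨ u x = 1)
    (uo : u o = 0) (ua : u a = 0) (ub : u b = 1) (h2 : ∀ x ∈ lab h, u x = 1) :
    2 ≤ cR u (lab h') := by
  rcases hu c with uc | uc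
  · have hb : Sup {o, a, b} h := fun x hx => by
      rcases hh x hx with e | e | e | e
      · exact Or.inl e
      · exact Or.inr (Or.inl e)
      · have := h2 x hx
        rw [e, uc] at this
        exact absurd this zero_ne_one
      · exact Or.inr (Or.inr e)
    obtain ⟨σ, e⟩ := sub_TE hs H hb
    obtain ⟨x, y, z, k, ux, uy, uz⟩ := Wall.EV oa ob ab hn σ uo (Or.inr ua) ub hb h1 h2
    exact Wall.J010 (k.trans e) ux uy uz
  · have hb : Sup {a, c, b} h := fun x hx => (hh x hx).resolve_left fun e => by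
      have := h2 x hx
      rw [e, uo] at this
      exact zero_ne_one this
    obtain ⟨σ, e⟩ := sub_TE hs H' hb
    obtain ⟨x, y, z, k, ux, uy, uz⟩ := Wall.EV ac ab cb hn σ ua (Or.inl uc) ub hb h1 h2
    exact Wall.J010 (k.trans e) ux uy uz

end

theorem s_te (hs : S_SB) (ho : S_OA) : S_TE := by
  intro L o a c b n τ Q hn he h hh h1 u hu uo ub
  have h1' : τ h ≠ 1 := fun e => h1 (Q.inj (e.trans (map_one τ).symm))
  have hh' := Q.sup h hh
  have R1 : Rl_TE n o a b h (τ h) := Q.r1.imp fun σ e => e h hh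
  have R2 : Rl_TE n a c b h (τ h) := Q.r2.imp fun σ e => e h hh
  have R1' := symm_TE Q.oa Q.ob Q.ab R1
  have R2' := symm_TE Q.ac Q.ab Q.cb R2
  obtain ⟨l0, r0⟩ := cL0_TE hu (s := lab h) fun e => h1 (Wall.lab_eq_nil.1 e)
  obtain ⟨l0', r0'⟩ := cL0_TE hu (s := lab (τ h)) fun e => h1' (Wall.lab_eq_nil.1 e)
  refine ⟨fun ua uc => ?_, fun ua uc => ?_, fun ua => ?_⟩
  · have key : ∀ g : W L C2, Sup {o, a, c, b} g → (¬∀ x ∈ lab g, x = o) → 2 ≤ cL u (lab g) := by
      intro g hg hx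
      obtain ⟨x, hx, hxo⟩ : ∃ x ∈ lab g, x ≠ o := by simpa using hx
      refine Wall.J1 hx ?_
      rcases hg x hx with e | e | e | e
      · exact absurd e hxo
      · rw [e, ua]
      · rw [e, uc]
      · rw [e, ub]
    by_cases k : ∀ x ∈ lab h, x = o
    · linarith [one_TE hs ho Q.oa Q.ob Q.ab hn he R1 h1 k uo ub]
    · by_cases k' : ∀ x ∈ lab (τ h), x = o
      · linarith [one_TE hs ho Q.oa Q.ob Q.ab hn he R1' h1' k' uo ub]
      · linarith [key h hh k, key _ hh' k']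
  · by_cases k : ∃ x ∈ lab h, u x = 1
    · obtain ⟨x, hx, ux⟩ := k
      have : 2 ≤ cL u (lab h) := Wall.J1 hx ux
      linarith
    · have hoa : Sup {o, a} h := fun x hx => by
        rcases hh x hx with e | e | e | e
        · exact Or.inl e
        · exact Or.inr e
        · exact absurd ⟨x, hx, by rw [e, uc]⟩ k
        · exact absurd ⟨x, hx, by rw [e, ub]⟩ k
      obtain ⟨σ, e⟩ := sub_TE hs R1 fun x hx => (hoa x hx).imp_right Or.inl
      have : 2 ≤ cL u (lab (τ h)) :=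
        Wall.J1 (e.subset ((ho L o a b Q.oa Q.ob Q.ab n σ hn he).1 h hoa h1)) ub
      linarith
  · have key : ∀ g : W L C2, (¬∀ x ∈ lab g, u x = 1) → 0 ≤ cR u (lab g) := by
      intro g hx
      obtain ⟨x, hx, ux⟩ : ∃ x ∈ lab g, u x ≠ 1 := by simpa using hx
      exact Wall.J0 hx ((hu x).resolve_right ux)
    by_cases k : ∀ x ∈ lab h, u x = 1
    · linarith [three_TE hs Q.oa Q.ob Q.ac Q.ab Q.cb hn R1 R2 hh h1 hu uo ua ub k]
    · by_cases k' : ∀ x ∈ lab (τ h), u x = 1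
      · linarith [three_TE hs Q.oa Q.ob Q.ac Q.ab Q.cb hn R1' R2' hh' h1' hu uo ua ub k']
      · linarith [key h k, key _ k']

end Pool.Agent.E5f.G2

end

section

set_option autoImplicit false

namespace Pool.Agent.E5f.G2

open Classical

theorem single_TO {L : Type} {x : L} {g g' : W L C2} (h1 : g ≠ 1) (hg : ∀ y ∈ lab g, y = x)
    (he : expo x g' = expo x g) : x ∈ lab g' := by
  by_contra h3
  have := Wall.expo_of_not_mem h3
  rw [he, Wall.eq_lc h1 hg, Wall.expo_lc, if_pos rfl] at this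
  exact Wall.c2_ne this

theorem bnd_TO {L : Type} {u : L → ℝ} (hu : ∀ x, u x = 0 ∨ u x = 1) {s : List L} (hs : s ≠ []) :
    0 ≤ cL u s ∧ -2 ≤ cR u s := by
  have r := Wall.ends01 hu hs
  have v := var_nonneg (s.map u)
  unfold cL cR
  constructor <;> linarith [r.1.1, r.1.2, r.2.1, r.2.2]

theorem three_TO (hs : S_SB) {L : Type} {o a b x : L} (hoa : o ≠ a) (hob : o ≠ b) (hab : a ≠ b)
    {n : ℕ} {σ : Bool} {h g : W L C2} (h1 : h ≠ 1) (hh : Sup {o, a, b} h) (hx : x ∉ lab h)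
    (e : ret {o, a, b} g = Wall.TT o a b n σ (ret {o, a, b} h))
    (hg : ∀ y ∈ lab g, y ∈ ({o, a, b} : Set L) → y = x) : False := by
  rw [sup_iff.1 hh] at e
  have hne : ret {o, a, b} g ≠ 1 := e ▸ Wall.TT_ne hoa hob hab σ hh h1
  refine hx (single_TO hne (fun y hy => hg y (((hs L).1 _ g).subset hy) (sup_ret _ g y hy)) ?_)
  rw [e, Wall.expo_TT]

theorem common_TO (hs : S_SB) {L : Type} {o a c b : L} {n : ℕ} {τ : W L C2 →* W L C2}
    (Q : Q4 o a c b n τ) {h : W L C2} (hh : Sup {o, a, c, b} h) (h1 : h ≠ 1) {u : L → ℝ}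
    (hu : ∀ x, u x = 0 ∨ u x = 1) (uo : u o = 0) (ub : u b = 1) (uac : u a ≤ u c) :
    ∃ p ∈ lab h, ∃ p' ∈ lab (τ h), u p = u p' := by
  by_contra hc
  push Not at hc
  have h1' : τ h ≠ 1 := fun e => h1 (Q.inj (by rw [e, map_one]))
  have hh' := Q.sup h hh
  obtain ⟨p, hp⟩ := List.exists_mem_of_ne_nil _ (fun e => h1 (Wall.lab_eq_nil.1 e))
  obtain ⟨p', hp'⟩ := List.exists_mem_of_ne_nil _ (fun e => h1' (Wall.lab_eq_nil.1 e))
  have s1 : ∀ x, (∀ y ∈ lab h, y = x) → False := fun x hx =>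
    hc p hp x (single_TO h1 hx (Q.ex x h)) (by rw [hx p hp])
  have s2 : ∀ x, (∀ y ∈ lab (τ h), y = x) → False := fun x hx =>
    hc x (single_TO h1' hx (Q.ex x h).symm) p' hp' (by rw [hx p' hp'])
  have z1 : (0 : ℝ) ≠ 1 := zero_ne_one
  have key : ((∀ y ∈ lab h, u y = 0) ∧ ∀ y ∈ lab (τ h), u y = 1) ∨
      ((∀ y ∈ lab h, u y = 1) ∧ ∀ y ∈ lab (τ h), u y = 0) := by
    rcases hu p with e | e
    · have a1 : ∀ y ∈ lab (τ h), u y = 1 := fun y hy =>
        (hu y).resolve_left (fun e' => hc p hp y hy (e.trans e'.symm))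
      exact Or.inl ⟨fun y hy => (hu y).resolve_right
        (fun e' => hc y hy p' hp' (e'.trans (a1 p' hp').symm)), a1⟩
    · have a1 : ∀ y ∈ lab (τ h), u y = 0 := fun y hy =>
        (hu y).resolve_right (fun e' => hc p hp y hy (e.trans e'.symm))
      exact Or.inr ⟨fun y hy => (hu y).resolve_left
        (fun e' => hc y hy p' hp' (e'.trans (a1 p' hp').symm)), a1⟩
  have zo : u a = 1 → ∀ g : W L C2, Sup {o, a, c, b} g → (∀ y ∈ lab g, u y = 0) →
      ∀ y ∈ lab g, y = o := fun ua g hg h0 y hy => by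
    have uc : u c = 1 := (hu c).resolve_left (fun e => by rw [ua, e] at uac; linarith)
    have := h0 y hy
    rcases hg y hy with e | e | e | e
    · exact e
    · rw [e, ua] at this; exact absurd this.symm z1
    · rw [e, uc] at this; exact absurd this.symm z1
    · rw [e, ub] at this; exact absurd this.symm z1
  have ob : u a = 0 → u c = 0 → ∀ g : W L C2, Sup {o, a, c, b} g → (∀ y ∈ lab g, u y = 1) →
      ∀ y ∈ lab g, y = b := fun ua uc g hg h0 y hy => by
    have := h0 y hy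
    rcases hg y hy with e | e | e | e
    · rw [e, uo] at this; exact absurd this z1
    · rw [e, ua] at this; exact absurd this z1
    · rw [e, uc] at this; exact absurd this z1
    · exact e
  rcases hu a with ua | ua
  · rcases hu c with uc | uc
    · rcases key with k | k
      · exact s2 b (ob ua uc _ hh' k.2)
      · exact s1 b (ob ua uc _ hh k.1)
    · rcases key with k | k
      · obtain ⟨σ, r⟩ := Q.r1
        refine three_TO hs (x := b) Q.oa Q.ob Q.ab h1 (fun y hy => ?_) (fun hb => ?_) (r h hh)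
          (fun y hy hy' => ?_)
        · have := k.1 y hy
          rcases hh y hy with e | e | e | e
          · exact Or.inl e
          · exact Or.inr (Or.inl e)
          · rw [e, uc] at this; exact absurd this.symm z1
          · exact Or.inr (Or.inr e)
        · have := k.1 b hb
          rw [ub] at this; exact z1 this.symm
        · have := k.2 y hy
          rcases hy' with e | e | e
          · rw [e, uo] at this; exact absurd this z1
          · rw [e, ua] at this; exact absurd this z1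
          · exact e
      · obtain ⟨σ, r⟩ := Q.r2
        refine three_TO hs (x := a) Q.ac Q.ab Q.cb h1 (fun y hy => ?_) (fun hb => ?_) (r h hh)
          (fun y hy hy' => ?_)
        · have := k.1 y hy
          rcases hh y hy with e | e
          · rw [e, uo] at this; exact absurd this z1
          · exact e
        · have := k.1 a hb
          rw [ua] at this; exact z1 this
        · have := k.2 y hy
          rcases hy' with e | e | e
          · exact e
          · rw [e, uc] at this; exact absurd this.symm z1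
          · rw [e, ub] at this; exact absurd this.symm z1
  · rcases key with k | k
    · exact s1 o (zo ua _ hh k.1)
    · exact s2 o (zo ua _ hh' k.2)

theorem odd_TO (hs : S_SB) {L : Type} {o a b : L} (hoa : o ≠ a) (hob : o ≠ b) (hab : a ≠ b)
    {n : ℕ} (hn : 2 ≤ n) (ho : ¬ Even n) {σ : Bool} {h g : W L C2}
    (e : ret {o, a, b} g = Wall.TT o a b n σ (ret {o, a, b} h)) (h1 : ret {o, a, b} h ≠ 1)
    {u : L → ℝ} (hu : ∀ x, u x = 0 ∨ u x = 1) (uo : u o = 0) (ua : u a = 1) (ub : u b = 1) :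
    2 ≤ cL u (lab h) + cR u (lab g) := by
  have k := Wall.good_odd hoa hob hab hn σ hu uo ua ub (sup_ret _ h) h1 ho
  have h2 : ret {o, a, b} g ≠ 1 := e ▸ Wall.TT_ne hoa hob hab σ (sup_ret _ h) h1
  have m1 := ((hs L).2 u hu _ _ (fun e => h1 (Wall.lab_eq_nil.1 e)) ((hs L).1 {o, a, b} h)).1
  have m2 := ((hs L).2 u hu _ _ (fun e => h2 (Wall.lab_eq_nil.1 e)) ((hs L).1 {o, a, b} g)).2
  rw [← e] at k
  unfold cL cR at *
  linarith

theorem s_to (hs : S_SB) : S_TO := by
  intro L o a c b n τ Q hn ho h hh h1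
  have h1' : τ h ≠ 1 := fun e => h1 (Q.inj (by rw [e, map_one]))
  have n1 : lab h ≠ [] := fun e => h1 (Wall.lab_eq_nil.1 e)
  have n2 : lab (τ h) ≠ [] := fun e => h1' (Wall.lab_eq_nil.1 e)
  refine ⟨fun u hu uo ub uac => ?_, fun u u' hu hu' uo ua uc ub _ ua' uc' ub' => ?_⟩
  · obtain ⟨p, hp, p', hp', e⟩ := common_TO hs Q hh h1 hu uo ub uac
    have b1 := bnd_TO hu n1
    have b2 := bnd_TO hu n2
    rcases hu p with v | v
    · have j1 := Wall.J0 hp v
      have j2 := Wall.J0 hp' (e.symm.trans v)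
      unfold cL cR at *
      constructor <;> linarith [b1.1, b2.1]
    · have j1 := Wall.J1 hp v
      have j2 := Wall.J1 hp' (e.symm.trans v)
      unfold cL cR at *
      constructor <;> linarith [b1.2, b2.2]
  · obtain ⟨σ, r⟩ := Q.r1
    obtain ⟨σ', r'⟩ := Q.r2
    by_cases c1 : ret {o, a, b} h = 1
    · by_cases c2 : ret {a, c, b} h = 1
      · have hc : c ∈ lab h := by
          by_contra hc
          refine h1 ((sup_iff.1 (fun y hy => ?_ : Sup {o, a, b} h)).symm.trans c1)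
          rcases hh y hy with e | e | e | e
          · exact Or.inl e
          · exact Or.inr (Or.inl e)
          · exact absurd (e ▸ hy) hc
          · exact Or.inr (Or.inr e)
        have ho' : o ∈ lab (τ h) := by
          by_contra hc'
          have e := r' h hh
          rw [c2, map_one] at e
          refine h1' ((sup_iff.1 (fun y hy => ?_ : Sup {a, c, b} (τ h))).symm.trans e)
          rcases Q.sup h hh y hy with e | e
          · exact absurd (e ▸ hy) hc'
          · exact e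
        have j1 := Wall.J1 hc uc
        have j2 := Wall.J0 ho' uo
        left
        unfold cL cR
        linarith
      · exact Or.inr (odd_TO hs Q.ac Q.ab Q.cb hn ho (r' h hh) c2 hu' ua' uc' ub')
    · exact Or.inl (odd_TO hs Q.oa Q.ob Q.ab hn ho (r h hh) c1 hu uo ua ub)

end Pool.Agent.E5f.G2

end

section

/-! The gain at an essential touch with four types. -/

set_option autoImplicit false
set_option linter.unusedSimpArgs false
set_option linter.unusedSectionVars false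

namespace Pool.Agent.E5f.G2

open Classical Wall

section
variable {L κ B : Type} [LinearOrder κ]

/-- The run misses a label of its full block. -/
def Pm_T3 (S : Set L) (ty : L → Fin 4) (bk : L → B) (r : List L) : Prop :=
  ∃ x ∈ r, Full S ty bk x ∧ ∃ y ∈ S, bk y = bk x ∧ y ∉ r

/-- Clean syllables: monotone in the direction of the neighbours and not mixed. -/
def Cln_T3 (S : Set L) (k : L → κ) (ty : L → Fin 4) (bk : L → B) (e1 e2 : ℝ)
    (x : B × List L × List L) : Prop :=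
  ∃ d, e1 = sgb d ∧ e2 = -sgb d ∧ Mono k d x.2.1 ∧ ¬ Pm_T3 S ty bk x.2.1

/-- The extra telescoping coefficient of an even touch. -/
noncomputable def off_T3 (w : Fin 4 → ℝ) (n : ℕ) : ℝ := if Even n then 4 * w 1 else 0

theorem cL_T3 {u : L → ℝ} (hu : ∀ x, u x = 0 ∨ u x = 1) {s : List L} (hs : s ≠ []) :
    0 ≤ cL u s ∧ -2 ≤ cR u s := by
  obtain ⟨a, -, ha⟩ := hdv_mem u hs
  obtain ⟨b, -, hb⟩ := lsv_mem u hs
  have hv := var_nonneg_W (s.map u)
  rw [cL, cR, ha, hb]
  rcases hu a with h | h <;> rcases hu b with h' | h' <;> rw [h, h'] <;> constructor <;> linarith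

theorem lin_sub_T3 (k : L → κ) (ρ : L → ℝ) (t : ℝ) (p : List L) :
    lin k (fun x => ρ x - t) p = lin k ρ p := by
  induction p with
  | nil => simp [lin]
  | cons a l ih =>
    rcases l with _ | ⟨b, l⟩
    · simp [lin]
    · rw [lin, lin, ih]
      split_ifs <;> ring

variable {S : Set L} {kk : Bool → L → κ} {ty : L → Fin 4} {bk : L → B} (hB : Blk kk ty bk)
include hB

theorem blk_mem_T3 {o a c b : L} (ha : bk a = bk o) (hc : bk c = bk o) (hb : bk b = bk o)
    (t0 : ty o = 0) (t1 : ty a = 1) (t2 : ty c = 2) (t3 : ty b = 3) {x : L} (hx : bk x = bk o) :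
    x = o ∨ x = a ∨ x = c ∨ x = b := by
  have : ty x = 0 ∨ ty x = 1 ∨ ty x = 2 ∨ ty x = 3 := by generalize ty x = i; revert i; decide
  rcases this with h | h | h | h
  · exact Or.inl (hB.uniq _ _ hx (h.trans t0.symm))
  · exact Or.inr (Or.inl (hB.uniq _ _ (hx.trans ha.symm) (h.trans t1.symm)))
  · exact Or.inr (Or.inr (Or.inl (hB.uniq _ _ (hx.trans hc.symm) (h.trans t2.symm))))
  · exact Or.inr (Or.inr (Or.inr (hB.uniq _ _ (hx.trans hb.symm) (h.trans t3.symm))))

theorem refi_blk_T3 {f : Fin 4 → ℝ} (hf : Monotone f) (sd : Bool) (β : B) :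
    Refi (kk sd) (fun l => sgb sd * f (ty l)) (bk ⁻¹' {β}) := by
  intro a ha b hb
  have e : bk a = bk b := ha.trans hb.symm
  cases sd
  · rw [hB.minus a b e]
    simp only [sgb, Bool.false_eq_true, if_false, neg_mul, one_mul, neg_le_neg_iff]
    exact ⟨fun h => hf h.le, fun h => hf (not_lt.1 h)⟩
  · rw [hB.plus a b e]
    simp only [sgb, if_true, one_mul]
    exact ⟨fun h => hf h.le, fun h => hf (not_lt.1 h)⟩

theorem sign_T3 {f : Fin 4 → ℝ} (hf : Monotone f) (s : Bool) {β : B} {t : List L}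
    (ht : ∀ x ∈ t, x ∈ bk ⁻¹' {β}) (e : ℝ) :
    (sgb s * e = 1 → loc (kk s) (fun l => sgb s * f (ty l)) e e t = cL (fun l => f (ty l)) t) ∧
    (sgb s * e = -1 →
      loc (kk s) (fun l => sgb s * f (ty l)) e e t = cR (fun l => f (ty l)) t) := by
  rw [loc_sign (u := fun l => f (ty l)) (sgb_cases s) (refi_blk_T3 hB hf s β) ht]
  refine ⟨fun h => ?_, fun h => ?_⟩
  · rw [h, cL]; ring
  · rw [h, cR]; ring

variable {w : Fin 4 → ℝ} {δ : ℝ} (w0 : w 0 = 0) (d0 : 0 < δ)
  (hd : ∀ i j, i < j → δ ≤ w j - w i)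
include w0 d0 hd

omit hB in
theorem w_mono_T3 : Monotone w := by
  intro i j h
  rcases h.eq_or_lt with rfl | h
  · exact le_rfl
  · linarith [hd i j h]

omit hB in
theorem w_bd_T3 (i : Fin 4) : 0 ≤ w i ∧ w i ≤ w 3 :=
  ⟨w0 ▸ w_mono_T3 w0 d0 hd (Fin.zero_le i), w_mono_T3 w0 d0 hd (Fin.le_last i)⟩

omit hB in
theorem off_bd_T3 (n : ℕ) : 0 ≤ off_T3 w n ∧ off_T3 w n ≤ 4 * w 3 := by
  have h1 := w_bd_T3 w0 d0 hd 1
  unfold off_T3
  split_ifs <;> constructor <;> linarith [h1.1, h1.2]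

theorem w_gap_T3 {x y : L} (h : bk x = bk y) (hn : x ≠ y) : δ ≤ |w (ty y) - w (ty x)| := by
  have h1 : ty x ≠ ty y := fun e => hn (hB.uniq x y h e)
  rw [le_abs]
  rcases lt_or_gt_of_ne h1 with h2 | h2
  · exact Or.inl (hd _ _ h2)
  · exact Or.inr (by linarith [hd _ _ h2])

theorem var_len_T3 {β : B} {s : List L} (hr : Rd s) (hs : ∀ a ∈ s, bk a = β) :
    δ * (s.length - 1) ≤ Var (s.map (fun l => w (ty l))) := by
  induction s with
  | nil => simpa [Var] using d0.le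
  | cons a s ih =>
    rcases s with _ | ⟨b, s⟩
    · simp [Var]
    · have h1 := ih hr.tail (fun x hx => hs x (List.mem_cons_of_mem _ hx))
      have h2 := w_gap_T3 hB w0 d0 hd ((hs a (by simp)).trans (hs b (by simp)).symm)
        (List.isChain_cons_cons.1 hr).1
      simp only [List.map_cons, var_cons_W, List.length_cons] at h1 ⊢
      push_cast at h1 ⊢
      linarith

theorem loc_crude_T3 (sd : Bool) {β : B} {s : List L} (hn : s ≠ []) (hs : ∀ a ∈ s, bk a = β)
    {e1 e2 : ℝ} (h1 : |e1| ≤ 1) (h2 : |e2| ≤ 1) :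
    Var (s.map (fun l => w (ty l))) - 2 * w 3 ≤
      loc (kk sd) (fun l => sgb sd * w (ty l)) e1 e2 s := by
  rw [loc_sign (u := fun l => w (ty l)) (sgb_cases sd) (refi_blk_T3 hB (w_mono_T3 w0 d0 hd) sd β) hs]
  obtain ⟨a, -, ha⟩ := hdv_mem (fun l => w (ty l)) hn
  obtain ⟨b, -, hb⟩ := lsv_mem (fun l => w (ty l)) hn
  rw [ha, hb]
  have q : ∀ (e : ℝ) (i : Fin 4), |e| ≤ 1 → -w 3 ≤ sgb sd * e * w i := fun e i he => by
    have := w_bd_T3 w0 d0 hd i
    have := abs_le.1 he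
    rcases sgb_cases sd with h | h <;> rw [h] <;> nlinarith
  linarith [q e1 (ty a) h1, q e2 (ty b) h2]

theorem loc_lr_T3 (sd d : Bool) {β : B} {s : List L} (hn : s ≠ []) (hs : ∀ a ∈ s, bk a = β) :
    0 ≤ loc (kk sd) (fun l => sgb sd * w (ty l)) (sgb d) (-sgb d) s ∧
    (Rd s → ¬ Mono (kk sd) d s → 2 * δ ≤
      loc (kk sd) (fun l => sgb sd * w (ty l)) (sgb d) (-sgb d) s) := by
  have R := refi_blk_T3 hB (w_mono_T3 w0 d0 hd) sd β
  have gp : ∀ x ∈ s, ∀ y ∈ s, x ≠ y →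
      δ ≤ |sgb sd * w (ty y) - sgb sd * w (ty x)| := fun x hx y hy h => by
    have := w_gap_T3 hB w0 d0 hd ((hs x hx).trans (hs y hy).symm) h
    rw [← mul_sub, abs_mul]
    rcases sgb_cases sd with h | h <;> rw [h] <;> simpa using this
  rw [loc, wLin_eq_var _ _ (fun a ha b hb => R a (hs a ha) b (hs b hb))]
  generalize hρ : (fun l => sgb sd * w (ty l)) = ρ at R ⊢
  have hρ' : ∀ l, sgb sd * w (ty l) = ρ l := fun l => congrFun hρ l
  simp only [hρ'] at gp
  refine ⟨?_, fun hr hm => ?_⟩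
  · have := abs_le.1 (var_ge_zero ρ hn)
    rcases sgb_cases d with h | h <;> rw [h] <;> linarith [this.1, this.2]
  · rw [Mono, List.isChain_iff_forall_rel_of_append_cons_cons] at hm
    push Not at hm
    obtain ⟨x, y, A, C, e, hm⟩ := hm
    have hx : x ∈ s := by simp [e]
    have hy : y ∈ s := by simp [e]
    have g1 := gp x hx y hy (List.isChain_iff_forall_rel_of_append_cons_cons.1 hr e)
    have v := var_sub_ends ρ hn (t := [x, y]) (by
      rw [e]
      exact List.Sublist.trans (by simp) (List.sublist_append_right _ _))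
    simp only [List.map_cons, List.map_nil, List.cons_append, List.nil_append, Var] at v
    cases d
    · have := (R y (hs y hy) x (hs x hx)).2 (by simpa using hm)
      rw [abs_of_nonneg (sub_nonneg.2 this)] at g1 v
      simp only [sgb, Bool.false_eq_true, if_false]
      linarith [neg_abs_le (ρ x - hdv ρ s), neg_abs_le (lsv ρ s - ρ y)]
    · have := (R x (hs x hx) y (hs y hy)).2 (by simpa using hm)
      rw [abs_of_nonpos (sub_nonpos.2 this)] at g1 v
      simp only [sgb, if_true]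
      linarith [le_abs_self (ρ x - hdv ρ s), le_abs_self (lsv ρ s - ρ y)]

theorem loc_ll_T3 (hE : S_TE) (hO : S_TO) {o a c b : L} (qa : bk a = bk o) (qc : bk c = bk o)
    (qb : bk b = bk o) (t0 : ty o = 0) (t1 : ty a = 1) (t2 : ty c = 2) (t3 : ty b = 3) {n : ℕ}
    (hn : 2 ≤ n) {τ : W L C2 →* W L C2} (hQ : Q4 o a c b n τ) (sd : Bool) {sd' : Bool}
    (hsd : sd' = if Even n then sd else !sd) {h : W L C2} (hh : Sup {o, a, c, b} h) (h1 : h ≠ 1)
    (e : ℝ) :
    (sgb sd * e = -1 → 0 ≤ loc (kk sd) (fun l => sgb sd * w (ty l)) e e (lab h) +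
      loc (kk sd') (fun l => sgb sd' * w (ty l)) e e (lab (τ h)) + off_T3 w n) ∧
    (sgb sd * e = 1 → 2 * δ ≤ loc (kk sd) (fun l => sgb sd * w (ty l)) e e (lab h) +
      loc (kk sd') (fun l => sgb sd' * w (ty l)) e e (lab (τ h)) - off_T3 w n) := by
  let f1 : Fin 4 → ℝ := ![0, 1, 1, 1]
  let f2 : Fin 4 → ℝ := ![0, 0, 1, 1]
  let f3 : Fin 4 → ℝ := ![0, 0, 0, 1]
  have m1 : Monotone f1 := by
    intro i j h
    fin_cases i <;> fin_cases j <;> simp [f1] at h ⊢
  have m2 : Monotone f2 := by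
    intro i j h
    fin_cases i <;> fin_cases j <;> simp [f2] at h ⊢
  have m3 : Monotone f3 := by
    intro i j h
    fin_cases i <;> fin_cases j <;> simp [f3] at h ⊢
  have z1 : ∀ l, f1 (ty l) = 0 ∨ f1 (ty l) = 1 := fun l => by
    generalize ty l = i; fin_cases i <;> simp [f1]
  have z2 : ∀ l, f2 (ty l) = 0 ∨ f2 (ty l) = 1 := fun l => by
    generalize ty l = i; fin_cases i <;> simp [f2]
  have z3 : ∀ l, f3 (ty l) = 0 ∨ f3 (ty l) = 1 := fun l => by
    generalize ty l = i; fin_cases i <;> simp [f3]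
  have dc : ∀ (s : Bool) (t : List L), loc (kk s) (fun l => sgb s * w (ty l)) e e t =
      w 1 * loc (kk s) (fun l => sgb s * f1 (ty l)) e e t +
        1 * ((w 2 - w 1) * loc (kk s) (fun l => sgb s * f2 (ty l)) e e t +
          (w 3 - w 2) * loc (kk s) (fun l => sgb s * f3 (ty l)) e e t) := fun s t => by
    rw [← loc_lin, ← loc_lin]
    refine loc_congr _ _ _ (fun l _ => ?_)
    generalize ty l = i
    fin_cases i <;> simp [f1, f2, f3, w0] <;> ring
  have hh' := hQ.sup h hh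
  have h1' : τ h ≠ 1 := fun h0 => h1 (hQ.inj (h0.trans (map_one τ).symm))
  have bl : ∀ g : W L C2, Sup {o, a, c, b} g → ∀ x ∈ lab g, x ∈ bk ⁻¹' {bk o} :=
    fun g hg x hx => by
      rcases hg x hx with rfl | rfl | rfl | rfl
      · rfl
      · exact qa
      · exact qc
      · exact qb
  have n1 : lab h ≠ [] := fun h0 => h1 (lab_eq_nil.1 h0)
  have n2 : lab (τ h) ≠ [] := fun h0 => h1' (lab_eq_nil.1 h0)
  have g1 : δ ≤ w 1 := by linarith [hd 0 1 (by decide)]
  have g2 : δ ≤ w 2 - w 1 := hd 1 2 (by decide)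
  have g3 : δ ≤ w 3 - w 2 := hd 2 3 (by decide)
  have p1 : 0 ≤ w 1 := by linarith
  have p2 : 0 ≤ w 2 - w 1 := by linarith
  have p3 : 0 ≤ w 3 - w 2 := by linarith
  have o1 : f1 (ty o) = 0 := by rw [t0]; rfl
  have o2 : f2 (ty o) = 0 := by rw [t0]; rfl
  have o3 : f3 (ty o) = 0 := by rw [t0]; rfl
  have a1 : f1 (ty a) = 1 := by rw [t1]; rfl
  have a2 : f2 (ty a) = 0 := by rw [t1]; rfl
  have a3 : f3 (ty a) = 0 := by rw [t1]; rfl
  have c1 : f1 (ty c) = 1 := by rw [t2]; rfl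
  have c2' : f2 (ty c) = 1 := by rw [t2]; rfl
  have c3 : f3 (ty c) = 0 := by rw [t2]; rfl
  have b1 : f1 (ty b) = 1 := by rw [t3]; rfl
  have b2 : f2 (ty b) = 1 := by rw [t3]; rfl
  have b3 : f3 (ty b) = 1 := by rw [t3]; rfl
  have s1 := sign_T3 hB m1 sd (bl _ hh) e
  have s2 := sign_T3 hB m2 sd (bl _ hh) e
  have s3 := sign_T3 hB m3 sd (bl _ hh) e
  have r1 := sign_T3 hB m1 sd' (bl _ hh') e
  have r2 := sign_T3 hB m2 sd' (bl _ hh') e
  have r3 := sign_T3 hB m3 sd' (bl _ hh') e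
  rw [dc, dc, off_T3]
  by_cases hev : Even n
  · rw [if_pos hev] at hsd ⊢
    have E := hE L o a c b n τ hQ hn hev h hh h1
    have E1 := E (fun l => f1 (ty l)) z1 o1 b1
    have E2 := E (fun l => f2 (ty l)) z2 o2 b2
    have E3 := E (fun l => f3 (ty l)) z3 o3 b3
    refine ⟨fun hg => ?_, fun hg => ?_⟩
    · have hg' : sgb sd' * e = -1 := by rw [hsd, hg]
      rw [s1.2 hg, s2.2 hg, s3.2 hg, r1.2 hg', r2.2 hg', r3.2 hg']
      linarith [mul_le_mul_of_nonneg_left (cL_T3 z1 n1).2 p1,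
        mul_le_mul_of_nonneg_left (cL_T3 z1 n2).2 p1, mul_nonneg p2 (E2.2.2 a2),
        mul_nonneg p3 (E3.2.2 a3)]
    · have hg' : sgb sd' * e = 1 := by rw [hsd, hg]
      rw [s1.1 hg, s2.1 hg, s3.1 hg, r1.1 hg', r2.1 hg', r3.1 hg']
      linarith [mul_le_mul_of_nonneg_left (E1.1 a1 c1) p1,
        mul_le_mul_of_nonneg_left (E2.2.1 a2 c2') p2, mul_nonneg p3 (cL_T3 z3 n1).1,
        mul_nonneg p3 (cL_T3 z3 n2).1]
  · rw [if_neg hev] at hsd ⊢
    obtain ⟨E, E'⟩ := hO L o a c b n τ hQ hn hev h hh h1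
    have E1 := E (fun l => f1 (ty l)) z1 o1 b1 (a1.trans c1.symm).le
    have E2 := E (fun l => f2 (ty l)) z2 o2 b2 (by linarith)
    have E3 := E (fun l => f3 (ty l)) z3 o3 b3 (a3.trans c3.symm).le
    refine ⟨fun hg => ?_, fun hg => ?_⟩
    · have hg' : sgb sd' * e = 1 := by rw [hsd, sgb_not, neg_mul, hg, neg_neg]
      rw [s1.2 hg, s2.2 hg, s3.2 hg, r1.1 hg', r2.1 hg', r3.1 hg']
      linarith [mul_nonneg p1 E1.2, mul_nonneg p2 E2.2, mul_nonneg p3 E3.2]
    · have hg' : sgb sd' * e = -1 := by rw [hsd, sgb_not, neg_mul, hg]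
      rw [s1.1 hg, s2.1 hg, s3.1 hg, r1.2 hg', r2.2 hg', r3.2 hg']
      rcases E' (fun l => f1 (ty l)) (fun l => f2 (ty l)) z1 z2 o1 a1 c1 b1 o2 a2 c2' b2 with
        G | G
      · linarith [mul_le_mul_of_nonneg_left G p1, mul_nonneg p2 E2.1, mul_nonneg p3 E3.1]
      · linarith [mul_le_mul_of_nonneg_left G p2, mul_nonneg p1 E1.1, mul_nonneg p3 E3.1]

theorem crude_T3 (sd sd' : Bool) {x : B × List L × List L} (hx : Syl S bk x) (hr : Rd x.2.1)
    {e1 e2 : ℝ} (h1 : |e1| ≤ 1) (h2 : |e2| ≤ 1) :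
    δ * (x.2.1.length - 1) - 4 * w 3 ≤
      loc (kk sd) (fun l => sgb sd * w (ty l)) e1 e2 x.2.1 +
        loc (kk sd') (fun l => sgb sd' * w (ty l)) e1 e2 x.2.2 := by
  linarith [loc_crude_T3 hB w0 d0 hd sd hx.1.1 (fun a ha => (hx.1.2 a ha).1) h1 h2,
    loc_crude_T3 hB w0 d0 hd sd' hx.2.1 (fun a ha => (hx.2.2 a ha).1) h1 h2,
    var_len_T3 hB w0 d0 hd hr (fun a ha => (hx.1.2 a ha).1),
    var_nonneg_W (x.2.2.map (fun l => w (ty l)))]

theorem loc_main_T3 (hE : S_TE) (hO : S_TO) (hM : S_TM) {θ : ℝ} (hθ : θ * (6 * (2 * w 3)) = δ)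
    {n : ℕ} (hn : 2 ≤ n) (sd : Bool) {sd' : Bool} (hsd : sd' = if Even n then sd else !sd)
    {τ : W L C2 →* W L C2} (hf : ∀ o ∈ S, ∀ a ∈ S, ∀ d ∈ S, ∀ b ∈ S, bk a = bk o →
      bk d = bk o → bk b = bk o → ty o = 0 → ty a = 1 → ty d = 2 → ty b = 3 → Q4 o a d b n τ)
    {x : B × List L × List L} (hx : Syl S bk x) {h : W L C2} (h1 : h ≠ 1) (q1 : x.2.1 = lab h)
    (q2 : x.2.2 = lab (τ h)) {e1 e2 : ℝ} (he1 : e1 = 1 ∨ e1 = -1) (he2 : e2 = 1 ∨ e2 = -1)
    (hF : e1 = e2 → ∃ y ∈ x.2.1, Full S ty bk y) :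
    0 ≤ loc (kk sd) (fun l => sgb sd * w (ty l)) e1 e2 x.2.1 +
        loc (kk sd') (fun l => sgb sd' * w (ty l)) e1 e2 x.2.2 -
      (θ * (δ + 8 * w 3) + off_T3 w n) / 2 * sgb sd * (e1 + e2) -
      θ * δ * (if Cln_T3 S (kk sd) ty bk e1 e2 x then 0 else (x.2.1.length : ℝ)) := by
  have r1 : Rd x.2.1 := q1 ▸ lab_chain h
  have r2 : Rd x.2.2 := q2 ▸ lab_chain (τ h)
  have cr := crude_T3 hB w0 d0 hd sd sd' hx r1 (e1 := e1) (e2 := e2)
    (by rcases he1 with rfl | rfl <;> simp) (by rcases he2 with rfl | rfl <;> simp)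
  have d1 : δ ≤ w 3 := by linarith [hd 0 3 (by decide)]
  obtain ⟨f0, f1⟩ := off_bd_T3 w0 d0 hd n
  have ar := fun (G : ℝ) (hG : δ * ((x.2.1.length : ℝ) - 1) - 4 * (2 * w 3) ≤ G) =>
    arith hθ d0 le_rfl (by linarith) hG
  have full : ∀ y ∈ x.2.1, Full S ty bk y → ∃ o a c b, bk a = bk o ∧ bk c = bk o ∧ bk b = bk o ∧
      ty o = 0 ∧ ty a = 1 ∧ ty c = 2 ∧ ty b = 3 ∧ bk o = x.1 ∧ Sup {o, a, c, b} h ∧
      Q4 o a c b n τ := by
    intro y hy hY
    obtain ⟨o, ho, bo, t0⟩ := hY 0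
    obtain ⟨a, ha, ba, t1⟩ := hY 1
    obtain ⟨c, hc, bc, t2⟩ := hY 2
    obtain ⟨b, hb, bb, t3⟩ := hY 3
    have qa := ba.trans bo.symm
    have qc := bc.trans bo.symm
    have qb := bb.trans bo.symm
    have q0 := bo.trans (hx.1.2 y hy).1
    have hh : Sup {o, a, c, b} h := fun z hz =>
      blk_mem_T3 hB qa qc qb t0 t1 t2 t3 ((hx.1.2 z (q1 ▸ hz)).1.trans q0.symm)
    exact ⟨o, a, c, b, qa, qc, qb, t0, t1, t2, t3, q0, hh,
      hf o ho a ha c hc b hb qa qc qb t0 t1 t2 t3⟩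
  by_cases hee : e1 = e2
  · subst hee
    obtain ⟨y, hy, hY⟩ := hF rfl
    obtain ⟨o, a, c, b, qa, qc, qb, t0, t1, t2, t3, -, hh, hQ⟩ := full y hy hY
    have := loc_ll_T3 hB w0 d0 hd hE hO qa qc qb t0 t1 t2 t3 hn hQ sd hsd hh h1 e1
    rw [← q1, ← q2] at this
    rw [if_neg (by
      rintro ⟨d, d1, d2, -⟩
      rcases sgb_cases d with h | h <;> rw [h] at d1 d2 <;> linarith)]
    have e : (θ * (δ + 8 * w 3) + off_T3 w n) / 2 * sgb sd * (e1 + e1) =
        (θ * (δ + 8 * w 3) + off_T3 w n) * (sgb sd * e1) := by ring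
    by_cases hg : sgb sd * e1 = 1
    · have b2 := (ar _ (by linarith)).2.1 (this.2 hg)
      rw [e, hg]
      linarith
    · have hg' : sgb sd * e1 = -1 := by
        rcases sgb_cases sd with h | h <;> rcases he1 with rfl | rfl <;> rw [h] at hg ⊢ <;>
          first | linarith | exact absurd (by norm_num) hg
      have b1 := (ar _ (by linarith)).1 (this.1 hg')
      rw [e, hg']
      linarith
  · obtain ⟨d, rfl, rfl⟩ : ∃ d, e1 = sgb d ∧ e2 = -sgb d := by
      rcases he1 with rfl | rfl <;> rcases he2 with rfl | rfl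
      · exact absurd rfl hee
      · exact ⟨true, by simp [sgb], by simp [sgb]⟩
      · exact ⟨false, by simp [sgb], by simp [sgb]⟩
      · exact absurd rfl hee
    have l1 := loc_lr_T3 hB w0 d0 hd sd d hx.1.1 (fun a ha => (hx.1.2 a ha).1)
    have l2 := loc_lr_T3 hB w0 d0 hd sd' d hx.2.1 (fun a ha => (hx.2.2 a ha).1)
    rw [add_neg_cancel, mul_zero, sub_zero]
    split_ifs with hc
    · linarith [l1.1, l2.1]
    · refine sub_nonneg.2 ((ar _ (by linarith)).2.2 ?_)
      by_cases hm : Mono (kk sd) d x.2.1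
      · obtain ⟨y, hy, hY, z, -, bz, hz⟩ : Pm_T3 S ty bk x.2.1 := by
          by_contra h3
          exact hc ⟨d, rfl, rfl, hm, h3⟩
        obtain ⟨o, a, c, b, qa, qc, qb, t0, t1, t2, t3, q0, hh, hQ⟩ := full y hy hY
        have := hM L o a c b n τ hQ hn h hh h1 (q1 ▸ mono_nodup hm) z
          (blk_mem_T3 hB qa qc qb t0 t1 t2 t3 (bz.trans ((hx.1.2 y hy).1.trans q0.symm)))
          (q1 ▸ hz)
        rw [← q2] at this
        linarith [l1.1, l2.2 r2 (fun h3 => this (mono_nodup h3))]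
      · linarith [l1.2 r1 hm, l2.1]

theorem core_T3 (h1 : S_T1) (hTE : S_TE) (hTO : S_TO) (hTM : S_TM) {θ : ℝ}
    (hθ : θ * (6 * (2 * w 3)) = δ) {n : ℕ} {fl sd σ sd' : Bool}
    {p p' : List L} (hn : 2 ≤ n) (hT : Tou fl S kk ty n sd σ p sd' p') (hp : Pth S p)
    (hF : ∀ x, TurnAt (kk sd) p x → Full S ty bk x) :
    θ * δ * turns (kk sd) p - 4 * (δ + 8 * w 3) ≤
      lin (kk sd) (fun l => sgb sd * w (ty l)) p + lin (kk sd') (fun l => sgb sd' * w (ty l)) p' ∧
    θ * δ * cntM bk (Pm_T3 S ty bk) p - 4 * (δ + 8 * w 3) ≤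
      lin (kk sd) (fun l => sgb sd * w (ty l)) p + lin (kk sd') (fun l => sgb sd' * w (ty l)) p' := by
  have d1 : δ ≤ w 3 := by linarith [hd 0 3 (by decide)]
  have p2 : 0 < w 3 := by linarith
  obtain ⟨f0, f0'⟩ := off_bd_T3 w0 d0 hd n
  have t0 : 0 < θ := by
    by_contra h
    nlinarith [mul_nonneg (neg_nonneg.2 (not_lt.1 h)) p2.le]
  have t1 : θ ≤ 1 := by
    by_contra h
    nlinarith [mul_pos (sub_pos.2 (not_le.1 h)) p2]
  obtain ⟨c, hc, rfl, hsd, hf⟩ := h1 L κ B fl S kk ty bk hB n sd σ sd' p p' hT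
  obtain ⟨l, t, rfl⟩ := List.exists_cons_of_ne_nil hp.ne
  rcases List.eq_nil_or_concat t with rfl | ⟨t, m, rfl⟩
  · rw [act_one, cntM_one]
    simp only [turns, lin, Nat.cast_zero]
    constructor <;> linarith
  rw [List.concat_eq_append] at *
  have hl : l ∈ S := hp.sub l (by simp)
  have hm : m ∈ S := hp.sub m (by simp)
  have hlab : lab (evlLink t) = t := lab_evl_link (rd_init_link (rd_tail_link hp.rd))
  have e1 : wsq l (evlLink t) m = l :: (t ++ [m]) := by rw [wsq, hlab]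
  have e2 : cpl (l, 1) (m, evlLink t) = l :: (t ++ [m]) := by
    rw [cpl, inv_one, one_mul, hlab, List.cons_append]
    exact List.destutter_of_isChain _ _ hp.rd
  have hb : ∀ β, ∀ e ∈ c, e.2 ∈ bk ⁻¹' {β} → e.1 ∈ bk ⁻¹' {β} :=
    fun β e he h => (hc e he).2.2.2.trans h
  have hbS : ∀ β, ∀ e ∈ c, e.2 ∈ bk ⁻¹' {β} ∩ S → e.1 ∈ bk ⁻¹' {β} ∩ S :=
    fun β e he h => ⟨hb β e he h.1, (hc e he).1⟩
  obtain ⟨a1, a2, s1, s2, e3⟩ := act_cpl (fun e he => (hc e he).2.2.1) (hbS (bk l)) (hbS (bk m))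
    ⟨rfl, hl⟩ ⟨rfl, hm⟩ 1 (evlLink t)
  rw [e2, map_one, one_mul] at e3
  obtain ⟨D, hD, f1, f2, hS, hch, hI⟩ := exists_syl S bk (actH c)
    (actH_inj (fun e he => (hc e he).2.2.1))
    (fun l x => actH_sup (hb _) (E5f.sup_lt (S := bk ⁻¹' {bk l}) (l := l) rfl x))
    (fun l hl x => actH_sup (fun e he _ => (hc e he).1) (E5f.sup_lt hl x)) hl hm
    (g := evlLink t) (a1 := a1⁻¹) (a2 := a2)
    (fun a ha => hp.sub a (by rw [hlab] at ha; simp [ha]))
    (sup_inv (fun a ha => (s1 a ha).1)) (sup_inv (fun a ha => (s1 a ha).2))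
    (fun a ha => (s2 a ha).1) (fun a ha => (s2 a ha).2)
  rw [e1] at f1
  have : Nonempty L := ⟨l⟩
  let κb : B × List L × List L → κ := fun x => kk true (Function.invFun bk x.1)
  have ord : ∀ (s : Bool) (x y : B × List L × List L) (a b : L), x.1 ≠ y.1 → bk a = x.1 →
      bk b = y.1 → (kk s a < kk s b ↔ κb x < κb y) := fun s x y a b h ha hb =>
    hB.out s true _ _ _ _ (ha.trans (Function.invFun_eq ⟨a, ha⟩).symm)
      (hb.trans (Function.invFun_eq ⟨b, hb⟩).symm) (by rw [ha, hb]; exact h)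
  have hE := wLin_flatten (kk sd) (fun l => sgb sd * w (ty l)) κb (fun x => x.2.1) D
    (fun x hx => (hS x hx).1.1) (List.IsChain.imp_of_mem_imp (fun x y hx hy hxy a ha b hb =>
      ord sd x y a b hxy ((hS x hx).1.2 a ha).1 ((hS y hy).1.2 b hb).1) hch) 0
  have hE' := wLin_flatten (kk sd') (fun l => sgb sd' * w (ty l)) κb (fun x => x.2.2) D
    (fun x hx => (hS x hx).2.1) (List.IsChain.imp_of_mem_imp (fun x y hx hy hxy a ha b hb =>
      ord sd' x y a b hxy ((hS x hx).2.2 a ha).1 ((hS y hy).2.2 b hb).1) hch) 0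
  rw [zero_mul, zero_add] at hE hE'
  rw [e3, lin_cpl, ← mul_assoc, f2, hE', ← wLin_eq, f1, hE, sumE_add]
  have rd : ∀ x ∈ D, Rd x.2.1 := fun x hx => (pth_inf hp
    (f1 ▸ List.infix_of_mem_flatten (List.mem_map.2 ⟨x, hx, rfl⟩)) (hS x hx).1.1).rd
  have mem : ∀ D1 x y z D2, D = D1 ++ x :: y :: z :: D2 → Syl S bk x ∧ Syl S bk y ∧ Syl S bk z :=
    fun D1 x y z D2 e => ⟨hS x (by simp [e]), hS y (by simp [e]), hS z (by simp [e])⟩
  have main := sumE_ctx κb (fun e1 e2 x => (loc (kk sd) (fun l => sgb sd * w (ty l)) e1 e2 x.2.1 +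
        loc (kk sd') (fun l => sgb sd' * w (ty l)) e1 e2 x.2.2) -
      (θ * (δ + 8 * w 3) + off_T3 w n) / 2 * sgb sd * (e1 + e2) -
      θ * δ *
        (if Cln_T3 S (kk sd) ty bk e1 e2 x then 0 else (x.2.1.length : ℝ)))
    (c := 2 * (δ + 8 * w 3)) (by positivity) D (by
      intro z hz e he
      have ae : |e| ≤ 1 := by rcases he with rfl | rfl | rfl <;> simp
      have c1 := crude_T3 hB w0 d0 hd sd sd' (hS z hz) (rd z hz) ae (e2 := 0) (by simp)
      have c2 := crude_T3 hB w0 d0 hd sd sd' (hS z hz) (rd z hz) (e1 := 0) (by simp) ae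
      have u : ∀ P : Prop, θ * δ * (if P then 0 else (z.2.1.length : ℝ)) ≤
          δ * z.2.1.length := fun P => by
        have : 0 ≤ δ * z.2.1.length := by positivity
        split_ifs <;> nlinarith
      have v : (θ * (δ + 8 * w 3) + off_T3 w n) / 2 * sgb sd * e ≤
          δ + 6 * w 3 := by
        have h1 : sgb sd * e ≤ 1 := by
          have := abs_le.1 ae
          rcases sgb_cases sd with h | h <;> rw [h] <;> linarith [this.1, this.2]
        have h2 : 0 ≤ (θ * (δ + 8 * w 3) + off_T3 w n) / 2 := by positivity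
        have h3 := mul_le_mul_of_nonneg_left h1 h2
        have h4 := mul_le_mul_of_nonneg_right t1
          (show 0 ≤ δ + 8 * w 3 by positivity)
        linarith
      simp only [add_zero, zero_add]
      constructor <;> linarith [u (Cln_T3 S (kk sd) ty bk e 0 z), u (Cln_T3 S (kk sd) ty bk 0 e z)])
    (by
      intro D1 x y z D2 e
      obtain ⟨h, h1, q1, q2⟩ := hI D1 x y z D2 e
      obtain ⟨sx, sy, sz⟩ := mem D1 x y z D2 e
      obtain ⟨n1, n2⟩ := chain3 hch e
      refine loc_main_T3 hB w0 d0 hd hTE hTO hTM hθ hn sd hsd hf sy h1 q1 q2 (sgx_cases _ _ _)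
        (by rcases sgx_cases κb y z with h | h <;> simp [h]) (fun hee => ?_)
      obtain ⟨s, l', hs⟩ : ∃ s l, y.2.1 = s ++ [l] :=
        ⟨_, _, (List.dropLast_append_getLast sy.1.1).symm⟩
      obtain ⟨A, a, ha⟩ : ∃ s l, x.2.1 = s ++ [l] :=
        ⟨_, _, (List.dropLast_append_getLast sx.1.1).symm⟩
      obtain ⟨b, t', hb⟩ := List.exists_cons_of_ne_nil sz.1.1
      obtain ⟨v, hv, A', B', a', c', e', h'⟩ := ex_turn (k := kk sd) s a l' b
        (t' ++ (D2.map (fun x => x.2.1)).flatten) (by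
          rw [ord sd x y a _ n1 (sx.1.2 a (by simp [ha])).1
            (sy.1.2 _ (by rw [hs]; exact List.head_mem _)).1,
            ord sd y z l' b n2 (sy.1.2 l' (by simp [hs])).1 (sz.1.2 b (by simp [hb])).1]
          exact ite_ne hee)
      refine ⟨v, hs ▸ hv, hF v ⟨(D1.map (fun x => x.2.1)).flatten ++ A ++ A', B', a', c', ?_, h'⟩⟩
      rw [f1, e, List.append_assoc _ A', ← e']
      simp [ha, hs, hb])
  obtain ⟨x0, D0, hx0⟩ := List.exists_cons_of_ne_nil hD
  rw [sumE_lin κb _ (fun e1 e2 _ => e1 + e2), hx0, sumE_tel, ← hx0] at main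
  have hC : ∀ e x, ¬ Cln_T3 S (kk sd) ty bk e 0 x := by
    rintro e x ⟨d, -, h, -⟩
    rcases sgb_cases d with h1 | h1 <;> rw [h1] at h <;> linarith
  have hC' : ∀ e x, ¬ Cln_T3 S (kk sd) ty bk 0 e x := by
    rintro e x ⟨d, h, -⟩
    rcases sgb_cases d with h1 | h1 <;> rw [h1] at h <;> linarith
  have k1 := cnt_le κb (N := turns (kk sd)) turns_cons (fun _ => rfl) (fun x => x.2.1)
    (Cln_T3 S (kk sd) ty bk) hC hC' D hD (fun x hx => (hS x hx).1.1) (by
      rintro D1 x y z D2 e ⟨d, g1, g2, hm, -⟩ a ha b hb s l' t' hs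
      obtain ⟨sx, sy, sz⟩ := mem D1 x y z D2 e
      obtain ⟨n1, n2⟩ := chain3 hch e
      have sg : ∀ x y, sgx κb x y = sgb d → (κb x < κb y ↔ d = true) := fun x y h => ite_eq h
      refine (turns_mn (d := d = true) (a :: s) l' b t' ?_).le
      have : a :: s ++ [l', b] = [a] ++ (y.2.1 ++ [b]) := by simp [hs]
      rw [this, List.isChain_append, List.isChain_append]
      refine ⟨by simp, ⟨mono_mn hm, by simp, fun u hu v hv => ?_⟩, fun u hu v hv => ?_⟩
      · obtain rfl : b = v := by simpa using hv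
        rw [ord sd y z u b n2 (sy.1.2 u (List.mem_of_mem_getLast? hu)).1 (sz.1.2 b hb).1]
        exact sg y z (neg_injective g2)
      · obtain rfl : a = u := by simpa using hu
        rw [List.head?_append_of_ne_nil _ sy.1.1] at hv
        rw [ord sd x y a v n1 (sx.1.2 a ha).1 (sy.1.2 v (List.mem_of_mem_head? hv)).1]
        exact sg x y g1)
  have k2 := cnt_le κb (N := cntM bk (Pm_T3 S ty bk)) cntM_cons cntM_one (fun x => x.2.1)
    (Cln_T3 S (kk sd) ty bk) hC hC' D hD (fun x hx => (hS x hx).1.1) (by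
      rintro D1 x y z D2 e ⟨d, -, -, -, hm⟩ a - b hb s l' t' hs
      obtain ⟨-, sy, sz⟩ := mem D1 x y z D2 e
      refine cntM_clean (β := y.1) a s l' b t' (fun v hv => (sy.1.2 v (hs ▸ hv)).1) ?_ (hs ▸ hm)
      rw [(sz.1.2 b hb).1]
      exact (chain3 hch e).2.symm)
  have cp : 0 ≤ θ * δ := by positivity
  constructor
  · linarith [mul_le_mul_of_nonneg_left k1 cp]
  · linarith [mul_le_mul_of_nonneg_left k2 cp]

end

theorem s_t3 (h1 : S_T1) (he : S_TE) (ho : S_TO) (hm : S_TM) : S_T3 := by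
  intro fl w hw
  obtain ⟨δ, d0, hd⟩ : ∃ δ : ℝ, 0 < δ ∧ ∀ i j, i < j → δ ≤ (w j - w 0) - (w i - w 0) := by
    have a1 := hw (show (0 : Fin 4) < 1 by decide)
    have a2 := hw (show (1 : Fin 4) < 2 by decide)
    have a3 := hw (show (2 : Fin 4) < 3 by decide)
    refine ⟨min (w 1 - w 0) (min (w 2 - w 1) (w 3 - w 2)),
      lt_min (sub_pos.2 a1) (lt_min (sub_pos.2 a2) (sub_pos.2 a3)), fun i j h => ?_⟩
    have b1 := min_le_left (w 1 - w 0) (min (w 2 - w 1) (w 3 - w 2))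
    have b2 := (min_le_right (w 1 - w 0) _).trans (min_le_left (w 2 - w 1) (w 3 - w 2))
    have b3 := (min_le_right (w 1 - w 0) _).trans (min_le_right (w 2 - w 1) (w 3 - w 2))
    generalize min (w 1 - w 0) (min (w 2 - w 1) (w 3 - w 2)) = δ at b1 b2 b3
    fin_cases i <;> fin_cases j <;>
      simp only [Fin.zero_eta, Fin.mk_one, Fin.reduceFinMk] at h ⊢ <;>
      first | exact absurd h (by decide) | linarith
  obtain ⟨v, hv⟩ : ∃ v : Fin 4 → ℝ, v = fun i => w i - w 0 := ⟨_, rfl⟩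
  have v0 : v 0 = 0 := by rw [hv]; exact sub_self _
  have hd' : ∀ i j, i < j → δ ≤ v j - v i := by rw [hv]; exact hd
  have p2 : 0 < v 3 := by linarith [hd' 0 3 (by decide)]
  refine ⟨δ / (6 * (2 * v 3)) * δ, 4 * (δ + 8 * v 3), by positivity, by positivity, ?_⟩
  intro L κ B _ S kk ty bk hB n sd σ sd' p p' hn hT hp hF
  obtain ⟨k1, k2⟩ := core_T3 hB v0 d0 hd' h1 he ho hm (θ := δ / (6 * (2 * v 3)))
    (by field_simp) hn hT hp hF
  have e : ∀ (s : Bool) (q : List L), asl kk (fun x => w (ty x)) s q =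
      lin (kk s) (fun l => sgb s * v (ty l)) q := fun s q => by
    have := wLin_lin (kk s) (fun x => v (ty x)) (fun x => v (ty x)) (sgb s) 0 q
    simp only [zero_mul, add_zero, wLin_eq] at this
    rw [this, hv, lin_sub_T3]
    rfl
  rw [e, e]
  refine ⟨k1, fun D hD => le_trans ?_ k2⟩
  have := count_le_cntM (bk := bk) (P := Pm_T3 S ty bk) (M := Mixed S (kk sd) ty bk) (by
    rintro q ⟨-, x, y, hx, hy, bxy, xq, yq, g1, g2⟩
    obtain ⟨A, a, r, b, t, rfl, xr, g3, g4, g5⟩ := ex_run xq g1 g2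
    exact ⟨A, a, r, b, t, bk x, rfl, List.ne_nil_of_mem xr, g3, g4, g5, x, xr, hx, y, hy, bxy,
      fun h => yq (by simp [h])⟩) hD
  have h3 : (D.countP (fun q => decide (Mixed S (kk sd) ty bk q)) : ℝ) ≤
      cntM bk (Pm_T3 S ty bk) p := by exact_mod_cast this
  have h4 : 0 ≤ δ / (6 * (2 * v 3)) * δ := by positivity
  linarith [mul_le_mul_of_nonneg_left h3 h4]

end Pool.Agent.E5f.G2

end
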